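import Pool.Agent.Work.MP_66343f_al.Defs

/-!
# MP_66343f_al: approximation of marked groups
-/

set_option autoImplicit false

namespace Pool.Agent.Work.MP_66343f_al

open Function

section ev
variable {ι κ G H : Type} [Group G] [Group H]

theorem ev_eq_lift (s : ι → G) (w : List (ι × Bool)) :
    ev s w = FreeGroup.lift s (FreeGroup.mk w) := by
  rw [FreeGroup.lift_mk]
  rfl

theorem ev_append (s : ι → G) (v w : List (ι × Bool)) : ev s (v ++ w) = ev s v * ev s w := by
  unfold ev
  rw [List.map_append, List.prod_append]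

theorem ev_inv (s : ι → G) (w : List (ι × Bool)) :
    ev s (FreeGroup.invRev w) = (ev s w)⁻¹ := by
  rw [ev_eq_lift, ev_eq_lift, ← FreeGroup.inv_mk, map_inv]

theorem ev_single (s : ι → G) (i : ι) : ev s [(i, true)] = s i := by
  simp [ev]

/-- agreement on short words gives isomorphic balls -/
theorem ballIso_of {s : ι → G} {t : ι → H} {R : ℕ}
    (h : ∀ w : List (ι × Bool), w.length ≤ 2 * R + 1 → (ev s w = 1 ↔ ev t w = 1)) :
    BallIso s t R := by
  classical
  have key : ∀ v w : List (ι × Bool), v.length ≤ R → w.length ≤ R + 1 →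
      (ev s v = ev s w ↔ ev t v = ev t w) := by
    intro v w hv hw
    have h1 := h (v ++ FreeGroup.invRev w) (by
      rw [List.length_append, FreeGroup.invRev_length]; omega)
    rw [ev_append, ev_append, ev_inv, ev_inv, mul_inv_eq_one, mul_inv_eq_one] at h1
    exact h1
  choose W hW using fun a : Ball s R => a.2
  refine ⟨Equiv.ofBijective (fun a => ⟨ev t (W a), W a, (hW a).1, rfl⟩) ⟨?_, ?_⟩, ?_, ?_⟩
  · intro a b hab
    have h1 : ev t (W a) = ev t (W b) := congrArg Subtype.val hab
    have h2 := (key (W a) (W b) (hW a).1 ((hW b).1.trans (Nat.le_succ R))).2 h1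
    rw [(hW a).2, (hW b).2] at h2
    exact Subtype.ext h2
  · rintro ⟨b, w, hw, rfl⟩
    refine ⟨⟨ev s w, w, hw, rfl⟩, Subtype.ext ?_⟩
    have h1 := (hW ⟨ev s w, w, hw, rfl⟩)
    exact (key _ w h1.1 (hw.trans (Nat.le_succ R))).1 h1.2
  · have h1 := hW ⟨1, one_mem_ball s R⟩
    have h2 := (key _ [] h1.1 (Nat.zero_le _)).1 h1.2
    exact h2
  · intro a b i
    have h1 := key (W b) (W a ++ [(i, true)]) (hW b).1 (by
      rw [List.length_append, List.length_singleton]
      have := (hW a).1
      omega)
    rw [ev_append, ev_append, ev_single, ev_single, (hW a).2, (hW b).2] at h1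
    exact h1

end ev

/-- the generating tuple `t` of `H` can be approximated by generating tuples of `G` -/
def Apx (G : Type) [Group G] {ι H : Type} [Group H] (t : ι → H) : Prop :=
  ∀ W : Finset (FreeGroup ι), ∃ s : ι → G, Subgroup.closure (Set.range s) = ⊤ ∧
    ∀ w ∈ W, (FreeGroup.lift s w = 1 ↔ FreeGroup.lift t w = 1)

section apx
variable {ι κ G H K : Type} [Group G] [Group H] [Group K]

theorem finite_words [Finite ι] (n : ℕ) :
    {w : List (ι × Bool) | w.length ≤ n}.Finite := List.finite_length_le _ n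

theorem surj_of_gen {t : ι → H} (ht : Subgroup.closure (Set.range t) = ⊤) (h : H) :
    ∃ w, FreeGroup.lift t w = h := by
  have h1 : (FreeGroup.lift t).range = ⊤ := by
    rw [FreeGroup.range_lift_eq_closure, ht]
  exact (MonoidHom.range_eq_top.mp h1) h

theorem ev_map (s : κ → G) (c : ι → κ) (w : List (ι × Bool)) :
    ev s (w.map fun p => (c p.1, p.2)) = ev (fun i => s (c i)) w := by
  unfold ev
  rw [List.map_map]
  rfl

/-- the finite set of group elements of the free group given by words of length at most `n` -/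
noncomputable def shortW (ι : Type) [Finite ι] (n : ℕ) : Finset (FreeGroup ι) :=
  ((finite_words (ι := ι) n).image FreeGroup.mk).toFinset

theorem mk_mem_shortW [Finite ι] {n : ℕ} {w : List (ι × Bool)} (hw : w.length ≤ n) :
    FreeGroup.mk w ∈ shortW ι n := by
  unfold shortW
  rw [Set.Finite.mem_toFinset]
  exact ⟨w, hw, rfl⟩

theorem Apx.preforms [Finite ι] {t : ι → H} (ht : Subgroup.closure (Set.range t) = ⊤)
    (h : Apx G t) : Preforms G H := by
  classical
  have : Fintype ι := Fintype.ofFinite ι
  have hT : ∀ x : ↥(Finset.univ.image t), ∃ i, t i = x := by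
    rintro ⟨x, hx⟩
    obtain ⟨i, _, hi⟩ := Finset.mem_image.mp hx
    exact ⟨i, hi⟩
  choose c hc using hT
  choose s hs hsW using fun n => h (shortW ι (2 * n + 3))
  have hag : ∀ n (w : List (ι × Bool)), w.length ≤ 2 * n + 3 → (ev (s n) w = 1 ↔ ev t w = 1) := by
    intro n w hw
    rw [ev_eq_lift, ev_eq_lift]
    exact hsW n _ (mk_mem_shortW hw)
  have hag2 : ∀ n (w : List (↥(Finset.univ.image t) × Bool)), w.length ≤ 2 * n + 3 →
      (ev (fun x => s n (c x)) w = 1 ↔
        ev (fun x : ↥(Finset.univ.image t) => (x : H)) w = 1) := by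
    intro n w hw
    rw [← ev_map (s n) c, show (fun x : ↥(Finset.univ.image t) => (x : H)) =
      fun x => t (c x) from funext fun x => (hc x).symm, ← ev_map t c]
    exact hag n _ (by rw [List.length_map]; exact hw)
  refine ⟨Finset.univ.image t, fun n x => s n (c x), ?_, ?_, ?_, ?_⟩
  · rw [Finset.coe_image, Finset.coe_univ, Set.image_univ]
    exact ht
  · intro n x y hxy
    have h1 := (hag2 n [(x, true), (y, false)] (by simp)).1 (by
      simp only [ev, List.map_cons, List.map_nil, List.prod_cons, List.prod_nil, cond_true,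
        cond_false, mul_one]
      rw [mul_inv_eq_one]
      exact hxy)
    simp only [ev, List.map_cons, List.map_nil, List.prod_cons, List.prod_nil, cond_true,
      cond_false, mul_one] at h1
    exact Subtype.ext (mul_inv_eq_one.mp h1)
  · intro n
    rw [eq_top_iff, ← hs n, Subgroup.closure_le]
    rintro _ ⟨i, rfl⟩
    apply Subgroup.subset_closure
    refine ⟨⟨t i, Finset.mem_image_of_mem t (Finset.mem_univ i)⟩, ?_⟩
    have h1 := hc ⟨t i, Finset.mem_image_of_mem t (Finset.mem_univ i)⟩
    have h2 := (hag n [(c ⟨t i, Finset.mem_image_of_mem t (Finset.mem_univ i)⟩, true), (i, false)]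
      (by simp)).2 (by
      simp only [ev, List.map_cons, List.map_nil, List.prod_cons, List.prod_nil, cond_true,
        cond_false, mul_one]
      rw [mul_inv_eq_one]
      exact h1)
    simp only [ev, List.map_cons, List.map_nil, List.prod_cons, List.prod_nil, cond_true,
      cond_false, mul_one] at h2
    exact mul_inv_eq_one.mp h2
  · intro R
    refine ⟨R, fun n hn => ballIso_of fun w hw => hag2 n w (by omega)⟩

theorem lift_subst (s : ι → G) (v : κ → FreeGroup ι) (w : FreeGroup κ) :
    FreeGroup.lift s (FreeGroup.lift v w) = FreeGroup.lift (fun j => FreeGroup.lift s (v j)) w := by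
  have : (FreeGroup.lift s).comp (FreeGroup.lift v) =
      FreeGroup.lift (fun j => FreeGroup.lift s (v j)) := by
    ext j
    simp
  exact DFunLike.congr_fun this w

/-- transitivity -/
theorem Apx.trans [Finite ι] {t : ι → H} {k : κ → K}
    (ht : Subgroup.closure (Set.range t) = ⊤) (h1 : Apx G t) (h2 : Apx H k) : Apx G k := by
  classical
  have : Fintype ι := Fintype.ofFinite ι
  intro W
  obtain ⟨s', hs', hW'⟩ := h2 W
  choose v hv using fun j => surj_of_gen ht (s' j)
  choose ω hω using fun i => surj_of_gen hs' (t i)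
  obtain ⟨s, hs, hsW⟩ := h1 (W.image (FreeGroup.lift v) ∪
    Finset.univ.image (fun i => (FreeGroup.of i)⁻¹ * FreeGroup.lift v (ω i)))
  refine ⟨fun j => FreeGroup.lift s (v j), ?_, ?_⟩
  · rw [eq_top_iff, ← hs, Subgroup.closure_le]
    rintro _ ⟨i, rfl⟩
    have h3 := (hsW ((FreeGroup.of i)⁻¹ * FreeGroup.lift v (ω i)) (by
      rw [Finset.mem_union]
      exact Or.inr (Finset.mem_image_of_mem _ (Finset.mem_univ i)))).2 (by
      rw [map_mul, map_inv, FreeGroup.lift_apply_of, lift_subst, inv_mul_eq_one]
      simp only [hv]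
      exact (hω i).symm)
    rw [map_mul, map_inv, FreeGroup.lift_apply_of, lift_subst, inv_mul_eq_one] at h3
    rw [h3, ← FreeGroup.range_lift_eq_closure]
    exact ⟨_, rfl⟩
  · intro w hw
    have h3 := hsW (FreeGroup.lift v w) (by
      rw [Finset.mem_union]
      exact Or.inl (Finset.mem_image_of_mem _ hw))
    rw [lift_subst, lift_subst] at h3
    simp only [hv] at h3
    exact h3.trans (hW' w hw)

end apx

/-! ## Limits of marked groups along an ultrafilter -/

section limit
variable {ι G Λ : Type} [Group G]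

open Filter

/-- the relations of the limit of the tuples `s l` -/
def Rel (U : Ultrafilter Λ) (s : Λ → ι → G) : Subgroup (FreeGroup ι) where
  carrier := {w | ∀ᶠ l in (U : Filter Λ), FreeGroup.lift (s l) w = 1}
  mul_mem' := by
    intro a b ha hb
    filter_upwards [ha, hb] with l h1 h2
    rw [map_mul, h1, h2, one_mul]
  one_mem' := by
    refine Eventually.of_forall fun l => map_one _
  inv_mem' := by
    intro a ha
    filter_upwards [ha] with l h1
    rw [map_inv, h1, inv_one]

theorem mem_rel {U : Ultrafilter Λ} {s : Λ → ι → G} {w : FreeGroup ι} :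
    w ∈ Rel U s ↔ ∀ᶠ l in (U : Filter Λ), FreeGroup.lift (s l) w = 1 := Iff.rfl

instance (U : Ultrafilter Λ) (s : Λ → ι → G) : (Rel U s).Normal where
  conj_mem := by
    intro n hn g
    rw [mem_rel] at hn ⊢
    filter_upwards [hn] with l h1
    rw [map_mul, map_mul, h1, map_inv, mul_one, mul_inv_cancel]

/-- the limit group -/
abbrev Lim (U : Ultrafilter Λ) (s : Λ → ι → G) : Type := FreeGroup ι ⧸ Rel U s

/-- its generators -/
def lg (U : Ultrafilter Λ) (s : Λ → ι → G) (i : ι) : Lim U s :=
  QuotientGroup.mk' (Rel U s) (FreeGroup.of i)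

theorem lift_lg (U : Ultrafilter Λ) (s : Λ → ι → G) (w : FreeGroup ι) :
    FreeGroup.lift (lg U s) w = QuotientGroup.mk' (Rel U s) w := by
  have : FreeGroup.lift (lg U s) = QuotientGroup.mk' (Rel U s) := by
    ext i
    simp [lg]
  rw [this]

theorem lift_lg_eq_one {U : Ultrafilter Λ} {s : Λ → ι → G} {w : FreeGroup ι} :
    FreeGroup.lift (lg U s) w = 1 ↔ w ∈ Rel U s := by
  rw [lift_lg, ← MonoidHom.mem_ker, QuotientGroup.ker_mk']

theorem closure_lg (U : Ultrafilter Λ) (s : Λ → ι → G) :
    Subgroup.closure (Set.range (lg U s)) = ⊤ := by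
  rw [← FreeGroup.lift_surjective_iff_closure_range_eq_top]
  intro x
  obtain ⟨w, rfl⟩ := QuotientGroup.mk'_surjective _ x
  exact ⟨w, lift_lg U s w⟩

/-- the limit group is approximated along the ultrafilter -/
theorem eventually_agree (U : Ultrafilter Λ) (s : Λ → ι → G) (W : Finset (FreeGroup ι)) :
    ∀ᶠ l in (U : Filter Λ), ∀ w ∈ W, (FreeGroup.lift (s l) w = 1 ↔
      FreeGroup.lift (lg U s) w = 1) := by
  rw [Filter.eventually_all_finset]
  intro w _
  by_cases h : w ∈ Rel U s
  · filter_upwards [mem_rel.mp h] with l h1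
    rw [lift_lg_eq_one]
    exact ⟨fun _ => h, fun _ => h1⟩
  · have h2 : ∀ᶠ l in (U : Filter Λ), ¬ FreeGroup.lift (s l) w = 1 :=
      Ultrafilter.eventually_not.mpr h
    filter_upwards [h2] with l h1
    rw [lift_lg_eq_one]
    exact ⟨fun h3 => absurd h3 h1, fun h3 => absurd h3 h⟩

theorem apx_lim (U : Ultrafilter Λ) (s : Λ → ι → G)
    (hs : ∀ l, Subgroup.closure (Set.range (s l)) = ⊤) : Apx G (lg U s) := by
  intro W
  obtain ⟨l, hl⟩ := (eventually_agree U s W).exists
  exact ⟨s l, hs l, hl⟩

end limit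

end Pool.Agent.Work.MP_66343f_al
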