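import Pool.Agent.Work.MP_66343f_al.Comb

/-!
# MP_66343f_al: the group `B` approximates the same limit as `H`
-/

set_option autoImplicit false

namespace Pool.Agent.Work.MP_66343f_al

open SemidirectProduct Filter Function

open Classical in
/-- a group with generators `g i` (automorphisms), `t j` (translations), `x s` (supported at one
position) -/
structure Cfg (H Γ D I J S : Type) [Group H] [Group Γ] [Group D] where
  Φ : H →* WW Γ D
  g : I → H
  t : J → H
  x : S → H
  α : I → MulAut D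
  γ : J → Γ
  x0 : S → D
  s0 : S
  hg : ∀ i, Φ (g i) = inr (α i, 1)
  ht : ∀ j, Φ (t j) = inr (1, γ j)
  hx : ∀ s, Φ (x s) = inl (Pi.mulSingle 1 (x0 s))
  hgen : Subgroup.closure (Set.range (Sum.elim g (Sum.elim t x))) = ⊤
  hγ : Subgroup.closure (Set.range γ) = ⊤
  hs0 : x0 s0 ≠ 1

namespace Cfg

variable {H Γ D I J S : Type} [Group H] [Group Γ] [Group D] (C : Cfg H Γ D I J S)

/-- the ambient group of `B` -/
abbrev Am (H Γ D : Type) [Group H] [Group Γ] [Group D] : Type := H × WW Γ (FP D)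

open Classical in
/-- the generators of `B` -/
noncomputable def gB : Kx I J S → Am H Γ D
  | .inl i => (C.g i, inr (autL (C.α i), 1))
  | .inr (.inl j) => (C.t j, inr (1, C.γ j))
  | .inr (.inr (s, b)) => (C.x s, inl (Pi.mulSingle 1 (yy (C.x0 s) b)))

/-- the group `B` -/
noncomputable def Bs : Subgroup (Am H Γ D) := Subgroup.closure (Set.range C.gB)

/-- the translations of `H` -/
def tw (v : FreeGroup J) : H := FreeGroup.lift C.t v

/-- the translations of `B` -/
noncomputable def twB (v : FreeGroup J) : Am H Γ D :=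
  FreeGroup.lift (fun j => C.gB (.inr (.inl j))) v

/-- the generating tuples of `H`: the copy `b` is moved by `v b` -/
def mH (v : Fin 3 → FreeGroup J) : Kx I J S → H
  | .inl i => C.g i
  | .inr (.inl j) => C.t j
  | .inr (.inr (s, b)) => C.tw (v b) * C.x s * (C.tw (v b))⁻¹

/-- the generating tuples of `B` -/
noncomputable def mB (v : Fin 3 → FreeGroup J) : Kx I J S → Am H Γ D
  | .inl i => C.gB (.inl i)
  | .inr (.inl j) => C.gB (.inr (.inl j))
  | .inr (.inr (s, b)) => C.twB (v b) * C.gB (.inr (.inr (s, b))) * (C.twB (v b))⁻¹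

theorem Φ_tw (v : FreeGroup J) : C.Φ (C.tw v) = inr (1, FreeGroup.lift C.γ v) := by
  have : C.Φ.comp (FreeGroup.lift C.t) =
      ((inr : _ →* WW Γ D).comp (MonoidHom.inr (MulAut D) Γ)).comp (FreeGroup.lift C.γ) := by
    ext j : 1
    simp [C.ht]
  exact DFunLike.congr_fun this v

theorem twB_eq (v : FreeGroup J) :
    C.twB v = (C.tw v, inr (1, FreeGroup.lift C.γ v)) := by
  have : FreeGroup.lift (fun j => C.gB (.inr (.inl j))) =
      (FreeGroup.lift C.t).prod (((inr : _ →* WW Γ (FP D)).comp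
        (MonoidHom.inr (MulAut (FP D)) Γ)).comp (FreeGroup.lift C.γ)) := by
    ext j : 1
    simp [gB]
  exact DFunLike.congr_fun this v

open Classical in
theorem inr_conj_single {T : Type} [Group T] (p : Γ) (d : T) :
    (inr (1, p) : WW Γ T) * inl (Pi.mulSingle 1 d) * (inr (1, p))⁻¹ =
      inl (Pi.mulSingle p d) := by
  rw [← map_inv, ← inl_aut, sa_single]
  simp

theorem Φ_mH (v : Fin 3 → FreeGroup J) (w : FreeGroup (Kx I J S)) :
    C.Φ (FreeGroup.lift (C.mH v) w) =
      Psi C.α C.γ C.x0 (MonoidHom.id _) (fun _ => MonoidHom.id D)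
        (fun b => FreeGroup.lift C.γ (v b)) w := by
  classical
  have : C.Φ.comp (FreeGroup.lift (C.mH v)) =
      Psi C.α C.γ C.x0 (MonoidHom.id _) (fun _ => MonoidHom.id D)
        (fun b => FreeGroup.lift C.γ (v b)) := by
    ext e : 1
    rcases e with i | j | ⟨s, b⟩
    · rw [MonoidHom.comp_apply, FreeGroup.lift_apply_of, Psi_I]
      exact C.hg i
    · rw [MonoidHom.comp_apply, FreeGroup.lift_apply_of, Psi_J]
      exact C.ht j
    · rw [MonoidHom.comp_apply, FreeGroup.lift_apply_of, Psi_X, mH, map_mul, map_mul, map_inv,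
        C.hx, Φ_tw, inr_conj_single]
      rfl
  exact DFunLike.congr_fun this w

theorem lift_mB (v : Fin 3 → FreeGroup J) (w : FreeGroup (Kx I J S)) :
    FreeGroup.lift (C.mB v) w = (FreeGroup.lift (C.mH v) w,
      Psi C.α C.γ C.x0 autL (fun b => Monoid.CoprodI.of (M := fun _ : Fin 3 => D) (i := b))
        (fun b => FreeGroup.lift C.γ (v b)) w) := by
  classical
  have : FreeGroup.lift (C.mB v) = (FreeGroup.lift (C.mH v)).prod
      (Psi C.α C.γ C.x0 autL (fun b => Monoid.CoprodI.of (M := fun _ : Fin 3 => D) (i := b))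
        (fun b => FreeGroup.lift C.γ (v b))) := by
    ext e : 1
    rcases e with i | j | ⟨s, b⟩
    · rw [FreeGroup.lift_apply_of, MonoidHom.prod_apply, FreeGroup.lift_apply_of, Psi_I]
      rfl
    · rw [FreeGroup.lift_apply_of, MonoidHom.prod_apply, FreeGroup.lift_apply_of, Psi_J]
      rfl
    · rw [FreeGroup.lift_apply_of, MonoidHom.prod_apply, FreeGroup.lift_apply_of, Psi_X, mB, mH,
        twB_eq, gB]
      refine Prod.ext rfl ?_
      exact inr_conj_single _ _
  exact DFunLike.congr_fun this w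

theorem closure_mH (v : Fin 3 → FreeGroup J) : Subgroup.closure (Set.range (C.mH v)) = ⊤ := by
  rw [eq_top_iff, ← C.hgen, Subgroup.closure_le]
  have ht : ∀ j, C.t j ∈ Subgroup.closure (Set.range (C.mH v)) := fun j =>
    Subgroup.subset_closure ⟨.inr (.inl j), rfl⟩
  have htw : ∀ u, C.tw u ∈ Subgroup.closure (Set.range (C.mH v)) := by
    intro u
    have h1 : (FreeGroup.lift C.t).range ≤ Subgroup.closure (Set.range (C.mH v)) := by
      rw [FreeGroup.range_lift_eq_closure, Subgroup.closure_le]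
      rintro _ ⟨j, rfl⟩
      exact ht j
    exact h1 ⟨u, rfl⟩
  rintro _ ⟨e, rfl⟩
  rcases e with i | j | s
  · exact Subgroup.subset_closure ⟨.inl i, rfl⟩
  · exact ht j
  · have h1 : C.mH v (.inr (.inr (s, 0))) ∈ Subgroup.closure (Set.range (C.mH v)) :=
      Subgroup.subset_closure ⟨_, rfl⟩
    have h2 := mul_mem (mul_mem (inv_mem (htw (v 0))) h1) (htw (v 0))
    have h3 : (C.tw (v 0))⁻¹ * C.mH v (.inr (.inr (s, 0))) * C.tw (v 0) = C.x s := by
      rw [mH]
      group
    rw [h3] at h2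
    exact h2

theorem closure_mB (v : Fin 3 → FreeGroup J) :
    Subgroup.closure (Set.range (C.mB v)) = C.Bs := by
  have tmem : ∀ P : Subgroup (Am H Γ D), (∀ j, C.gB (.inr (.inl j)) ∈ P) → ∀ u, C.twB u ∈ P := by
    intro P hP u
    have h1 : (FreeGroup.lift (fun j => C.gB (.inr (.inl j)))).range ≤ P := by
      rw [FreeGroup.range_lift_eq_closure, Subgroup.closure_le]
      rintro _ ⟨j, rfl⟩
      exact hP j
    exact h1 ⟨u, rfl⟩
  apply le_antisymm
  · rw [Subgroup.closure_le]
    have h0 : ∀ e, C.gB e ∈ C.Bs := fun e => Subgroup.subset_closure ⟨e, rfl⟩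
    rintro _ ⟨e, rfl⟩
    rcases e with i | j | ⟨s, b⟩
    · exact h0 (.inl i)
    · exact h0 (.inr (.inl j))
    · exact mul_mem (mul_mem (tmem _ (fun j => h0 _) _) (h0 _)) (inv_mem (tmem _ (fun j => h0 _) _))
  · unfold Bs
    rw [Subgroup.closure_le]
    have h0 : ∀ e, C.mB v e ∈ Subgroup.closure (Set.range (C.mB v)) := fun e =>
      Subgroup.subset_closure ⟨e, rfl⟩
    have htw := tmem _ (fun j => h0 (.inr (.inl j)))
    rintro _ ⟨e, rfl⟩
    rcases e with i | j | ⟨s, b⟩
    · exact h0 (.inl i)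
    · exact h0 (.inr (.inl j))
    · have h2 := mul_mem (mul_mem (inv_mem (htw (v b))) (h0 (.inr (.inr (s, b))))) (htw (v b))
      have h3 : (C.twB (v b))⁻¹ * C.mB v (.inr (.inr (s, b))) * C.twB (v b) =
          C.gB (.inr (.inr (s, b))) := by
        rw [mB]
        group
      rw [h3] at h2
      exact h2

end Cfg

/-- tuples in a subgroup -/
theorem exists_sub {A κ : Type} [Group A] {B : Subgroup A} {m : κ → A}
    (h : Subgroup.closure (Set.range m) = B) : ∃ s : κ → B,
      Subgroup.closure (Set.range s) = ⊤ ∧ ∀ w, (FreeGroup.lift s w : A) = FreeGroup.lift m w := by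
  have hm : ∀ e, m e ∈ B := fun e => h ▸ Subgroup.subset_closure ⟨e, rfl⟩
  have h1 : ∀ w, (FreeGroup.lift (fun e => (⟨m e, hm e⟩ : B)) w : A) = FreeGroup.lift m w := by
    intro w
    have : B.subtype.comp (FreeGroup.lift (fun e => (⟨m e, hm e⟩ : B))) = FreeGroup.lift m := by
      ext e
      simp
    exact DFunLike.congr_fun this w
  refine ⟨fun e => ⟨m e, hm e⟩, ?_, h1⟩
  rw [← FreeGroup.lift_surjective_iff_closure_range_eq_top]
  rintro ⟨b, hb⟩
  rw [← h, ← FreeGroup.range_lift_eq_closure] at hb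
  obtain ⟨w, hw⟩ := hb
  exact ⟨w, Subtype.ext ((h1 w).trans hw)⟩

/-- three far positions -/
theorem exists_far {Γ J : Type} [Group Γ] [Infinite Γ] {γ : J → Γ}
    (hγ : Subgroup.closure (Set.range γ) = ⊤) :
    ∃ v : Finset Γ → Fin 3 → FreeGroup J,
      Far (atTop : Filter (Finset Γ)) (fun F b => FreeGroup.lift γ (v F b)) := by
  classical
  have h1 : ∀ F : Finset Γ, ∃ a b : Γ, a ∉ F ∧ b ∉ F ∧ b ∉ F.image (fun p => p * a) := by
    intro F
    obtain ⟨a, ha⟩ := Infinite.exists_notMem_finset F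
    obtain ⟨b, hb⟩ := Infinite.exists_notMem_finset (F ∪ F.image (fun p => p * a))
    rw [Finset.mem_union, not_or] at hb
    exact ⟨a, b, ha, hb.1, hb.2⟩
  choose a b ha hb hab using h1
  choose wd hwd using surj_of_gen hγ
  refine ⟨fun F => ![1, wd (a F), wd (b F)], ?_⟩
  intro P hP
  have hPf : (Set.image2 (fun p q : Γ => p⁻¹ * q) P P).Finite := hP.image2 _ hP
  filter_upwards [eventually_ge_atTop hPf.toFinset] with F hF
  have hF' : ∀ p ∈ P, ∀ q ∈ P, p⁻¹ * q ∈ F := by
    intro p hp q hq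
    exact hF (hPf.mem_toFinset.mpr ⟨p, hp, q, hq, rfl⟩)
  have k1 : ∀ p ∈ P, ∀ q ∈ P, p * a F ≠ q := fun p hp q hq h => ha F (by
    have := hF' p hp q hq
    rwa [← h, inv_mul_cancel_left] at this)
  have k2 : ∀ p ∈ P, ∀ q ∈ P, p * b F ≠ q := fun p hp q hq h => hb F (by
    have := hF' p hp q hq
    rwa [← h, inv_mul_cancel_left] at this)
  have k3 : ∀ p ∈ P, ∀ q ∈ P, p * b F ≠ q * a F := fun p hp q hq h => hab F (by
    rw [Finset.mem_image]
    refine ⟨p⁻¹ * q, hF' p hp q hq, ?_⟩
    rw [mul_assoc, ← h, inv_mul_cancel_left])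
  intro c c' hc p hp p' hp'
  have e0 : FreeGroup.lift γ (![1, wd (a F), wd (b F)] 0) = 1 := by simp
  have e1 : FreeGroup.lift γ (![1, wd (a F), wd (b F)] 1) = a F := by simp [hwd]
  have e2 : FreeGroup.lift γ (![1, wd (a F), wd (b F)] 2) = b F := by simp [hwd]
  fin_cases c <;> fin_cases c'
  · exact absurd rfl hc
  · change p * FreeGroup.lift γ (![1, wd (a F), wd (b F)] 0) ≠
      p' * FreeGroup.lift γ (![1, wd (a F), wd (b F)] 1)
    rw [e0, e1, mul_one]
    exact (k1 p' hp' p hp).symm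
  · change p * FreeGroup.lift γ (![1, wd (a F), wd (b F)] 0) ≠
      p' * FreeGroup.lift γ (![1, wd (a F), wd (b F)] 2)
    rw [e0, e2, mul_one]
    exact (k2 p' hp' p hp).symm
  · change p * FreeGroup.lift γ (![1, wd (a F), wd (b F)] 1) ≠
      p' * FreeGroup.lift γ (![1, wd (a F), wd (b F)] 0)
    rw [e0, e1, mul_one]
    exact k1 p hp p' hp'
  · exact absurd rfl hc
  · change p * FreeGroup.lift γ (![1, wd (a F), wd (b F)] 1) ≠
      p' * FreeGroup.lift γ (![1, wd (a F), wd (b F)] 2)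
    rw [e1, e2]
    exact (k3 p' hp' p hp).symm
  · change p * FreeGroup.lift γ (![1, wd (a F), wd (b F)] 2) ≠
      p' * FreeGroup.lift γ (![1, wd (a F), wd (b F)] 0)
    rw [e0, e2, mul_one]
    exact k2 p hp p' hp'
  · change p * FreeGroup.lift γ (![1, wd (a F), wd (b F)] 2) ≠
      p' * FreeGroup.lift γ (![1, wd (a F), wd (b F)] 1)
    rw [e1, e2]
    exact k3 p hp p' hp'
  · exact absurd rfl hc

/-- `H` and `B` approximate the same group. -/
theorem Cfg.exists_K {H Γ D I J S : Type} [Group H] [Group Γ] [Group D] [Infinite Γ]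
    (C : Cfg H Γ D I J S) : ∃ (K : Type) (_ : Group K) (k : Kx I J S → K),
      Subgroup.closure (Set.range k) = ⊤ ∧ Apx H k ∧ Apx C.Bs k := by
  classical
  obtain ⟨v, hv⟩ := exists_far C.hγ
  set U : Ultrafilter (Finset Γ) := Ultrafilter.of atTop with hU
  have hUle : (U : Filter (Finset Γ)) ≤ atTop := Ultrafilter.of_le _
  refine ⟨Lim U (fun F => C.mH (v F)), inferInstance, lg U (fun F => C.mH (v F)),
    closure_lg _ _, apx_lim U _ (fun F => C.closure_mH (v F)), ?_⟩
  intro W
  have h1 := eventually_agree U (fun F => C.mH (v F)) W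
  have h2 : ∀ᶠ F in (U : Filter (Finset Γ)), ∀ w ∈ W, FreeGroup.lift (C.mH (v F)) w = 1 →
      FreeGroup.lift (C.mB (v F)) w = 1 := by
    rw [Filter.eventually_all_finset]
    intro w _
    filter_upwards [hUle (Psi_one C.α C.γ C.x0 hv autL
      (fun b => Monoid.CoprodI.of (M := fun _ : Fin 3 => D) (i := b)) autL_of w)] with F hF
    intro h3
    rw [C.lift_mB, h3, hF (by rw [← C.Φ_mH, h3, map_one])]
    rfl
  obtain ⟨F, hF1, hF2⟩ := (h1.and h2).exists
  obtain ⟨s, hs, hsw⟩ := exists_sub (C.closure_mB (v F))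
  refine ⟨s, hs, ?_⟩
  intro w hw
  rw [← hF1 w hw]
  constructor
  · intro h3
    have h4 := hsw w
    rw [h3, C.lift_mB] at h4
    exact (congrArg Prod.fst h4).symm
  · intro h3
    apply Subtype.ext
    rw [hsw, hF2 w hw h3]
    rfl

end Pool.Agent.Work.MP_66343f_al
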