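import Pool.Agent.Work.MP_66343f_al.WW

/-!
# MP_66343f_al: words with three copies of the generators, placed far apart
-/

set_option autoImplicit false

namespace Pool.Agent.Work.MP_66343f_al

open SemidirectProduct Filter Function

variable {Γ D T : Type} [Group Γ] [Group D] [Group T] {I J S : Type}

/-- the letters -/
abbrev Kx (I J S : Type) : Type := I ⊕ J ⊕ (S × Fin 3)

/-- the automorphism and the position of a word -/
def rr (α : I → MulAut D) (γ : J → Γ) : FreeGroup (Kx I J S) →* MulAut D × Γ :=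
  FreeGroup.lift fun e => match e with
    | .inl i => (α i, 1)
    | .inr (.inl j) => (1, γ j)
    | .inr (.inr _) => 1

open Classical in
/-- only the copy `b` is used -/
noncomputable def bb (α : I → MulAut D) (γ : J → Γ) (x0 : S → D) (b : Fin 3) :
    FreeGroup (Kx I J S) →* WW Γ D :=
  FreeGroup.lift fun e => match e with
    | .inl i => inr (α i, 1)
    | .inr (.inl j) => inr (1, γ j)
    | .inr (.inr (s, b')) => if b' = b then inl (Pi.mulSingle 1 (x0 s)) else 1

open Classical in
/-- the copy `b` at the position `τ b` -/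
noncomputable def Psi (α : I → MulAut D) (γ : J → Γ) (x0 : S → D) (aT : MulAut D →* MulAut T)
    (io : Fin 3 → D →* T) (τ : Fin 3 → Γ) : FreeGroup (Kx I J S) →* WW Γ T :=
  FreeGroup.lift fun e => match e with
    | .inl i => inr (aT (α i), 1)
    | .inr (.inl j) => inr (1, γ j)
    | .inr (.inr (s, b)) => inl (Pi.mulSingle (τ b) (io b (x0 s)))

variable (α : I → MulAut D) (γ : J → Γ) (x0 : S → D)

theorem bb_I (b : Fin 3) (i : I) :
    bb α γ x0 b (FreeGroup.of (.inl i)) = inr (α i, 1) := by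
  simp [bb]

theorem bb_J (b : Fin 3) (j : J) :
    bb α γ x0 b (FreeGroup.of (.inr (.inl j))) = inr (1, γ j) := by
  simp [bb]

open Classical in
theorem bb_X (b b' : Fin 3) (s : S) :
    bb α γ x0 b (FreeGroup.of (.inr (.inr (s, b')))) =
      if b' = b then inl (Pi.mulSingle 1 (x0 s)) else 1 := by
  simp [bb]

theorem Psi_I (aT : MulAut D →* MulAut T) (io : Fin 3 → D →* T) (τ : Fin 3 → Γ) (i : I) :
    Psi α γ x0 aT io τ (FreeGroup.of (.inl i)) = inr (aT (α i), 1) := by
  simp [Psi]

theorem Psi_J (aT : MulAut D →* MulAut T) (io : Fin 3 → D →* T) (τ : Fin 3 → Γ) (j : J) :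
    Psi α γ x0 aT io τ (FreeGroup.of (.inr (.inl j))) = inr (1, γ j) := by
  simp [Psi]

open Classical in
theorem Psi_X (aT : MulAut D →* MulAut T) (io : Fin 3 → D →* T) (τ : Fin 3 → Γ) (s : S)
    (b : Fin 3) :
    Psi α γ x0 aT io τ (FreeGroup.of (.inr (.inr (s, b)))) =
      inl (Pi.mulSingle (τ b) (io b (x0 s))) := by
  simp [Psi]

theorem bb_right (b : Fin 3) (w : FreeGroup (Kx I J S)) :
    (bb α γ x0 b w).right = rr α γ w := by
  classical
  have : (rightHom.comp (bb α γ x0 b)) = rr (S := S) α γ := by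
    ext e : 1
    rcases e with i | j | ⟨s, b'⟩
    · simp [bb, rr]
    · simp [bb, rr]
    · simp only [bb, rr, MonoidHom.comp_apply, FreeGroup.lift_apply_of]
      split_ifs <;> simp
  exact DFunLike.congr_fun this w

theorem Psi_right (aT : MulAut D →* MulAut T) (io : Fin 3 → D →* T) (τ : Fin 3 → Γ)
    (w : FreeGroup (Kx I J S)) :
    (Psi α γ x0 aT io τ w).right = (aT (rr (S := S) α γ w).1, (rr (S := S) α γ w).2) := by
  classical
  have : (rightHom.comp (Psi α γ x0 aT io τ)) =
      (MonoidHom.prodMap aT (MonoidHom.id Γ)).comp (rr (S := S) α γ) := by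
    ext e : 1
    rcases e with i | j | ⟨s, b'⟩
    · simp [Psi, rr]
    · simp [Psi, rr]
    · rw [MonoidHom.comp_apply, MonoidHom.comp_apply, Psi_X, rightHom_inl]
      simp only [rr, FreeGroup.lift_apply_of, map_one]
  exact DFunLike.congr_fun this w

theorem mulSupport_mul_left {a b : WW Γ D} (ha : (mulSupport a.left).Finite)
    (hb : (mulSupport b.left).Finite) : (mulSupport (a * b).left).Finite := by
  refine (ha.union (hb.image fun p => a.right.2 * p)).subset ?_
  intro p hp
  rw [mem_mulSupport, ww_mul_left] at hp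
  by_cases h : a.left p = 1
  · right
    refine ⟨a.right.2⁻¹ * p, ?_, by simp⟩
    rw [mem_mulSupport]
    intro h'
    rw [h, h', map_one, mul_one] at hp
    exact hp rfl
  · left
    exact h

theorem mulSupport_inl_single [DecidableEq Γ] (p : Γ) (d : D) :
    (mulSupport (inl (Pi.mulSingle p d) : WW Γ D).left).Finite := by
  rw [left_inl]
  exact (Set.finite_singleton p).subset Pi.mulSupport_mulSingle_subset

theorem mulSupport_inr (a : MulAut D × Γ) :
    (mulSupport (inr a : WW Γ D).left).Finite := by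
  rw [left_inr]
  simp

theorem bb_fin (b : Fin 3) (w : FreeGroup (Kx I J S)) :
    (mulSupport (bb α γ x0 b w).left).Finite := by
  classical
  have key : ∀ e : Kx I J S, (mulSupport (bb α γ x0 b (FreeGroup.of e)).left).Finite ∧
      (mulSupport (bb α γ x0 b (FreeGroup.of e)⁻¹).left).Finite := by
    intro e
    rcases e with i | j | ⟨s, b'⟩
    · rw [map_inv, bb_I, ← map_inv]
      exact ⟨mulSupport_inr _, mulSupport_inr _⟩
    · rw [map_inv, bb_J, ← map_inv]
      exact ⟨mulSupport_inr _, mulSupport_inr _⟩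
    · rw [map_inv, bb_X]
      split_ifs
      · rw [← map_inv, ← Pi.mulSingle_inv]
        exact ⟨mulSupport_inl_single _ _, mulSupport_inl_single _ _⟩
      · simp
  refine FreeGroup.induction_on w ?_ ?_ ?_ ?_
  · simp
  · intro e
    exact (key e).1
  · intro e _
    exact (key e).2
  · intro v w hv hw
    rw [map_mul]
    exact mulSupport_mul_left hv hw

/-- the combination of the three functions -/
def cmb (io : Fin 3 → D →* T) (τ : Fin 3 → Γ) (f : Fin 3 → Γ → D) (p : Γ) : T :=
  io 0 (f 0 (p * (τ 0)⁻¹)) * io 1 (f 1 (p * (τ 1)⁻¹)) * io 2 (f 2 (p * (τ 2)⁻¹))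

theorem cmb_single (io : Fin 3 → D →* T) (τ : Fin 3 → Γ) (f : Fin 3 → Γ → D) (p : Γ) (b : Fin 3)
    (h : ∀ c, c ≠ b → f c (p * (τ c)⁻¹) = 1) : cmb io τ f p = io b (f b (p * (τ b)⁻¹)) := by
  unfold cmb
  fin_cases b
  · rw [h 1 (by decide), h 2 (by decide)]
    simp
  · rw [h 0 (by decide), h 2 (by decide)]
    simp
  · rw [h 0 (by decide), h 1 (by decide)]
    simp

/-- far apart -/
def Far {Λ : Type} (F : Filter Λ) (τ : Λ → Fin 3 → Γ) : Prop :=
  ∀ P : Set Γ, P.Finite → ∀ᶠ l in F, ∀ b c, b ≠ c → ∀ p ∈ P, ∀ p' ∈ P, p * τ l b ≠ p' * τ l c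

/-- far apart: at every position only one of the three functions is not `1` -/
theorem Far.one {Λ : Type} {F : Filter Λ} {τ : Λ → Fin 3 → Γ} (h : Far F τ) {P : Set Γ}
    (hP : P.Finite) : ∀ᶠ l in F, ∀ p : Γ, ∃ b, ∀ c, c ≠ b → p * (τ l c)⁻¹ ∉ P := by
  filter_upwards [h P hP] with l hl
  intro p
  by_cases h1 : ∃ b, p * (τ l b)⁻¹ ∈ P
  · obtain ⟨b, hb⟩ := h1
    refine ⟨b, fun c hc hcP => ?_⟩
    refine hl c b hc _ hcP _ hb ?_
    simp
  · exact ⟨0, fun c _ hcP => h1 ⟨c, hcP⟩⟩

theorem Psi_eq {Λ : Type} {F : Filter Λ} {τ : Λ → Fin 3 → Γ} (hF : Far F τ)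
    (aT : MulAut D →* MulAut T) (io : Fin 3 → D →* T)
    (hio : ∀ a b d, aT a (io b d) = io b (a d)) (w : FreeGroup (Kx I J S)) :
    ∀ᶠ l in F, ∀ p, (Psi α γ x0 aT io (τ l) w).left p =
      cmb io (τ l) (fun b => (bb α γ x0 b w).left) p := by
  classical
  have sg : ∀ (τ : Fin 3 → Γ) (b : Fin 3) (d : D) (p : Γ),
      (Pi.mulSingle (τ b) (io b d) : Γ → T) p =
        cmb io τ (fun c => if b = c then Pi.mulSingle 1 d else 1) p := by
    intro τ b d p
    rw [cmb_single io τ _ p b (by
      intro c hc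
      rw [if_neg hc.symm]
      rfl), if_pos rfl]
    by_cases h : p = τ b
    · subst h
      rw [Pi.mulSingle_eq_same, mul_inv_cancel, Pi.mulSingle_eq_same]
    · rw [Pi.mulSingle_eq_of_ne h, Pi.mulSingle_eq_of_ne, map_one]
      intro h'
      exact h (mul_inv_eq_one.mp h')
  have one' : ∀ (τ : Fin 3 → Γ) (p : Γ), (1 : T) = cmb io τ (fun _ => 1) p := by
    intro τ p
    simp [cmb]
  refine FreeGroup.induction_on w ?_ ?_ ?_ ?_
  · exact Eventually.of_forall fun l p => by simp [cmb]
  · intro e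
    refine Eventually.of_forall fun l p => ?_
    rcases e with i | j | ⟨s, b'⟩
    · simp only [Psi_I, bb_I, left_inr]
      exact one' _ _
    · simp only [Psi_J, bb_J, left_inr]
      exact one' _ _
    · simp only [Psi_X, bb_X, left_inl]
      rw [sg]
      congr 1
      funext c
      split_ifs <;> simp
  · intro e _
    refine Eventually.of_forall fun l p => ?_
    rcases e with i | j | ⟨s, b'⟩
    · simp only [map_inv, Psi_I, bb_I]
      simp only [← map_inv, left_inr]
      exact one' _ _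
    · simp only [map_inv, Psi_J, bb_J]
      simp only [← map_inv, left_inr]
      exact one' _ _
    · simp only [map_inv, Psi_X, bb_X]
      simp only [← map_inv, ← Pi.mulSingle_inv, left_inl]
      rw [sg]
      congr 1
      funext c
      split_ifs
      · rw [← map_inv, ← Pi.mulSingle_inv, left_inl]
      · simp
  · intro v w hv hw
    set P : Set Γ := ⋃ b : Fin 3, (mulSupport (bb α γ x0 b v).left ∪
      (fun p => (rr (S := S) α γ v).2 * p) '' mulSupport (bb α γ x0 b w).left) with hP
    have hPf : P.Finite := Set.finite_iUnion fun b =>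
      (bb_fin α γ x0 b v).union ((bb_fin α γ x0 b w).image _)
    filter_upwards [hv, hw, hF.one hPf] with l h1 h2 h3
    intro p
    obtain ⟨b, hb⟩ := h3 p
    rw [map_mul, ww_mul_left, h1, h2, Psi_right]
    have hv' : ∀ c, c ≠ b → (bb α γ x0 c v).left (p * (τ l c)⁻¹) = 1 := by
      intro c hc
      by_contra h4
      exact hb c hc (Set.mem_iUnion.mpr ⟨c, Or.inl h4⟩)
    have hw' : ∀ c, c ≠ b → (bb α γ x0 c w).left
        ((rr (S := S) α γ v).2⁻¹ * p * (τ l c)⁻¹) = 1 := by
      intro c hc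
      by_contra h4
      refine hb c hc (Set.mem_iUnion.mpr ⟨c, Or.inr ⟨_, h4, ?_⟩⟩)
      group
    rw [cmb_single io (τ l) _ p b hv', cmb_single io (τ l) _ _ b hw', hio,
      cmb_single io (τ l) _ p b (by
        intro c hc
        rw [map_mul, ww_mul_left, hv' c hc, bb_right, ← mul_assoc, hw' c hc, map_one, mul_one])]
    rw [map_mul (bb α γ x0 b), ww_mul_left, bb_right, map_mul, mul_assoc]

/-- The criterion: if the word is trivial for the group `D`, then it is trivial for `T`. -/
theorem Psi_one {Λ : Type} {F : Filter Λ} {τ : Λ → Fin 3 → Γ} (hF : Far F τ)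
    (aT : MulAut D →* MulAut T) (io : Fin 3 → D →* T)
    (hio : ∀ a b d, aT a (io b d) = io b (a d)) (w : FreeGroup (Kx I J S)) :
    ∀ᶠ l in F, Psi α γ x0 (MonoidHom.id _) (fun _ => MonoidHom.id D) (τ l) w = 1 →
      Psi α γ x0 aT io (τ l) w = 1 := by
  classical
  set P : Set Γ := ⋃ b : Fin 3, mulSupport (bb α γ x0 b w).left with hP
  have hPf : P.Finite := Set.finite_iUnion fun b => bb_fin α γ x0 b w
  filter_upwards [Psi_eq α γ x0 hF aT io hio w,
    Psi_eq α γ x0 hF (MonoidHom.id _) (fun _ => MonoidHom.id D) (fun _ _ _ => rfl) w,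
    hF.one hPf] with l h1 h2 h3
  intro h4
  have h5 : rr (S := S) α γ w = 1 := by
    have h6 := Psi_right α γ x0 (MonoidHom.id _) (fun _ => MonoidHom.id D) (τ l) w
    rw [h4] at h6
    exact h6.symm
  have h7 : ∀ b q, (bb α γ x0 b w).left q = 1 := by
    intro b q
    by_contra h8
    obtain ⟨b', hb'⟩ := h3 (q * τ l b)
    have h9 : b = b' := by
      by_contra h10
      refine hb' b h10 (Set.mem_iUnion.mpr ⟨b, ?_⟩)
      rw [mul_inv_cancel_right]
      exact h8
    subst h9
    have h11 := h2 (q * τ l b)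
    rw [h4, cmb_single _ _ _ _ b (by
      intro c hc
      by_contra h12
      exact hb' c hc (Set.mem_iUnion.mpr ⟨c, h12⟩))] at h11
    rw [mul_inv_cancel_right] at h11
    exact h8 h11.symm
  refine SemidirectProduct.ext ?_ ?_
  · funext p
    rw [h1]
    simp [cmb, h7]
  · rw [Psi_right, h5]
    simp

end Pool.Agent.Work.MP_66343f_al
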