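import Mathlib

/-!
# MP_66343f_al: infinite direct sums of conjugate subgroups
-/

set_option autoImplicit false

namespace Pool.Agent.Work.MP_66343f_al

open Function

/-- A group `Q` acting on a set `X` with subgroups `N p` permuted by `Q` which generate their direct
product. -/
structure DS (Q X : Type) [Group Q] where
  act : Q →* Equiv.Perm X
  N : X → Subgroup Q
  hN : ∀ (q : Q) (p : X), ∀ m ∈ N p, q * m * q⁻¹ ∈ N (act q p)
  hcomm : ∀ p p', p ≠ p' → ∀ a ∈ N p, ∀ b ∈ N p', a * b = b * a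
  hind : ∀ p, ∀ a ∈ N p, a ∈ Subgroup.closure {m | ∃ p', p' ≠ p ∧ m ∈ N p'} → a = 1
  hinf : ∀ p, (Set.range fun q => act q p).Infinite
  p0 : X
  x0 : Q
  hx0 : x0 ∈ N p0
  hx1 : x0 ≠ 1

namespace DS

variable {Q X : Type} [Group Q] (C : DS Q X)

/-- the subgroup generated by the `N p`, `p ∈ S` -/
def NS (S : Set X) : Subgroup Q := Subgroup.closure {m | ∃ p ∈ S, m ∈ C.N p}

theorem N_le {S : Set X} {p : X} (hp : p ∈ S) : C.N p ≤ C.NS S :=
  fun _ hm => Subgroup.subset_closure ⟨p, hp, hm⟩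

theorem NS_mono {S S' : Set X} (h : S ⊆ S') : C.NS S ≤ C.NS S' := by
  unfold NS
  rw [Subgroup.closure_le]
  rintro m ⟨p, hp, hm⟩
  exact C.N_le (h hp) hm

theorem hind' {p : X} {a : Q} (h1 : a ∈ C.N p) (h2 : a ∈ C.NS {p}ᶜ) : a = 1 := by
  refine C.hind p a h1 ?_
  have : C.NS {p}ᶜ = Subgroup.closure {m | ∃ p', p' ≠ p ∧ m ∈ C.N p'} := rfl
  rwa [this] at h2

theorem comm_NS {p : X} {a b : Q} (h1 : a ∈ C.N p) (h2 : b ∈ C.NS {p}ᶜ) : a * b = b * a := by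
  have h3 : C.NS {p}ᶜ ≤ Subgroup.centralizer {a} := by
    unfold NS
    rw [Subgroup.closure_le]
    rintro m ⟨p', hp', hm⟩
    rw [SetLike.mem_coe, Subgroup.mem_centralizer_iff]
    intro c hc
    rw [Set.mem_singleton_iff.mp hc]
    exact C.hcomm p p' (fun h => hp' h.symm) a h1 m hm
  exact Subgroup.mem_centralizer_iff.mp (h3 h2) a rfl

theorem conj_NS {S : Set X} (q : Q) {m : Q} (hm : m ∈ C.NS S) :
    q * m * q⁻¹ ∈ C.NS (C.act q '' S) := by
  have h1 : C.NS S ≤ (C.NS (C.act q '' S)).comap (MulAut.conj q).toMonoidHom := by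
    conv_lhs => unfold NS
    rw [Subgroup.closure_le]
    rintro m ⟨p, hp, hm⟩
    exact C.N_le (S := C.act q '' S) ⟨p, hp, rfl⟩ (C.hN q p m hm)
  exact h1 hm

/-- splitting off a component -/
theorem split {Y : Set X} {p : X} {m : Q} (hm : m ∈ C.NS Y) :
    ∃ a ∈ C.N p, ∃ b ∈ C.NS (Y \ {p}), m = a * b := by
  have hle : C.NS (Y \ {p}) ≤ C.NS {p}ᶜ := C.NS_mono fun x hx => hx.2
  unfold NS at hm
  induction hm using Subgroup.closure_induction with
  | mem m hm =>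
    obtain ⟨p', hp', hm⟩ := hm
    by_cases h : p' = p
    · subst h
      exact ⟨m, hm, 1, one_mem _, (mul_one m).symm⟩
    · exact ⟨1, one_mem _, m, C.N_le (S := Y \ {p}) ⟨hp', h⟩ hm, (one_mul m).symm⟩
  | one => exact ⟨1, one_mem _, 1, one_mem _, (mul_one 1).symm⟩
  | mul m m' _ _ h h' =>
    obtain ⟨a, ha, b, hb, rfl⟩ := h
    obtain ⟨a', ha', b', hb', rfl⟩ := h'
    refine ⟨a * a', mul_mem ha ha', b * b', mul_mem hb hb', ?_⟩
    have := C.comm_NS ha' (hle hb)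
    rw [mul_assoc, ← mul_assoc b, ← this]
    group
  | inv m _ h =>
    obtain ⟨a, ha, b, hb, rfl⟩ := h
    refine ⟨a⁻¹, inv_mem ha, b⁻¹, inv_mem hb, ?_⟩
    rw [mul_inv_rev, C.comm_NS (inv_mem ha) (inv_mem (hle hb))]

/-- an element all of whose components are trivial is trivial -/
theorem eq_one {Y : Set X} (hY : Y.Finite) : ∀ m ∈ C.NS Y, (∀ p ∈ Y, m ∈ C.NS {p}ᶜ) → m = 1 := by
  classical
  induction Y, hY using Set.Finite.induction_on with
  | empty =>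
    intro m hm _
    have : C.NS ∅ = ⊥ := by
      unfold NS
      have : {m | ∃ p ∈ (∅ : Set X), m ∈ C.N p} = ∅ := by
        ext m
        simp
      rw [this, Subgroup.closure_empty]
    rw [this] at hm
    exact hm
  | @insert p Y hp _ ih =>
    intro m hm hc
    obtain ⟨a, ha, b, hb, rfl⟩ := C.split (p := p) hm
    have h1 : (insert p Y) \ {p} = Y := by
      rw [Set.insert_sdiff_of_mem _ (Set.mem_singleton p), Set.sdiff_singleton_eq_self hp]
    rw [h1] at hb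
    have hsub : Y ⊆ {p}ᶜ := by
      intro x hx h
      rw [Set.mem_singleton_iff] at h
      subst h
      exact hp hx
    have hb' : b ∈ C.NS {p}ᶜ := C.NS_mono hsub hb
    have h2 : a = 1 := by
      refine C.hind' ha ?_
      have := mul_mem (hc p (Set.mem_insert _ _)) (inv_mem hb')
      rwa [mul_inv_cancel_right] at this
    subst h2
    rw [one_mul] at hc ⊢
    exact ih b hb fun q hq => hc q (Set.mem_insert_of_mem _ hq)

/-- `F` is the family of the components of `m` -/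
def Rl (F : X → Q) (m : Q) : Prop :=
  ∃ Y : Set X, Y.Finite ∧ m ∈ C.NS Y ∧ ∀ p, F p ∈ C.N p ∧ (F p)⁻¹ * m ∈ C.NS {p}ᶜ

theorem rl_one : C.Rl (fun _ => 1) 1 :=
  ⟨∅, Set.finite_empty, one_mem _, fun p => ⟨one_mem _, by simp [one_mem]⟩⟩

variable {C}

theorem Rl.mul {F F' : X → Q} {m m' : Q} (h : C.Rl F m) (h' : C.Rl F' m') :
    C.Rl (fun p => F p * F' p) (m * m') := by
  obtain ⟨Y, hY, h1, h2⟩ := h
  obtain ⟨Y', hY', h1', h2'⟩ := h'
  refine ⟨Y ∪ Y', hY.union hY', mul_mem (C.NS_mono Set.subset_union_left h1)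
    (C.NS_mono Set.subset_union_right h1'), fun p => ⟨mul_mem (h2 p).1 (h2' p).1, ?_⟩⟩
  have h3 := C.comm_NS (inv_mem (h2' p).1) (h2 p).2
  have h4 : (F p * F' p)⁻¹ * (m * m') = ((F p)⁻¹ * m) * ((F' p)⁻¹ * m') := by
    rw [← mul_assoc ((F p)⁻¹ * m), ← h3]
    group
  rw [h4]
  exact mul_mem (h2 p).2 (h2' p).2

theorem Rl.inv {F : X → Q} {m : Q} (h : C.Rl F m) : C.Rl (fun p => (F p)⁻¹) m⁻¹ := by
  obtain ⟨Y, hY, h1, h2⟩ := h
  refine ⟨Y, hY, inv_mem h1, fun p => ⟨inv_mem (h2 p).1, ?_⟩⟩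
  have h3 := C.comm_NS (h2 p).1 (h2 p).2
  have h4 : ((F p)⁻¹)⁻¹ * m⁻¹ = ((F p)⁻¹ * m)⁻¹ := by
    have h5 : F p * ((F p)⁻¹ * m) = m := by group
    rw [h5] at h3
    rw [inv_inv, eq_comm]
    calc ((F p)⁻¹ * m)⁻¹ = F p * ((F p)⁻¹ * m * F p)⁻¹ := by group
      _ = F p * m⁻¹ := by rw [← h3]
  rw [h4]
  exact inv_mem (h2 p).2

theorem Rl.conj {F : X → Q} {m : Q} (h : C.Rl F m) (q : Q) :
    C.Rl (fun p => q * F ((C.act q)⁻¹ p) * q⁻¹) (q * m * q⁻¹) := by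
  obtain ⟨Y, hY, h1, h2⟩ := h
  refine ⟨_, hY.image _, C.conj_NS q h1, fun p => ⟨?_, ?_⟩⟩
  · have h3 := C.hN q _ _ (h2 ((C.act q)⁻¹ p)).1
    have h4 : (C.act q) ((C.act q)⁻¹ p) = p := (C.act q).apply_symm_apply p
    rwa [h4] at h3
  · have h3 := C.conj_NS q (h2 ((C.act q)⁻¹ p)).2
    have h4 : (q * F ((C.act q)⁻¹ p) * q⁻¹)⁻¹ * (q * m * q⁻¹) =
        q * ((F ((C.act q)⁻¹ p))⁻¹ * m) * q⁻¹ := by group
    rw [h4]
    refine C.NS_mono ?_ h3
    rintro _ ⟨y, hy, rfl⟩ h5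
    apply hy
    rw [Set.mem_singleton_iff] at h5 ⊢
    rw [← h5]
    exact ((C.act q).symm_apply_apply y).symm

open Classical in
theorem rl_single {p : X} {m : Q} (hm : m ∈ C.N p) : C.Rl (Pi.mulSingle p m) m := by
  refine ⟨{p}, Set.finite_singleton p, C.N_le (Set.mem_singleton p) hm, fun q => ?_⟩
  by_cases h : q = p
  · subst h
    rw [Pi.mulSingle_eq_same]
    exact ⟨hm, by rw [inv_mul_cancel]; exact one_mem _⟩
  · rw [Pi.mulSingle_eq_of_ne h]
    refine ⟨one_mem _, ?_⟩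
    rw [inv_one, one_mul]
    have hpq : p ∈ ({q}ᶜ : Set X) := by
      intro h'
      exact h (Set.mem_singleton_iff.mp h').symm
    exact C.N_le hpq hm

theorem Rl.unique {F F' : X → Q} {m : Q} (h : C.Rl F m) (h' : C.Rl F' m) : F = F' := by
  obtain ⟨Y, hY, h1, h2⟩ := h
  obtain ⟨Y', hY', h1', h2'⟩ := h'
  funext p
  have h3 := mul_mem (h2 p).2 (inv_mem (h2' p).2)
  have h4 : (F p)⁻¹ * m * ((F' p)⁻¹ * m)⁻¹ = (F p)⁻¹ * F' p := by group
  rw [h4] at h3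
  have h5 := C.hind' (mul_mem (inv_mem (h2 p).1) (h2' p).1) h3
  exact inv_mul_eq_one.mp h5

theorem Rl.eq_one {m : Q} (h : C.Rl (fun _ => 1) m) : m = 1 := by
  obtain ⟨Y, hY, h1, h2⟩ := h
  refine C.eq_one hY m h1 fun p _ => ?_
  have := (h2 p).2
  rwa [inv_one, one_mul] at this

end DS

end Pool.Agent.Work.MP_66343f_al
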