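import Pool.Agent.Work.MP_66343f_al.Ult

/-!
# MP_66343f_al: the orbit of a limit point
-/

set_option autoImplicit false

namespace Pool.Agent.Work.MP_66343f_al

open Filter Function

variable {Λ X I : Type} (U : Ultrafilter Λ) (p : Λ → X) (π : I → Equiv.Perm X)

/-- two words agree at the limit point -/
def galS : Setoid (FreeGroup I) where
  r v w := ∀ᶠ l in (U : Filter Λ), FreeGroup.lift π v (p l) = FreeGroup.lift π w (p l)
  iseqv :=
    { refl := fun _ => Eventually.of_forall fun _ => rfl
      symm := fun h => h.mono fun _ hl => hl.symm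
      trans := fun h h' => (h.and h').mono fun _ hl => hl.1.trans hl.2 }

/-- the orbit of the limit point -/
def Gal : Type := Quotient (galS U p π)

/-- the point of a word -/
def gmk (v : FreeGroup I) : Gal U p π := Quotient.mk (galS U p π) v

variable {U p π}

theorem gmk_eq {v w : FreeGroup I} : gmk U p π v = gmk U p π w ↔
    ∀ᶠ l in (U : Filter Λ), FreeGroup.lift π v (p l) = FreeGroup.lift π w (p l) := Quotient.eq

theorem gmk_surj (y : Gal U p π) : ∃ v, gmk U p π v = y := Quotient.exists_rep y

theorem gmk_mul {v w : FreeGroup I} (u : FreeGroup I) (h : gmk U p π v = gmk U p π w) :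
    gmk U p π (u * v) = gmk U p π (u * w) := by
  rw [gmk_eq] at h ⊢
  filter_upwards [h] with l hl
  rw [map_mul, map_mul, Equiv.Perm.mul_apply, Equiv.Perm.mul_apply, hl]

variable (U p π)

/-- left multiplication -/
def gact (u : FreeGroup I) (y : Gal U p π) : Gal U p π :=
  Quotient.map' (s₁ := galS U p π) (s₂ := galS U p π) (fun v => u * v)
    (fun _ _ h => gmk_eq.mp (gmk_mul u (gmk_eq.mpr h))) y

theorem gact_mk (u v : FreeGroup I) : gact U p π u (gmk U p π v) = gmk U p π (u * v) := rfl

/-- the permutation of a word -/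
def gpm (u : FreeGroup I) : Equiv.Perm (Gal U p π) where
  toFun := gact U p π u
  invFun := gact U p π u⁻¹
  left_inv := by
    intro y
    obtain ⟨v, rfl⟩ := gmk_surj y
    rw [gact_mk, gact_mk, inv_mul_cancel_left]
  right_inv := by
    intro y
    obtain ⟨v, rfl⟩ := gmk_surj y
    rw [gact_mk, gact_mk, mul_inv_cancel_left]

theorem gpm_mk (u v : FreeGroup I) : gpm U p π u (gmk U p π v) = gmk U p π (u * v) := rfl

/-- the permutations of the orbit -/
def gperm : FreeGroup I →* Equiv.Perm (Gal U p π) where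
  toFun := gpm U p π
  map_one' := by
    apply Equiv.ext
    intro y
    obtain ⟨v, rfl⟩ := gmk_surj y
    rw [gpm_mk, one_mul, Equiv.Perm.one_apply]
  map_mul' := by
    intro a b
    apply Equiv.ext
    intro y
    obtain ⟨v, rfl⟩ := gmk_surj y
    rw [Equiv.Perm.mul_apply, gpm_mk, gpm_mk, gpm_mk, mul_assoc]

theorem gperm_mk (u v : FreeGroup I) : gperm U p π u (gmk U p π v) = gmk U p π (u * v) := rfl

/-- the permutations of the letters -/
def gp (i : I) : Equiv.Perm (Gal U p π) := gperm U p π (FreeGroup.of i)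

theorem lift_gp (u : FreeGroup I) : FreeGroup.lift (gp U p π) u = gperm U p π u := by
  have : FreeGroup.lift (gp U p π) = gperm U p π := by
    ext i : 1
    rw [FreeGroup.lift_apply_of]
    rfl
  rw [this]

theorem lift_gp_mk (u v : FreeGroup I) :
    FreeGroup.lift (gp U p π) u (gmk U p π v) = gmk U p π (u * v) := by
  rw [lift_gp, gperm_mk]

/-- a finite set closed under the letters contains the orbit -/
theorem orbit_subset {S : Set X} (hS : S.Finite) (h : ∀ i, ∀ x ∈ S, π i x ∈ S) {x : X} (hx : x ∈ S)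
    (v : FreeGroup I) : FreeGroup.lift π v x ∈ S := by
  have key : ∀ v : FreeGroup I, ∀ x ∈ S, FreeGroup.lift π v x ∈ S := by
    intro v
    have hinv : ∀ i, ∀ x ∈ S, (π i)⁻¹ x ∈ S := by
      intro i x hx
      have h1 : Set.MapsTo (π i) S S := h i
      have h2 : Set.SurjOn (π i) S S :=
        (hS.injOn_iff_bijOn_of_mapsTo h1).mp (π i).injective.injOn |>.surjOn
      obtain ⟨y, hy, rfl⟩ := h2 hx
      have : (π i)⁻¹ (π i y) = y := (π i).symm_apply_apply y
      rwa [this]
    induction v using FreeGroup.induction_on with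
    | C1 => intro x hx; simpa using hx
    | of i => intro x hx; rw [FreeGroup.lift_apply_of]; exact h i x hx
    | inv_of i _ => intro x hx; rw [map_inv, FreeGroup.lift_apply_of]; exact hinv i x hx
    | mul a b ha hb => intro x hx; rw [map_mul, Equiv.Perm.mul_apply]; exact ha _ (hb _ hx)
  exact key v x hx

/-- the orbits are infinite -/
theorem gal_inf [Finite I]
    (hinf : ∀ x : X, (Set.range fun v : FreeGroup I => FreeGroup.lift π v x).Infinite)
    (y : Gal U p π) :
    (Set.range fun v : FreeGroup I => FreeGroup.lift (gp U p π) v y).Infinite := by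
  intro hfin
  obtain ⟨v0, rfl⟩ := gmk_surj y
  -- representatives
  choose r hr using fun z : Gal U p π => gmk_surj z
  set O := Set.range fun v : FreeGroup I => FreeGroup.lift (gp U p π) v (gmk U p π v0) with hO
  have h1 : ∀ᶠ l in (U : Filter Λ), ∀ z ∈ O, ∀ i, π i (FreeGroup.lift π (r z) (p l)) =
      FreeGroup.lift π (r (gp U p π i z)) (p l) := by
    rw [Filter.eventually_all_finite hfin]
    intro z _
    rw [Filter.eventually_all]
    intro i
    have h2 : gmk U p π (r (gp U p π i z)) = gmk U p π (FreeGroup.of i * r z) := by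
      rw [hr, ← gperm_mk, hr]
      rfl
    rw [gmk_eq] at h2
    filter_upwards [h2] with l hl
    rw [hl, map_mul, FreeGroup.lift_apply_of, Equiv.Perm.mul_apply]
  obtain ⟨l, hl⟩ := h1.exists
  set S : Set X := (fun z => FreeGroup.lift π (r z) (p l)) '' O with hS
  have hSf : S.Finite := hfin.image _
  have hclosed : ∀ i, ∀ x ∈ S, π i x ∈ S := by
    rintro i _ ⟨z, hz, rfl⟩
    refine ⟨gp U p π i z, ?_, (hl z hz i).symm⟩
    obtain ⟨v, rfl⟩ := hz
    refine ⟨FreeGroup.of i * v, ?_⟩
    simp only [map_mul, FreeGroup.lift_apply_of, Equiv.Perm.mul_apply]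
  have h0 : gmk U p π v0 ∈ O := ⟨1, by simp⟩
  have hmem : FreeGroup.lift π (r (gmk U p π v0)) (p l) ∈ S := ⟨_, h0, rfl⟩
  refine hinf (FreeGroup.lift π (r (gmk U p π v0)) (p l)) (hSf.subset ?_)
  rintro _ ⟨v, rfl⟩
  exact orbit_subset π hSf hclosed hmem v

end Pool.Agent.Work.MP_66343f_al
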