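import Pool.Agent.Work.MP_66343f_al.Free

/-!
# MP_66343f_al: the modified tuples have no short relations
-/

set_option autoImplicit false

namespace Pool.Agent.Work.MP_66343f_al

open SemidirectProduct Filter Function

namespace Cfg

variable {H Γ D I J S : Type} [Group H] [Group Γ] [Group D] (C : Cfg H Γ D I J S)

/-- the automorphism of a letter -/
def aa : Option (Kx I J S) → MulAut D
  | some (.inl i) => C.α i
  | _ => 1

/-- the translation of a letter -/
def ch : Option (Kx I J S) → Γ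
  | some (.inr (.inl j)) => C.γ j
  | _ => 1

theorem Lam_right (n : Option (Kx I J S) → ℕ) (R : Finset Γ) (σ : Γ) (e : Option (Kx I J S)) :
    (C.Lam n R σ e).2.right = (autL (C.aa e), C.ch e) := by
  rcases e with _ | i | j | ⟨s, b⟩
  · simp [Lam, nl, aa, ch]
    rfl
  · simp [Lam, gB, nl, aa, ch]
  · simp [Lam, gB, nl, aa, ch]
  · simp [Lam, gB, nl, aa, ch]
    rfl

theorem toPerm_app (f : MulAut (FP D)) (l : FP D) : MulAut.toPerm (FP D) f l = f l := rfl

theorem Lam_left {n : Option (Kx I J S) → ℕ} {R : Finset Γ} {σ : Γ} (h1 : (1 : Γ) ∉ R)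
    (h2 : σ ∉ R) (e : Option (Kx I J S)) (p : Γ) (hp : (C.ch e)⁻¹ * p ∈ R) :
    (C.Lam n R σ e).2.left p = autL (C.aa e) (cc C.xx (n e)) := by
  classical
  rcases e with _ | i | j | ⟨s, b⟩
  · simp only [ch, inv_one, one_mul] at hp
    simp only [Lam, Prod.snd_mul, nl_snd, aa]
    rw [ww_mul_left]
    have : p ≠ σ := fun h => h2 (h ▸ hp)
    simp [cf, hp, Pi.mulSingle_eq_of_ne this]
  · simp only [ch, inv_one, one_mul] at hp
    simp only [Lam, gB, Prod.snd_mul, nl_snd, aa]
    rw [ww_mul_left]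
    simp [cf, hp]
  · simp only [ch] at hp
    simp only [Lam, gB, Prod.snd_mul, nl_snd, aa]
    rw [ww_mul_left]
    simp [cf, hp]
  · simp only [ch, inv_one, one_mul] at hp
    simp only [Lam, gB, Prod.snd_mul, nl_snd, aa]
    rw [ww_mul_left]
    have : p ≠ 1 := fun h => h1 (h ▸ hp)
    simp [cf, hp, Pi.mulSingle_eq_of_ne this]

/-- the local permutation of a letter -/
noncomputable def th (n : Option (Kx I J S) → ℕ) (e : Option (Kx I J S)) : Equiv.Perm (FP D) :=
  MulAut.toPerm (FP D) (autL (C.aa e)) * Equiv.mulLeft (cc C.xx (n e))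

/-- all positions visited by the word are in `R` -/
def Good (R : Finset Γ) (χ : Option (Kx I J S) → Γ) : List (Option (Kx I J S) × Bool) → Γ → Prop
  | [], _ => True
  | (e, true) :: w, q => (χ e)⁻¹ * q ∈ R ∧ Good R χ w ((χ e)⁻¹ * q)
  | (e, false) :: w, q => q ∈ R ∧ Good R χ w (χ e * q)

theorem trace {n : Option (Kx I J S) → ℕ} {R : Finset Γ} {σ : Γ} (h1 : (1 : Γ) ∉ R)
    (h2 : σ ∉ R) (w : List (Option (Kx I J S) × Bool)) : ∀ q, Good R C.ch w q → ∀ l,
    (ev (fun e => (C.Lam n R σ e).2) w).left q *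
      (ev (fun e => (C.Lam n R σ e).2) w).right.1 l = (ev (C.th n) w) l := by
  induction w with
  | nil =>
    intro q _ l
    simp [ev]
  | cons a w ih =>
    intro q hq l
    obtain ⟨e, b⟩ := a
    rcases b with _ | _
    · obtain ⟨h3, h4⟩ := hq
      have e1 : ev (fun e => (C.Lam n R σ e).2) ((e, false) :: w) =
          ((C.Lam n R σ e).2)⁻¹ * ev (fun e => (C.Lam n R σ e).2) w := by
        simp [ev]
      have e2 : ev (C.th n) ((e, false) :: w) = (C.th n e)⁻¹ * ev (C.th n) w := by
        simp [ev]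
      have h5 := ih _ h4 l
      rw [e1, e2, ww_mul_left, mul_right, Equiv.Perm.mul_apply, ← h5, ww_inv_left, inv_right,
        C.Lam_right, C.Lam_left h1 h2 e (C.ch e * q) (by rwa [inv_mul_cancel_left])]
      symm
      rw [Equiv.Perm.inv_eq_iff_eq]
      simp only [Prod.inv_mk, inv_inv, Prod.fst_mul, MulAut.mul_apply]
      rw [th, Equiv.Perm.mul_apply, Equiv.coe_mulLeft, toPerm_app]
      simp only [map_mul, map_inv, MulAut.apply_inv_self, MulAut.inv_apply_self]
      group
    · obtain ⟨h3, h4⟩ := hq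
      have e1 : ev (fun e => (C.Lam n R σ e).2) ((e, true) :: w) =
          (C.Lam n R σ e).2 * ev (fun e => (C.Lam n R σ e).2) w := by
        simp [ev]
      have e2 : ev (C.th n) ((e, true) :: w) = C.th n e * ev (C.th n) w := by
        simp [ev]
      have h5 := ih _ h4 l
      rw [e1, e2, ww_mul_left, mul_right, Equiv.Perm.mul_apply, ← h5, C.Lam_right,
        C.Lam_left h1 h2 e q h3, th, Equiv.Perm.mul_apply, Equiv.coe_mulLeft,
        toPerm_app]
      simp only [Prod.fst_mul, MulAut.mul_apply, map_mul]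
      group

theorem good_of {R : Finset Γ} {χ : Option (Kx I J S) → Γ} {q : Γ} {ρ : ℕ}
    (hR : ∀ b ∈ Ball χ ρ, b * q ∈ R) (w : List (Option (Kx I J S) × Bool)) :
    ∀ (m : ℕ) (b : Γ), b ∈ Ball χ m → m + w.length ≤ ρ → Good R χ w (b * q) := by
  have mono : ∀ {m : ℕ} {b : Γ}, b ∈ Ball χ m → m ≤ ρ → b * q ∈ R := by
    rintro m b ⟨v, hv, rfl⟩ hm
    exact hR _ ⟨v, hv.trans hm, rfl⟩
  induction w with
  | nil => intro m b _ _; trivial
  | cons a w ih =>
    intro m b hb hm
    obtain ⟨e, c⟩ := a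
    rw [List.length_cons] at hm
    obtain ⟨v, hv, rfl⟩ := hb
    rcases c with _ | _
    · refine ⟨mono ⟨v, hv, rfl⟩ (by omega), ?_⟩
      rw [← mul_assoc]
      refine ih (m + 1) _ ⟨(e, true) :: v, by simpa using hv, ?_⟩ (by omega)
      simp [ev]
    · have h1 : (χ e)⁻¹ * ev χ v ∈ Ball χ (m + 1) :=
        ⟨(e, false) :: v, by simpa using hv, by simp [ev]⟩
      refine ⟨?_, ?_⟩
      · rw [← mul_assoc]
        exact mono h1 (by omega)
      · rw [← mul_assoc]
        exact ih (m + 1) _ h1 (by omega)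

theorem apx_free [Finite I] [Finite J] [Finite S] [Infinite Γ] :
    Apx C.Bs (FreeGroup.of : Option (Kx I J S) → FreeGroup (Option (Kx I J S))) := by
  classical
  intro W
  -- the length
  obtain ⟨ρ, hρ⟩ : ∃ ρ : ℕ, ∀ w ∈ W, w.toWord.length ≤ ρ :=
    ⟨W.sup fun w => w.toWord.length, fun w hw => Finset.le_sup (f := fun w => w.toWord.length) hw⟩
  obtain ⟨N, ⟨eN⟩⟩ := Finite.exists_equiv_fin (Option (Kx I J S))
  set n : Option (Kx I J S) → ℕ := fun e => (eN e : ℕ) with hn
  have hninj : Function.Injective n := fun a b h => eN.injective (Fin.ext h)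
  -- the region
  have hBf : (Ball C.ch ρ).Finite := by
    refine ((finite_words (ι := Option (Kx I J S)) ρ).image (ev C.ch)).subset ?_
    rintro _ ⟨w, hw, rfl⟩
    exact ⟨w, hw, rfl⟩
  obtain ⟨q, hq⟩ := Infinite.exists_notMem_finset ((hBf.image fun b => b⁻¹).toFinset)
  set R : Finset Γ := (hBf.image fun b => b * q).toFinset with hR
  have hRm : ∀ b ∈ Ball C.ch ρ, b * q ∈ R := by
    intro b hb
    rw [hR, Set.Finite.mem_toFinset]
    exact ⟨b, hb, rfl⟩
  have h1 : (1 : Γ) ∉ R := by
    intro h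
    rw [hR, Set.Finite.mem_toFinset] at h
    obtain ⟨b, hb, hb1⟩ := h
    apply hq
    rw [Set.Finite.mem_toFinset]
    exact ⟨b, hb, inv_eq_of_mul_eq_one_right hb1⟩
  obtain ⟨σ, hσ⟩ := Infinite.exists_notMem_finset (R ∪ Finset.image₂ (fun p' p => p' * p⁻¹) R R)
  rw [Finset.mem_union, not_or] at hσ
  have h3 : ∀ p ∈ R, σ * p ∉ R := by
    intro p hp h
    apply hσ.2
    rw [Finset.mem_image₂]
    exact ⟨σ * p, h, p, hp, by group⟩
  obtain ⟨s, hs, hsw⟩ := exists_sub (Bo_eq (C := C) (n := n) h1 hσ.1 h3)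
  refine ⟨s, hs, ?_⟩
  intro w hw
  have hid : FreeGroup.lift (FreeGroup.of : Option (Kx I J S) → _) w = w := by
    rw [FreeGroup.lift_of_eq_id]
    rfl
  rw [hid]
  constructor
  · intro h
    have h4 : FreeGroup.lift (C.Lam n R σ) w = 1 := by
      rw [← hsw w, h]
      rfl
    have h5 : FreeGroup.lift (fun e => (C.Lam n R σ e).2) w = 1 := by
      have : (MonoidHom.snd H (WW Γ (FP D))).comp (FreeGroup.lift (C.Lam n R σ)) =
          FreeGroup.lift (fun e => (C.Lam n R σ e).2) := by
        ext e : 1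
        simp
      rw [← this, MonoidHom.comp_apply, h4, map_one]
    have h6 : ev (fun e => (C.Lam n R σ e).2) w.toWord = 1 := by
      rw [ev_eq_lift, FreeGroup.mk_toWord, h5]
    have h7 : Good R C.ch w.toWord q := by
      have := good_of (χ := C.ch) hRm w.toWord 0 1 (one_mem_ball _ _) (by
        rw [zero_add]
        exact hρ w hw)
      rwa [one_mul] at this
    have h8 := C.trace (n := n) h1 hσ.1 w.toWord q h7
    rw [h6] at h8
    have h9 : FreeGroup.lift (C.th n) w = 1 := by
      have h10 : ev (C.th n) w.toWord = FreeGroup.lift (C.th n) w := by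
        rw [ev_eq_lift, FreeGroup.mk_toWord]
      rw [← h10]
      ext l
      rw [← h8 l]
      simp
    have : Nontrivial (Option (Kx I J S)) :=
      ⟨none, some (.inr (.inr (C.s0, 0))), by simp⟩
    exact twisted C.hs0 n hninj C.aa (h9.trans (map_one _).symm)
  · intro h
    rw [h, map_one]

end Cfg

/-- isomorphic images of free generators -/
theorem Apx.equiv {G ι κ : Type} [Group G] (h : Apx G (FreeGroup.of : ι → FreeGroup ι))
    (e : ι ≃ κ) : Apx G (fun i => (FreeGroup.of (e i) : FreeGroup κ)) := by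
  intro W
  obtain ⟨s, hs, hw⟩ := h W
  refine ⟨s, hs, fun w hwW => (hw w hwW).trans ?_⟩
  have h1 : FreeGroup.lift (fun i => (FreeGroup.of (e i) : FreeGroup κ)) =
      ((FreeGroup.freeGroupCongr e).toMonoidHom : FreeGroup ι →* FreeGroup κ).comp
        (FreeGroup.lift FreeGroup.of) := by
    ext i
    simp
  rw [h1, MonoidHom.comp_apply]
  exact ((FreeGroup.freeGroupCongr e).map_eq_one_iff (x := FreeGroup.lift FreeGroup.of w)).symm

/-- **Theorem T**: `H` lies at distance at most three from a free group. -/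
theorem Cfg.main {H Γ D I J S : Type} [Group H] [Group Γ] [Group D] [Finite I] [Finite J]
    [Finite S] [Infinite Γ] (C : Cfg H Γ D I J S) :
    ∃ (K B : Type) (_ : Group K) (_ : Group B) (k : Kx I J S → K),
      Subgroup.closure (Set.range k) = ⊤ ∧ Apx H k ∧ Preforms B K ∧
      Preforms B (FreeGroup (Fin (Nat.card (Option (Kx I J S))))) := by
  obtain ⟨K, hK, k, hk, h1, h2⟩ := C.exists_K
  refine ⟨K, C.Bs, hK, inferInstance, k, hk, h1, h2.preforms hk, ?_⟩
  have e : Option (Kx I J S) ≃ Fin (Nat.card (Option (Kx I J S))) := Finite.equivFin _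
  refine (C.apx_free.equiv e).preforms ?_
  rw [show (fun i => FreeGroup.of (e i)) = FreeGroup.of ∘ e from rfl, Set.range_comp,
    e.surjective.range_eq, Set.image_univ]
  exact FreeGroup.closure_range_of _

end Pool.Agent.Work.MP_66343f_al
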