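import Pool.Agent.Work.MP_66343f_al.TFree
import Pool.Agent.Work.MP_66343f_al.Gal
import Pool.Agent.Work.MP_66343f_al.Tstar

/-!
# MP_66343f_al: the modified tuples have no short relations (transport by all letters)
-/

set_option autoImplicit false

namespace Pool.Agent.Work.MP_66343f_al

open SemidirectProduct Filter Function

namespace TCfg

variable {H X D I : Type} [Group H] [Group D] (C : TCfg H X D I)

/-- the automorphism of a letter -/
def aao : Option (Kt I) → MulAut D
  | some e => C.aa e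
  | none => 1

/-- the permutation of a letter -/
def cho : Option (Kt I) → Equiv.Perm X
  | some e => C.ch e
  | none => 1

theorem gB_right (e : Kt I) : (C.gB e).2.right = (autL (C.aa e), C.ch e) := by
  rcases e with i | b
  · simp [gB, aa, ch]
  · simp [gB, aa, ch]
    rfl

variable {C} {E : C.Tr} {n : Option (Kt I) → ℕ} {R : Finset X} {v : FreeGroup I}

theorem Lam_right (e : Option (Kt I)) :
    (Lam E n R v e).2.right = (autL (C.aao e), C.cho e) := by
  rcases e with _ | e
  · simp [Lam, nlx, aao, cho]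
    rfl
  · simp only [Lam, Prod.snd_mul, mul_right, gB_right, nlx_snd, right_inl, mul_one]
    rfl

theorem AA_Lam (h1 : C.o ∉ R) (h2 : FreeGroup.lift C.π v C.o ∉ R)
    (e : Option (Kt I)) {q : X} (hq : q ∈ R) (hq' : (C.cho e)⁻¹ q ∈ R) (l : FP D) :
    AA (Lam E n R v e).2 q l =
      autL (C.aao e) (cc (E.xx ((C.cho e)⁻¹ q)) (n e) * l) := by
  classical
  unfold AA
  rw [Lam_right, map_mul]
  congr 1
  rcases e with _ | e
  · simp only [Lam, Prod.snd_mul, nlx_snd]
    have h3 : C.jf v q = 1 := by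
      unfold jf
      rw [Pi.mulSingle_eq_of_ne]
      intro h
      exact h2 (h ▸ hq)
    rw [wx_mul_left, left_inl, left_inl, right_inl]
    simp only [Prod.fst_one, Prod.snd_one, inv_one, Equiv.Perm.one_apply, MulAut.one_apply]
    rw [h3, mul_one, Tr.cf, cut_of_mem hq]
    simp [aao, cho]
  · simp only [Lam, Prod.snd_mul, nlx_snd]
    have h3 : (C.gB e).2.left q = 1 := by
      rcases e with i | b
      · simp [gB]
      · simp only [gB, left_inl]
        apply Pi.mulSingle_eq_of_ne
        intro h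
        exact h1 (h ▸ hq)
    rw [wx_mul_left, h3, one_mul, gB_right, left_inl]
    change autL (C.aa e) (E.cf R (n (some e)) ((C.ch e)⁻¹ q)) = _
    rw [Tr.cf, cut_of_mem (show (C.ch e)⁻¹ q ∈ R from hq')]
    rfl

theorem AA_Lam_inv (h1 : C.o ∉ R) (h2 : FreeGroup.lift C.π v C.o ∉ R)
    (e : Option (Kt I)) {q : X} (hq : q ∈ R) (hq' : C.cho e q ∈ R) (l : FP D) :
    AA (Lam E n R v e).2⁻¹ q l =
      (cc (E.xx q) (n e))⁻¹ * (autL (C.aao e)⁻¹ l) := by
  have h3 := AA_inv (Lam E n R v e).2 q l
  have h4 : (Lam E n R v e).2.right.2 = C.cho e := by rw [Lam_right]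
  rw [h4, AA_Lam h1 h2 e hq' (by rwa [pinv]), pinv] at h3
  rw [← h3, ← MulAut.mul_apply, ← map_mul, inv_mul_cancel, map_one, MulAut.one_apply,
    inv_mul_cancel_left, h3]

theorem trace (h1 : C.o ∉ R) (h2 : FreeGroup.lift C.π v C.o ∉ R)
    (hn : Injective n) (w : List (Option (Kt I) × Bool)) : FreeGroup.IsReduced w →
    ∀ q, Vis (fun p => p ∈ R) C.cho w q → ∀ e b, (e, b) ∈ w.head? →
      AA (ev (fun e => (Lam E n R v e).2) w) q 1 ∈ St D (pat (n e) ++ [if b then 0 else 2]) := by
  induction w with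
  | nil => intro _ q _ e b h; simp at h
  | cons a w ih =>
    intro hred q hq e b hab
    obtain rfl : a = (e, b) := by simpa using hab
    have hred' : FreeGroup.IsReduced w := by
      unfold FreeGroup.IsReduced at hred ⊢
      exact hred.tail
    -- the value of the rest
    have key : ∀ q', Vis (fun p => p ∈ R) C.cho w q' →
        AA (ev (fun e => (Lam E n R v e).2) w) q' 1 ∉ St D (pat (n e) ++ [if b then 2 else 0]) := by
      intro q' hq'
      rcases w with _ | ⟨⟨e', b'⟩, w'⟩
      · have : AA (ev (fun e => (Lam E n R v e).2) []) q' (1 : FP D) = 1 := by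
          simp [ev, AA_one]
        rw [this]
        exact one_notMem_St _ _
      · intro h3
        have h4 := ih hred' q' hq' e' b' (by simp)
        obtain ⟨h5, h6⟩ := pat_dis h4 h3
        have h7 : e = e' := (hn h5).symm
        have h8 : b = b' := by
          unfold FreeGroup.IsReduced at hred
          rw [List.isChain_cons_cons] at hred
          exact hred.1 h7
        subst h8
        rcases b with _ | _
        · exact absurd h6 (by decide)
        · exact absurd h6 (by decide)
    rcases b with _ | _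
    · obtain ⟨k1, k2, k3⟩ := hq
      have e1 : ev (fun e => (Lam E n R v e).2) ((e, false) :: w) =
          ((Lam E n R v e).2)⁻¹ * ev (fun e => (Lam E n R v e).2) w := by
        simp [ev]
      have e2 : ((Lam E n R v e).2)⁻¹.right.2⁻¹ = C.cho e := by
        rw [inv_right, Lam_right]
        simp
      rw [e1, AA_mul, e2, AA_Lam_inv h1 h2 e k1 k2]
      refine pong (E.hxx _) _ fun h => ?_
      exact key _ k3 ((autL_mem_St_iff (C.aao e)⁻¹).1 h)
    · obtain ⟨k1, k2, k3⟩ := hq
      have e1 : ev (fun e => (Lam E n R v e).2) ((e, true) :: w) =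
          (Lam E n R v e).2 * ev (fun e => (Lam E n R v e).2) w := by
        simp [ev]
      have e2 : (Lam E n R v e).2.right.2⁻¹ = (C.cho e)⁻¹ := by
        rw [Lam_right]
      rw [e1, AA_mul, e2, AA_Lam h1 h2 e k1 k2]
      exact autL_mem_St _ (ping (E.hxx _) _ (key _ k3))

/-- the letters as words in the permutations -/
def tt : Option (Kt I) → FreeGroup I
  | some (.inl i) => FreeGroup.of i
  | _ => 1

theorem cho_eq (e : Option (Kt I)) : C.cho e = FreeGroup.lift C.π (tt e) := by
  rcases e with _ | (i | b)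
  · simp [cho, tt]
  · simp [cho, ch, tt]
  · simp [cho, ch, tt]

theorem ev_cho (w : List (Option (Kt I) × Bool)) :
    ev C.cho w = FreeGroup.lift C.π (ev tt w) := by
  rw [ev_eq_lift, ev_eq_lift, lift_subst]
  congr 2
  funext e
  exact cho_eq e

/-- the positions of the path -/
def Pth (C : TCfg H X D I) (L : List (I × Bool)) : Set X := {x | ∃ L', L' <:+ L ∧ x = ev C.π L' C.o}

theorem Pth_finite (L : List (I × Bool)) : (Pth C L).Finite := by
  induction L with
  | nil =>
    refine (Set.finite_singleton (ev C.π [] C.o)).subset ?_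
    rintro x ⟨L', hL', rfl⟩
    rw [List.suffix_nil.mp hL']
    rfl
  | cons a L ih =>
    refine (ih.insert (ev C.π (a :: L) C.o)).subset ?_
    rintro x ⟨L', hL', rfl⟩
    rcases List.suffix_cons_iff.mp hL' with rfl | h
    · exact Or.inl rfl
    · exact Or.inr ⟨L', h, rfl⟩

theorem avo_of {L : List (I × Bool)} (h : ∀ x ∈ Pth C L, x ∉ R) : C.Avo R L := by
  induction L with
  | nil =>
    have := h (ev C.π [] C.o) ⟨[], List.suffix_rfl, rfl⟩
    simpa [ev, Avo] using this
  | cons a L ih =>
    refine ⟨h _ ⟨_, List.suffix_rfl, rfl⟩, ih fun x hx => h x ?_⟩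
    obtain ⟨L', hL', rfl⟩ := hx
    exact ⟨L', hL'.trans (List.suffix_cons a L), rfl⟩

variable (C)

/-- the choice of the region -/
theorem exists_region [Finite I] (ρ : ℕ) : ∃ (q : X) (L : List (I × Bool)) (R : Finset X),
    (∀ u ∈ Ball C.cho ρ, u q ∈ R) ∧ (∀ x ∈ Pth C L, x ∉ R) ∧
    ∀ p ∈ R, ev C.π L p ∉ R := by
  classical
  have := C.hinf
  have hinf : ∀ x : X, (Set.range fun v : FreeGroup I => FreeGroup.lift C.π v x).Infinite := by
    intro x
    have h1 : (Set.range fun v : FreeGroup I => FreeGroup.lift C.π v x) = Set.univ := by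
      rw [Set.eq_univ_iff_forall]
      intro y
      obtain ⟨a, ha⟩ := C.htr x
      obtain ⟨b, hb⟩ := C.htr y
      refine ⟨b * a⁻¹, ?_⟩
      simp only [map_mul, map_inv, Equiv.Perm.mul_apply]
      rw [← ha, pinv, hb]
    rw [h1]
    exact Set.infinite_univ
  set U : Ultrafilter X := hyperfilter X with hU
  have hUle : (U : Filter X) ≤ cofinite := hyperfilter_le_cofinite
  have hWf : ({w : List (Option (Kt I) × Bool) | w.length ≤ ρ}.image (ev tt)).Finite :=
    (finite_words ρ).image _
  set Wd : Finset (FreeGroup I) := hWf.toFinset with hWd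
  have hWm : ∀ w : List (Option (Kt I) × Bool), w.length ≤ ρ → ev tt w ∈ Wd := fun w hw =>
    hWf.mem_toFinset.mpr ⟨w, hw, rfl⟩
  obtain ⟨v, hv⟩ := sepN (gp U id C.π) (gal_inf U id C.π hinf) (Wd.image (gmk U id C.π))
  have h1 : ∀ᶠ q in (U : Filter X), ∀ u ∈ Wd, ∀ u' ∈ Wd,
      FreeGroup.lift C.π v (FreeGroup.lift C.π u q) ≠ FreeGroup.lift C.π u' q := by
    rw [Filter.eventually_all_finset]
    intro u hu
    rw [Filter.eventually_all_finset]
    intro u' hu'
    have h2 := hv _ (Finset.mem_image_of_mem _ hu)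
    rw [lift_gp_mk] at h2
    have h3 : gmk U id C.π (v * u) ≠ gmk U id C.π u' := fun h =>
      h2 (h ▸ Finset.mem_image_of_mem _ hu')
    rw [Ne, gmk_eq, ← Ultrafilter.eventually_not] at h3
    filter_upwards [h3] with q hq
    rw [map_mul, Equiv.Perm.mul_apply] at hq
    exact hq
  have hbad : (⋃ u ∈ Wd, (fun x => (FreeGroup.lift C.π u)⁻¹ x) '' Pth C v.toWord).Finite :=
    Set.Finite.biUnion Wd.finite_toSet fun u _ => (Pth_finite _).image _
  have h2 : ∀ᶠ q in (U : Filter X),
      q ∉ ⋃ u ∈ Wd, (fun x => (FreeGroup.lift C.π u)⁻¹ x) '' Pth C v.toWord :=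
    hUle hbad.compl_mem_cofinite
  obtain ⟨q, hq1, hq2⟩ := (h1.and h2).exists
  refine ⟨q, v.toWord, Wd.image fun u => FreeGroup.lift C.π u q, ?_, ?_, ?_⟩
  · rintro _ ⟨w, hw, rfl⟩
    rw [ev_cho]
    exact Finset.mem_image_of_mem (fun u => FreeGroup.lift C.π u q) (hWm w hw)
  · intro x hx hxR
    obtain ⟨u, hu, rfl⟩ := Finset.mem_image.mp hxR
    apply hq2
    rw [Set.mem_iUnion₂]
    exact ⟨u, hu, _, hx, pinv _ _⟩
  · intro p hp hp'
    rw [ev_eq_lift, FreeGroup.mk_toWord] at hp'
    obtain ⟨u, hu, rfl⟩ := Finset.mem_image.mp hp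
    obtain ⟨u', hu', h3⟩ := Finset.mem_image.mp hp'
    exact hq1 u hu u' hu' h3.symm

theorem apx_free [Finite I] :
    Apx C.Bs (FreeGroup.of : Option (Kt I) → FreeGroup (Option (Kt I))) := by
  classical
  intro W
  obtain ⟨E⟩ := C.exists_tr
  -- the length
  obtain ⟨ρ, hρ⟩ : ∃ ρ : ℕ, ∀ w ∈ W, w.toWord.length ≤ ρ :=
    ⟨W.sup fun w => w.toWord.length, fun w hw => Finset.le_sup (f := fun w => w.toWord.length) hw⟩
  obtain ⟨N, ⟨eN⟩⟩ := Finite.exists_equiv_fin (Option (Kt I))
  set n : Option (Kt I) → ℕ := fun e => (eN e : ℕ) with hn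
  have hninj : Function.Injective n := fun a b h => eN.injective (Fin.ext h)
  -- the region
  obtain ⟨q, Lv, R, hRm, hP, h3⟩ := C.exists_region ρ
  set v : FreeGroup I := FreeGroup.mk Lv with hvd
  have h1 : C.o ∉ R := by
    have := hP (ev C.π [] C.o) ⟨[], List.nil_suffix, rfl⟩
    simpa [ev] using this
  have hevv : ev C.π Lv = FreeGroup.lift C.π v := by
    rw [ev_eq_lift]
  rw [hevv] at h3
  have h2 : FreeGroup.lift C.π v C.o ∉ R := by
    have := hP (ev C.π Lv C.o) ⟨Lv, List.suffix_rfl, rfl⟩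
    rwa [hevv] at this
  have h4 : (Wv E n R v v).2.left (FreeGroup.lift C.π v C.o) = 1 := by
    have h5 := Wv_left (E := E) (n := n) (v := v) (avo_of (R := R) hP)
    rw [hevv, ev_eq_lift] at h5
    exact h5
  obtain ⟨s, hs, hsw⟩ := exists_sub' (Bo_eq (C := C) (E := E) (n := n) h1 h2 h3 h4)
  refine ⟨s, hs, ?_⟩
  intro w hw
  have hid : FreeGroup.lift (FreeGroup.of : Option (Kt I) → _) w = w := by
    rw [FreeGroup.lift_of_eq_id]
    rfl
  rw [hid]
  constructor
  · intro h
    by_contra hne
    have h4 : FreeGroup.lift (Lam E n R v) w = 1 := by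
      rw [← hsw w, h]
      rfl
    have h5 : FreeGroup.lift (fun e => (Lam E n R v e).2) w = 1 := by
      have : (MonoidHom.snd H (WX X (FP D))).comp (FreeGroup.lift (Lam E n R v)) =
          FreeGroup.lift (fun e => (Lam E n R v e).2) := by
        ext e : 1
        simp
      rw [← this, MonoidHom.comp_apply, h4, map_one]
    have h6 : ev (fun e => (Lam E n R v e).2) w.toWord = 1 := by
      rw [ev_eq_lift, FreeGroup.mk_toWord, h5]
    have h7 : Vis (fun p => p ∈ R) C.cho w.toWord q := vis_of' hRm (hρ w hw)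
    obtain ⟨⟨e, b⟩, L, hL⟩ : ∃ a L, w.toWord = a :: L := by
      rcases hl : w.toWord with _ | ⟨a, L⟩
      · exact absurd (FreeGroup.toWord_eq_nil_iff.mp hl) hne
      · exact ⟨a, L, rfl⟩
    have h8 := trace (E := E) h1 h2 hninj w.toWord FreeGroup.isReduced_toWord q h7 e b (by rw [hL]; simp)
    rw [h6, AA_one] at h8
    exact one_notMem_St _ _ h8
  · intro h
    rw [h, map_one]

include C in
/-- **Theorem T** (transport by all letters): `H` lies at distance at most three from a free
group. -/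
theorem main [Finite I] :
    ∃ (K B : Type) (_ : Group K) (_ : Group B) (k : Kt I → K),
      Subgroup.closure (Set.range k) = ⊤ ∧ Apx H k ∧ Preforms B K ∧
      Preforms B (FreeGroup (Fin (Nat.card (Option (Kt I))))) := by
  obtain ⟨K, hK, k, hk, h1, h2⟩ := C.exists_K
  refine ⟨K, C.Bs, hK, inferInstance, k, hk, h1, h2.preforms hk, ?_⟩
  have e : Option (Kt I) ≃ Fin (Nat.card (Option (Kt I))) := Finite.equivFin _
  refine (C.apx_free.equiv e).preforms ?_
  rw [show (fun i => FreeGroup.of (e i)) = FreeGroup.of ∘ e from rfl, Set.range_comp,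
    e.surjective.range_eq, Set.image_univ]
  exact FreeGroup.closure_range_of _

end TCfg

end Pool.Agent.Work.MP_66343f_al
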