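import Pool.Agent.Work.MP_66343f_al.DSum
import Pool.Agent.Work.MP_66343f_al.TMain

/-!
# MP_66343f_al: direct sums of conjugates give configurations
-/

set_option autoImplicit false

namespace Pool.Agent.Work.MP_66343f_al

open SemidirectProduct Filter Function

namespace DS

variable {Q X G I : Type} [Group Q] [Group G] (C : DS Q X) (f : G →* Q) (g : I → G)
  (xt : ℕ → G) (pt : ℕ → X) (U : Ultrafilter ℕ)

/-- the ultrapower -/
abbrev Ul (U : Ultrafilter ℕ) (Q : Type) : Type := (U : Filter ℕ).Germ Q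

/-- the tuples -/
def sn (n : ℕ) : I ⊕ Unit → G
  | .inl i => g i
  | .inr _ => xt n

/-- the words without the last letter, evaluated in `Q` -/
def gbar : FreeGroup (I ⊕ Unit) →* Q := FreeGroup.lift (Sum.elim (fun i => f (g i)) fun _ => 1)

/-- the words without the last letter -/
def wbar : FreeGroup (I ⊕ Unit) →* FreeGroup I :=
  FreeGroup.lift (Sum.elim FreeGroup.of fun _ => 1)

/-- the permutations of the letters -/
def pg (i : I) : Equiv.Perm X := C.act (f (g i))

theorem act_gbar (w : FreeGroup (I ⊕ Unit)) :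
    C.act (gbar f g w) = FreeGroup.lift (C.pg f g) (wbar w) := by
  have : C.act.comp (gbar f g) = (FreeGroup.lift (C.pg f g)).comp wbar := by
    ext e : 1
    rcases e with i | _
    · simp [gbar, wbar, pg]
    · simp [gbar, wbar]
  exact DFunLike.congr_fun this w

/-! ## Level `n` -/

/-- the element `Ψ` describes `e`, with base `a` -/
def Good (Ψ : WX X Q) (e a : Q) : Prop :=
  Ψ.right = (MulAut.conj a, C.act a) ∧ C.Rl Ψ.left (e * a⁻¹)

variable {C}

theorem Good.mul {Ψ Ψ' : WX X Q} {e e' a a' : Q} (h : C.Good Ψ e a) (h' : C.Good Ψ' e' a') :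
    C.Good (Ψ * Ψ') (e * e') (a * a') := by
  refine ⟨?_, ?_⟩
  · rw [mul_right, h.1, h'.1, map_mul, map_mul]
    rfl
  · have h1 := h.2.mul (h'.2.conj a)
    have h2 : (Ψ * Ψ').left = fun p => Ψ.left p * (a * Ψ'.left ((C.act a)⁻¹ p) * a⁻¹) := by
      funext p
      rw [wx_mul_left, h.1]
      rfl
    have h3 : e * e' * (a * a')⁻¹ = e * a⁻¹ * (a * (e' * a'⁻¹) * a⁻¹) := by group
    rw [h2, h3]
    exact h1

theorem Good.inv {Ψ : WX X Q} {e a : Q} (h : C.Good Ψ e a) : C.Good Ψ⁻¹ e⁻¹ a⁻¹ := by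
  refine ⟨?_, ?_⟩
  · rw [inv_right, h.1, map_inv, map_inv]
    rfl
  · have h1 := h.2.inv.conj a⁻¹
    have h2 : (Ψ⁻¹).left = fun p => a⁻¹ * (Ψ.left ((C.act a⁻¹)⁻¹ p))⁻¹ * (a⁻¹)⁻¹ := by
      funext p
      rw [wx_inv_left, h.1, map_inv C.act, inv_inv, inv_inv]
      change (MulAut.conj a)⁻¹ (Ψ.left (C.act a p))⁻¹ = a⁻¹ * (Ψ.left (C.act a p))⁻¹ * a
      rw [← map_inv MulAut.conj, MulAut.conj_apply, inv_inv]
    have h3 : e⁻¹ * (a⁻¹)⁻¹ = a⁻¹ * (e * a⁻¹)⁻¹ * (a⁻¹)⁻¹ := by group
    rw [h2, h3]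
    exact h1

variable (C)

open Classical in
/-- the letters at level `n` -/
noncomputable def phn (n : ℕ) : I ⊕ Unit → WX X Q
  | .inl i => inr (MulAut.conj (f (g i)), C.act (f (g i)))
  | .inr _ => inl (Pi.mulSingle (pt n) (f (xt n)))

theorem good_phn (hx : ∀ n, f (xt n) ∈ C.N (pt n)) (n : ℕ) (e : I ⊕ Unit) :
    C.Good (C.phn f g xt pt n e) (f (sn g xt n e)) (gbar f g (FreeGroup.of e)) := by
  classical
  rcases e with i | _
  · refine ⟨?_, ?_⟩
    · simp [phn, gbar]
    · have : (C.phn f g xt pt n (.inl i)).left = fun _ => 1 := by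
        simp only [phn, left_inr]
        rfl
      rw [this]
      simp only [gbar, FreeGroup.lift_apply_of, Sum.elim_inl, sn, mul_inv_cancel]
      exact C.rl_one
  · refine ⟨?_, ?_⟩
    · simp [phn, gbar]
      rfl
    · simp only [gbar, FreeGroup.lift_apply_of, Sum.elim_inr, sn, inv_one, mul_one, phn, left_inl]
      exact rl_single (hx n)

theorem good_lift (hx : ∀ n, f (xt n) ∈ C.N (pt n)) (n : ℕ) (w : FreeGroup (I ⊕ Unit)) :
    C.Good (FreeGroup.lift (C.phn f g xt pt n) w) (f (FreeGroup.lift (sn g xt n) w))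
      (gbar f g w) := by
  induction w using FreeGroup.induction_on with
  | C1 =>
    refine ⟨?_, ?_⟩
    · simp
      rfl
    · simp only [map_one, inv_one, mul_one, one_left]
      exact C.rl_one
  | of e =>
    rw [FreeGroup.lift_apply_of, FreeGroup.lift_apply_of]
    exact C.good_phn f g xt pt hx n e
  | inv_of e _ =>
    rw [map_inv, map_inv, map_inv, map_inv, FreeGroup.lift_apply_of, FreeGroup.lift_apply_of]
    exact (C.good_phn f g xt pt hx n e).inv
  | mul a b ha hb =>
    rw [map_mul, map_mul, map_mul, map_mul]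
    exact ha.mul hb

/-- at a fixed site nothing happens -/
theorem fixed_site (hx : ∀ n, f (xt n) ∈ C.N (pt n)) (hpt : Injective pt)
    (hU : (U : Filter ℕ) ≤ cofinite) (w : FreeGroup (I ⊕ Unit)) :
    ∀ p, ∀ᶠ n in (U : Filter ℕ), (FreeGroup.lift (C.phn f g xt pt n) w).left p = 1 := by
  classical
  have hgen : ∀ (e : I ⊕ Unit) p, ∀ᶠ n in (U : Filter ℕ), (C.phn f g xt pt n e).left p = 1 := by
    intro e p
    rcases e with i | _
    · exact Eventually.of_forall fun n => by simp [phn]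
    · have h1 : {n | pt n = p}.Finite := by
        refine Set.Subsingleton.finite ?_
        intro a ha b hb
        exact hpt (ha.trans hb.symm)
      have h2 : ∀ᶠ n in (U : Filter ℕ), pt n ≠ p := hU h1.compl_mem_cofinite
      filter_upwards [h2] with n hn
      simp only [phn, left_inl]
      exact Pi.mulSingle_eq_of_ne (fun h => hn h.symm) _
  induction w using FreeGroup.induction_on with
  | C1 => intro p; simp
  | of e =>
    intro p
    filter_upwards [hgen e p] with n hn
    rw [FreeGroup.lift_apply_of, hn]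
  | inv_of e _ =>
    intro p
    have h1 := hgen e (C.act (gbar f g (FreeGroup.of e)) p)
    filter_upwards [h1] with n hn
    rw [map_inv, FreeGroup.lift_apply_of, wx_inv_left, (C.good_phn f g xt pt hx n e).1]
    simp only
    rw [hn, inv_one, map_one]
  | mul a b ha hb =>
    intro p
    have h1 := hb ((C.act (gbar f g a))⁻¹ p)
    filter_upwards [ha p, h1] with n hn hn'
    rw [map_mul, wx_mul_left, hn, (C.good_lift f g xt pt hx n a).1, one_mul]
    simp only
    rw [hn', map_one]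

/-! ## The limit -/

/-- constants -/
def cst (U : Ultrafilter ℕ) (Q : Type) [Group Q] : Q →* Ul U Q where
  toFun q := ((fun _ => q : ℕ → Q) : Ul U Q)
  map_one' := rfl
  map_mul' := fun _ _ => rfl

/-- the sites -/
abbrev Xs : Type := Gal U pt (C.pg f g)

open Classical in
/-- the letters of the limit -/
noncomputable def phi : I ⊕ Unit → WX (C.Xs f g pt U) (Ul U Q)
  | .inl i => inr (MulAut.conj (cst U Q (f (g i))), gp U pt (C.pg f g) i)
  | .inr _ => inl (Pi.mulSingle (gmk U pt (C.pg f g) 1) ((fun n => f (xt n) : ℕ → Q) : Ul U Q))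

/-- comparison of the levels with the limit -/
structure Cmp (Ψ : WX (C.Xs f g pt U) (Ul U Q)) (Ψn : ℕ → WX X Q) (a : Q) (u : FreeGroup I) :
    Prop where
  r : Ψ.right = (MulAut.conj (cst U Q a), gperm U pt (C.pg f g) u)
  rn : ∀ n, (Ψn n).right = (MulAut.conj a, FreeGroup.lift (C.pg f g) u)
  l : ∀ v, Ψ.left (gmk U pt (C.pg f g) v) =
    ((fun n => (Ψn n).left (FreeGroup.lift (C.pg f g) v (pt n)) : ℕ → Q) : Ul U Q)

variable {C f g pt U}

theorem Cmp.mul {Ψ Ψ' : WX (C.Xs f g pt U) (Ul U Q)} {Ψn Ψn' : ℕ → WX X Q} {a a' : Q}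
    {u u' : FreeGroup I} (h : C.Cmp f g pt U Ψ Ψn a u) (h' : C.Cmp f g pt U Ψ' Ψn' a' u') :
    C.Cmp f g pt U (Ψ * Ψ') (fun n => Ψn n * Ψn' n) (a * a') (u * u') := by
  refine ⟨?_, ?_, ?_⟩
  · rw [mul_right, h.r, h'.r, map_mul, map_mul, map_mul]
    rfl
  · intro n
    rw [mul_right, h.rn, h'.rn, map_mul, map_mul]
    rfl
  · intro v
    have h1 : (gperm U pt (C.pg f g) u)⁻¹ (gmk U pt (C.pg f g) v) =
        gmk U pt (C.pg f g) (u⁻¹ * v) := by
      rw [← map_inv, gperm_mk]
    rw [wx_mul_left, h.r, h.l]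
    simp only
    rw [h1, h'.l]
    have h2 : (fun n => (Ψn n * Ψn' n).left (FreeGroup.lift (C.pg f g) v (pt n))) =
        fun n => (Ψn n).left (FreeGroup.lift (C.pg f g) v (pt n)) *
          (a * (Ψn' n).left (FreeGroup.lift (C.pg f g) (u⁻¹ * v) (pt n)) * a⁻¹) := by
      funext n
      rw [wx_mul_left, h.rn, map_mul, map_inv]
      rfl
    rw [h2]
    rfl

theorem Cmp.inv {Ψ : WX (C.Xs f g pt U) (Ul U Q)} {Ψn : ℕ → WX X Q} {a : Q}
    {u : FreeGroup I} (h : C.Cmp f g pt U Ψ Ψn a u) :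
    C.Cmp f g pt U Ψ⁻¹ (fun n => (Ψn n)⁻¹) a⁻¹ u⁻¹ := by
  refine ⟨?_, ?_, ?_⟩
  · rw [inv_right, h.r, map_inv, map_inv, map_inv]
    rfl
  · intro n
    rw [inv_right, h.rn, map_inv, map_inv]
    rfl
  · intro v
    rw [wx_inv_left, h.r]
    simp only
    rw [gperm_mk, h.l]
    have h2 : (fun n => ((Ψn n)⁻¹).left (FreeGroup.lift (C.pg f g) v (pt n))) =
        fun n => a⁻¹ * ((Ψn n).left (FreeGroup.lift (C.pg f g) (u * v) (pt n)))⁻¹ * a⁻¹⁻¹ := by
      funext n
      rw [wx_inv_left, h.rn, map_mul, ← map_inv]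
      rfl
    rw [h2, ← map_inv, ← map_inv]
    rfl

variable (C f g pt U)

theorem cmp_phi (e : I ⊕ Unit) : C.Cmp f g pt U (C.phi f g xt pt U e)
    (fun n => C.phn f g xt pt n e) (gbar f g (FreeGroup.of e)) (wbar (FreeGroup.of e)) := by
  classical
  rcases e with i | _
  · refine ⟨?_, ?_, ?_⟩
    · simp [phi, gbar, wbar, gp]
    · intro n
      simp [phn, gbar, wbar, pg]
    · intro v
      simp only [phi, phn, left_inr]
      rfl
  · refine ⟨?_, ?_, ?_⟩
    · simp [phi, gbar, wbar]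
      rfl
    · intro n
      simp [phn, gbar, wbar]
      rfl
    · intro v
      simp only [phi, phn, left_inl]
      by_cases h : gmk U pt (C.pg f g) v = gmk U pt (C.pg f g) 1
      · rw [h, Pi.mulSingle_eq_same]
        rw [gmk_eq] at h
        refine Filter.Germ.coe_eq.mpr ?_
        filter_upwards [h] with n hn
        rw [hn, map_one, Equiv.Perm.one_apply, Pi.mulSingle_eq_same]
      · rw [Pi.mulSingle_eq_of_ne h]
        rw [gmk_eq, ← Ultrafilter.eventually_not] at h
        have : ((fun _ => 1 : ℕ → Q) : Ul U Q) = 1 := rfl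
        rw [← this]
        refine Filter.Germ.coe_eq.mpr ?_
        filter_upwards [h] with n hn
        rw [Pi.mulSingle_eq_of_ne]
        simpa using hn

theorem cmp_lift (w : FreeGroup (I ⊕ Unit)) :
    C.Cmp f g pt U (FreeGroup.lift (C.phi f g xt pt U) w)
      (fun n => FreeGroup.lift (C.phn f g xt pt n) w) (gbar f g w) (wbar w) := by
  induction w using FreeGroup.induction_on with
  | C1 =>
    simp only [map_one]
    refine ⟨?_, ?_, ?_⟩
    · simp
      rfl
    · intro n
      simp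
      rfl
    · intro v
      rfl
  | of e =>
    simp only [FreeGroup.lift_apply_of]
    exact C.cmp_phi f g xt pt U e
  | inv_of e _ =>
    simp only [map_inv, FreeGroup.lift_apply_of]
    exact (C.cmp_phi f g xt pt U e).inv
  | mul a b ha hb =>
    simp only [map_mul]
    exact ha.mul hb

/-- relations of the limit hold in the wreath product -/
theorem phi_rel (hx : ∀ n, f (xt n) ∈ C.N (pt n)) (hpt : Injective pt)
    (hU : (U : Filter ℕ) ≤ cofinite) (w : FreeGroup (I ⊕ Unit))
    (hw : ∀ᶠ n in (U : Filter ℕ), FreeGroup.lift (sn g xt n) w = 1) :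
    FreeGroup.lift (C.phi f g xt pt U) w = 1 := by
  have h1 : ∀ᶠ n in (U : Filter ℕ), C.Rl (FreeGroup.lift (C.phn f g xt pt n) w).left
      (gbar f g w)⁻¹ := by
    filter_upwards [hw] with n hn
    have h2 := (C.good_lift f g xt pt hx n w).2
    rwa [hn, map_one, one_mul] at h2
  -- the components are trivial
  have h2 : ∀ᶠ n in (U : Filter ℕ), (FreeGroup.lift (C.phn f g xt pt n) w).left = fun _ => 1 := by
    filter_upwards [h1] with n hn
    funext p
    obtain ⟨n', hn', hn''⟩ := (h1.and (C.fixed_site f g xt pt U hx hpt hU w p)).exists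
    rw [hn.unique hn', hn'']
  obtain ⟨n0, hn0, hn0'⟩ := (h1.and h2).exists
  rw [hn0'] at hn0
  have h3 : gbar f g w = 1 := inv_eq_one.mp hn0.eq_one
  have h4 := C.cmp_lift f g xt pt U w
  refine SemidirectProduct.ext ?_ ?_
  · funext y
    obtain ⟨v, rfl⟩ := gmk_surj y
    rw [h4.l]
    have : ((fun _ => 1 : ℕ → Q) : Ul U Q) = 1 := rfl
    rw [one_left, Pi.one_apply, ← this]
    refine Filter.Germ.coe_eq.mpr ?_
    filter_upwards [h2] with n hn
    rw [hn]
  · rw [h4.r, h3, map_one, map_one, one_right]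
    refine Prod.ext rfl ?_
    apply Equiv.ext
    intro y
    obtain ⟨v, rfl⟩ := gmk_surj y
    change gperm U pt (C.pg f g) (wbar w) (gmk U pt (C.pg f g) v) = gmk U pt (C.pg f g) v
    rw [gperm_mk, gmk_eq]
    refine Eventually.of_forall fun n => ?_
    rw [map_mul, ← C.act_gbar, h3, map_one, one_mul]

end DS

end Pool.Agent.Work.MP_66343f_al
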