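import Pool.Agent.Work.MP_66343f_al.Sep2

/-!
# MP_66343f_al: groups separating a set lie next to the free groups
-/

set_option autoImplicit false

namespace Pool.Agent.Work.MP_66343f_al

open Function

theorem sep_preforms {G X : Type} [Group G] {ρ : G →* Equiv.Perm X} {𝓘 : Set (Set X)}
    (h : LargeAction ρ 𝓘) {r : ℕ} (s : Fin r → G) (hs : Subgroup.closure (Set.range s) = ⊤) (m : ℕ)
    (hm : 2 * r + 1 ≤ m) : Preforms G (FreeGroup (Fin m)) := by
  have h1 := sep_apx (Z := Fin (m - r - 1)) h s hs (Fin.castLE (by omega))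
    (Fin.castLE_injective _)
  have hc : Nat.card (Fin r ⊕ Option (Fin (m - r - 1))) = m := by
    rw [Nat.card_eq_fintype_card, Fintype.card_sum, Fintype.card_option, Fintype.card_fin,
      Fintype.card_fin]
    omega
  have e : Fin r ⊕ Option (Fin (m - r - 1)) ≃ Fin m := Finite.equivFinOfCardEq hc
  refine (h1.equiv e).preforms ?_
  rw [show (fun i => FreeGroup.of (e i)) = FreeGroup.of ∘ e from rfl, Set.range_comp,
    e.surjective.range_eq, Set.image_univ]
  exact FreeGroup.closure_range_of _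

/-- the shift -/
def shf : Equiv.Perm ℤ := Equiv.addRight 1

theorem shf_apply (x : ℤ) : shf x = x + 1 := rfl

theorem shf_zpow (n x : ℤ) : (shf ^ n) x = x + n := by
  induction n using Int.induction_on with
  | zero => simp
  | succ n ih =>
    rw [add_comm, zpow_add, Equiv.Perm.mul_apply, ih, zpow_one, shf_apply]
    ring
  | pred n ih =>
    rw [sub_eq_add_neg, add_comm, zpow_add, Equiv.Perm.mul_apply, ih, zpow_neg_one]
    rw [Equiv.Perm.inv_eq_iff_eq, shf_apply]
    ring

/-- the action of the free group on the integers -/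
def f2z : FreeGroup (Fin 2) →* Equiv.Perm ℤ :=
  FreeGroup.lift fun i => if i = 0 then shf else Equiv.swap 0 1

theorem swap_mem (n : ℤ) (k : ℕ) : Equiv.swap n (n + k + 1) ∈ f2z.range := by
  have h0 : shf ∈ f2z.range := ⟨FreeGroup.of 0, by rw [f2z, FreeGroup.lift_apply_of]; rfl⟩
  have h1 : Equiv.swap (0 : ℤ) 1 ∈ f2z.range :=
    ⟨FreeGroup.of 1, by rw [f2z, FreeGroup.lift_apply_of]; rfl⟩
  have h2 : ∀ m : ℤ, Equiv.swap m (m + 1) ∈ f2z.range := by
    intro m
    have h3 : Equiv.swap m (m + 1) = shf ^ m * Equiv.swap 0 1 * (shf ^ m)⁻¹ := by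
      rw [← Equiv.swap_apply_apply, shf_zpow, shf_zpow]
      congr 1
      · ring
      · ring
    rw [h3]
    exact mul_mem (mul_mem (zpow_mem h0 _) h1) (inv_mem (zpow_mem h0 _))
  induction k with
  | zero => simpa using h2 n
  | succ k ih =>
    have h3 : Equiv.swap n (n + ((k + 1 : ℕ) : ℤ) + 1) = Equiv.swap (n + k + 1) (n + k + 1 + 1) *
        Equiv.swap n (n + k + 1) * Equiv.swap (n + k + 1) (n + k + 1 + 1) := by
      rw [Equiv.swap_mul_swap_mul_swap (by omega) (by omega), Equiv.swap_comm]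
      congr 1
      push_cast
      ring
    rw [h3]
    exact mul_mem (mul_mem (h2 _) ih) (h2 _)

theorem f2z_sep : Separates f2z := by
  intro Y p hp
  obtain ⟨k, hk⟩ : ∃ k : ℕ, p + k + 1 ∉ Y := by
    by_contra hcon
    push Not at hcon
    have hinj : Injective fun k : ℕ => p + (k : ℤ) + 1 := by
      intro a b hab
      simp only at hab
      omega
    have hsub : Set.range (fun k : ℕ => p + (k : ℤ) + 1) ⊆ (Y : Set ℤ) := by
      rintro _ ⟨k, rfl⟩
      exact hcon k
    exact Set.infinite_range_of_injective hinj (Y.finite_toSet.subset hsub)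
  obtain ⟨g, hg⟩ := swap_mem p k
  refine ⟨g, ?_, ?_⟩
  · intro y hy
    rw [hg]
    exact Equiv.swap_apply_of_ne_of_ne (fun h => hp (h ▸ hy)) (fun h => hk (h ▸ hy))
  · rw [hg, Equiv.swap_apply_left]
    omega

/-- the free group of rank two preforms the free groups of higher rank -/
theorem f2_preforms (m : ℕ) (hm : 5 ≤ m) : Preforms (FreeGroup (Fin 2)) (FreeGroup (Fin m)) :=
  sep_preforms f2z_sep.large FreeGroup.of (FreeGroup.closure_range_of _) m (by omega)

/-- **Main theorem, groups separating a set** -/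
theorem sep_component {G X : Type} [Group G] [Group.FG G] (ρ : G →* Equiv.Perm X)
    (𝓘 : Set (Set X)) (h : LargeAction ρ 𝓘) : (∃ m0 : ℕ, ∀ m ≥ m0, Preforms G (FreeGroup (Fin m))) ∧
      DistLE 2 G (FreeGroup (Fin 2)) := by
  obtain ⟨S, hS⟩ := Group.fg_def.mp ‹Group.FG G›
  have hgen : Subgroup.closure (Set.range fun i : Fin S.card => ((S.equivFin.symm i : S) : G)) =
      ⊤ := by
    rw [eq_top_iff, ← hS, Subgroup.closure_le]
    intro s hs
    exact Subgroup.subset_closure ⟨S.equivFin ⟨s, hs⟩, by simp⟩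
  have h1 : ∀ m ≥ 2 * S.card + 1, Preforms G (FreeGroup (Fin m)) := fun m hm =>
    sep_preforms h _ hgen m hm
  refine ⟨⟨_, h1⟩, ?_⟩
  exact .out (h1 (2 * S.card + 5) (by omega)) (.inc (f2_preforms _ (by omega))
    (.iso 0 (MulEquiv.refl _)))

end Pool.Agent.Work.MP_66343f_al
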