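import Pool.Agent.Work.MP_66343f_al.DSum2
import Pool.Agent.Work.MP_66343f_al.Sep3

/-!
# MP_66343f_al: the main theorem for direct sums of conjugates
-/

set_option autoImplicit false

namespace Pool.Agent.Work.MP_66343f_al

open SemidirectProduct Filter Function

namespace DS

variable {Q X G I : Type} [Group Q] [Group G] (C : DS Q X) (f : G →* Q) (g : I → G)
  (xt : ℕ → G) (pt : ℕ → X) (U : Ultrafilter ℕ)

theorem lift_pg (v : FreeGroup I) :
    FreeGroup.lift (C.pg f g) v = C.act (f (FreeGroup.lift g v)) := by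
  have : FreeGroup.lift (C.pg f g) = (C.act.comp f).comp (FreeGroup.lift g) := by
    ext i : 1
    simp [pg]
  exact DFunLike.congr_fun this v

theorem exists_lift (hg : Subgroup.closure (Set.range g) = ⊤) (a : G) :
    ∃ v, FreeGroup.lift g v = a := by
  have h : a ∈ (FreeGroup.lift g).range := by
    rw [FreeGroup.range_lift_eq_closure, hg]
    exact Subgroup.mem_top a
  exact h

theorem pg_inf (hf : Surjective f) (hg : Subgroup.closure (Set.range g) = ⊤) (x : X) :
    (Set.range fun v : FreeGroup I => FreeGroup.lift (C.pg f g) v x).Infinite := by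
  refine (C.hinf x).mono ?_
  rintro _ ⟨q, rfl⟩
  obtain ⟨a, rfl⟩ := hf q
  obtain ⟨v, rfl⟩ := exists_lift g hg a
  exact ⟨v, by simp only [lift_pg]⟩

theorem phi_rel' (hx : ∀ n, f (xt n) ∈ C.N (pt n)) (hpt : Injective pt)
    (hU : (U : Filter ℕ) ≤ cofinite) (w : FreeGroup (I ⊕ Unit)) (hw : w ∈ Rel U (sn g xt)) :
    FreeGroup.lift (C.phi f g xt pt U) w = 1 := C.phi_rel f g xt pt U hx hpt hU w hw

/-- the homomorphism of the limit group -/
noncomputable def PhiL (hx : ∀ n, f (xt n) ∈ C.N (pt n)) (hpt : Injective pt)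
    (hU : (U : Filter ℕ) ≤ cofinite) :
    Lim U (sn g xt) →* WX (C.Xs f g pt U) (Ul U Q) :=
  QuotientGroup.lift (Rel U (sn g xt)) (FreeGroup.lift (C.phi f g xt pt U))
    (fun w hw => C.phi_rel' f g xt pt U hx hpt hU w hw)

theorem PhiL_lg (hx : ∀ n, f (xt n) ∈ C.N (pt n)) (hpt : Injective pt)
    (hU : (U : Filter ℕ) ≤ cofinite) (e : I ⊕ Unit) :
    C.PhiL f g xt pt U hx hpt hU (lg U (sn g xt) e) = C.phi f g xt pt U e := by
  change FreeGroup.lift (C.phi f g xt pt U) (FreeGroup.of e) = _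
  rw [FreeGroup.lift_apply_of]

/-- the configuration of the limit group -/
noncomputable def toTCfg [Finite I] (hf : Surjective f)
    (hg : Subgroup.closure (Set.range g) = ⊤) (hx : ∀ n, f (xt n) ∈ C.N (pt n))
    (hx1 : ∀ n, f (xt n) ≠ 1) (hpt : Injective pt) (hU : (U : Filter ℕ) ≤ cofinite) :
    TCfg (Lim U (sn g xt)) (C.Xs f g pt U) (Ul U Q) I where
  Φ := C.PhiL f g xt pt U hx hpt hU
  g i := lg U (sn g xt) (.inl i)
  x := lg U (sn g xt) (.inr ())
  α i := MulAut.conj (cst U Q (f (g i)))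
  π i := gp U pt (C.pg f g) i
  o := gmk U pt (C.pg f g) 1
  x0 := ((fun n => f (xt n) : ℕ → Q) : Ul U Q)
  hg i := by
    rw [PhiL_lg]
    rfl
  hx := by
    rw [PhiL_lg]
    rfl
  hgen := by
    have h := closure_lg U (sn g xt)
    rw [← h]
    congr 2
    funext e
    rcases e with i | _ <;> rfl
  htr p := by
    obtain ⟨v, rfl⟩ := gmk_surj p
    exact ⟨v, by rw [lift_gp_mk, mul_one]⟩
  hx0 := by
    intro h
    have h1 : ((fun _ => 1 : ℕ → Q) : Ul U Q) = 1 := rfl
    rw [← h1] at h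
    obtain ⟨n, hn⟩ := (Filter.Germ.coe_eq.mp h).exists
    exact hx1 n hn
  hinf := by
    have h := gal_inf U pt (C.pg f g) (C.pg_inf f g hf hg) (gmk U pt (C.pg f g) 1)
    exact Set.infinite_univ_iff.mp (h.mono (Set.subset_univ _))

theorem closure_sn (hg : Subgroup.closure (Set.range g) = ⊤) (l : ℕ) :
    Subgroup.closure (Set.range (sn g xt l)) = ⊤ := by
  rw [eq_top_iff, ← hg, Subgroup.closure_le]
  rintro _ ⟨i, rfl⟩
  exact Subgroup.subset_closure ⟨.inl i, rfl⟩

include C in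
theorem main [Finite I] (hf : Surjective f) (hg : Subgroup.closure (Set.range g) = ⊤) :
    ∃ (K B : Type) (_ : Group K) (_ : Group B), Preforms G K ∧ Preforms B K ∧
      Preforms B (FreeGroup (Fin (Nat.card (Option (Kt I))))) := by
  -- the sites
  set ι := (C.hinf C.p0).natEmbedding
  have h1 : ∀ n, ∃ q, C.act q C.p0 = (ι n : X) := fun n => (ι n).2
  choose q hq using h1
  have h2 : ∀ n, ∃ a, f a = q n * C.x0 * (q n)⁻¹ := fun n => hf _
  choose xt hxt using h2
  have hx : ∀ n, f (xt n) ∈ C.N (ι n : X) := by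
    intro n
    rw [hxt, ← hq]
    exact C.hN _ _ _ C.hx0
  have hx1 : ∀ n, f (xt n) ≠ 1 := by
    intro n h
    rw [hxt] at h
    have h3 := congrArg (fun a => (q n)⁻¹ * a * q n) h
    simp only [mul_one, inv_mul_cancel] at h3
    apply C.hx1
    rw [← h3]
    group
  have hpt : Injective fun n => (ι n : X) := Subtype.val_injective.comp ι.injective
  have hU : ((Filter.hyperfilter ℕ : Ultrafilter ℕ) : Filter ℕ) ≤ cofinite :=
    Filter.hyperfilter_le_cofinite
  obtain ⟨K, B, hK, hB, k, hk, h1, h2, h3⟩ :=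
    (C.toTCfg f g xt (fun n => (ι n : X)) _ hf hg hx hx1 hpt hU).main
  refine ⟨K, B, hK, hB, ?_, h2, h3⟩
  exact ((apx_lim _ (sn g xt) (closure_sn g xt hg)).trans (closure_lg _ (sn g xt)) h1).preforms hk

end DS

theorem card_Kt (r : ℕ) : Nat.card (Option (Kt (Fin r))) = r + 4 := by
  rw [Nat.card_eq_fintype_card, Fintype.card_option, Fintype.card_sum, Fintype.card_fin,
    Fintype.card_fin]

/-- the data give a path to the free groups -/
theorem DS.component {G Q X : Type} [Group G] [Group.FG G] [Group Q] (C : DS Q X) (f : G →* Q)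
    (hf : Surjective f) :
    (∃ m ≥ 2, DistLE 3 G (FreeGroup (Fin m))) ∧ DistLE 4 G (FreeGroup (Fin 2)) := by
  obtain ⟨S, hS⟩ := Group.fg_def.mp ‹Group.FG G›
  obtain ⟨r, ⟨e⟩⟩ : ∃ r, Nonempty (S ≃ Fin r) := ⟨_, ⟨S.equivFin⟩⟩
  have hgen : Subgroup.closure (Set.range (fun i : Fin (r + 2) =>
      if h : (i : ℕ) < r then ((e.symm ⟨i, h⟩ : S) : G) else 1)) = ⊤ := by
    rw [eq_top_iff, ← hS, Subgroup.closure_le]
    intro s hs
    apply Subgroup.subset_closure
    refine ⟨⟨e ⟨s, hs⟩, by omega⟩, ?_⟩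
    simp
  obtain ⟨K, B, hK, hB, h1, h2, h3⟩ := C.main f (I := Fin (r + 2)) _ hf hgen
  have hm := card_Kt (r + 2)
  refine ⟨⟨_, ?_, .out h1 (.inc h2 (.out h3 (.iso 0 (MulEquiv.refl _))))⟩, ?_⟩
  · omega
  exact .out h1 (.inc h2 (.out h3 (.inc (f2_preforms _ (by omega)) (.iso 0 (MulEquiv.refl _)))))

end Pool.Agent.Work.MP_66343f_al
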