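import Pool.Agent.Work.MP_66343f_al.DSum3

/-!
# MP_66343f_al: subgroups generating the direct sum of their conjugates, wreath products
-/

set_option autoImplicit false

namespace Pool.Agent.Work.MP_66343f_al

open Function

section Conj

variable {Q : Type} [Group Q]

/-- the conjugate `q A q⁻¹` -/
def cj (A : Subgroup Q) (q : Q) : Subgroup Q := A.map (MulAut.conj q).toMonoidHom

/-- The subgroup generated by all conjugates of `A` is their direct sum: `A` commutes elementwise
with its conjugates different from `A`, and meets the subgroup generated by them trivially. -/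
structure SumOfConjugates (A : Subgroup Q) : Prop where
  comm : ∀ q, cj A q ≠ A → ∀ a ∈ A, ∀ b ∈ cj A q, a * b = b * a
  indep : ∀ a ∈ A, a ∈ Subgroup.closure {b | ∃ q, cj A q ≠ A ∧ b ∈ cj A q} → a = 1

theorem mem_cj {A : Subgroup Q} {q b : Q} : b ∈ cj A q ↔ q⁻¹ * b * q ∈ A := by
  constructor
  · rintro ⟨a, ha, rfl⟩
    have : q⁻¹ * (MulAut.conj q).toMonoidHom a * q = a := by
      change q⁻¹ * (q * a * q⁻¹) * q = a
      group
    rwa [this]
  · intro h
    refine ⟨_, h, ?_⟩
    change q * (q⁻¹ * b * q) * q⁻¹ = b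
    group

theorem cj_cj (A : Subgroup Q) (q r : Q) : cj (cj A q) r = cj A (r * q) := by
  ext b
  rw [mem_cj, mem_cj, mem_cj]
  have : q⁻¹ * (r⁻¹ * b * r) * q = (r * q)⁻¹ * b * (r * q) := by group
  rw [this]

theorem cj_one (A : Subgroup Q) : cj A 1 = A := by
  ext b
  rw [mem_cj]
  simp

theorem cj_inj {A B : Subgroup Q} {q : Q} (h : cj A q = cj B q) : A = B := by
  rw [← cj_one A, ← cj_one B, ← inv_mul_cancel q, ← cj_cj, ← cj_cj, h]

/-- the conjugates -/
abbrev Cjs (A : Subgroup Q) : Type := {B : Subgroup Q // ∃ q, cj A q = B}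

/-- the action on the conjugates -/
def cjact (A : Subgroup Q) : Q →* Equiv.Perm (Cjs A) where
  toFun r :=
    { toFun := fun B => ⟨cj B.1 r, by
        obtain ⟨B, q, rfl⟩ := B
        exact ⟨r * q, (cj_cj A q r).symm⟩⟩
      invFun := fun B => ⟨cj B.1 r⁻¹, by
        obtain ⟨B, q, rfl⟩ := B
        exact ⟨r⁻¹ * q, (cj_cj A q r⁻¹).symm⟩⟩
      left_inv := by
        intro B
        apply Subtype.ext
        change cj (cj B.1 r) r⁻¹ = B.1
        rw [cj_cj, inv_mul_cancel, cj_one]
      right_inv := by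
        intro B
        apply Subtype.ext
        change cj (cj B.1 r⁻¹) r = B.1
        rw [cj_cj, mul_inv_cancel, cj_one] }
  map_one' := by
    apply Equiv.ext
    intro B
    apply Subtype.ext
    exact cj_one B.1
  map_mul' := by
    intro r s
    apply Equiv.ext
    intro B
    apply Subtype.ext
    exact (cj_cj B.1 s r).symm

theorem cjact_coe (A : Subgroup Q) (r : Q) (B : Cjs A) : (cjact A r B).1 = cj B.1 r := rfl

theorem ds_of_sum {A : Subgroup Q} (hA : A ≠ ⊥) (hinf : (Set.range (cj A)).Infinite)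
    (h : SumOfConjugates A) : Nonempty (DS Q (Cjs A)) := by
  obtain ⟨⟨x0, hx0⟩, hx1'⟩ := Subgroup.ne_bot_iff_exists_ne_one.mp hA
  have hx1 : x0 ≠ 1 := fun h1 => hx1' (Subtype.ext h1)
  refine ⟨{
    act := cjact A
    N := fun B => B.1
    hN := ?_
    hcomm := ?_
    hind := ?_
    hinf := ?_
    p0 := ⟨A, 1, cj_one A⟩
    x0 := x0
    hx0 := hx0
    hx1 := hx1 }⟩
  · intro q B m hm
    rw [cjact_coe, mem_cj]
    have : q⁻¹ * (q * m * q⁻¹) * q = m := by group
    rwa [this]
  · rintro ⟨_, q, rfl⟩ ⟨_, r, rfl⟩ hne a ha b hb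
    simp only at ha hb
    have h1 : cj A (q⁻¹ * r) ≠ A := by
      intro h1
      apply hne
      apply Subtype.ext
      simp only
      rw [← cj_cj] at h1
      apply cj_inj (q := q⁻¹)
      rw [h1, cj_cj, inv_mul_cancel, cj_one]
    rw [mem_cj] at ha hb
    have hb' : q⁻¹ * b * q ∈ cj A (q⁻¹ * r) := by
      rw [mem_cj]
      have : (q⁻¹ * r)⁻¹ * (q⁻¹ * b * q) * (q⁻¹ * r) = r⁻¹ * b * r := by group
      rwa [this]
    have h2 := h.comm _ h1 _ ha _ hb'
    have h3 := congrArg (fun z => q * z * q⁻¹) h2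
    have e1 : q * (q⁻¹ * a * q * (q⁻¹ * b * q)) * q⁻¹ = a * b := by group
    have e2 : q * (q⁻¹ * b * q * (q⁻¹ * a * q)) * q⁻¹ = b * a := by group
    exact e1.symm.trans (h3.trans e2)
  · rintro ⟨_, q, rfl⟩ a ha hc
    simp only at ha
    rw [mem_cj] at ha
    have h1 : q⁻¹ * a * q = 1 := by
      refine h.indep _ ha ?_
      have h2 : Subgroup.closure {m | ∃ p' : Cjs A, p' ≠ ⟨cj A q, q, rfl⟩ ∧ m ∈ p'.1} ≤
          (Subgroup.closure {b | ∃ q, cj A q ≠ A ∧ b ∈ cj A q}).comap
            (MulAut.conj q⁻¹).toMonoidHom := by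
        rw [Subgroup.closure_le]
        rintro m ⟨⟨_, r, rfl⟩, hne, hm⟩
        simp only at hm
        refine Subgroup.subset_closure ⟨q⁻¹ * r, ?_, ?_⟩
        · intro h1
          apply hne
          apply Subtype.ext
          simp only
          rw [← cj_cj] at h1
          apply cj_inj (q := q⁻¹)
          rw [h1, cj_cj, inv_mul_cancel, cj_one]
        · rw [← cj_cj, mem_cj, mem_cj]
          rw [mem_cj] at hm
          have : r⁻¹ * (q⁻¹⁻¹ * (MulAut.conj q⁻¹).toMonoidHom m * q⁻¹) * r = r⁻¹ * m * r := by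
            change r⁻¹ * (q⁻¹⁻¹ * (q⁻¹ * m * q⁻¹⁻¹) * q⁻¹) * r = r⁻¹ * m * r
            group
          rwa [this]
      have h3 := h2 hc
      have h4 : (MulAut.conj q⁻¹).toMonoidHom a = q⁻¹ * a * q := by
        change q⁻¹ * a * q⁻¹⁻¹ = _
        rw [inv_inv]
      rwa [Subgroup.mem_comap, h4] at h3
    have h5 := congrArg (fun z => q * z * q⁻¹) h1
    have e1 : q * (q⁻¹ * a * q) * q⁻¹ = a := by group
    have e2 : q * 1 * q⁻¹ = (1 : Q) := by group
    exact e1.symm.trans (h5.trans e2)
  · rintro ⟨_, q, rfl⟩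
    have h1 : (Subtype.val '' Set.range fun r => cjact A r ⟨cj A q, q, rfl⟩).Infinite := by
      refine hinf.mono ?_
      rintro _ ⟨r, rfl⟩
      refine ⟨_, ⟨r * q⁻¹, rfl⟩, ?_⟩
      rw [cjact_coe, cj_cj, inv_mul_cancel_right]
    exact h1.of_image _

/-- **Main theorem, direct sums of conjugates** -/
theorem sum_component {G : Type} [Group G] [Group.FG G] (f : G →* Q) (hf : Surjective f)
    {A : Subgroup Q} (hA : A ≠ ⊥) (hinf : (Set.range (cj A)).Infinite) (h : SumOfConjugates A) :
    (∃ m ≥ 2, DistLE 3 G (FreeGroup (Fin m))) ∧ DistLE 4 G (FreeGroup (Fin 2)) := by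
  obtain ⟨C⟩ := ds_of_sum hA hinf h
  exact C.component f hf

end Conj

/-! ## Wreath products -/

section Wr

variable (Γ X L : Type) [Group Γ] [MulAction Γ X] [Group L]

/-- the wreath product with all functions -/
abbrev Wr : Type := (X → L) ⋊[(mulAutArrow : Γ →* MulAut (X → L))] Γ

variable {Γ X L}

theorem wr_mul_left (a b : Wr Γ X L) (x : X) :
    (a * b).left x = a.left x * b.left (a.right⁻¹ • x) := by
  rw [SemidirectProduct.mul_left]
  rfl

theorem wr_inv_left (a : Wr Γ X L) (x : X) :
    (a⁻¹).left x = (a.left (a.right • x))⁻¹ := by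
  rw [SemidirectProduct.inv_left]
  change (a.left ((a.right⁻¹)⁻¹ • x))⁻¹ = _
  rw [inv_inv]

variable (Γ X L)

/-- the restricted permutational wreath product of `L` by `Γ`: the pairs of a function `X → L` with
finite support and an element of `Γ` -/
def Wreath : Subgroup (Wr Γ X L) where
  carrier := {w | (mulSupport w.left).Finite}
  one_mem' := by
    change (mulSupport (1 : X → L)).Finite
    rw [mulSupport_one]
    exact Set.finite_empty
  mul_mem' := by
    intro a b ha hb
    change (mulSupport (a * b).left).Finite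
    refine (ha.union (hb.image fun x => a.right • x)).subset ?_
    intro x hx
    by_contra h
    rw [Set.mem_union, not_or] at h
    apply hx
    rw [wr_mul_left]
    have h1 : a.left x = 1 := notMem_mulSupport.mp h.1
    have h2 : b.left (a.right⁻¹ • x) = 1 := by
      by_contra h3
      exact h.2 ⟨_, h3, smul_inv_smul _ _⟩
    rw [h1, h2, one_mul]
  inv_mem' := by
    intro a ha
    change (mulSupport a⁻¹.left).Finite
    refine (ha.image fun x => a.right⁻¹ • x).subset ?_
    intro x hx
    refine ⟨a.right • x, ?_, inv_smul_smul _ _⟩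
    intro h
    apply hx
    rw [wr_inv_left, h, inv_one]

variable {Γ X L}

theorem mem_wreath {w : Wr Γ X L} : w ∈ Wreath Γ X L ↔ (mulSupport w.left).Finite :=
  Iff.rfl

variable (Γ X L)

/-- the functions supported at `p` -/
def WN (p : X) : Subgroup (Wreath Γ X L) where
  carrier := {w | w.1.right = 1 ∧ ∀ x, x ≠ p → w.1.left x = 1}
  one_mem' := ⟨rfl, fun _ _ => rfl⟩
  mul_mem' := by
    rintro a b ⟨ha, ha'⟩ ⟨hb, hb'⟩
    refine ⟨?_, ?_⟩
    · change a.1.right * b.1.right = 1
      rw [ha, hb, one_mul]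
    · intro x hx
      change (a.1 * b.1).left x = 1
      rw [wr_mul_left, ha' x hx, ha, inv_one, one_smul, one_mul]
      exact hb' x hx
  inv_mem' := by
    rintro a ⟨ha, ha'⟩
    refine ⟨?_, ?_⟩
    · change a.1.right⁻¹ = 1
      rw [ha, inv_one]
    · intro x hx
      change (a.1⁻¹).left x = 1
      rw [wr_inv_left, ha, one_smul, ha' x hx, inv_one]

variable {Γ X L}

theorem wr_ext {a b : Wreath Γ X L} (h1 : a.1.right = b.1.right)
    (h2 : ∀ x, a.1.left x = b.1.left x) : a = b :=
  Subtype.ext (SemidirectProduct.ext (funext h2) h1)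

open Classical in
/-- wreath products have the data -/
noncomputable def wrDS (p0 : X) (hinf : (MulAction.orbit Γ p0).Infinite) {l : L}
    (hl : l ≠ 1) : DS (Wreath Γ X L) (MulAction.orbit Γ p0) where
  act := (MulAction.toPermHom Γ (MulAction.orbit Γ p0)).comp
    (SemidirectProduct.rightHom.comp (Wreath Γ X L).subtype)
  N p := WN Γ X L p.1
  hN := by
    rintro q p m ⟨hm, hm'⟩
    refine ⟨?_, ?_⟩
    · change q.1.right * m.1.right * q.1.right⁻¹ = 1
      rw [hm]
      group
    · intro x hx
      change (q.1 * m.1 * q.1⁻¹).left x = 1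
      have h1 : q.1.right⁻¹ • x ≠ p.1 := by
        intro h
        apply hx
        change x = q.1.right • p.1
        rw [← h, smul_inv_smul]
      have h2 : (q.1 * m.1).right = q.1.right := by
        change q.1.right * m.1.right = _
        rw [hm, mul_one]
      rw [wr_mul_left, wr_mul_left, h2, hm' _ h1, mul_one, wr_inv_left, smul_inv_smul,
        mul_inv_cancel]
  hcomm := by
    rintro p p' hpp a ⟨ha, ha'⟩ b ⟨hb, hb'⟩
    refine wr_ext ?_ fun x => ?_
    · change a.1.right * b.1.right = b.1.right * a.1.right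
      rw [ha, hb]
    · change (a.1 * b.1).left x = (b.1 * a.1).left x
      rw [wr_mul_left, wr_mul_left, ha, hb, inv_one, one_smul]
      by_cases hx : x = p.1
      · have : x ≠ p'.1 := fun h => hpp (Subtype.ext (hx.symm.trans h))
        rw [hb' x this, mul_one, one_mul]
      · rw [ha' x hx, mul_one, one_mul]
  hind := by
    rintro p a ⟨ha, ha'⟩ hc
    have h1 : Subgroup.closure {m | ∃ p' : MulAction.orbit Γ p0, p' ≠ p ∧ m ∈ WN Γ X L p'.1} ≤
        { carrier := {w : Wreath Γ X L | w.1.right = 1 ∧ w.1.left p.1 = 1}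
          one_mem' := ⟨rfl, rfl⟩
          mul_mem' := by
            rintro a b ⟨ha, ha'⟩ ⟨hb, hb'⟩
            refine ⟨?_, ?_⟩
            · change a.1.right * b.1.right = 1
              rw [ha, hb, one_mul]
            · change (a.1 * b.1).left p.1 = 1
              rw [wr_mul_left, ha', ha, inv_one, one_smul, one_mul]
              exact hb'
          inv_mem' := by
            rintro a ⟨ha, ha'⟩
            refine ⟨?_, ?_⟩
            · change a.1.right⁻¹ = 1
              rw [ha, inv_one]
            · change (a.1⁻¹).left p.1 = 1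
              rw [wr_inv_left, ha, one_smul, ha', inv_one] } := by
      rw [Subgroup.closure_le]
      rintro m ⟨p', hp', hm, hm'⟩
      exact ⟨hm, hm' _ fun h => hp' (Subtype.ext h.symm)⟩
    have h2 := h1 hc
    refine wr_ext ha fun x => ?_
    by_cases hx : x = p.1
    · rw [hx]
      exact h2.2
    · exact ha' x hx
  hinf := by
    rintro ⟨_, δ, rfl⟩
    refine Set.Infinite.of_image (Subtype.val : MulAction.orbit Γ p0 → X) (hinf.mono ?_)
    rintro _ ⟨γ, rfl⟩
    refine ⟨_, ⟨⟨SemidirectProduct.inr (γ * δ⁻¹), ?_⟩, rfl⟩, ?_⟩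
    · rw [mem_wreath, SemidirectProduct.left_inr, mulSupport_one]
      exact Set.finite_empty
    · change (γ * δ⁻¹) • δ • p0 = γ • p0
      rw [smul_smul, inv_mul_cancel_right]
  p0 := ⟨p0, MulAction.mem_orbit_self p0⟩
  x0 := ⟨SemidirectProduct.inl (Pi.mulSingle p0 l), by
    rw [mem_wreath, SemidirectProduct.left_inl]
    refine (Set.finite_singleton p0).subset ?_
    intro x hx
    by_contra h
    exact hx (Pi.mulSingle_eq_of_ne (M := fun _ => L) h l)⟩
  hx0 := ⟨rfl, fun x hx => Pi.mulSingle_eq_of_ne (M := fun _ => L) hx l⟩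
  hx1 := by
    intro h
    have h1 := congrArg (fun w : Wreath Γ X L => w.1.left p0) h
    simp only [SemidirectProduct.left_inl, Pi.mulSingle_eq_same] at h1
    exact hl h1

/-- **Main theorem, wreath products** -/
theorem wreath_component {G : Type} [Group G] [Group.FG G] (f : G →* Wreath Γ X L)
    (hf : Surjective f) [Nontrivial L] (p0 : X) (hinf : (MulAction.orbit Γ p0).Infinite) :
    (∃ m ≥ 2, DistLE 3 G (FreeGroup (Fin m))) ∧ DistLE 4 G (FreeGroup (Fin 2)) := by
  obtain ⟨l, hl⟩ := exists_ne (1 : L)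
  exact (wrDS p0 hinf hl).component f hf

end Wr

end Pool.Agent.Work.MP_66343f_al
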