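import Mathlib

/-!
# MP_66343f_al: exponential sums vanishing infinitely often
-/

set_option autoImplicit false

namespace Pool.Agent.Work.MP_66343f_al

open Finset

/-- powers of an automorphism without periodic points -/
theorem vdm {E V : Type} [Ring E] [AddCommGroup V] [Module E V] (t : E)
    (ht : ∀ k ≥ 1, ∀ v : V, (t ^ k - 1) • v = 0 → v = 0) (hu : ∀ v : V, t • v = 0 → v = 0)
    (P : ℕ) : ∀ (f : ℕ → V) (S : Set ℕ), S.Infinite →
      (∀ n ∈ S, ∑ p ∈ range P, (t ^ n) ^ p • f p = 0) → ∀ p < P, f p = 0 := by
  have hu' : ∀ k : ℕ, ∀ v : V, t ^ k • v = 0 → v = 0 := by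
    intro k
    induction k with
    | zero => intro v hv; simpa using hv
    | succ k ih =>
      intro v hv
      rw [pow_succ, mul_smul] at hv
      exact hu v (ih _ hv)
  have hdiff : ∀ n n' : ℕ, n < n' → ∀ v : V, (t ^ n' - t ^ n) • v = 0 → v = 0 := by
    intro n n' hn v hv
    have h1 : t ^ n' - t ^ n = t ^ n * (t ^ (n' - n) - 1) := by
      rw [mul_sub, mul_one, ← pow_add]
      congr 2
      omega
    rw [h1, mul_smul] at hv
    exact ht (n' - n) (by omega) v (hu' n _ hv)
  induction P with
  | zero => intro f S _ _ p hp; omega
  | succ P ih =>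
    intro f S hS h
    -- the top coefficient vanishes
    have hP : f P = 0 := by
      rcases Nat.eq_zero_or_pos P with rfl | hPpos
      · obtain ⟨n, hn⟩ := hS.nonempty
        have := h n hn
        simpa using this
      · obtain ⟨n, hn⟩ := hS.nonempty
        have key := ih (fun i => ∑ p ∈ Ico (i + 1) (P + 1), (t ^ n) ^ (p - 1 - i) • f p)
          {n' ∈ S | n < n'} ?_ ?_ (P - 1) (by omega)
        · have h2 : Ico (P - 1 + 1) (P + 1) = {P} := by
            rw [Nat.sub_add_cancel hPpos]
            ext a
            simp only [mem_Ico, mem_singleton]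
            omega
          rw [h2, sum_singleton] at key
          simpa using key
        · have h3 : {n' ∈ S | n < n'} = S \ Set.Iic n := by
            ext a
            simp
          rw [h3]
          exact hS.diff (Set.finite_Iic n)
        · rintro n' ⟨hn', hlt⟩
          apply hdiff n n' hlt
          rw [smul_sum]
          have e1 : ∀ i ∈ range P, (t ^ n' - t ^ n) • ((t ^ n') ^ i •
              ∑ p ∈ Ico (i + 1) (P + 1), (t ^ n) ^ (p - 1 - i) • f p) =
              ∑ p ∈ Ico (i + 1) (P + 1),
                ((t ^ n' - t ^ n) * ((t ^ n') ^ i * (t ^ n) ^ (p - 1 - i))) • f p := by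
            intro i _
            rw [smul_sum, smul_sum]
            refine sum_congr rfl fun p _ => ?_
            rw [mul_smul, mul_smul]
          rw [sum_congr rfl e1]
          rw [sum_comm' (s' := fun p => range p) (t' := range (P + 1)) (by
            intro i p
            simp only [mem_range, mem_Ico]
            omega)]
          have e2 : ∀ p ∈ range (P + 1), ∑ i ∈ range p,
              ((t ^ n' - t ^ n) * ((t ^ n') ^ i * (t ^ n) ^ (p - 1 - i))) • f p =
              (t ^ n') ^ p • f p - (t ^ n) ^ p • f p := by
            intro p _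
            rw [← sum_smul, ← mul_sum, (Commute.pow_pow_self t n' n).mul_geom_sum₂ p, sub_smul]
          rw [sum_congr rfl e2, sum_sub_distrib, h n' hn', h n hn, sub_zero]
    intro p hp
    rcases Nat.lt_succ_iff_lt_or_eq.mp hp with hp' | rfl
    · refine ih f S hS ?_ p hp'
      intro n hn
      have := h n hn
      rw [sum_range_succ, hP, smul_zero, add_zero] at this
      exact this
    · exact hP

end Pool.Agent.Work.MP_66343f_al
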