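import Pool.Agent.Work.MP_66343f_al.Tstar
import Pool.Agent.Work.MP_66343f_al.Vdm

/-!
# MP_66343f_al: abelian normal subgroups with a translation without periodic points
-/

set_option autoImplicit false

namespace Pool.Agent.Work.MP_66343f_al

open SemidirectProduct Filter Function

/-! ## an ultrafilter on pairs -/

/-- first `n`, then `m` tends to infinity -/
noncomputable def UU : Ultrafilter (ℕ × ℕ) :=
  (hyperfilter ℕ).bind fun n => (hyperfilter ℕ).map (Prod.mk n)

theorem mem_UU {P : ℕ × ℕ → Prop} : (∀ᶠ l in (UU : Filter (ℕ × ℕ)), P l) ↔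
    ∀ᶠ n in (hyperfilter ℕ : Filter ℕ), ∀ᶠ m in (hyperfilter ℕ : Filter ℕ), P (n, m) :=
  Iff.rfl

theorem infinite_of_hyper {P : ℕ → Prop} (h : ∀ᶠ n in (hyperfilter ℕ : Filter ℕ), P n) :
    {n | P n}.Infinite := by
  intro hf
  exact hf.notMem_hyperfilter h

/-- An abelian normal subgroup (the image of `inc`) of a homomorphic image of `G` on which an
element `z` acts without periodic points, the actions of all elements commuting with the action of
`z`. -/
structure Dat (G A D : Type) [Group G] [Group A] [CommGroup D] where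
  f : G →* A
  inc : D →* A
  hinc : Injective inc
  act : G →* MulAut D
  hact : ∀ h d, inc (act h d) = f h * inc d * (f h)⁻¹
  z : G
  x : G
  x0 : D
  hx : f x = inc x0
  hx0 : x0 ≠ 1
  hcomm : ∀ h, act h * act z = act z * act h
  hfix : ∀ k ≥ 1, ∀ d, (act z ^ k) d = d → d = 1

namespace Dat

variable {G A D I : Type} [Group G] [Group A] [CommGroup D] (C : Dat G A D) (g : I → G)

/-- the generating tuples -/
def ps (l : ℕ × ℕ) : I ⊕ (Unit ⊕ Unit) → G :=
  Sum.elim g (Sum.elim (fun _ => C.z ^ l.1) (fun _ => C.z ^ l.2 * C.x * (C.z ^ l.2)⁻¹))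

/-- the tuples without `x` -/
def ps' (n : ℕ) : I ⊕ (Unit ⊕ Unit) → G :=
  Sum.elim g (Sum.elim (fun _ => C.z ^ n) (fun _ => 1))

open Classical in
/-- the formal tuple -/
noncomputable def P0 : FreeGroup (I ⊕ (Unit ⊕ Unit)) →* WW (Multiplicative ℤ) D :=
  FreeGroup.lift (Sum.elim (fun i => inr (C.act (g i), 1))
    (Sum.elim (fun _ => inr (1, Multiplicative.ofAdd 1)) (fun _ => inl (Pi.mulSingle 1 C.x0))))

theorem act_x : C.act C.x = 1 := by
  ext d
  apply C.hinc
  rw [C.hact, C.hx, ← map_inv, ← map_mul, ← map_mul, MulAut.one_apply, mul_comm C.x0, mul_assoc,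
    mul_inv_cancel, mul_one]

theorem right_fst (w : FreeGroup (I ⊕ (Unit ⊕ Unit))) :
    (C.P0 g w).right.1 = C.act (FreeGroup.lift (Sum.elim g fun _ => 1) w) := by
  have : ((MonoidHom.fst (MulAut D) (Multiplicative ℤ)).comp rightHom).comp (C.P0 g) =
      C.act.comp (FreeGroup.lift (Sum.elim g fun _ => 1)) := by
    ext e : 1
    rcases e with i | ⟨⟩ | ⟨⟩ <;> simp [P0]
  exact DFunLike.congr_fun this w

theorem comm_right (w : FreeGroup (I ⊕ (Unit ⊕ Unit))) (k : ℤ) :
    (C.P0 g w).right.1 * C.act C.z ^ k = C.act C.z ^ k * (C.P0 g w).right.1 := by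
  rw [right_fst]
  exact (Commute.zpow_right (C.hcomm _) k)

/-- the action of the tuple -/
noncomputable def Rh (n : ℤ) : FreeGroup (I ⊕ (Unit ⊕ Unit)) →* MulAut D where
  toFun w := (C.P0 g w).right.1 * C.act C.z ^ (n * Multiplicative.toAdd (C.P0 g w).right.2)
  map_one' := by simp
  map_mul' := by
    intro v w
    rw [map_mul, mul_right, Prod.fst_mul, Prod.snd_mul, toAdd_mul, mul_add, zpow_add]
    have := C.comm_right g w (n * Multiplicative.toAdd (C.P0 g v).right.2)
    simp only [mul_assoc]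
    rw [← mul_assoc (C.P0 g w).right.1, this]
    simp only [mul_assoc]

theorem act_ps (l : ℕ × ℕ) (w : FreeGroup (I ⊕ (Unit ⊕ Unit))) :
    C.act (FreeGroup.lift (C.ps g l) w) =
      (C.P0 g w).right.1 * C.act C.z ^ ((l.1 : ℤ) * Multiplicative.toAdd (C.P0 g w).right.2) := by
  have : C.act.comp (FreeGroup.lift (C.ps g l)) = C.Rh g l.1 := by
    ext e : 1
    rcases e with i | ⟨⟩ | ⟨⟩
    · simp [P0, ps, Rh]
    · simp [P0, ps, Rh]
    · simp [P0, ps, Rh, act_x]
  exact DFunLike.congr_fun this w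

theorem act_ps' (n : ℕ) (w : FreeGroup (I ⊕ (Unit ⊕ Unit))) :
    C.act (FreeGroup.lift (C.ps' g n) w) =
      (C.P0 g w).right.1 * C.act C.z ^ ((n : ℤ) * Multiplicative.toAdd (C.P0 g w).right.2) := by
  have : C.act.comp (FreeGroup.lift (C.ps' g n)) = C.Rh g n := by
    ext e : 1
    rcases e with i | ⟨⟩ | ⟨⟩
    · simp [P0, ps', Rh]
    · simp [P0, ps', Rh]
    · simp [P0, ps', Rh]
  exact DFunLike.congr_fun this w

/-- the elements with finite support -/
def FS : Subgroup (WW (Multiplicative ℤ) D) where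
  carrier := {a | (mulSupport a.left).Finite}
  one_mem' := by
    change (mulSupport (1 : WW (Multiplicative ℤ) D).left).Finite
    simp
  mul_mem' := by
    intro a b ha hb
    change (mulSupport (a * b).left).Finite
    rw [mul_left]
    refine ((Set.Finite.union ha (hb.image fun p => a.right.2 * p)).subset ?_)
    refine (mulSupport_mul _ _).trans (Set.union_subset_union_right _ ?_)
    intro p hp
    refine ⟨a.right.2⁻¹ * p, ?_, by simp⟩
    intro h
    apply hp
    rw [sa_apply, h, map_one]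
  inv_mem' := by
    intro a ha
    change (mulSupport (a⁻¹).left).Finite
    refine (ha.image fun p => a.right.2⁻¹ * p).subset ?_
    intro p hp
    refine ⟨a.right.2 * p, ?_, by simp⟩
    intro h
    apply hp
    rw [ww_inv_left, h]
    simp

theorem fin_supp (w : FreeGroup (I ⊕ (Unit ⊕ Unit))) : (mulSupport (C.P0 g w).left).Finite := by
  classical
  have h1 : (C.P0 g).range ≤ FS := by
    rw [P0, FreeGroup.range_lift_eq_closure, Subgroup.closure_le]
    rintro _ ⟨i | ⟨⟩ | ⟨⟩, rfl⟩
    · change (mulSupport (inr (C.act (g i), 1) : WW (Multiplicative ℤ) D).left).Finite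
      simp
    · change (mulSupport (inr (1, Multiplicative.ofAdd 1) : WW (Multiplicative ℤ) D).left).Finite
      simp
    · change (mulSupport (inl (Pi.mulSingle 1 C.x0) : WW (Multiplicative ℤ) D).left).Finite
      rw [left_inl]
      refine (Set.finite_singleton (1 : Multiplicative ℤ)).subset ?_
      intro p hp
      by_contra h
      exact hp (Pi.mulSingle_eq_of_ne h _)
  exact h1 ⟨w, rfl⟩

/-- the evaluation -/
noncomputable def EE (n m : ℤ) (F : Multiplicative ℤ → D) : D :=
  ∏ᶠ p : Multiplicative ℤ, (C.act C.z ^ (n * Multiplicative.toAdd p + m)) (F p)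

theorem EE_mul (n m : ℤ) {F F' : Multiplicative ℤ → D} (h : (mulSupport F).Finite)
    (h' : (mulSupport F').Finite) : C.EE n m (F * F') = C.EE n m F * C.EE n m F' := by
  unfold EE
  rw [← finprod_mul_distrib]
  · refine finprod_congr fun p => ?_
    rw [Pi.mul_apply, map_mul]
  · refine h.subset fun p hp h0 => hp ?_
    change (C.act C.z ^ (n * Multiplicative.toAdd p + m)) (F p) = 1
    rw [h0, map_one]
  · refine h'.subset fun p hp h0 => hp ?_
    change (C.act C.z ^ (n * Multiplicative.toAdd p + m)) (F' p) = 1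
    rw [h0, map_one]

theorem EE_sa (n m : ℤ) (a : MulAut D) (ha : ∀ k : ℤ, a * C.act C.z ^ k = C.act C.z ^ k * a)
    (q : Multiplicative ℤ) (F : Multiplicative ℤ → D) :
    C.EE n m (sa _ D (a, q) F) = (a * C.act C.z ^ (n * Multiplicative.toAdd q)) (C.EE n m F) := by
  unfold EE
  rw [MulEquiv.map_finprod]
  rw [← finprod_comp_equiv (Equiv.mulLeft q)]
  refine finprod_congr fun p => ?_
  rw [sa_apply, Equiv.coe_mulLeft, inv_mul_cancel_left, toAdd_mul]
  rw [← MulAut.mul_apply, ← MulAut.mul_apply, ← ha, mul_assoc, ← zpow_add]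
  congr 3
  ring

/-- the formula for the value of a word -/
noncomputable def Fh (n m : ℕ) : FreeGroup (I ⊕ (Unit ⊕ Unit)) →* A where
  toFun w := C.inc (C.EE n m (C.P0 g w).left) * C.f (FreeGroup.lift (C.ps' g n) w)
  map_one' := by
    rw [map_one, map_one, map_one, mul_one, one_left]
    have : C.EE n m (1 : Multiplicative ℤ → D) = 1 := by
      unfold EE
      simp
    rw [this, map_one]
  map_mul' := by
    intro v w
    rw [map_mul, mul_left, C.EE_mul _ _ (C.fin_supp g v), ← Prod.mk.eta (p := (C.P0 g v).right),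
      C.EE_sa _ _ _ (C.comm_right g v), ← C.act_ps' g n v, map_mul C.inc, C.hact, map_mul, map_mul]
    · group
    · refine ((C.fin_supp g w).image fun p => (C.P0 g v).right.2 * p).subset ?_
      intro p hp
      refine ⟨(C.P0 g v).right.2⁻¹ * p, ?_, by simp⟩
      intro h
      apply hp
      rw [sa_apply, h, map_one]

theorem f_ps (n m : ℕ) (w : FreeGroup (I ⊕ (Unit ⊕ Unit))) :
    C.f (FreeGroup.lift (C.ps g (n, m)) w) =
      C.inc (C.EE n m (C.P0 g w).left) * C.f (FreeGroup.lift (C.ps' g n) w) := by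
  classical
  have e1 : C.EE n m (1 : Multiplicative ℤ → D) = 1 := by
    unfold EE
    simp
  have : C.f.comp (FreeGroup.lift (C.ps g (n, m))) = C.Fh g n m := by
    ext e : 1
    rcases e with i | ⟨⟩ | ⟨⟩
    · simp [P0, ps, ps', Fh, e1]
    · simp [P0, ps, ps', Fh, e1]
    · have h1 : C.EE n m (Pi.mulSingle 1 C.x0) = (C.act C.z ^ m) C.x0 := by
        unfold EE
        rw [finprod_eq_single _ 1]
        · simp
        · intro p hp
          rw [Pi.mulSingle_eq_of_ne hp, map_one]
      have h2 : C.inc ((C.act C.z ^ m) C.x0) = C.f (C.z ^ m * C.x * (C.z ^ m)⁻¹) := by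
        rw [← map_pow, C.hact, ← C.hx, map_mul, map_mul, map_inv]
      simp only [MonoidHom.comp_apply, FreeGroup.lift_apply_of]
      change C.f (C.z ^ m * C.x * (C.z ^ m)⁻¹) = C.inc (C.EE n m (C.P0 g _).left) * C.f _
      rw [← h2, ← h1, P0, FreeGroup.lift_apply_of, FreeGroup.lift_apply_of]
      simp [ps']
  exact DFunLike.congr_fun this w

theorem hfix' (k : ℤ) (hk : k ≠ 0) (d : D) (h : (C.act C.z ^ k) d = d) : d = 1 := by
  obtain ⟨n, rfl | rfl⟩ := Int.eq_nat_or_neg k
  · exact C.hfix n (by omega) d (by simpa using h)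
  · refine C.hfix n (by omega) d ?_
    rw [zpow_neg, zpow_natCast] at h
    rw [← h]
    conv_lhs => rw [← MulAut.mul_apply, mul_inv_cancel]
    exact h.symm

theorem EE_shift (n m : ℤ) (k : ℤ) (F : Multiplicative ℤ → D) :
    (C.act C.z ^ k) (C.EE n m F) = C.EE n (k + m) F := by
  unfold EE
  rw [MulEquiv.map_finprod]
  refine finprod_congr fun p => ?_
  rw [← MulAut.mul_apply, ← zpow_add,
    show k + (n * Multiplicative.toAdd p + m) = n * Multiplicative.toAdd p + (k + m) by ring]

/-- the translation as an endomorphism -/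
noncomputable def tz : AddMonoid.End (Additive D) :=
  ((MulEquiv.toAdditive (C.act C.z) : Additive D ≃+ Additive D) : Additive D →+ Additive D)

theorem tz_pow (k : ℕ) (v : Additive D) :
    C.tz ^ k • v = Additive.ofMul ((C.act C.z ^ k) (Additive.toMul v)) := by
  induction k generalizing v with
  | zero => simp
  | succ k ih =>
    rw [pow_succ, mul_smul, ih, pow_succ, MulAut.mul_apply]
    rfl

theorem EE_range (n N : ℕ) (F : Multiplicative ℤ → D)
    (hN : ∀ p ∈ mulSupport F, (Multiplicative.toAdd p).natAbs ≤ N) :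
    C.EE n ((n * N : ℕ) : ℤ) F = ∏ p ∈ Finset.range (2 * N + 1),
      (C.act C.z ^ (n * p)) (F (Multiplicative.ofAdd ((p : ℤ) - N))) := by
  classical
  unfold EE
  rw [finprod_eq_prod_of_mulSupport_subset (s := (Finset.range (2 * N + 1)).image
    fun p : ℕ => Multiplicative.ofAdd ((p : ℤ) - N))]
  · rw [Finset.prod_image]
    · refine Finset.prod_congr rfl fun p _ => ?_
      rw [toAdd_ofAdd, ← zpow_natCast (C.act C.z) (n * p)]
      rw [show (n : ℤ) * ((p : ℤ) - N) + ((n * N : ℕ) : ℤ) = ((n * p : ℕ) : ℤ) by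
        push_cast; ring]
    · intro a _ b _ hab
      have := Multiplicative.ofAdd.injective hab
      omega
  · intro p hp
    have h1 : p ∈ mulSupport F := by
      intro h0
      apply hp
      change (C.act C.z ^ (_ : ℤ)) (F p) = 1
      rw [h0, map_one]
    have h2 := hN p h1
    rw [Finset.coe_image]
    refine ⟨(Multiplicative.toAdd p + N).toNat, ?_, ?_⟩
    · rw [Finset.mem_coe, Finset.mem_range]
      omega
    · apply Multiplicative.toAdd.injective
      rw [toAdd_ofAdd]
      omega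

/-- **Claim A** -/
theorem P0_eq_one {w : FreeGroup (I ⊕ (Unit ⊕ Unit))} (hw : w ∈ Rel UU (C.ps g)) :
    C.P0 g w = 1 := by
  have h1 := mem_UU.mp (mem_rel.mp hw)
  -- the right part
  have hr : ∀ᶠ (n : ℕ) in (hyperfilter ℕ : Filter ℕ), (C.P0 g w).right.1 *
      C.act C.z ^ ((n : ℤ) * Multiplicative.toAdd (C.P0 g w).right.2) = 1 := by
    filter_upwards [h1] with n hn
    obtain ⟨m, hm⟩ := hn.exists
    rw [← C.act_ps g (n, m) w, hm, map_one]
  have hr1 : Multiplicative.toAdd (C.P0 g w).right.2 = 0 := by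
    obtain ⟨n, hn⟩ := (infinite_of_hyper hr).nonempty
    obtain ⟨n', hn', hlt⟩ := (infinite_of_hyper hr).exists_gt n
    by_contra h0
    have h2 : C.act C.z ^ (((n' : ℤ) - n) * Multiplicative.toAdd (C.P0 g w).right.2) = 1 := by
      rw [sub_mul, zpow_sub]
      rw [Set.mem_setOf_eq] at hn hn'
      rw [eq_inv_of_mul_eq_one_right hn, eq_inv_of_mul_eq_one_right hn', inv_inv, inv_mul_cancel]
    refine C.hx0 (C.hfix' _ ?_ C.x0 (by rw [h2]; rfl))
    refine mul_ne_zero ?_ h0
    omega
  have hr2 : (C.P0 g w).right.1 = 1 := by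
    obtain ⟨n, hn⟩ := (infinite_of_hyper hr).nonempty
    rw [Set.mem_setOf_eq, hr1, mul_zero, zpow_zero, mul_one] at hn
    exact hn
  have hright : (C.P0 g w).right = 1 := by
    refine Prod.ext hr2 ?_
    exact Multiplicative.toAdd.injective hr1
  -- the left part
  have hl : ∀ᶠ (n : ℕ) in (hyperfilter ℕ : Filter ℕ), C.EE n 0 (C.P0 g w).left = 1 := by
    filter_upwards [h1] with n hn
    obtain ⟨m, hm⟩ := (infinite_of_hyper hn).nonempty
    obtain ⟨m', hm', hlt⟩ := (infinite_of_hyper hn).exists_gt m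
    rw [Set.mem_setOf_eq] at hm hm'
    have e1 := C.f_ps g n m w
    have e2 := C.f_ps g n m' w
    rw [hm, map_one] at e1
    rw [hm', map_one] at e2
    have e3 : C.EE n m (C.P0 g w).left = C.EE n m' (C.P0 g w).left := by
      apply C.hinc
      exact mul_right_cancel (e1.symm.trans e2)
    have e4 : (C.act C.z ^ ((m' : ℤ) - m)) (C.EE n m (C.P0 g w).left) =
        C.EE n m (C.P0 g w).left := by
      rw [EE_shift, sub_add_cancel, e3]
    have e5 := C.hfix' _ (by omega) _ e4
    have e6 := C.EE_shift n m (-m) (C.P0 g w).left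
    rw [e5, map_one, neg_add_cancel] at e6
    exact e6.symm
  have hleft : (C.P0 g w).left = 1 := by
    obtain ⟨N, hN⟩ : ∃ N : ℕ, ∀ p ∈ mulSupport (C.P0 g w).left,
        (Multiplicative.toAdd p).natAbs ≤ N := by
      obtain ⟨N, hN⟩ := ((C.fin_supp g w).image fun p => (Multiplicative.toAdd p).natAbs).bddAbove
      exact ⟨N, fun p hp => hN ⟨p, hp, rfl⟩⟩
    set F := (C.P0 g w).left with hF
    have h3 := vdm (E := AddMonoid.End (Additive D)) (V := Additive D) C.tz
      ?_ ?_ (2 * N + 1) (fun p => Additive.ofMul (F (Multiplicative.ofAdd ((p : ℤ) - N))))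
      _ (infinite_of_hyper hl) ?_
    · funext p
      by_contra hp
      have h4 := hN p hp
      have h5 := h3 ((Multiplicative.toAdd p + N).toNat) (by omega)
      rw [Int.toNat_of_nonneg (by omega), add_sub_cancel_right] at h5
      exact hp h5
    · intro k hk v hv
      rw [sub_smul, one_smul, sub_eq_zero, tz_pow] at hv
      exact C.hfix k hk _ hv
    · intro v hv
      have h4 := C.tz_pow 1 v
      rw [pow_one, hv, pow_one] at h4
      exact (MulEquiv.map_eq_one_iff (C.act C.z)).mp h4.symm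
    · intro n hn
      rw [Set.mem_setOf_eq] at hn
      have h4 := C.EE_shift n 0 ((n * N : ℕ) : ℤ) F
      rw [hn, map_one, add_zero, C.EE_range n N F hN] at h4
      have h5 : ∀ p ∈ Finset.range (2 * N + 1), (C.tz ^ n) ^ p •
          Additive.ofMul (F (Multiplicative.ofAdd ((p : ℤ) - N))) =
          Additive.ofMul ((C.act C.z ^ (n * p)) (F (Multiplicative.ofAdd ((p : ℤ) - N)))) := by
        intro p _
        rw [← pow_mul, tz_pow]
        rfl
      rw [Finset.sum_congr rfl h5, ← ofMul_prod, ← h4]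
      rfl
  exact SemidirectProduct.ext hleft hright

theorem single_inst {Γ T : Type} [One T] (i1 i2 : DecidableEq Γ) (p : Γ) (l : T) :
    @Pi.mulSingle Γ (fun _ => T) _ i1 p l = @Pi.mulSingle Γ (fun _ => T) _ i2 p l := by
  rw [Subsingleton.elim i1 i2]

/-- the homomorphism of the limit group -/
noncomputable def PhiL : Lim UU (C.ps g) →* WW (Multiplicative ℤ) D :=
  QuotientGroup.lift (Rel UU (C.ps g)) (C.P0 g) (fun _ hw => C.P0_eq_one g hw)

theorem PhiL_lg (e : I ⊕ (Unit ⊕ Unit)) :
    C.PhiL g (lg UU (C.ps g) e) = C.P0 g (FreeGroup.of e) := by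
  rw [PhiL, lg, QuotientGroup.mk'_apply, QuotientGroup.lift_mk']

/-- the configuration of the limit group -/
noncomputable def toCfg : Cfg (Lim UU (C.ps g)) (Multiplicative ℤ) D I Unit Unit where
  Φ := C.PhiL g
  g i := lg UU (C.ps g) (.inl i)
  t _ := lg UU (C.ps g) (.inr (.inl ()))
  x _ := lg UU (C.ps g) (.inr (.inr ()))
  α i := C.act (g i)
  γ _ := Multiplicative.ofAdd 1
  x0 _ := C.x0
  s0 := ()
  hg i := by
    rw [PhiL_lg, P0, FreeGroup.lift_apply_of]
    rfl
  ht j := by
    rw [PhiL_lg, P0, FreeGroup.lift_apply_of]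
    rfl
  hx s := by
    rw [PhiL_lg, P0, FreeGroup.lift_apply_of, Sum.elim_inr, Sum.elim_inr]
    exact congrArg inl (single_inst _ _ _ _)
  hgen := by
    have h := closure_lg UU (C.ps g)
    rw [← h]
    congr 2
    funext e
    rcases e with i | ⟨⟩ | ⟨⟩ <;> rfl
  hγ := by
    rw [Set.range_const, ← Subgroup.zpowers_eq_closure, Subgroup.eq_top_iff']
    intro p
    rw [Subgroup.mem_zpowers_iff]
    refine ⟨Multiplicative.toAdd p, ?_⟩
    apply Multiplicative.toAdd.injective
    rw [toAdd_zpow, toAdd_ofAdd]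
    simp
  hs0 := C.hx0

theorem closure_ps (hg : Subgroup.closure (Set.range g) = ⊤) (l : ℕ × ℕ) :
    Subgroup.closure (Set.range (C.ps g l)) = ⊤ := by
  rw [eq_top_iff, ← hg, Subgroup.closure_le]
  rintro _ ⟨i, rfl⟩
  exact Subgroup.subset_closure ⟨.inl i, rfl⟩

include C in
theorem main [Finite I] (hg : Subgroup.closure (Set.range g) = ⊤) :
    ∃ (K B : Type) (_ : Group K) (_ : Group B), Preforms G K ∧ Preforms B K ∧
      Preforms B (FreeGroup (Fin (Nat.card (Option (Kx I Unit Unit))))) := by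
  obtain ⟨K, B, hK, hB, k, hk, h1, h2, h3⟩ := (C.toCfg g).main
  refine ⟨K, B, hK, hB, ?_, h2, h3⟩
  exact ((apx_lim UU (C.ps g) (C.closure_ps g hg)).trans (closure_lg UU (C.ps g)) h1).preforms hk

end Dat

end Pool.Agent.Work.MP_66343f_al
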