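import Mathlib

/-!
# MP_66343f_al: exponential sums along an idempotent ultrafilter, separation in group actions
-/

set_option autoImplicit false

namespace Pool.Agent.Work.MP_66343f_al

open Filter

/-- the property of an idempotent ultrafilter on the positive integers which is used -/
def Idem (U : Ultrafilter ℕ) : Prop :=
  ∀ P : ℕ → Prop, (∀ᶠ m in (U : Filter ℕ), P m) →
    ∃ a ≥ 1, ∀ᶠ m in (U : Filter ℕ), P m ∧ P (m + a)

theorem exists_idem : ∃ U : Ultrafilter ℕ, Idem U := by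
  letI := Ultrafilter.addSemigroup (M := ℕ)
  obtain ⟨U, hU, hFS⟩ := Hindman.exists_idempotent_ultrafilter_le_FS (M := ℕ) (Stream'.const 1)
  have hpos : ∀ᶠ m in (U : Filter ℕ), 1 ≤ m := by
    filter_upwards [hFS] with m hm
    have key : ∀ (a : Stream' ℕ) (m : ℕ), m ∈ Hindman.FS a → (∀ n, a.get n = 1) → 1 ≤ m := by
      intro a m h
      induction h with
      | head' a => intro h0; exact (h0 0).ge
      | tail' a m _ ih => intro h0; exact ih fun n => h0 (n + 1)
      | cons' a m _ ih =>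
        intro h0
        exact le_add_of_le_right (ih fun n => h0 (n + 1))
    exact key _ m hm fun n => rfl
  refine ⟨U, fun P hP => ?_⟩
  have h1 : ∀ᶠ m in ((U + U : Ultrafilter ℕ) : Filter ℕ), P m := by
    rw [hU]
    exact hP
  rw [Ultrafilter.eventually_add] at h1
  obtain ⟨a, ha1, ha2⟩ := (h1.and hpos).exists
  refine ⟨a, ha2, ?_⟩
  filter_upwards [hP, ha1] with m h2 h3
  exact ⟨h2, by rwa [add_comm] at h3⟩

section L
variable {M : Type} [CommGroup M] {Z : Subgroup (MulAut M)}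

theorem stepL {ι : Type} (hZ : ∀ a ∈ Z, ∀ b ∈ Z, a * b = b * a) {s : Finset ι} {j : ι}
    (hj : j ∉ s) [DecidableEq ι] {θ0 σ0 ρ : MulAut M} {θ σ : ι → MulAut M} {b : ι → M} {B : M}
    (m : ℕ)
    (h0 : θ0 ∈ Z) (hθ : ∀ i ∈ insert j s, θ i ∈ Z) (hσ0 : σ0 ∈ Z) (hσ : ∀ i ∈ insert j s, σ i ∈ Z)
    (hρ : ρ ∈ Z) (hjb : σ j (b j) = ρ (b j))
    (h1 : (θ0 ^ m) B * ∏ i ∈ insert j s, (θ i ^ m) (b i) = 1)
    (h2 : σ0 ((θ0 ^ m) B) * ∏ i ∈ insert j s, σ i ((θ i ^ m) (b i)) = 1) :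
    (θ0 ^ m) (σ0 B / ρ B) * ∏ i ∈ s, (θ i ^ m) (σ i (b i) / ρ (b i)) = 1 := by
  have com : ∀ a ∈ Z, ∀ b ∈ Z, ∀ d, a ((b ^ m) d) = (b ^ m) (a d) := by
    intro a ha b hb d
    rw [← MulAut.mul_apply, ← MulAut.mul_apply, hZ a ha _ (pow_mem hb m)]
  have e1 : ρ ((θ0 ^ m) B * ∏ i ∈ insert j s, (θ i ^ m) (b i)) = 1 := by rw [h1, map_one]
  have e2 : (θ0 ^ m) (σ0 B) * ∏ i ∈ insert j s, (θ i ^ m) (σ i (b i)) = 1 := by
    rw [← com σ0 hσ0 θ0 h0, ← h2]
    congr 1
    exact Finset.prod_congr rfl fun i hi => (com _ (hσ i hi) _ (hθ i hi) _).symm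
  have e3 : (θ0 ^ m) (ρ B) * ∏ i ∈ insert j s, (θ i ^ m) (ρ (b i)) = 1 := by
    rw [← com ρ hρ θ0 h0, ← e1, map_mul, map_prod]
    congr 1
    exact Finset.prod_congr rfl fun i hi => (com _ hρ _ (hθ i hi) _).symm
  have e4 : (θ0 ^ m) (σ0 B / ρ B) * ∏ i ∈ insert j s, (θ i ^ m) (σ i (b i) / ρ (b i)) = 1 := by
    simp only [map_div, Finset.prod_div_distrib]
    rw [div_mul_div_comm, e2, e3, div_one]
  rw [Finset.prod_insert hj, hjb, div_self', map_one, one_mul] at e4
  exact e4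

/-- **Lemma L** -/
theorem lemL {U : Ultrafilter ℕ} (hU : Idem U) (hZ : ∀ a ∈ Z, ∀ b ∈ Z, a * b = b * a)
    {N0 : Subgroup M} (hN0 : ∀ ζ ∈ Z, ∀ d ∈ N0, ζ d ∈ N0) {θ0 : MulAut M} (h0 : θ0 ∈ Z)
    {ι : Type} (s : Finset ι) : ∀ (θ : ι → MulAut M) (b : ι → M) (B : M),
      (∀ i ∈ s, θ i ∈ Z) → B ∈ N0 →
      (∀ i ∈ s, (∃ δ ∈ Z, δ (b i) = b i ∧ ∀ d ∈ N0, δ d = d → d = 1) ∨
        ∀ a ≥ 1, ∀ d ∈ N0, (θ0 ^ a) d = (θ i ^ a) d → d = 1) →
      (∀ᶠ m in (U : Filter ℕ), (θ0 ^ m) B * ∏ i ∈ s, (θ i ^ m) (b i) = 1) → B = 1 := by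
  classical
  induction s using Finset.induction_on with
  | empty =>
    intro θ b B _ _ _ h
    obtain ⟨m, hm⟩ := h.exists
    rw [Finset.prod_empty, mul_one] at hm
    exact (MulEquiv.map_eq_one_iff _).mp hm
  | insert j s hj ih =>
    intro θ b B hθ hB hc h
    have hjm : j ∈ insert j s := Finset.mem_insert_self j s
    have hsm : ∀ i ∈ s, i ∈ insert j s := fun i hi => Finset.mem_insert_of_mem hi
    rcases hc j hjm with ⟨δ, hδ, hδj, hδN⟩ | hcj
    · refine hδN B hB ?_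
      rw [← div_eq_one]
      refine ih θ (fun i => δ (b i) / (1 : MulAut M) (b i)) (δ B / (1 : MulAut M) B)
        (fun i hi => hθ i (hsm i hi)) (div_mem (hN0 δ hδ B hB) hB) ?_ ?_
      · intro i hi
        rcases hc i (hsm i hi) with ⟨δ', hδ', hδi, hδN'⟩ | hci
        · left
          refine ⟨δ', hδ', ?_, hδN'⟩
          rw [map_div, MulAut.one_apply, hδi, ← MulAut.mul_apply, hZ δ' hδ' δ hδ,
            MulAut.mul_apply, hδi]
        · exact Or.inr hci
      · filter_upwards [h] with m hm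
        refine stepL hZ hj m h0 hθ (σ := fun _ => δ) hδ (fun _ _ => hδ) (one_mem Z) hδj hm ?_
        have := congrArg δ hm
        rw [map_mul, map_prod, map_one] at this
        exact this
    · obtain ⟨a, ha, hev⟩ := hU _ h
      refine hcj a ha B hB ?_
      rw [← div_eq_one]
      refine ih θ (fun i => (θ i ^ a) (b i) / (θ j ^ a) (b i)) ((θ0 ^ a) B / (θ j ^ a) B)
        (fun i hi => hθ i (hsm i hi)) (div_mem (hN0 _ (pow_mem h0 a) B hB)
          (hN0 _ (pow_mem (hθ j hjm) a) B hB)) ?_ ?_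
      · intro i hi
        rcases hc i (hsm i hi) with ⟨δ', hδ', hδi, hδN'⟩ | hci
        · left
          refine ⟨δ', hδ', ?_, hδN'⟩
          rw [map_div, ← MulAut.mul_apply, hZ δ' hδ' _ (pow_mem (hθ i (hsm i hi)) a),
            MulAut.mul_apply, hδi, ← MulAut.mul_apply, hZ δ' hδ' _ (pow_mem (hθ j hjm) a),
            MulAut.mul_apply, hδi]
        · exact Or.inr hci
      · filter_upwards [hev] with m hm
        refine stepL hZ hj m h0 hθ (σ := fun i => θ i ^ a) (pow_mem h0 a)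
          (fun i hi => pow_mem (hθ i hi) a) (pow_mem (hθ j hjm) a) rfl hm.1 ?_
        have h5 := hm.2
        have e : ∀ (t : MulAut M) (d : M), (t ^ (m + a)) d = (t ^ a) ((t ^ m) d) := by
          intro t d
          rw [add_comm, pow_add, MulAut.mul_apply]
        simp only [e] at h5
        exact h5

end L

/-! ## Separation -/

open Pointwise in
/-- P. M. Neumann's separation lemma -/
theorem sepN {J X : Type} (τ : J → Equiv.Perm X)
    (hinf : ∀ p : X, (Set.range fun v : FreeGroup J => FreeGroup.lift τ v p).Infinite)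
    (F : Finset X) : ∃ v : FreeGroup J, ∀ p ∈ F, FreeGroup.lift τ v p ∉ F := by
  classical
  by_contra hcon
  simp only [not_exists, not_forall, not_not] at hcon
  letI : MulAction (FreeGroup J) X := MulAction.compHom X (FreeGroup.lift τ)
  have hsm : ∀ (v : FreeGroup J) (p : X), v • p = FreeGroup.lift τ v p := fun v p => rfl
  set T : Finset (X × X) := (F ×ˢ F).filter fun q => ∃ v : FreeGroup J, v • q.1 = q.2 with hT
  have hch : ∀ q : X × X, ∃ v : FreeGroup J, q ∈ T → v • q.1 = q.2 := by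
    intro q
    by_cases hq : q ∈ T
    · obtain ⟨v, hv⟩ := (Finset.mem_filter.mp hq).2
      exact ⟨v, fun _ => hv⟩
    · exact ⟨1, fun h => absurd h hq⟩
  choose w hw using hch
  have hcov : ⋃ q ∈ T, w q • ((MulAction.stabilizer (FreeGroup J) q.1 :
      Subgroup (FreeGroup J)) : Set (FreeGroup J)) = Set.univ := by
    rw [Set.eq_univ_iff_forall]
    intro v
    obtain ⟨p, hp, hvp⟩ := hcon v
    rw [Set.mem_iUnion₂]
    have hqT : (p, v • p) ∈ T := by
      rw [hT, Finset.mem_filter, Finset.mem_product]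
      exact ⟨⟨hp, hvp⟩, v, rfl⟩
    refine ⟨(p, v • p), hqT, ?_⟩
    rw [Set.mem_smul_set_iff_inv_smul_mem, SetLike.mem_coe, MulAction.mem_stabilizer_iff,
      smul_eq_mul, mul_smul, inv_smul_eq_iff]
    exact (hw _ hqT).symm
  obtain ⟨q, hq, hfi⟩ := Subgroup.exists_finiteIndex_of_leftCoset_cover hcov
  have h1 : Finite (MulAction.orbit (FreeGroup J) q.1) := by
    have := MulAction.orbitEquivQuotientStabilizer (FreeGroup J) q.1
    exact Finite.of_equiv _ this.symm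
  apply hinf q.1
  exact Set.toFinite (MulAction.orbit (FreeGroup J) q.1)

end Pool.Agent.Work.MP_66343f_al
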