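import Pool.Agent.Work.MP_66343f_al.STstar
import Pool.Agent.Work.MP_66343f_al.Ult

/-!
# MP_66343f_al: twisted data and the sites
-/

set_option autoImplicit false

namespace Pool.Agent.Work.MP_66343f_al

open SemidirectProduct Filter Function

/-- An abelian normal subgroup (the image of `inc`) of a homomorphic image of `G`, a commutative
group `Z` of automorphisms normalised by `G` and centralised by a subgroup of finite index, and an
element `z` acting as an element of `Z`, no power of which fixes a nontrivial element of the fixed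
points of `Δ`. -/
structure Dat2 (G A M : Type) [Group G] [Group A] [CommGroup M] where
  f : G →* A
  inc : M →* A
  hinc : Injective inc
  act : G →* MulAut M
  hact : ∀ h d, inc (act h d) = f h * inc d * (f h)⁻¹
  Z : Subgroup (MulAut M)
  hZ : ∀ a ∈ Z, ∀ b ∈ Z, a * b = b * a
  hZn : ∀ (h : G), ∀ ζ ∈ Z, act h * ζ * (act h)⁻¹ ∈ Z
  NN : Subgroup G
  hNN : NN.FiniteIndex
  hNZ : ∀ h ∈ NN, ∀ ζ ∈ Z, act h * ζ = ζ * act h
  z : G
  x : G
  x0 : M
  hx : f x = inc x0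
  hx0 : x0 ≠ 1
  Δ : Subgroup (MulAut M)
  hΔZ : Δ ≤ Z
  hxΔ : ∀ δ ∈ Δ, δ x0 = x0
  hfix : ∀ ζ ∈ Z, ζ ∉ Δ → ∀ d, (∀ δ ∈ Δ, δ d = d) → ζ d = d → d = 1
  Γ : Subgroup (MulAut M)
  hΓZ : Γ ≤ Z
  hzΓ : act z ∈ Γ
  hΓn : ∀ (h : G), ∀ ζ ∈ Γ, act h * ζ * (act h)⁻¹ ∈ Γ
  hΓi : ∀ ζ ∈ Γ, ζ ∉ Δ → ∀ k ≥ 1, ζ ^ k ∉ Δ
  hΓt : ∀ ζ ∈ Γ, ∀ k ≥ 1, ζ ^ k = 1 → ζ = 1
  hzΔ : act z ∉ Δ

namespace Dat2

variable {G A M : Type} [Group G] [Group A] [CommGroup M] (C : Dat2 G A M)

/-- the conjugates of `z` -/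
def zc (h : G) : MulAut M := C.act h * C.act C.z * (C.act h)⁻¹

/-- the conjugates of `Δ` -/
def Dl (h : G) : Subgroup (MulAut M) := C.Δ.comap (MulAut.conj (C.act h)⁻¹).toMonoidHom

theorem mem_Dl {h : G} {ζ : MulAut M} : ζ ∈ C.Dl h ↔ (C.act h)⁻¹ * ζ * C.act h ∈ C.Δ := by
  change MulAut.conj (C.act h)⁻¹ ζ ∈ C.Δ ↔ _
  rw [MulAut.conj_apply, inv_inv]

theorem mem_Dl_mul {g h : G} {ζ : MulAut M} :
    C.act g * ζ * (C.act g)⁻¹ ∈ C.Dl (g * h) ↔ ζ ∈ C.Dl h := by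
  rw [mem_Dl, mem_Dl, map_mul]
  have : (C.act g * C.act h)⁻¹ * (C.act g * ζ * (C.act g)⁻¹) * (C.act g * C.act h) =
      (C.act h)⁻¹ * ζ * C.act h := by group
  rw [this]

theorem Dl_one : C.Dl 1 = C.Δ := by
  ext ζ
  rw [mem_Dl]
  simp

theorem zc_mul (g h : G) : C.zc (g * h) = C.act g * C.zc h * (C.act g)⁻¹ := by
  unfold zc
  rw [map_mul]
  group

theorem zc_one : C.zc 1 = C.act C.z := by
  unfold zc
  simp

theorem zc_mem_Γ (h : G) : C.zc h ∈ C.Γ := C.hΓn h _ C.hzΓ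

theorem Dl_le_Z (h : G) : C.Dl h ≤ C.Z := by
  intro ζ hζ
  rw [mem_Dl] at hζ
  have h1 := C.hZn h _ (C.hΔZ hζ)
  have h2 : C.act h * ((C.act h)⁻¹ * ζ * C.act h) * (C.act h)⁻¹ = ζ := by group
  rwa [h2] at h1

theorem fix_h (h : G) {ζ : MulAut M} (hζ : ζ ∈ C.Z) (hζ' : ζ ∉ C.Dl h) {d : M}
    (hd : ∀ δ ∈ C.Dl h, δ d = d) (hζd : ζ d = d) : d = 1 := by
  have h1 : (C.act h)⁻¹ * ζ * C.act h ∈ C.Z := by
    have := C.hZn h⁻¹ ζ hζ
    rwa [map_inv, inv_inv] at this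
  have h2 := C.hfix _ h1 (fun h' => hζ' (C.mem_Dl.mpr h')) ((C.act h)⁻¹ d) ?_ ?_
  · exact (MulEquiv.map_eq_one_iff _).mp h2
  · intro δ hδ
    have h3 : C.act h * δ * (C.act h)⁻¹ ∈ C.Dl h := by
      rw [mem_Dl]
      have : (C.act h)⁻¹ * (C.act h * δ * (C.act h)⁻¹) * C.act h = δ := by group
      rwa [this]
    have h4 := hd _ h3
    simp only [MulAut.mul_apply] at h4
    have h5 := congrArg (fun e => (C.act h)⁻¹ e) h4
    simp only [MulAut.inv_apply_self] at h5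
    exact h5
  · simp only [MulAut.mul_apply, MulAut.apply_inv_self, hζd]

theorem iso_h (h : G) {ζ : MulAut M} (hζ : ζ ∈ C.Γ) (hζ' : ζ ∉ C.Dl h) {k : ℕ} (hk : 1 ≤ k) :
    ζ ^ k ∉ C.Dl h := by
  rw [mem_Dl] at hζ' ⊢
  have h1 : (C.act h)⁻¹ * ζ * C.act h ∈ C.Γ := by
    have := C.hΓn h⁻¹ ζ hζ
    rwa [map_inv, inv_inv] at this
  have h2 := C.hΓi _ h1 hζ' k hk
  have h3 : ((C.act h)⁻¹ * ζ * C.act h) ^ k = (C.act h)⁻¹ * ζ ^ k * C.act h := by
    have := conj_pow (i := k) (a := (C.act h)⁻¹) (b := ζ)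
    rwa [inv_inv] at this
  rwa [h3] at h2

theorem zc_notMem (h : G) : C.zc h ∉ C.Dl h := by
  rw [mem_Dl]
  have : (C.act h)⁻¹ * C.zc h * C.act h = C.act C.z := by
    unfold zc
    group
  rw [this]
  exact C.hzΔ

theorem Dl_mono {g h h' : G} (hh : C.Dl h ≤ C.Dl h') : C.Dl (g * h) ≤ C.Dl (g * h') := by
  intro ζ hζ
  have e : ζ = C.act g * ((C.act g)⁻¹ * ζ * C.act g) * (C.act g)⁻¹ := by group
  rw [e, mem_Dl_mul] at hζ ⊢
  exact hh hζ

theorem Dl_NN {n : G} (hn : n ∈ C.NN) (h : G) : C.Dl (h * n) = C.Dl h := by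
  have h1 : C.Dl n = C.Dl 1 := by
    rw [Dl_one]
    ext ζ
    rw [mem_Dl]
    constructor
    · intro h2
      have h3 := C.hNZ n hn _ (C.hΔZ h2)
      have h4 : C.act n * ((C.act n)⁻¹ * ζ * C.act n) = ζ * C.act n := by group
      rw [h4] at h3
      have h5 : ζ = (C.act n)⁻¹ * ζ * C.act n := mul_right_cancel h3
      rw [h5]
      exact h2
    · intro h2
      have h3 := C.hNZ n hn _ (C.hΔZ h2)
      rw [mul_assoc, ← h3, inv_mul_cancel_left]
      exact h2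
  apply le_antisymm
  · have := C.Dl_mono (g := h) (h := n) (h' := 1) h1.le
    rwa [mul_one] at this
  · have := C.Dl_mono (g := h) (h := 1) (h' := n) h1.ge
    rwa [mul_one] at this

theorem zc_NN {n : G} (hn : n ∈ C.NN) (h : G) : C.zc (h * n) = C.zc h := by
  rw [zc_mul]
  have h1 : C.zc n = C.act C.z := by
    unfold zc
    rw [C.hNZ n hn _ (C.hΓZ C.hzΓ)]
    group
  rw [h1]
  rfl

/-- inclusions of conjugates of `Δ` are equalities -/
theorem Dl_eq_of_le {h h' : G} (hh : C.Dl h ≤ C.Dl h') : C.Dl h = C.Dl h' := by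
  set g := h⁻¹ * h' with hg
  have h1 : C.Dl 1 ≤ C.Dl g := by
    have := C.Dl_mono (g := h⁻¹) hh
    rwa [inv_mul_cancel] at this
  have h2 : ∀ k : ℕ, C.Dl g ≤ C.Dl (g ^ (k + 1)) := by
    intro k
    induction k with
    | zero => simp
    | succ k ih =>
      refine ih.trans ?_
      have := C.Dl_mono (g := g ^ (k + 1)) h1
      rwa [mul_one, ← pow_succ] at this
  obtain ⟨k, hk1, _, hk2⟩ := Subgroup.exists_pow_mem_of_index_ne_zero C.hNN.index_ne_zero g
  have h3 : C.Dl (g ^ k) = C.Dl 1 := by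
    have := C.Dl_NN hk2 1
    rwa [one_mul] at this
  have h4 : C.Dl g ≤ C.Dl 1 := by
    have := h2 (k - 1)
    rwa [Nat.sub_add_cancel hk1, h3] at this
  have h5 := C.Dl_mono (g := h) h4
  rw [mul_one, hg, mul_inv_cancel_left] at h5
  exact le_antisymm hh h5

/-! ## Sites -/

/-- the group generated by the conjugates of `z` -/
def Gm : Subgroup (MulAut M) := Subgroup.closure (Set.range C.zc)

theorem zc_mem_Gm (h : G) : C.zc h ∈ C.Gm := Subgroup.subset_closure ⟨h, rfl⟩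

theorem Gm_le : C.Gm ≤ C.Γ := by
  unfold Gm
  rw [Subgroup.closure_le]
  rintro _ ⟨h, rfl⟩
  exact C.zc_mem_Γ h

theorem Gm_conj (g : G) {ζ : MulAut M} (hζ : ζ ∈ C.Gm) :
    C.act g * ζ * (C.act g)⁻¹ ∈ C.Gm := by
  have h1 : C.Gm ≤ C.Gm.comap (MulAut.conj (C.act g)).toMonoidHom := by
    conv_lhs => unfold Gm
    rw [Subgroup.closure_le]
    rintro _ ⟨h, rfl⟩
    change MulAut.conj (C.act g) (C.zc h) ∈ C.Gm
    rw [MulAut.conj_apply, ← zc_mul]
    exact C.zc_mem_Gm _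
  exact h1 hζ

/-- the action of `G` on `Gm` -/
def cG : G →* MulAut C.Gm where
  toFun g :=
    { toFun := fun γ => ⟨C.act g * γ * (C.act g)⁻¹, C.Gm_conj g γ.2⟩
      invFun := fun γ => ⟨C.act g⁻¹ * γ * (C.act g⁻¹)⁻¹, C.Gm_conj g⁻¹ γ.2⟩
      left_inv := by
        intro γ
        apply Subtype.ext
        simp only [map_inv]
        group
      right_inv := by
        intro γ
        apply Subtype.ext
        simp only [map_inv]
        group
      map_mul' := by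
        intro γ γ'
        apply Subtype.ext
        simp only [Subgroup.coe_mul]
        group }
  map_one' := by
    ext γ : 2
    simp
  map_mul' := by
    intro a b
    ext γ : 2
    simp [mul_assoc]

theorem cG_coe (g : G) (γ : C.Gm) :
    (C.cG g γ : MulAut M) = C.act g * γ * (C.act g)⁻¹ := rfl

/-- the group acting on the sites -/
abbrev SS : Type := C.Gm ⋊[C.cG] G

theorem com {a b : MulAut M} (ha : a ∈ C.Z) (hb : b ∈ C.Z) : a * b = b * a := C.hZ a ha b hb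

theorem Gm_Z (γ : C.Gm) : (γ : MulAut M) ∈ C.Z := C.hΓZ (C.Gm_le γ.2)

theorem zc_Z (h : G) : C.zc h ∈ C.Z := C.hΓZ (C.zc_mem_Γ h)

/-- the equivalence of names of sites -/
def setX : Setoid (G × C.Gm) where
  r p q := C.Dl p.1 = C.Dl q.1 ∧ (C.zc p.1)⁻¹ * C.zc q.1 ∈ C.Dl p.1 ∧
    (p.2 : MulAut M)⁻¹ * q.2 ∈ C.Dl p.1
  iseqv :=
    { refl := fun p => ⟨rfl, by simp, by simp⟩
      symm := by
        rintro p q ⟨h1, h2, h3⟩
        rw [h1] at h2 h3
        refine ⟨h1.symm, ?_, ?_⟩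
        · have := inv_mem h2
          rwa [mul_inv_rev, inv_inv] at this
        · have := inv_mem h3
          rwa [mul_inv_rev, inv_inv] at this
      trans := by
        rintro p q r ⟨h1, h2, h3⟩ ⟨h4, h5, h6⟩
        rw [← h1] at h5 h6
        refine ⟨h1.trans h4, ?_, ?_⟩
        · have := mul_mem h2 h5
          have e : (C.zc p.1)⁻¹ * C.zc q.1 * ((C.zc q.1)⁻¹ * C.zc r.1) =
              (C.zc p.1)⁻¹ * C.zc r.1 := by group
          rwa [e] at this
        · have := mul_mem h3 h6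
          have e : (p.2 : MulAut M)⁻¹ * q.2 * ((q.2 : MulAut M)⁻¹ * r.2) =
              (p.2 : MulAut M)⁻¹ * r.2 := by group
          rwa [e] at this }

/-- the sites -/
def XX : Type := Quotient C.setX

/-- the action on the names -/
def mv (b : C.SS) (p : G × C.Gm) : G × C.Gm := (b.right * p.1, b.left * C.cG b.right p.2)

theorem mv_rel (b : C.SS) {p q : G × C.Gm} (h : C.setX.r p q) :
    C.setX.r (C.mv b p) (C.mv b q) := by
  obtain ⟨h1, h2, h3⟩ := h
  refine ⟨?_, ?_, ?_⟩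
  · exact le_antisymm (C.Dl_mono h1.le) (C.Dl_mono h1.ge)
  · change (C.zc (b.right * p.1))⁻¹ * C.zc (b.right * q.1) ∈ C.Dl (b.right * p.1)
    rw [zc_mul, zc_mul]
    have e : (C.act b.right * C.zc p.1 * (C.act b.right)⁻¹)⁻¹ *
        (C.act b.right * C.zc q.1 * (C.act b.right)⁻¹) =
        C.act b.right * ((C.zc p.1)⁻¹ * C.zc q.1) * (C.act b.right)⁻¹ := by group
    rw [e, mem_Dl_mul]
    exact h2
  · change ((b.left * C.cG b.right p.2 : C.Gm) : MulAut M)⁻¹ *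
      ((b.left * C.cG b.right q.2 : C.Gm) : MulAut M) ∈ C.Dl (b.right * p.1)
    rw [Subgroup.coe_mul, Subgroup.coe_mul, cG_coe, cG_coe]
    have e : ((b.left : MulAut M) * (C.act b.right * p.2 * (C.act b.right)⁻¹))⁻¹ *
        ((b.left : MulAut M) * (C.act b.right * q.2 * (C.act b.right)⁻¹)) =
        C.act b.right * ((p.2 : MulAut M)⁻¹ * q.2) * (C.act b.right)⁻¹ := by group
    rw [e, mem_Dl_mul]
    exact h3

/-- the name gives the site -/
def st (h : G) (γ : C.Gm) : C.XX := Quotient.mk C.setX (h, γ)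

instance : MulAction C.SS C.XX where
  smul b := Quotient.map (C.mv b) (fun _ _ h => C.mv_rel b h)
  one_smul := by
    intro ξ
    induction ξ using Quotient.ind with
    | _ p =>
      change Quotient.mk C.setX (C.mv 1 p) = Quotient.mk C.setX p
      congr 1
      obtain ⟨h, γ⟩ := p
      simp [mv]
  mul_smul := by
    intro a b ξ
    induction ξ using Quotient.ind with
    | _ p =>
      change Quotient.mk C.setX (C.mv (a * b) p) = Quotient.mk C.setX (C.mv a (C.mv b p))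
      congr 1
      obtain ⟨h, γ⟩ := p
      simp [mv, mul_assoc]

theorem smul_st (b : C.SS) (h : G) (γ : C.Gm) :
    b • C.st h γ = C.st (b.right * h) (b.left * C.cG b.right γ) := rfl

theorem ind {P : C.XX → Prop} (h : ∀ g γ, P (C.st g γ)) (ξ : C.XX) : P ξ := by
  induction ξ using Quotient.ind with
  | _ p => exact h p.1 p.2

theorem st_eq {h h' : G} {γ γ' : C.Gm} : C.st h γ = C.st h' γ' ↔
    C.Dl h = C.Dl h' ∧ (C.zc h)⁻¹ * C.zc h' ∈ C.Dl h ∧ (γ : MulAut M)⁻¹ * γ' ∈ C.Dl h := by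
  exact Quotient.eq (r := C.setX)

end Dat2

end Pool.Agent.Work.MP_66343f_al
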