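import Pool.Agent.Work.MP_66343f_al.Dat2

/-!
# MP_66343f_al: twisted data, evaluation of words
-/

set_option autoImplicit false

namespace Pool.Agent.Work.MP_66343f_al

open SemidirectProduct Filter Function

namespace Dat2

variable {G A M : Type} [Group G] [Group A] [CommGroup M] (C : Dat2 G A M)

/-- the conjugate of `Δ` belonging to a site -/
def dl (ξ : C.XX) : Subgroup (MulAut M) :=
  Quotient.lift (s := C.setX) (fun p => C.Dl p.1) (fun _ _ h => h.1) ξ

theorem dl_st (h : G) (γ : C.Gm) : C.dl (C.st h γ) = C.Dl h := rfl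

/-- a name of a site -/
noncomputable def out (ξ : C.XX) : G × C.Gm := Quotient.out (s := C.setX) ξ

theorem st_out (ξ : C.XX) : C.st (C.out ξ).1 (C.out ξ).2 = ξ := Quotient.out_eq (s := C.setX) ξ

/-- the translation of a site -/
noncomputable def gc (ξ : C.XX) : MulAut M := ((C.out ξ).2 : MulAut M)

/-- the conjugate of `z` of a site -/
noncomputable def gz (ξ : C.XX) : MulAut M := C.zc (C.out ξ).1

theorem gc_Z (ξ : C.XX) : C.gc ξ ∈ C.Z := C.Gm_Z _

theorem gz_Z (ξ : C.XX) : C.gz ξ ∈ C.Z := C.zc_Z _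

theorem dl_out (ξ : C.XX) : C.dl ξ = C.Dl (C.out ξ).1 := by
  conv_lhs => rw [← C.st_out ξ]
  rfl

theorem pow_eq {h : G} {a b : MulAut M} (ha : a ∈ C.Z) (hb : b ∈ C.Z) (hab : a⁻¹ * b ∈ C.Dl h)
    {d : M} (hd : ∀ δ ∈ C.Dl h, δ d = d) (n : ℕ) : (a ^ n) d = (b ^ n) d := by
  have h1 : b = a * (a⁻¹ * b) := by group
  have h2 : b ^ n = a ^ n * (a⁻¹ * b) ^ n := by
    conv_lhs => rw [h1]
    exact Commute.mul_pow (C.com ha (mul_mem (inv_mem ha) hb)) n
  rw [h2, MulAut.mul_apply, hd _ (pow_mem hab n)]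

theorem fix_comm {h : G} {a : MulAut M} (ha : a ∈ C.Z) {d : M} (hd : ∀ δ ∈ C.Dl h, δ d = d) :
    ∀ δ ∈ C.Dl h, δ (a d) = a d := by
  intro δ hδ
  rw [← MulAut.mul_apply, C.com (C.Dl_le_Z h hδ) ha, MulAut.mul_apply, hd δ hδ]

theorem EQ (h : G) (γ : C.Gm) (n m : ℕ) {d : M} (hd : ∀ δ ∈ C.Dl h, δ d = d) :
    (C.gc (C.st h γ) ^ n) ((C.gz (C.st h γ) ^ m) d) = ((γ : MulAut M) ^ n) ((C.zc h ^ m) d) := by
  have h1 : C.st (C.out (C.st h γ)).1 (C.out (C.st h γ)).2 = C.st h γ := C.st_out _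
  rw [st_eq] at h1
  obtain ⟨h2, h3, h4⟩ := h1
  have hd' : ∀ δ ∈ C.Dl (C.out (C.st h γ)).1, δ d = d := by
    rw [h2]
    exact hd
  have e1 : (C.gz (C.st h γ) ^ m) d = (C.zc h ^ m) d :=
    C.pow_eq (C.gz_Z _) (C.zc_Z _) h3 hd' m
  rw [e1]
  exact C.pow_eq (C.gc_Z _) (C.Gm_Z _) h4 (C.fix_comm (pow_mem (C.zc_Z h) m) hd') n

/-- permutation of the sites and action on the fibre -/
def Rr : C.SS →* MulAut M × Equiv.Perm C.XX :=
  (C.act.comp rightHom).prod (MulAction.toPermHom C.SS C.XX)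

theorem Rr_fst (b : C.SS) : (C.Rr b).1 = C.act b.right := rfl

theorem Rr_snd (b : C.SS) (ξ : C.XX) : (C.Rr b).2 ξ = b • ξ := rfl

theorem Rr_snd_inv (b : C.SS) (ξ : C.XX) : (C.Rr b).2⁻¹ ξ = b⁻¹ • ξ := by
  have h : (C.Rr b).2 (b⁻¹ • ξ) = ξ := by rw [Rr_snd, smul_inv_smul]
  rw [← h, pinv]
  rw [h]

/-- the action of the words with the power `n` -/
def Kn (n : ℕ) : C.SS →* MulAut M where
  toFun b := (b.left : MulAut M) ^ n * C.act b.right
  map_one' := by simp
  map_mul' := by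
    intro a b
    rw [mul_left, mul_right, Subgroup.coe_mul, cG_coe, map_mul]
    have h1 : C.act a.right * (b.left : MulAut M) * (C.act a.right)⁻¹ ∈ C.Z :=
      C.hZn _ _ (C.Gm_Z _)
    have h2 := Commute.mul_pow (C.com (C.Gm_Z a.left) h1) n
    rw [h2, conj_pow]
    group

theorem Kn_apply (n : ℕ) (b : C.SS) : C.Kn n b = (b.left : MulAut M) ^ n * C.act b.right := rfl

/-- representatives of the cosets -/
noncomputable def sP (p : G ⧸ C.NN) : G := Quotient.out p

theorem exists_sP (h : G) : ∃ n ∈ C.NN, h = C.sP (h : G ⧸ C.NN) * n := by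
  obtain ⟨n, hn⟩ := QuotientGroup.mk_out_eq_mul C.NN h
  refine ⟨(n : G)⁻¹, inv_mem n.2, ?_⟩
  unfold sP
  rw [hn]
  group

/-- the conjugates of `z` as elements of the group of translations -/
def zg (h : G) : C.Gm := ⟨C.zc h, C.zc_mem_Gm h⟩

/-- base sites -/
noncomputable def bs (p : G ⧸ C.NN) : C.XX := C.st (C.sP p) 1

variable {I : Type} (g : I → G)

/-- the letters -/
abbrev Lt (I : Type) : Type := I ⊕ ((G ⧸ C.NN) ⊕ (G ⧸ C.NN))

/-- the generating tuples -/
noncomputable def ps (l : ℕ × ℕ) : C.Lt I → G :=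
  Sum.elim g (Sum.elim (fun p => C.sP p * C.z ^ l.1 * (C.sP p)⁻¹)
    (fun p => C.sP p * (C.z ^ l.2 * C.x * (C.z ^ l.2)⁻¹) * (C.sP p)⁻¹))

/-- the tuples without `x` -/
noncomputable def ps' (n : ℕ) : C.Lt I → G :=
  Sum.elim g (Sum.elim (fun p => C.sP p * C.z ^ n * (C.sP p)⁻¹) (fun _ => 1))

/-- the words in the group acting on the sites -/
noncomputable def B0 : FreeGroup (C.Lt I) →* C.SS :=
  FreeGroup.lift (Sum.elim (fun i => inr (g i)) (Sum.elim (fun p => inl (C.zg (C.sP p)))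
    (fun _ => 1)))

open Classical in
/-- the formal tuple -/
noncomputable def P0 : FreeGroup (C.Lt I) →* WX C.XX M :=
  FreeGroup.lift (Sum.elim (fun i => inr (C.Rr (inr (g i))))
    (Sum.elim (fun p => inr (C.Rr (inl (C.zg (C.sP p)))))
      (fun p => inl (Pi.mulSingle (C.bs p) (C.act (C.sP p) C.x0)))))

theorem P0_right (w : FreeGroup (C.Lt I)) : (C.P0 g w).right = C.Rr (C.B0 g w) := by
  have : rightHom.comp (C.P0 g) = C.Rr.comp (C.B0 g) := by
    ext e : 1
    rcases e with i | p | p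
    · simp [P0, B0]
    · simp [P0, B0]
    · simp [P0, B0]
  exact DFunLike.congr_fun this w

theorem act_x : C.act C.x = 1 := by
  ext d
  apply C.hinc
  rw [C.hact, C.hx, ← map_inv, ← map_mul, ← map_mul, MulAut.one_apply, mul_comm C.x0, mul_assoc,
    mul_inv_cancel, mul_one]

theorem act_z (h : G) (n : ℕ) : C.act (h * C.z ^ n * h⁻¹) = C.zc h ^ n := by
  unfold zc
  rw [map_mul, map_mul, map_pow, map_inv, conj_pow]

theorem act_ps (l : ℕ × ℕ) (w : FreeGroup (C.Lt I)) :
    C.act (FreeGroup.lift (C.ps g l) w) = C.Kn l.1 (C.B0 g w) := by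
  have : C.act.comp (FreeGroup.lift (C.ps g l)) = (C.Kn l.1).comp (C.B0 g) := by
    ext e : 1
    rcases e with i | p | p
    · simp [ps, B0, Kn_apply]
    · simp only [MonoidHom.comp_apply, FreeGroup.lift_apply_of, ps, B0, Sum.elim_inr,
        Sum.elim_inl, Kn_apply, left_inl, right_inl, map_one, mul_one, act_z]
      rfl
    · simp [ps, B0, act_x]
  exact DFunLike.congr_fun this w

theorem act_ps' (n : ℕ) (w : FreeGroup (C.Lt I)) :
    C.act (FreeGroup.lift (C.ps' g n) w) = C.Kn n (C.B0 g w) := by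
  have : C.act.comp (FreeGroup.lift (C.ps' g n)) = (C.Kn n).comp (C.B0 g) := by
    ext e : 1
    rcases e with i | p | p
    · simp [ps', B0, Kn_apply]
    · simp only [MonoidHom.comp_apply, FreeGroup.lift_apply_of, ps', B0, Sum.elim_inr,
        Sum.elim_inl, Kn_apply, left_inl, right_inl, map_one, mul_one, act_z]
      rfl
    · simp [ps', B0]
  exact DFunLike.congr_fun this w

/-- the functions whose values are fixed by the conjugates of `Δ` -/
def Val (F : C.XX → M) : Prop := ∀ ξ, ∀ δ ∈ C.dl ξ, δ (F ξ) = F ξ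

theorem mem_dl_smul (b : C.SS) (ξ : C.XX) {ζ : MulAut M} :
    C.act b.right * ζ * (C.act b.right)⁻¹ ∈ C.dl (b • ξ) ↔ ζ ∈ C.dl ξ := by
  induction ξ using C.ind with
  | h h γ =>
    rw [smul_st, dl_st, dl_st, mem_Dl_mul]

theorem Val.sx {F : C.XX → M} (hF : C.Val F) (b : C.SS) : C.Val (sx _ M (C.Rr b) F) := by
  intro ξ δ hδ
  rw [sx_apply, Rr_snd_inv, Rr_fst]
  have h1 : C.act b.right * ((C.act b.right)⁻¹ * δ * C.act b.right) * (C.act b.right)⁻¹ ∈
      C.dl (b • (b⁻¹ • ξ)) := by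
    rw [smul_inv_smul]
    have e : C.act b.right * ((C.act b.right)⁻¹ * δ * C.act b.right) * (C.act b.right)⁻¹ = δ := by
      group
    rwa [e]
  rw [mem_dl_smul] at h1
  have h2 := hF _ _ h1
  have h3 := congrArg (fun e => C.act b.right e) h2
  simp only [MulAut.mul_apply, MulAut.apply_inv_self] at h3
  exact h3

theorem supp_sx {F : C.XX → M} (hF : (mulSupport F).Finite) (r : MulAut M × Equiv.Perm C.XX) :
    (mulSupport (sx _ M r F)).Finite := by
  refine (hF.image fun p => r.2 p).subset ?_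
  intro p hp
  refine ⟨r.2⁻¹ p, ?_, pinv' _ _⟩
  intro h
  apply hp
  rw [sx_apply, h, map_one]

/-- the elements with valid functions -/
def VS : Subgroup (WX C.XX M) where
  carrier := {a | a.right ∈ C.Rr.range ∧ (mulSupport a.left).Finite ∧ C.Val a.left}
  one_mem' := by
    refine ⟨⟨1, by simp⟩, by simp, fun ξ δ _ => ?_⟩
    simp
  mul_mem' := by
    rintro a b ⟨⟨r, hr⟩, ha2, ha3⟩ ⟨hb1, hb2, hb3⟩
    refine ⟨mul_mem ⟨r, hr⟩ hb1, ?_, ?_⟩
    · rw [mul_left]
      exact ((ha2.union (C.supp_sx hb2 _)).subset (mulSupport_mul _ _))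
    · rw [mul_left, ← hr]
      have h1 := hb3.sx C r
      intro ξ δ hδ
      rw [Pi.mul_apply, map_mul, ha3 ξ δ hδ, h1 ξ δ hδ]
  inv_mem' := by
    rintro a ⟨⟨r, hr⟩, ha2, ha3⟩
    have e : (a⁻¹).left = sx _ M (C.Rr r⁻¹) (a.left⁻¹) := by
      rw [inv_left, ← hr, map_inv C.Rr]
    refine ⟨?_, ?_, ?_⟩
    · rw [inv_right]
      exact inv_mem ⟨r, hr⟩
    · rw [e]
      refine C.supp_sx (ha2.subset fun p hp h0 => hp ?_) _
      rw [Pi.inv_apply, h0, inv_one]
    · rw [e]
      refine Val.sx C ?_ _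
      intro ξ δ hδ
      rw [Pi.inv_apply, map_inv, ha3 ξ δ hδ]

theorem P0_mem_VS (w : FreeGroup (C.Lt I)) : C.P0 g w ∈ C.VS := by
  classical
  have h1 : (C.P0 g).range ≤ C.VS := by
    rw [P0, FreeGroup.range_lift_eq_closure, Subgroup.closure_le]
    rintro _ ⟨i | p | p, rfl⟩
    · refine ⟨⟨inr (g i), rfl⟩, ?_, fun ξ δ _ => ?_⟩
      · simp
      · simp
    · refine ⟨⟨inl (C.zg (C.sP p)), rfl⟩, ?_, fun ξ δ _ => ?_⟩
      · simp
      · simp
    · refine ⟨⟨1, by simp⟩, ?_, ?_⟩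
      · simp only [Sum.elim_inr, left_inl]
        exact (Set.finite_singleton _).subset Pi.mulSupport_mulSingle_subset
      · intro ξ δ hδ
        simp only [Sum.elim_inr, left_inl]
        by_cases h : ξ = C.bs p
        · subst h
          rw [Pi.mulSingle_eq_same]
          rw [bs, dl_st, mem_Dl] at hδ
          have h2 := C.hxΔ _ hδ
          have h3 := congrArg (fun e => C.act (C.sP p) e) h2
          simp only [MulAut.mul_apply, MulAut.apply_inv_self] at h3
          exact h3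
        · rw [Pi.mulSingle_eq_of_ne h, map_one]
  exact h1 ⟨w, rfl⟩

/-- the evaluation -/
noncomputable def EE (n m : ℕ) (F : C.XX → M) : M :=
  ∏ᶠ ξ : C.XX, (C.gc ξ ^ n) ((C.gz ξ ^ m) (F ξ))

theorem supp_EE (n m : ℕ) {F : C.XX → M} (h : (mulSupport F).Finite) :
    (mulSupport fun ξ => (C.gc ξ ^ n) ((C.gz ξ ^ m) (F ξ))).Finite := by
  refine h.subset fun p hp h0 => hp ?_
  change (C.gc p ^ n) ((C.gz p ^ m) (F p)) = 1
  rw [h0, map_one, map_one]

theorem EE_mul (n m : ℕ) {F F' : C.XX → M} (h : (mulSupport F).Finite)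
    (h' : (mulSupport F').Finite) : C.EE n m (F * F') = C.EE n m F * C.EE n m F' := by
  unfold EE
  rw [← finprod_mul_distrib (C.supp_EE n m h) (C.supp_EE n m h')]
  refine finprod_congr fun p => ?_
  rw [Pi.mul_apply, map_mul, map_mul]

theorem EE_one (n m : ℕ) : C.EE n m 1 = 1 := by
  unfold EE
  simp

theorem EE_act (n m : ℕ) {F : C.XX → M} (hF : C.Val F) (b : C.SS) :
    C.EE n m (sx _ M (C.Rr b) F) = C.Kn n b (C.EE n m F) := by
  unfold EE
  rw [MulEquiv.map_finprod, ← finprod_comp_equiv (C.Rr b).2]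
  refine finprod_congr fun ξ => ?_
  rw [sx_apply, pinv, Rr_fst, Rr_snd]
  induction ξ using C.ind with
  | h h γ =>
    have hd := hF (C.st h γ)
    rw [dl_st] at hd
    have hd' : ∀ δ ∈ C.Dl (b.right * h), δ (C.act b.right (F (C.st h γ))) =
        C.act b.right (F (C.st h γ)) := by
      have h1 := hF.sx C b (b • C.st h γ)
      rw [sx_apply, Rr_snd_inv, inv_smul_smul, Rr_fst, smul_st, dl_st] at h1
      exact h1
    rw [C.EQ h γ n m hd, smul_st, C.EQ _ _ n m hd', Kn_apply, Subgroup.coe_mul, cG_coe, zc_mul]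
    simp only [← MulAut.mul_apply]
    have h1 : C.act b.right * (γ : MulAut M) * (C.act b.right)⁻¹ ∈ C.Z :=
      C.hZn _ _ (C.Gm_Z _)
    have h2 := Commute.mul_pow (C.com (C.Gm_Z b.left) h1) n
    rw [h2, conj_pow, conj_pow]
    congr 1
    group

/-- the formula for the value of a word -/
noncomputable def Fh (n m : ℕ) : FreeGroup (C.Lt I) →* A where
  toFun w := C.inc (C.EE n m (C.P0 g w).left) * C.f (FreeGroup.lift (C.ps' g n) w)
  map_one' := by
    rw [map_one, map_one, map_one, mul_one, one_left, EE_one, map_one]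
  map_mul' := by
    intro v w
    have hv := C.P0_mem_VS g v
    have hw := C.P0_mem_VS g w
    rw [map_mul, mul_left, C.EE_mul _ _ hv.2.1 (C.supp_sx hw.2.1 _), P0_right,
      C.EE_act n m hw.2.2, ← act_ps', map_mul C.inc, C.hact, map_mul, map_mul]
    group

theorem f_ps (n m : ℕ) (w : FreeGroup (C.Lt I)) :
    C.f (FreeGroup.lift (C.ps g (n, m)) w) =
      C.inc (C.EE n m (C.P0 g w).left) * C.f (FreeGroup.lift (C.ps' g n) w) := by
  classical
  have : C.f.comp (FreeGroup.lift (C.ps g (n, m))) = C.Fh g n m := by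
    ext e : 1
    rcases e with i | p | p
    · have h1 : (C.P0 g (FreeGroup.of (Sum.inl i))).left = 1 := by simp [P0]
      change C.f _ = C.inc (C.EE n m (C.P0 g (FreeGroup.of (Sum.inl i))).left) * C.f _
      rw [h1, EE_one, map_one, one_mul, FreeGroup.lift_apply_of, FreeGroup.lift_apply_of]
      rfl
    · have h1 : (C.P0 g (FreeGroup.of (Sum.inr (Sum.inl p)))).left = 1 := by simp [P0]
      change C.f _ = C.inc (C.EE n m (C.P0 g (FreeGroup.of (Sum.inr (Sum.inl p)))).left) * C.f _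
      rw [h1, EE_one, map_one, one_mul, FreeGroup.lift_apply_of, FreeGroup.lift_apply_of]
      rfl
    · have h1 : C.EE n m (Pi.mulSingle (C.bs p) (C.act (C.sP p) C.x0)) =
          C.act (C.sP p) ((C.act C.z ^ m) C.x0) := by
        unfold EE
        rw [finprod_eq_single _ (C.bs p)]
        · rw [Pi.mulSingle_eq_same, bs, C.EQ]
          · rw [Subgroup.coe_one, one_pow, MulAut.one_apply, ← MulAut.mul_apply,
              ← MulAut.mul_apply, zc, conj_pow]
            congr 1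
            group
          · intro δ hδ
            rw [mem_Dl] at hδ
            have h2 := C.hxΔ _ hδ
            have h3 := congrArg (fun e => C.act (C.sP p) e) h2
            simp only [MulAut.mul_apply, MulAut.apply_inv_self] at h3
            exact h3
        · intro p' hp
          rw [Pi.mulSingle_eq_of_ne hp, map_one, map_one]
      have h2 : C.inc (C.act (C.sP p) ((C.act C.z ^ m) C.x0)) =
          C.f (C.sP p * (C.z ^ m * C.x * (C.z ^ m)⁻¹) * (C.sP p)⁻¹) := by
        rw [C.hact, ← map_pow, C.hact, ← C.hx, map_mul, map_mul, map_mul, map_mul, map_inv,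
          map_inv]
      change C.f _ = C.inc (C.EE n m (C.P0 g (FreeGroup.of (Sum.inr (Sum.inr p)))).left) * C.f _
      rw [FreeGroup.lift_apply_of, FreeGroup.lift_apply_of, P0, FreeGroup.lift_apply_of]
      change C.f (C.sP p * (C.z ^ m * C.x * (C.z ^ m)⁻¹) * (C.sP p)⁻¹) =
        C.inc (C.EE n m (Pi.mulSingle (C.bs p) (C.act (C.sP p) C.x0))) * C.f 1
      rw [h1, h2, map_one, mul_one]
  exact DFunLike.congr_fun this w

end Dat2

end Pool.Agent.Work.MP_66343f_al
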