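import Pool.Agent.Work.MP_66343f_al.Dat3

/-!
# MP_66343f_al: twisted data, the configuration of the limit group
-/

set_option autoImplicit false

namespace Pool.Agent.Work.MP_66343f_al

open SemidirectProduct Filter Function

/-- first `n`, then `m` along `U` -/
noncomputable def UP (U : Ultrafilter ℕ) : Ultrafilter (ℕ × ℕ) :=
  U.bind fun n => U.map (Prod.mk n)

theorem mem_UP {U : Ultrafilter ℕ} {P : ℕ × ℕ → Prop} :
    (∀ᶠ l in (UP U : Filter (ℕ × ℕ)), P l) ↔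
      ∀ᶠ n in (U : Filter ℕ), ∀ᶠ m in (U : Filter ℕ), P (n, m) :=
  Iff.rfl

namespace Dat2

variable {G A M : Type} [Group G] [Group A] [CommGroup M] (C : Dat2 G A M)
  {I : Type} (g : I → G)

/-- the fixed points of the conjugate of `Δ` -/
def NF (h : G) : Subgroup M where
  carrier := {d | ∀ δ ∈ C.Dl h, δ d = d}
  one_mem' := fun δ _ => map_one δ
  mul_mem' := fun ha hb δ hδ => by rw [map_mul, ha δ hδ, hb δ hδ]
  inv_mem' := fun ha δ hδ => by rw [map_inv, ha δ hδ]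

theorem mem_NF {h : G} {d : M} : d ∈ C.NF h ↔ ∀ δ ∈ C.Dl h, δ d = d := Iff.rfl

/-- distinct translations act differently -/
theorem free_pow (h : G) {a b : MulAut M} (ha : a ∈ C.Γ) (hb : b ∈ C.Γ) (hab : a⁻¹ * b ∉ C.Dl h)
    {k : ℕ} (hk : 1 ≤ k) {d : M} (hd : d ∈ C.NF h) (he : (a ^ k) d = (b ^ k) d) : d = 1 := by
  have h1 := C.iso_h h (mul_mem (inv_mem ha) hb) hab hk
  refine C.fix_h h (C.hΓZ (pow_mem (mul_mem (inv_mem ha) hb) k)) h1 hd ?_
  have h2 := Commute.mul_pow (C.com (inv_mem (C.hΓZ ha)) (C.hΓZ hb)) k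
  rw [h2, MulAut.mul_apply, ← he, ← MulAut.mul_apply, inv_pow, inv_mul_cancel, MulAut.one_apply]

theorem right_one {U : Ultrafilter ℕ} (hU : Idem U) {w : FreeGroup (C.Lt I)}
    (h : ∀ᶠ n in (U : Filter ℕ), C.Kn n (C.B0 g w) = 1) : C.Rr (C.B0 g w) = 1 := by
  set b := C.B0 g w
  obtain ⟨a, ha, hev⟩ := hU _ h
  obtain ⟨n, h1, h2⟩ := hev.exists
  rw [Kn_apply] at h1 h2
  have h3 : (b.left : MulAut M) ^ a = 1 := by
    rw [add_comm, pow_add, mul_assoc, h1, mul_one] at h2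
    exact h2
  have h4 : (b.left : MulAut M) = 1 := C.hΓt _ (C.Gm_le b.left.2) a ha h3
  have h5 : C.act b.right = 1 := by
    rw [h4, one_pow, one_mul] at h1
    exact h1
  refine Prod.ext h5 ?_
  ext ξ
  rw [Rr_snd]
  change b • ξ = ξ
  induction ξ using C.ind with
  | h h γ =>
    rw [smul_st, st_eq]
    have e1 : C.Dl (b.right * h) = C.Dl h := by
      ext ζ
      rw [mem_Dl, mem_Dl, map_mul, h5, one_mul]
    have e2 : C.zc (b.right * h) = C.zc h := by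
      rw [zc_mul, h5]
      simp
    refine ⟨e1, ?_, ?_⟩
    · rw [e2, inv_mul_cancel]
      exact one_mem _
    · rw [Subgroup.coe_mul, cG_coe, h4, h5]
      simp

/-- similar sites: the same conjugate of `Δ` and the same direction -/
def Sim (ξ0 ξ : C.XX) : Prop := C.dl ξ = C.dl ξ0 ∧ (C.gz ξ0)⁻¹ * C.gz ξ ∈ C.dl ξ0

theorem gc_Γ (ξ : C.XX) : C.gc ξ ∈ C.Γ := C.Gm_le (C.out ξ).2.2

theorem gz_Γ (ξ : C.XX) : C.gz ξ ∈ C.Γ := C.zc_mem_Γ _

open Classical in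
theorem step1 {U : Ultrafilter ℕ} (hU : Idem U) {F : C.XX → M} (hF : C.Val F)
    (s : Finset C.XX) (ξ0 : C.XX) (n : ℕ) (c : M)
    (h : ∀ᶠ m in (U : Filter ℕ), ∏ ξ ∈ s, (C.gc ξ ^ n) ((C.gz ξ ^ m) (F ξ)) = c) :
    ∏ ξ ∈ s.filter (C.Sim ξ0), (C.gc ξ ^ n) (F ξ) = 1 := by
  have hNZ : ∀ ζ ∈ C.Z, ∀ d ∈ C.NF (C.out ξ0).1, ζ d ∈ C.NF (C.out ξ0).1 := by
    intro ζ hζ d hd
    exact C.fix_comm hζ hd
  have hb : ∀ ξ, ∀ δ ∈ C.dl ξ, δ ((C.gc ξ ^ n) (F ξ)) = (C.gc ξ ^ n) (F ξ) := by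
    intro ξ δ hδ
    rw [dl_out] at hδ
    refine C.fix_comm (pow_mem (C.gc_Z ξ) n) (fun δ' hδ' => hF ξ δ' ?_) δ hδ
    rw [dl_out]
    exact hδ'
  set t : Finset C.XX := s.filter fun ξ => ¬ C.Sim ξ0 ξ with ht
  refine lemL hU C.hZ hNZ (C.gz_Z ξ0) (Finset.insertNone t)
    (fun o => o.elim 1 C.gz) (fun o => o.elim c⁻¹ fun ξ => (C.gc ξ ^ n) (F ξ)) _ ?_ ?_ ?_ ?_
  · rintro (_ | ξ) _
    · exact one_mem _
    · exact C.gz_Z ξ
  · refine Subgroup.prod_mem _ fun ξ hξ => ?_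
    rw [mem_NF, ← dl_out, ← (Finset.mem_filter.mp hξ).2.1]
    exact hb ξ
  · rintro (_ | ξ) hξ
    · right
      intro a ha d hd he
      refine C.free_pow _ (C.gz_Γ ξ0) (one_mem C.Γ) ?_ ha hd he
      rw [mul_one, inv_mem_iff]
      exact C.zc_notMem _
    · rw [Finset.some_mem_insertNone, ht, Finset.mem_filter] at hξ
      by_cases h1 : C.dl ξ = C.dl ξ0
      · right
        intro a ha d hd he
        refine C.free_pow _ (C.gz_Γ ξ0) (C.gz_Γ ξ) (fun h2 => hξ.2 ⟨h1, ?_⟩) ha hd he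
        rw [dl_out]
        exact h2
      · left
        have h2 : ¬ C.Dl (C.out ξ).1 ≤ C.Dl (C.out ξ0).1 := by
          intro h2
          apply h1
          rw [dl_out, dl_out]
          exact C.Dl_eq_of_le h2
        obtain ⟨δ, hδ1, hδ2⟩ := SetLike.not_le_iff_exists.mp h2
        refine ⟨δ, C.Dl_le_Z _ hδ1, ?_, ?_⟩
        · refine hb ξ δ ?_
          rw [dl_out]
          exact hδ1
        · intro d hd hδd
          exact C.fix_h _ (C.Dl_le_Z _ hδ1) hδ2 hd hδd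
  · filter_upwards [h] with m hm
    rw [Finset.prod_insertNone]
    change (C.gz ξ0 ^ m) _ * ((1 ^ m : MulAut M) c⁻¹ *
      ∏ ξ ∈ t, (C.gz ξ ^ m) ((C.gc ξ ^ n) (F ξ))) = 1
    have e1 : ∀ ξ, (C.gz ξ ^ m) ((C.gc ξ ^ n) (F ξ)) = (C.gc ξ ^ n) ((C.gz ξ ^ m) (F ξ)) := by
      intro ξ
      rw [← MulAut.mul_apply, ← MulAut.mul_apply, C.com (pow_mem (C.gz_Z ξ) m)
        (pow_mem (C.gc_Z ξ) n)]
    have e2 : (C.gz ξ0 ^ m) (∏ ξ ∈ s.filter (C.Sim ξ0), (C.gc ξ ^ n) (F ξ)) =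
        ∏ ξ ∈ s.filter (C.Sim ξ0), (C.gc ξ ^ n) ((C.gz ξ ^ m) (F ξ)) := by
      rw [map_prod]
      refine Finset.prod_congr rfl fun ξ hξ => ?_
      rw [← e1]
      have h3 := (Finset.mem_filter.mp hξ).2
      refine C.pow_eq (h := (C.out ξ0).1) (C.gz_Z _) (C.gz_Z _) ?_ ?_ m
      · rw [← dl_out]
        exact h3.2
      · rw [← dl_out, ← h3.1]
        exact hb ξ
    rw [e2, one_pow, MulAut.one_apply, Finset.prod_congr rfl fun ξ _ => e1 ξ]
    rw [mul_left_comm, ht, Finset.prod_filter_mul_prod_filter_not, hm, inv_mul_cancel]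

theorem left_one {U : Ultrafilter ℕ} (hU : Idem U) {F : C.XX → M} (hF : C.Val F)
    (hfin : (mulSupport F).Finite)
    (h : ∀ᶠ n in (U : Filter ℕ), ∃ c, ∀ᶠ m in (U : Filter ℕ), C.EE n m F = c) : F = 1 := by
  classical
  funext ξ0
  rw [Pi.one_apply]
  by_contra h0
  have hs0 : ξ0 ∈ hfin.toFinset := hfin.mem_toFinset.mpr h0
  have hsim0 : C.Sim ξ0 ξ0 := ⟨rfl, by rw [inv_mul_cancel]; exact one_mem _⟩
  have h1 : ∀ᶠ n in (U : Filter ℕ),
      ∏ ξ ∈ hfin.toFinset.filter (C.Sim ξ0), (C.gc ξ ^ n) (F ξ) = 1 := by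
    filter_upwards [h] with n hn
    obtain ⟨c, hc⟩ := hn
    refine C.step1 hU hF hfin.toFinset ξ0 n c ?_
    filter_upwards [hc] with m hm
    rw [← hm]
    unfold EE
    rw [finprod_eq_prod_of_mulSupport_subset]
    intro p hp
    rw [Set.Finite.coe_toFinset]
    intro h2
    apply hp
    change (C.gc p ^ n) ((C.gz p ^ m) (F p)) = 1
    rw [h2, map_one, map_one]
  apply h0
  refine lemL hU C.hZ (N0 := C.NF (C.out ξ0).1) (fun ζ hζ d hd => C.fix_comm hζ hd) (C.gc_Z ξ0)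
    ((hfin.toFinset.filter (C.Sim ξ0)).erase ξ0) C.gc F (F ξ0) (fun ξ _ => C.gc_Z ξ) ?_ ?_ ?_
  · rw [mem_NF, ← dl_out]
    exact hF ξ0
  · intro ξ hξ
    right
    intro a ha d hd he
    refine C.free_pow _ (C.gc_Γ ξ0) (C.gc_Γ ξ) ?_ ha hd he
    intro h2
    rw [Finset.mem_erase, Finset.mem_filter] at hξ
    apply hξ.1
    have h3 := hξ.2.2
    have h4 : C.st (C.out ξ0).1 (C.out ξ0).2 = C.st (C.out ξ).1 (C.out ξ).2 := by
      rw [st_eq]
      refine ⟨?_, ?_, h2⟩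
      · rw [← dl_out, ← dl_out]
        exact h3.1.symm
      · rw [← dl_out]
        exact h3.2
    rw [st_out, st_out] at h4
    exact h4.symm
  · filter_upwards [h1] with n hn
    rw [Finset.mul_prod_erase (hfin.toFinset.filter (C.Sim ξ0)) (fun ξ => (C.gc ξ ^ n) (F ξ))
      (Finset.mem_filter.mpr ⟨hs0, hsim0⟩)]
    exact hn

/-- **Claim A** -/
theorem P0_eq_one {U : Ultrafilter ℕ} (hU : Idem U) {w : FreeGroup (C.Lt I)}
    (hw : w ∈ Rel (UP U) (C.ps g)) : C.P0 g w = 1 := by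
  have h1 := mem_UP.mp (mem_rel.mp hw)
  have hv := C.P0_mem_VS g w
  refine SemidirectProduct.ext ?_ ?_
  · refine C.left_one hU hv.2.2 hv.2.1 ?_
    filter_upwards [h1] with n hn
    obtain ⟨m0, hm0⟩ := hn.exists
    refine ⟨C.EE n m0 (C.P0 g w).left, ?_⟩
    filter_upwards [hn] with m hm
    have e1 := C.f_ps g n m w
    have e2 := C.f_ps g n m0 w
    rw [hm, map_one] at e1
    rw [hm0, map_one] at e2
    apply C.hinc
    exact mul_right_cancel (e1.symm.trans e2)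
  · rw [P0_right]
    refine C.right_one g hU ?_
    filter_upwards [h1] with n hn
    obtain ⟨m, hm⟩ := hn.exists
    rw [← C.act_ps g (n, m) w, hm, map_one]

end Dat2

end Pool.Agent.Work.MP_66343f_al
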