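import Pool.Agent.Work.MP_66343f_al.Dat4

/-!
# MP_66343f_al: twisted data lead to the free groups
-/

set_option autoImplicit false

namespace Pool.Agent.Work.MP_66343f_al

open SemidirectProduct Filter Function

namespace Dat2

variable {G A M : Type} [Group G] [Group A] [CommGroup M] (C : Dat2 G A M)
  {I : Type} (g : I → G)

/-- the translations of the sites -/
noncomputable def ta (p : G ⧸ C.NN) : Equiv.Perm C.XX := (C.Rr (inl (C.zg (C.sP p)))).2

theorem lift_ta (v : FreeGroup (G ⧸ C.NN)) :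
    FreeGroup.lift C.ta v = (C.Rr (inl (FreeGroup.lift (fun p => C.zg (C.sP p)) v))).2 := by
  have : FreeGroup.lift C.ta = ((MonoidHom.snd (MulAut M) (Equiv.Perm C.XX)).comp
      (C.Rr.comp (inl : C.Gm →* C.SS))).comp (FreeGroup.lift (fun p => C.zg (C.sP p))) := by
    ext p : 1
    simp [ta]
  exact DFunLike.congr_fun this v

theorem inl_smul_st (γ' : C.Gm) (h : G) (γ : C.Gm) :
    (inl γ' : C.SS) • C.st h γ = C.st h (γ' * γ) := by
  rw [smul_st, left_inl, right_inl, one_mul, map_one]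
  rfl

theorem exists_word (γ : C.Gm) : ∃ v, FreeGroup.lift (fun p => C.zg (C.sP p)) v = γ := by
  have h1 : C.Gm ≤ Subgroup.closure (Set.range fun p => C.zc (C.sP p)) := by
    unfold Gm
    rw [Subgroup.closure_le]
    rintro _ ⟨h, rfl⟩
    obtain ⟨n, hn, hh⟩ := C.exists_sP h
    apply Subgroup.subset_closure
    refine ⟨(h : G ⧸ C.NN), ?_⟩
    change C.zc (C.sP (h : G ⧸ C.NN)) = C.zc h
    conv_rhs => rw [hh]
    rw [C.zc_NN hn]
  have h2 := h1 γ.2
  rw [← FreeGroup.range_lift_eq_closure] at h2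
  obtain ⟨v, hv⟩ := h2
  refine ⟨v, Subtype.ext ?_⟩
  rw [← hv]
  have : C.Gm.subtype.comp (FreeGroup.lift (fun p => C.zg (C.sP p))) =
      FreeGroup.lift (fun p => C.zc (C.sP p)) := by
    ext p : 1
    simp [zg]
  exact DFunLike.congr_fun this v

/-- the site can be reached from the base site `p` -/
def Cov (ξ : C.XX) (p : G ⧸ C.NN) : Prop := ∃ v, FreeGroup.lift C.ta v (C.bs p) = ξ

theorem exists_cov (ξ : C.XX) : ∃ p, C.Cov ξ p := by
  induction ξ using C.ind with
  | h h γ =>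
    obtain ⟨n, hn, hh⟩ := C.exists_sP h
    obtain ⟨v, hv⟩ := C.exists_word γ
    refine ⟨(h : G ⧸ C.NN), v, ?_⟩
    rw [lift_ta, hv, Rr_snd, bs, inl_smul_st, mul_one, st_eq]
    have e1 : C.Dl h = C.Dl (C.sP (h : G ⧸ C.NN)) := by
      conv_lhs => rw [hh]
      rw [C.Dl_NN hn]
    have e2 : C.zc h = C.zc (C.sP (h : G ⧸ C.NN)) := by
      conv_lhs => rw [hh]
      rw [C.zc_NN hn]
    rw [← e1, ← e2, inv_mul_cancel, inv_mul_cancel]
    exact ⟨rfl, one_mem _, one_mem _⟩

open Classical in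
/-- the choice of an element of a set -/
noncomputable def pick {P : Type} [Inhabited P] (T : Set P) : P :=
  if h : T.Nonempty then h.some else default

theorem pick_mem {P : Type} [Inhabited P] {T : Set P} (h : T.Nonempty) : pick T ∈ T := by
  unfold pick
  rw [dif_pos h]
  exact h.some_mem

noncomputable instance : Inhabited (G ⧸ C.NN) := ⟨((1 : G) : G ⧸ C.NN)⟩

/-- the base site of a site -/
noncomputable def orb (ξ : C.XX) : G ⧸ C.NN := pick {p | C.Cov ξ p}

theorem orb_cov (ξ : C.XX) : C.Cov ξ (C.orb ξ) := pick_mem (T := {p | C.Cov ξ p}) (C.exists_cov ξ)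

theorem orb_ta (p : G ⧸ C.NN) (ξ : C.XX) : C.orb (C.ta p ξ) = C.orb ξ := by
  unfold orb
  congr 1
  ext p'
  constructor
  · rintro ⟨v, hv⟩
    refine ⟨(FreeGroup.of p)⁻¹ * v, ?_⟩
    rw [map_mul, map_inv, FreeGroup.lift_apply_of, Equiv.Perm.mul_apply, hv, pinv]
  · rintro ⟨v, hv⟩
    refine ⟨FreeGroup.of p * v, ?_⟩
    rw [map_mul, FreeGroup.lift_apply_of, Equiv.Perm.mul_apply, hv]

theorem orbit_inf (ξ : C.XX) :
    (Set.range fun v : FreeGroup (G ⧸ C.NN) => FreeGroup.lift C.ta v ξ).Infinite := by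
  induction ξ using C.ind with
  | h h γ =>
    obtain ⟨v, hv⟩ := C.exists_word (C.zg h)
    refine Set.infinite_of_injective_forall_mem (f := fun k : ℕ => C.st h (C.zg h ^ k * γ)) ?_ ?_
    · have key : ∀ k l : ℕ, k < l → C.st h (C.zg h ^ k * γ) ≠ C.st h (C.zg h ^ l * γ) := by
        intro k l hkl he
        rw [st_eq] at he
        have h1 := he.2.2
        have h2 : ((C.zg h ^ k * γ : C.Gm) : MulAut M)⁻¹ * ((C.zg h ^ l * γ : C.Gm) : MulAut M) =
            C.zc h ^ (l - k) := by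
          have e1 : (C.zg h ^ l : C.Gm) = C.zg h ^ k * C.zg h ^ (l - k) := by
            rw [← pow_add, Nat.add_sub_cancel' hkl.le]
          rw [e1]
          simp only [Subgroup.coe_mul, Subgroup.coe_pow]
          change (C.zc h ^ k * (γ : MulAut M))⁻¹ * (C.zc h ^ k * C.zc h ^ (l - k) * γ) = _
          rw [mul_inv_rev, mul_assoc, mul_assoc (C.zc h ^ k), inv_mul_cancel_left,
            C.com (pow_mem (C.zc_Z h) _) (C.Gm_Z γ), inv_mul_cancel_left]
        rw [h2] at h1
        exact C.iso_h h (C.zc_mem_Γ h) (C.zc_notMem h) (by omega) h1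
      intro k l hkl
      rcases lt_trichotomy k l with h1 | h1 | h1
      · exact absurd hkl (key k l h1)
      · exact h1
      · exact absurd hkl.symm (key l k h1)
    · intro k
      refine ⟨v ^ k, ?_⟩
      change FreeGroup.lift C.ta (v ^ k) (C.st h γ) = _
      rw [lift_ta, map_pow, hv, Rr_snd, inl_smul_st]

/-- the homomorphism of the limit group -/
noncomputable def PhiL {U : Ultrafilter ℕ} (hU : Idem U) :
    Lim (UP U) (C.ps g) →* WX C.XX M :=
  QuotientGroup.lift (Rel (UP U) (C.ps g)) (C.P0 g) (fun _ hw => C.P0_eq_one g hU hw)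

theorem PhiL_lg {U : Ultrafilter ℕ} (hU : Idem U) (e : C.Lt I) :
    C.PhiL g hU (lg (UP U) (C.ps g) e) = C.P0 g (FreeGroup.of e) := by
  rw [PhiL, lg, QuotientGroup.mk'_apply, QuotientGroup.lift_mk']

/-- the configuration of the limit group -/
noncomputable def toSCfg {U : Ultrafilter ℕ} (hU : Idem U) :
    SCfg (Lim (UP U) (C.ps g)) C.XX M I (G ⧸ C.NN) (G ⧸ C.NN) where
  Φ := C.PhiL g hU
  g i := lg (UP U) (C.ps g) (.inl i)
  t p := lg (UP U) (C.ps g) (.inr (.inl p))
  x p := lg (UP U) (C.ps g) (.inr (.inr p))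
  α i := C.act (g i)
  π i := (C.Rr (inr (g i))).2
  τ := C.ta
  o := C.bs
  x0 p := C.act (C.sP p) C.x0
  orb := C.orb
  hg i := by
    rw [PhiL_lg, P0, FreeGroup.lift_apply_of]
    rfl
  ht p := by
    rw [PhiL_lg, P0, FreeGroup.lift_apply_of, Sum.elim_inr, Sum.elim_inl]
    congr 1
    refine Prod.ext ?_ rfl
    rw [Rr_fst, right_inl, map_one]
  hx p := by
    rw [PhiL_lg, P0, FreeGroup.lift_apply_of]
    rfl
  hgen := by
    have h := closure_lg (UP U) (C.ps g)
    rw [← h]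
    congr 2
    funext e
    rcases e with i | p | p <;> rfl
  horb := C.orb_cov
  horb' := C.orb_ta
  hx0 ξ := by
    intro h
    exact C.hx0 ((MulEquiv.map_eq_one_iff _).mp h)
  hsep := sepN C.ta C.orbit_inf
  hne := ⟨C.bs default⟩

theorem closure_ps (hg : Subgroup.closure (Set.range g) = ⊤) (l : ℕ × ℕ) :
    Subgroup.closure (Set.range (C.ps g l)) = ⊤ := by
  rw [eq_top_iff, ← hg, Subgroup.closure_le]
  rintro _ ⟨i, rfl⟩
  exact Subgroup.subset_closure ⟨.inl i, rfl⟩

include C in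
theorem main [Finite I] (hg : Subgroup.closure (Set.range g) = ⊤) :
    ∃ (K B : Type) (_ : Group K) (_ : Group B), Preforms G K ∧ Preforms B K ∧
      Preforms B (FreeGroup (Fin (Nat.card (Option (Ky I (G ⧸ C.NN) (G ⧸ C.NN)))))) := by
  obtain ⟨U, hU⟩ := exists_idem
  have := C.hNN
  have : Finite (G ⧸ C.NN) := Subgroup.finite_quotient_of_finiteIndex
  obtain ⟨K, B, hK, hB, k, hk, h1, h2, h3⟩ := (C.toSCfg g hU).main
  refine ⟨K, B, hK, hB, ?_, h2, h3⟩
  exact ((apx_lim (UP U) (C.ps g) (C.closure_ps g hg)).trans (closure_lg (UP U) (C.ps g))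
    h1).preforms hk

end Dat2

end Pool.Agent.Work.MP_66343f_al
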