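import Mathlib

/-!
# MP_66343f_al: definitions

Preforming of groups by balls in Cayley graphs, distance and components.
-/

set_option autoImplicit false

namespace Pool.Agent.Work.MP_66343f_al

/-- the product of a word in the letters `s i` and `(s i)⁻¹` -/
def ev {ι G : Type} [Group G] (s : ι → G) (w : List (ι × Bool)) : G :=
  (w.map fun p => cond p.2 (s p.1) (s p.1)⁻¹).prod

/-- the ball of radius `R` about `1` in the Cayley graph of `G` with respect to the elements `s i`:
the products of words of length at most `R` -/
def Ball {ι G : Type} [Group G] (s : ι → G) (R : ℕ) : Set G :=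
  {g | ∃ w : List (ι × Bool), w.length ≤ R ∧ ev s w = g}

theorem one_mem_ball {ι G : Type} [Group G] (s : ι → G) (R : ℕ) : (1 : G) ∈ Ball s R :=
  ⟨[], Nat.zero_le _, rfl⟩

/-- The balls of radius `R` about `1` in the Cayley graphs of `G` and `H` are isomorphic as labelled
graphs: there is a bijection of the balls which maps `1` to `1`, and there is an edge with the label
`i` from `a` to `b` (that is, `b = a * s i`) if and only if there is an edge with the label `i` from
the image of `a` to the image of `b`. -/
def BallIso {ι G H : Type} [Group G] [Group H] (s : ι → G) (t : ι → H) (R : ℕ) : Prop :=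
  ∃ φ : Ball s R ≃ Ball t R, (φ ⟨1, one_mem_ball s R⟩ : H) = 1 ∧
    ∀ (a b : Ball s R) (i : ι), (b : G) = a * s i ↔ (φ b : H) = φ a * t i

/-- `G` preforms `H`: there are a finite generating set `T` of `H` and injective maps
`τ n : T → G` (bijections onto the sets `S n = range (τ n)`), such that all sets `S n` generate `G`
and for every `R` the labelled balls of radius `R` of `(G, S n)` and `(H, T)` are isomorphic for all
sufficiently large `n`. -/
def Preforms (G H : Type) [Group G] [Group H] : Prop :=
  ∃ (T : Finset H) (τ : ℕ → T → G), Subgroup.closure (T : Set H) = ⊤ ∧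
    (∀ n, Function.Injective (τ n)) ∧ (∀ n, Subgroup.closure (Set.range (τ n)) = ⊤) ∧
    ∀ R : ℕ, ∃ n0 : ℕ, ∀ n ≥ n0, BallIso (τ n) (fun t : T => (t : H)) R

/-- There is a path with at most `n` edges from `A` to `B`. -/
inductive DistLE : ℕ → (A B : Type) → [Group A] → [Group B] → Prop
  | iso {A B : Type} [Group A] [Group B] (n : ℕ) (e : A ≃* B) : DistLE n A B
  | out {A B C : Type} [Group A] [Group B] [Group C] {n : ℕ} (h : Preforms A B)
      (h' : DistLE n B C) : DistLE (n + 1) A C
  | inc {A B C : Type} [Group A] [Group B] [Group C] {n : ℕ} (h : Preforms B A)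
      (h' : DistLE n B C) : DistLE (n + 1) A C

/-- `G` lies in the connected component of the free group `F₂`. -/
def InFreeComponent (G : Type) [Group G] : Prop := ∃ n, DistLE n G (FreeGroup (Fin 2))

end Pool.Agent.Work.MP_66343f_al
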