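import Mathlib

/-!
# MP_66343f_al: finite presentability of virtually nilpotent groups
-/

set_option autoImplicit false

namespace Pool.Agent.Work.MP_66343f_al

open Function

theorem fg_of_fp (E : Type) [Group E] [h : Group.IsFinitelyPresented E] : Group.FG E := by
  obtain ⟨n, φ, hφ, _⟩ := h.out
  exact Group.fg_of_surjective hφ

/-- the kernel of a homomorphism of a finitely generated group onto a finitely presented one -/
theorem ker_fng {E Q : Type} [Group E] [Group Q] [hE : Group.IsFinitelyPresented E]
    [Group.FG Q] (π : Q →* E) (hπ : Surjective π) : π.ker.IsFinitelyNormallyGenerated := by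
  obtain ⟨n, φ, hφ, S, hS, hSφ⟩ := hE.out
  choose y hy using fun i => hπ (φ (FreeGroup.of i))
  choose u hu using fun q => hφ (π q)
  obtain ⟨T, hT⟩ := Group.fg_def.mp ‹Group.FG Q›
  have hψ : ∀ v, π (FreeGroup.lift y v) = φ v := by
    intro v
    have : π.comp (FreeGroup.lift y) = φ := by
      ext i
      simp [hy]
    exact DFunLike.congr_fun this v
  refine ⟨(FreeGroup.lift y '' S) ∪ ((fun q => q⁻¹ * FreeGroup.lift y (u q)) '' (T : Set Q)),
    (hS.image _).union (T.finite_toSet.image _), ?_⟩
  set K := Subgroup.normalClosure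
    ((FreeGroup.lift y '' S) ∪ ((fun q => q⁻¹ * FreeGroup.lift y (u q)) '' (T : Set Q))) with hK
  apply le_antisymm
  · apply Subgroup.normalClosure_le_normal
    rintro _ (⟨r, hr, rfl⟩ | ⟨q, _, rfl⟩)
    · rw [SetLike.mem_coe, MonoidHom.mem_ker, hψ, ← MonoidHom.mem_ker, ← hSφ]
      exact Subgroup.subset_normalClosure hr
    · rw [SetLike.mem_coe, MonoidHom.mem_ker, map_mul, hψ, hu, map_inv, inv_mul_cancel]
  · have hker : ∀ v, φ v = 1 → (QuotientGroup.mk' K) (FreeGroup.lift y v) = 1 := by
      have h1 : φ.ker ≤ ((QuotientGroup.mk' K).comp (FreeGroup.lift y)).ker := by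
        rw [← hSφ]
        apply Subgroup.normalClosure_le_normal
        intro r hr
        rw [SetLike.mem_coe, MonoidHom.mem_ker, MonoidHom.comp_apply, QuotientGroup.mk'_apply,
          QuotientGroup.eq_one_iff]
        exact Subgroup.subset_normalClosure (Or.inl ⟨r, hr, rfl⟩)
      intro v hv
      exact h1 hv
    have key : ∀ q : Q, ∃ v, (QuotientGroup.mk' K) q = (QuotientGroup.mk' K) (FreeGroup.lift y v) ∧
        π q = φ v := by
      intro q
      have hq : q ∈ Subgroup.closure (T : Set Q) := by rw [hT]; exact Subgroup.mem_top q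
      induction hq using Subgroup.closure_induction with
      | mem q hq =>
        refine ⟨u q, ?_, (hu q).symm⟩
        rw [QuotientGroup.mk'_apply, QuotientGroup.mk'_apply, QuotientGroup.eq]
        exact Subgroup.subset_normalClosure (Or.inr ⟨q, hq, rfl⟩)
      | one => exact ⟨1, by simp, by simp⟩
      | mul a b _ _ ha hb =>
        obtain ⟨v, hv1, hv2⟩ := ha
        obtain ⟨w, hw1, hw2⟩ := hb
        exact ⟨v * w, by rw [map_mul, hv1, hw1, map_mul, map_mul], by rw [map_mul, hv2, hw2, map_mul]⟩
      | inv a _ ha =>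
        obtain ⟨v, hv1, hv2⟩ := ha
        exact ⟨v⁻¹, by rw [map_inv, hv1, map_inv, map_inv], by rw [map_inv, hv2, map_inv]⟩
    intro q hq
    obtain ⟨v, hv1, hv2⟩ := key q
    rw [MonoidHom.mem_ker.mp hq] at hv2
    rw [hker v hv2.symm, QuotientGroup.mk'_apply, QuotientGroup.eq_one_iff] at hv1
    exact hv1

/-- extensions of finitely presented groups -/
theorem fp_ext {E : Type} [Group E] (K : Subgroup E) [K.Normal] [hK : Group.IsFinitelyPresented K]
    [hC : Group.IsFinitelyPresented (E ⧸ K)] : Group.IsFinitelyPresented E := by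
  obtain ⟨m, φ, hφ, S, hS, hSφ⟩ := hC.out
  have hfg := fg_of_fp K
  obtain ⟨T, hT⟩ := Group.fg_def.mp hfg
  choose y hy using fun i => QuotientGroup.mk'_surjective K (φ (FreeGroup.of i))
  set ψ := FreeGroup.lift y with hψd
  have hψ : ∀ v, QuotientGroup.mk' K (ψ v) = φ v := by
    intro v
    have : (QuotientGroup.mk' K).comp ψ = φ := by
      ext i : 1
      rw [MonoidHom.comp_apply, hψd, FreeGroup.lift_apply_of, hy]
    exact DFunLike.congr_fun this v
  have hψK : ∀ v, φ v = 1 → ψ v ∈ K := by
    intro v hv
    rw [← QuotientGroup.eq_one_iff, ← QuotientGroup.mk'_apply, hψ, hv]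
  have hcj : ∀ (v : FreeGroup (Fin m)) (k : K), ψ v * k * (ψ v)⁻¹ ∈ K := fun v k =>
    Subgroup.Normal.conj_mem inferInstance _ k.2 _
  set Ψ : Monoid.Coprod K (FreeGroup (Fin m)) →* E := Monoid.Coprod.lift K.subtype ψ with hΨ
  -- relators
  set c : FreeGroup (Fin m) → K → K := fun v k => ⟨ψ v * k * (ψ v)⁻¹, hcj v k⟩ with hc
  set rel1 : FreeGroup (Fin m) × K → Monoid.Coprod K (FreeGroup (Fin m)) := fun p =>
    Monoid.Coprod.inr p.1 * Monoid.Coprod.inl p.2 * (Monoid.Coprod.inr p.1)⁻¹ *
      (Monoid.Coprod.inl (c p.1 p.2))⁻¹ with hrel1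
  set V : Set (FreeGroup (Fin m)) := Set.range FreeGroup.of ∪ Set.range fun i => (FreeGroup.of i)⁻¹
    with hV
  have hVf : V.Finite := (Set.finite_range _).union (Set.finite_range _)
  classical
  set rel2 : FreeGroup (Fin m) → Monoid.Coprod K (FreeGroup (Fin m)) := fun r =>
    if h : ψ r ∈ K then Monoid.Coprod.inr r * (Monoid.Coprod.inl ⟨ψ r, h⟩)⁻¹ else 1 with hrel2
  set RR : Set (Monoid.Coprod K (FreeGroup (Fin m))) := rel1 '' (V ×ˢ (T : Set K)) ∪ rel2 '' S
    with hRR
  have hRRf : RR.Finite := ((hVf.prod T.finite_toSet).image _).union (hS.image _)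
  set N := Subgroup.normalClosure RR with hN
  -- `N` is the kernel
  have hsurj : Surjective Ψ := by
    intro e
    obtain ⟨v, hv⟩ := hφ (QuotientGroup.mk' K e)
    have h1 : e * (ψ v)⁻¹ ∈ K := by
      rw [← QuotientGroup.eq_one_iff, ← QuotientGroup.mk'_apply, map_mul, map_inv, hψ, hv,
        mul_inv_cancel]
    refine ⟨Monoid.Coprod.inl ⟨_, h1⟩ * Monoid.Coprod.inr v, ?_⟩
    rw [hΨ, map_mul, Monoid.Coprod.lift_apply_inl, Monoid.Coprod.lift_apply_inr]
    simp
  have hker : Ψ.ker.IsFinitelyNormallyGenerated := by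
    refine ⟨RR, hRRf, ?_⟩
    rw [← hN]
    apply le_antisymm
    · apply Subgroup.normalClosure_le_normal
      rintro _ (⟨⟨v, k⟩, _, rfl⟩ | ⟨r, hr, rfl⟩)
      · rw [SetLike.mem_coe, MonoidHom.mem_ker, hrel1, hΨ]
        simp only [map_mul, map_inv, Monoid.Coprod.lift_apply_inl, Monoid.Coprod.lift_apply_inr,
          hc, Subgroup.subtype_apply]
        group
      · rw [SetLike.mem_coe, MonoidHom.mem_ker, hrel2, hΨ]
        by_cases h : ψ r ∈ K
        · simp only [h, dif_pos, map_mul, map_inv, Monoid.Coprod.lift_apply_inl,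
            Monoid.Coprod.lift_apply_inr, Subgroup.subtype_apply, mul_inv_cancel]
        · simp only [h, dif_neg, not_false_eq_true, map_one]
    · set q := QuotientGroup.mk' N with hq
      set i : K →* Monoid.Coprod K (FreeGroup (Fin m)) ⧸ N := q.comp Monoid.Coprod.inl with hi
      set s : FreeGroup (Fin m) →* Monoid.Coprod K (FreeGroup (Fin m)) ⧸ N :=
        q.comp Monoid.Coprod.inr with hs
      have hcmul : ∀ v w k, c (v * w) k = c v (c w k) := by
        intro v w k
        apply Subtype.ext
        simp only [hc, map_mul]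
        group
      -- claim 1
      have k0 : ∀ v ∈ V, ∀ k, s v * i k * (s v)⁻¹ = i (c v k) := by
        intro v hv k
        set f1 : K →* Monoid.Coprod K (FreeGroup (Fin m)) ⧸ N :=
          (MulAut.conj (s v)).toMonoidHom.comp i with hf1
        set f2 : K →* Monoid.Coprod K (FreeGroup (Fin m)) ⧸ N :=
          i.comp { toFun := c v, map_one' := by apply Subtype.ext; simp [hc],
                   map_mul' := by intro a b; apply Subtype.ext; simp [hc] } with hf2
        have h1 : f1 = f2 := by
          apply MonoidHom.eq_of_eqOn_dense hT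
          intro k hk
          have h2 : rel1 (v, k) ∈ N := Subgroup.subset_normalClosure
            (Or.inl ⟨(v, k), ⟨hv, hk⟩, rfl⟩)
          rw [← QuotientGroup.eq_one_iff, ← QuotientGroup.mk'_apply, ← hq, hrel1] at h2
          simp only [map_mul, map_inv] at h2
          rw [mul_inv_eq_one] at h2
          exact h2
        have h2 := DFunLike.congr_fun h1 k
        exact h2
      have k1 : ∀ v k, s v * i k * (s v)⁻¹ = i (c v k) := by
        intro v
        induction v using FreeGroup.induction_on with
        | C1 =>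
          intro k
          have : c 1 k = k := by
            apply Subtype.ext
            simp [hc]
          rw [this]
          simp
        | of j => exact k0 _ (Or.inl ⟨j, rfl⟩)
        | inv_of j _ => exact k0 _ (Or.inr ⟨j, rfl⟩)
        | mul a b ha hb =>
          intro k
          rw [hcmul, ← ha, ← hb, map_mul]
          group
      -- claim 2
      have k2 : ∀ v, φ v = 1 → ∀ h : ψ v ∈ K, s v = i ⟨ψ v, h⟩ := by
        set W : Subgroup (FreeGroup (Fin m)) :=
          { carrier := {v | ∃ k : K, (k : E) = ψ v ∧ s v = i k}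
            one_mem' := ⟨1, by simp, by simp⟩
            mul_mem' := by
              rintro a b ⟨k, hk, hk'⟩ ⟨l, hl, hl'⟩
              exact ⟨k * l, by rw [map_mul, ← hk, ← hl]; rfl, by rw [map_mul, map_mul, hk', hl']⟩
            inv_mem' := by
              rintro a ⟨k, hk, hk'⟩
              exact ⟨k⁻¹, by rw [map_inv, ← hk]; rfl, by rw [map_inv, map_inv, hk']⟩ } with hW
        have hWn : W.Normal := by
          refine ⟨?_⟩
          rintro a ⟨k, hk, hk'⟩ g
          refine ⟨c g k, ?_, ?_⟩
          · rw [map_mul, map_mul, map_inv, ← hk]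
          · rw [map_mul, map_mul, map_inv, hk', k1]
        have hSW : φ.ker ≤ W := by
          rw [← hSφ]
          apply Subgroup.normalClosure_le_normal
          intro r hr
          have h1 : ψ r ∈ K := by
            apply hψK
            rw [← MonoidHom.mem_ker, ← hSφ]
            exact Subgroup.subset_normalClosure hr
          refine ⟨⟨ψ r, h1⟩, rfl, ?_⟩
          have h2 : rel2 r ∈ N := Subgroup.subset_normalClosure (Or.inr ⟨r, hr, rfl⟩)
          rw [← QuotientGroup.eq_one_iff, ← QuotientGroup.mk'_apply, ← hq, hrel2] at h2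
          simp only [h1, dif_pos, map_mul, map_inv] at h2
          rw [mul_inv_eq_one] at h2
          exact h2
        intro v hv h
        obtain ⟨k, hk, hk'⟩ := hSW hv
        have : k = ⟨ψ v, h⟩ := Subtype.ext hk
        rw [hk', this]
      -- claim 3
      have k3 : ∀ p : Monoid.Coprod K (FreeGroup (Fin m)), ∃ (k : K) (v : FreeGroup (Fin m)),
          q p = i k * s v ∧ Ψ p = k * ψ v := by
        set W : Subgroup (Monoid.Coprod K (FreeGroup (Fin m))) :=
          { carrier := {p | ∃ (k : K) (v : FreeGroup (Fin m)), q p = i k * s v ∧ Ψ p = k * ψ v}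
            one_mem' := ⟨1, 1, by simp, by simp⟩
            mul_mem' := by
              rintro a b ⟨k, v, h1, h2⟩ ⟨l, w, h3, h4⟩
              refine ⟨k * c v l, v * w, ?_, ?_⟩
              · rw [map_mul, h1, h3, map_mul i, ← k1, map_mul s]
                group
              · rw [map_mul, h2, h4, map_mul]
                change _ = (k : E) * (ψ v * l * (ψ v)⁻¹) * _
                group
            inv_mem' := by
              rintro a ⟨k, v, h1, h2⟩
              refine ⟨c v⁻¹ k⁻¹, v⁻¹, ?_, ?_⟩
              · rw [map_inv, h1, ← k1, map_inv, map_inv]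
                group
              · rw [map_inv, h2]
                change _ = (ψ v⁻¹ * (k : E)⁻¹ * (ψ v⁻¹)⁻¹) * ψ v⁻¹
                rw [map_inv]
                group } with hW
        have hWt : W = ⊤ := by
          rw [eq_top_iff, ← Monoid.Coprod.closure_range_inl_union_inr, Subgroup.closure_le]
          rintro _ (⟨k, rfl⟩ | ⟨v, rfl⟩)
          · exact ⟨k, 1, by simp [hi], by simp [hΨ]⟩
          · exact ⟨1, v, by simp [hs], by simp [hΨ]⟩
        intro p
        have : p ∈ W := by rw [hWt]; exact Subgroup.mem_top p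
        exact this
      intro p hp
      obtain ⟨k, v, h1, h2⟩ := k3 p
      rw [MonoidHom.mem_ker.mp hp] at h2
      have h3 : ψ v = (k⁻¹ : K) := by
        rw [Subgroup.coe_inv]
        exact eq_inv_of_mul_eq_one_right h2.symm
      have h4 : φ v = 1 := by
        rw [← hψ, h3, QuotientGroup.mk'_apply, QuotientGroup.eq_one_iff]
        exact (k⁻¹).2
      have h5 := k2 v h4 (hψK v h4)
      have h6 : (⟨ψ v, hψK v h4⟩ : K) = k⁻¹ := Subtype.ext h3
      rw [h6] at h5
      rw [h5, ← map_mul, mul_inv_cancel, map_one, hq, QuotientGroup.mk'_apply,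
        QuotientGroup.eq_one_iff] at h1
      exact h1
  exact Group.IsFinitelyPresented.of_surjective Ψ hsurj hker

theorem cyc_sub_fg (C : Type) [Group C] [IsCyclic C] (H : Subgroup C) : Group.FG H := by
  have : IsCyclic H := inferInstance
  obtain ⟨c, hc⟩ := IsCyclic.exists_generator (α := H)
  refine Group.fg_iff.mpr ⟨{c}, ?_, Set.finite_singleton _⟩
  rw [eq_top_iff]
  intro x _
  rw [← Subgroup.zpowers_eq_closure]
  exact hc x

theorem fp_cyclic (C : Type) [Group C] [IsCyclic C] : Group.IsFinitelyPresented C := by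
  obtain ⟨c, hc⟩ := IsCyclic.exists_generator (α := C)
  have hs : Surjective (zpowersHom C c) := by
    intro x
    obtain ⟨k, hk⟩ := Subgroup.mem_zpowers_iff.mp (hc x)
    exact ⟨Multiplicative.ofAdd k, by rw [zpowersHom_apply]; exact hk⟩
  have hfg : Group.FG (zpowersHom C c).ker := cyc_sub_fg _ _
  have hfr : Group.IsFinitelyPresented (Multiplicative ℤ) := by
    have e : FreeGroup Unit ≃* Multiplicative ℤ := FreeGroup.mulEquivIntOfUnique
    exact Group.IsFinitelyPresented.of_surjective e.toMonoidHom e.surjective (by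
      have : e.toMonoidHom.ker = ⊥ := by
        rw [MonoidHom.ker_eq_bot_iff]
        exact e.injective
      rw [this]
      exact Subgroup.IsFinitelyNormallyGenerated.bot)
  exact Group.IsFinitelyPresented.of_surjective _ hs
    (Subgroup.IsFinitelyNormallyGenerated.of_FG _)

theorem fp_comm_aux (n : ℕ) : ∀ (E : Type) [CommGroup E] (g : Fin n → E),
    Subgroup.closure (Set.range g) = ⊤ → Group.IsFinitelyPresented E := by
  induction n with
  | zero =>
    intro E _ g hg
    have : Subsingleton E := by
      rw [Set.range_eq_empty, Subgroup.closure_empty] at hg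
      exact Subgroup.subsingleton_iff.mp (subsingleton_of_bot_eq_top hg)
    infer_instance
  | succ n ih =>
    intro E _ g hg
    set K := Subgroup.closure (Set.range fun i : Fin n => g i.castSucc) with hK
    have h1 : Group.IsFinitelyPresented K := by
      refine ih K (fun i => ⟨g i.castSucc, Subgroup.subset_closure ⟨i, rfl⟩⟩) ?_
      rw [eq_top_iff]
      rintro ⟨x, hx⟩ _
      rw [hK, ← FreeGroup.range_lift_eq_closure] at hx
      obtain ⟨w, hw⟩ := hx
      rw [← FreeGroup.range_lift_eq_closure]
      refine ⟨w, Subtype.ext (Eq.trans ?_ hw)⟩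
      have : K.subtype.comp (FreeGroup.lift fun i : Fin n =>
          (⟨g i.castSucc, Subgroup.subset_closure ⟨i, rfl⟩⟩ : K)) =
          FreeGroup.lift fun i : Fin n => g i.castSucc := by
        ext i
        simp
      exact DFunLike.congr_fun this w
    have h2 : IsCyclic (E ⧸ K) := by
      refine ⟨⟨QuotientGroup.mk' K (g (Fin.last n)), ?_⟩⟩
      have h3 : (⊤ : Subgroup E) ≤
          (Subgroup.zpowers (QuotientGroup.mk' K (g (Fin.last n)))).comap (QuotientGroup.mk' K) := by
        rw [← hg, Subgroup.closure_le]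
        rintro _ ⟨i, rfl⟩
        refine Fin.lastCases ?_ ?_ i
        · exact Subgroup.mem_zpowers _
        · intro j
          rw [SetLike.mem_coe, Subgroup.mem_comap]
          have : QuotientGroup.mk' K (g j.castSucc) = 1 := by
            rw [QuotientGroup.mk'_apply, QuotientGroup.eq_one_iff]
            exact Subgroup.subset_closure ⟨j, rfl⟩
          rw [this]
          exact one_mem _
      intro x
      obtain ⟨e, rfl⟩ := QuotientGroup.mk'_surjective K x
      exact h3 (Subgroup.mem_top e)
    have h3 := fp_cyclic (E ⧸ K)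
    exact fp_ext K

theorem fp_comm (E : Type) [CommGroup E] [Group.FG E] : Group.IsFinitelyPresented E := by
  obtain ⟨S, hS⟩ := Group.fg_def.mp ‹Group.FG E›
  refine fp_comm_aux S.card E (fun i => ((S.equivFin.symm i : S) : E)) ?_
  rw [← hS]
  congr 1
  ext x
  constructor
  · rintro ⟨i, rfl⟩
    exact (S.equivFin.symm i).2
  · intro hx
    exact ⟨S.equivFin ⟨x, hx⟩, by simp⟩

end Pool.Agent.Work.MP_66343f_al
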