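import Pool.Agent.Work.MP_66343f_al.Gen

/-!
# MP_66343f_al: `B` approximates a free group
-/

set_option autoImplicit false

namespace Pool.Agent.Work.MP_66343f_al

open SemidirectProduct Filter Function

namespace Cfg

variable {H Γ D I J S : Type} [Group H] [Group Γ] [Group D] (C : Cfg H Γ D I J S)

open Classical in
/-- the function with the value `c n` on `R` -/
noncomputable def cf (R : Finset Γ) (n : ℕ) : Γ → FP D := fun p => if p ∈ R then cc C.xx n else 1

theorem cf_mem (R : Finset Γ) (n : ℕ) (p : Γ) : C.cf R n p ∈ C.JJ := by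
  unfold cf
  split_ifs
  · exact C.cc_mem_JJ n
  · exact one_mem _

open Classical in
/-- the modified tuple -/
noncomputable def Lam (n : Option (Kx I J S) → ℕ) (R : Finset Γ) (σ : Γ) :
    Option (Kx I J S) → Am H Γ D
  | some e => C.gB e * nl (C.cf R (n (some e)))
  | none => nl (C.cf R (n none)) * nl (Pi.mulSingle σ C.jj)

theorem gB_mem (e : Kx I J S) : C.gB e ∈ C.Bs := Subgroup.subset_closure ⟨e, rfl⟩

theorem twB_mem (v : FreeGroup J) : C.twB v ∈ C.Bs := by
  have h1 : (FreeGroup.lift (fun j => C.gB (.inr (.inl j)))).range ≤ C.Bs := by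
    rw [FreeGroup.range_lift_eq_closure, Subgroup.closure_le]
    rintro _ ⟨j, rfl⟩
    exact C.gB_mem _
  exact h1 ⟨v, rfl⟩

theorem rich_Bs : C.Rich C.Bs where
  y b := by
    classical
    refine ⟨C.gB (.inr (.inr (C.s0, b))), C.gB_mem _, ?_, ?_⟩
    · simp [gB]
    · simp [gB]
  tr p := by
    obtain ⟨v, hv⟩ := surj_of_gen C.hγ p
    refine ⟨C.twB v, C.twB_mem v, ?_, ?_⟩
    · rw [twB_eq, hv]
      simp
    · intro q
      rw [twB_eq]
      simp only [left_inr, Pi.one_apply]
      exact one_mem _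

theorem jj_mem_II_Bs : C.jj ∈ II C.Bs 1 := by
  classical
  rw [mem_II]
  have h1 := mul_mem (C.gB_mem (.inr (.inr (C.s0, 0)))) (inv_mem (C.gB_mem (.inr (.inr (C.s0, 1)))))
  have h2 : C.gB (.inr (.inr (C.s0, 0))) * (C.gB (.inr (.inr (C.s0, 1))))⁻¹ =
      nl (Pi.mulSingle (1 : Γ) C.jj) := by
    refine Prod.ext ?_ ?_
    · change C.x C.s0 * (C.x C.s0)⁻¹ = 1
      simp
    · change (inl (Pi.mulSingle (1 : Γ) (yy (C.x0 C.s0) 0)) : WW Γ (FP D)) *
        (inl (Pi.mulSingle (1 : Γ) (yy (C.x0 C.s0) 1)))⁻¹ = inl (Pi.mulSingle (1 : Γ) C.jj)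
      rw [← map_inv, ← map_mul, ← Pi.mulSingle_inv, ← Pi.mulSingle_mul]
      rfl
  rw [← h2]
  exact h1

theorem Lam_mem_Bs (n : Option (Kx I J S) → ℕ) (R : Finset Γ) (σ : Γ) (e : Option (Kx I J S)) :
    C.Lam n R σ e ∈ C.Bs := by
  classical
  have hJ : C.JJ ≤ II C.Bs 1 := C.JJ_le C.jj_mem_II_Bs C.rich_Bs.normalizer
  have hcf : ∀ m, nl (C.cf R m) ∈ C.Bs := by
    intro m
    exact cut_mem R (cc C.xx m) fun p _ => C.rich_Bs.all (hJ (C.cc_mem_JJ m)) p
  rcases e with _ | e
  · exact mul_mem (hcf _) (mem_II.mp (C.rich_Bs.all C.jj_mem_II_Bs σ))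
  · exact mul_mem (C.gB_mem e) (hcf _)

/-- the subgroup generated by the modified tuple -/
noncomputable def Bo (n : Option (Kx I J S) → ℕ) (R : Finset Γ) (σ : Γ) : Subgroup (Am H Γ D) :=
  Subgroup.closure (Set.range (C.Lam n R σ))

variable {C} {n : Option (Kx I J S) → ℕ} {R : Finset Γ} {σ : Γ}

theorem Lam_mem (e : Option (Kx I J S)) : C.Lam n R σ e ∈ C.Bo n R σ :=
  Subgroup.subset_closure ⟨e, rfl⟩

theorem rich_Bo (h1 : (1 : Γ) ∉ R) : C.Rich (C.Bo n R σ) where
  y b := by
    classical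
    refine ⟨C.Lam n R σ (some (.inr (.inr (C.s0, b)))), Lam_mem _, ?_, ?_⟩
    · simp [Lam, gB, nl]
    · simp only [Lam, gB, Prod.snd_mul, nl_snd]
      rw [ww_mul_left]
      simp [cf, h1]
  tr p := by
    classical
    obtain ⟨v, hv⟩ := surj_of_gen C.hγ p
    set T0 : Subgroup (Am H Γ D) :=
      { carrier := {a | a.2.right.1 = 1 ∧ ∀ q, a.2.left q ∈ C.JJ}
        mul_mem' := by
          rintro a b ⟨ha1, ha2⟩ ⟨hb1, hb2⟩
          refine ⟨?_, fun q => ?_⟩
          · simp [ha1, hb1]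
          · rw [Prod.snd_mul, ww_mul_left, ha1]
            exact mul_mem (ha2 _) (hb2 _)
        one_mem' := by
          refine ⟨by simp, fun q => ?_⟩
          simp
        inv_mem' := by
          rintro a ⟨ha1, ha2⟩
          refine ⟨by simp [ha1], fun q => ?_⟩
          rw [Prod.snd_inv, ww_inv_left, ha1]
          simp only [inv_one, MulAut.one_apply]
          exact inv_mem (ha2 _) } with hT0
    have hgen : ∀ j, C.Lam n R σ (some (.inr (.inl j))) ∈ T0 := by
      intro j
      refine ⟨by simp [Lam, gB, nl], fun q => ?_⟩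
      simp only [Lam, gB, Prod.snd_mul, nl_snd]
      rw [ww_mul_left]
      simp only [left_inr, Pi.one_apply, one_mul, right_inr, left_inl, MulAut.one_apply]
      exact C.cf_mem R _ _
    set W := FreeGroup.lift (fun j => C.Lam n R σ (some (.inr (.inl j)))) with hW
    have hWT : W.range ≤ T0 := by
      rw [hW, FreeGroup.range_lift_eq_closure, Subgroup.closure_le]
      rintro _ ⟨j, rfl⟩
      exact hgen j
    have hWB : W.range ≤ C.Bo n R σ := by
      rw [hW, FreeGroup.range_lift_eq_closure, Subgroup.closure_le]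
      rintro _ ⟨j, rfl⟩
      exact Lam_mem _
    have hWr : ∀ v, (W v).2.right.2 = FreeGroup.lift C.γ v := by
      intro v
      have : ((MonoidHom.snd (MulAut (FP D)) Γ).comp
          ((rightHom : WW Γ (FP D) →* _).comp ((MonoidHom.snd H _).comp W))) =
          FreeGroup.lift C.γ := by
        ext j
        simp [hW, Lam, gB, nl]
      exact DFunLike.congr_fun this v
    have h2 := hWT ⟨v, rfl⟩
    refine ⟨W v, hWB ⟨v, rfl⟩, ?_, h2.2⟩
    exact Prod.ext h2.1 ((hWr v).trans hv)

open Classical in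
/-- The modified tuple generates `B`. -/
theorem Bo_eq (h1 : (1 : Γ) ∉ R) (h2 : σ ∉ R) (h3 : ∀ p ∈ R, σ * p ∉ R) :
    C.Bo n R σ = C.Bs := by
  have hR := rich_Bo (C := C) (n := n) (σ := σ) h1
  apply le_antisymm
  · unfold Bo
    rw [Subgroup.closure_le]
    rintro _ ⟨e, rfl⟩
    exact C.Lam_mem_Bs n R σ e
  -- the values at `1` of functions supported in `R ∪ {1}`
  set V : Subgroup (FP D) :=
    { carrier := {l | ∃ f : Γ → FP D, nl f ∈ C.Bo n R σ ∧ (∀ p, f p ≠ 1 → p ∈ R ∨ p = 1) ∧ f 1 = l}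
      mul_mem' := by
        rintro _ _ ⟨f, hf, hf1, rfl⟩ ⟨f', hf', hf1', rfl⟩
        refine ⟨f * f', by rw [map_mul]; exact mul_mem hf hf', fun p hp => ?_, rfl⟩
        by_cases h : f p = 1
        · refine hf1' p fun h' => hp ?_
          rw [Pi.mul_apply, h, h', mul_one]
        · exact hf1 p h
      one_mem' := ⟨1, by rw [map_one]; exact one_mem _, fun p hp => absurd rfl hp, rfl⟩
      inv_mem' := by
        rintro _ ⟨f, hf, hf1, rfl⟩
        refine ⟨f⁻¹, by rw [map_inv]; exact inv_mem hf, fun p hp => hf1 p fun h => hp ?_, rfl⟩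
        rw [Pi.inv_apply, h, inv_one] } with hV
  have hVn : C.Yg ≤ Subgroup.normalizer (V : Set (FP D)) := by
    refine C.Yg_le_normalizer fun b l hl => ?_
    obtain ⟨a, ha, hr, hy⟩ := hR.y b
    obtain ⟨f, hf, hf1, rfl⟩ := hl
    constructor
    · refine ⟨fun p => a.2.left p * f p * (a.2.left p)⁻¹, ?_, ?_, ?_⟩
      · have h4 := mul_mem (mul_mem ha hf) (inv_mem ha)
        rw [nl_conj, hr] at h4
        simpa using h4
      · intro p hp
        refine hf1 p fun h => hp ?_
        beta_reduce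
        rw [h]
        group
      · change a.2.left 1 * f 1 * (a.2.left 1)⁻¹ = _
        rw [hy]
    · refine ⟨fun p => (a.2.left p)⁻¹ * f p * a.2.left p, ?_, ?_, ?_⟩
      · have h4 := mul_mem (mul_mem (inv_mem ha) hf) (inv_mem (inv_mem ha))
        rw [nl_conj, inv_right_one (show a.2.right = (1, 1) from hr)] at h4
        have h5 : ∀ p, (a⁻¹).2.left p = (a.2.left p)⁻¹ := by
          intro p
          rw [inv_left_one (show a.2.right = (1, 1) from hr), one_mul]
        simp only [h5, MulAut.one_apply, inv_one, one_mul, inv_inv] at h4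
        exact h4
      · intro p hp
        refine hf1 p fun h => hp ?_
        beta_reduce
        rw [h]
        group
      · change (a.2.left 1)⁻¹ * f 1 * a.2.left 1 = _
        rw [hy]
  have hVj : C.jj ∈ V := by
    have h4 := mul_mem (Lam_mem (C := C) (n := n) (R := R) (σ := σ) (some (.inr (.inr (C.s0, 0)))))
      (inv_mem (Lam_mem (C := C) (n := n) (R := R) (σ := σ) (some (.inr (.inr (C.s0, 1))))))
    refine ⟨Pi.mulSingle (1 : Γ) (yy C.xx 0) * C.cf R (n (some (.inr (.inr (C.s0, 0))))) *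
      (Pi.mulSingle (1 : Γ) (yy C.xx 1) * C.cf R (n (some (.inr (.inr (C.s0, 1))))))⁻¹, ?_, ?_, ?_⟩
    · have h5 : C.Lam n R σ (some (.inr (.inr (C.s0, 0)))) *
          (C.Lam n R σ (some (.inr (.inr (C.s0, 1)))))⁻¹ =
          nl (Pi.mulSingle (1 : Γ) (yy C.xx 0) * C.cf R (n (some (.inr (.inr (C.s0, 0))))) *
      (Pi.mulSingle (1 : Γ) (yy C.xx 1) * C.cf R (n (some (.inr (.inr (C.s0, 1))))))⁻¹) := by
        refine Prod.ext ?_ ?_
        · change C.x C.s0 * 1 * (C.x C.s0 * 1)⁻¹ = 1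
          simp
        · change (inl (Pi.mulSingle (1 : Γ) (yy (C.x0 C.s0) 0)) : WW Γ (FP D)) *
            inl (C.cf R (n (some (.inr (.inr (C.s0, 0)))))) *
            (inl (Pi.mulSingle (1 : Γ) (yy (C.x0 C.s0) 1)) *
              inl (C.cf R (n (some (.inr (.inr (C.s0, 1)))))))⁻¹ = inl _
          rw [← map_mul, ← map_mul, ← map_inv, ← map_mul]
      rw [← h5]
      exact h4
    · intro p hp
      by_contra h
      rw [not_or] at h
      apply hp
      simp [cf, h.1, Pi.mulSingle_eq_of_ne h.2]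
    · simp [cf, h1, jj]
  have hJV : C.JJ ≤ V := C.JJ_le hVj hVn
  -- commutators at the position `σ`
  have hcom : ∀ l ∈ C.JJ, cm C.jj l ∈ II (C.Bo n R σ) 1 := by
    intro l hl
    obtain ⟨a, ha, hr, haJ⟩ := hR.tr σ
    obtain ⟨f, hf, hf1, hf2⟩ := hJV (C.JJ_conj' (C.JJ_le_Yg (haJ σ)) hl)
    have h4 := mul_mem (mul_mem ha hf) (inv_mem ha)
    rw [nl_conj, hr] at h4
    have h5 := cm_mem (Lam_mem (C := C) (n := n) (R := R) (σ := σ) none) h4
    have h6 : cm (C.Lam n R σ none) (nl (fun p => a.2.left p *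
        ((1 : MulAut (FP D)), σ).1 (f (((1 : MulAut (FP D)), σ).2⁻¹ * p)) * (a.2.left p)⁻¹)) =
        nl (Pi.mulSingle σ (cm C.jj l)) := by
      simp only [cm, Lam]
      rw [← map_mul, ← map_mul, ← map_inv, ← map_mul, ← map_inv, ← map_mul]
      congr 1
      funext p
      simp only [Pi.mul_apply, Pi.inv_apply, MulAut.one_apply]
      by_cases hp : p = σ
      · subst hp
        rw [Pi.mulSingle_eq_same, Pi.mulSingle_eq_same, inv_mul_cancel, hf2]
        simp only [cf, h2, if_false]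
        group
      · rw [Pi.mulSingle_eq_of_ne hp, Pi.mulSingle_eq_of_ne hp]
        by_cases hpR : p ∈ R
        · have h7 : f (σ⁻¹ * p) = 1 := by
            by_contra h8
            rcases hf1 _ h8 with h9 | h9
            · exact h3 _ h9 (by rwa [mul_inv_cancel_left])
            · exact hp (inv_mul_eq_one.mp h9).symm
          rw [h7]
          group
        · simp only [cf, hpR, if_false]
          group
    rw [h6] at h5
    have h7 : cm C.jj l ∈ II (C.Bo n R σ) σ := mem_II.mpr h5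
    have h8 := move (inv_mem ha) (inv_right_one hr) h7
    rw [inv_mul_cancel, inv_left_one hr, mul_one, inv_inv] at h8
    exact (Subgroup.mem_normalizer_iff''.mp (hR.normalizer (C.JJ_le_Yg (haJ σ))) _).2 h8
  have hcc : ∀ m, cc C.xx m ∈ II (C.Bo n R σ) 1 := by
    intro m
    refine C.cc_mem (fun u hu l hl => ?_) m
    have h4 := (Subgroup.mem_normalizer_iff.mp (hR.normalizer hu) _).1
      (hcom _ (C.JJ_conj' hu hl))
    have h5 : u * cm C.jj (u⁻¹ * l * u) * u⁻¹ = cm (u * C.jj * u⁻¹) l := by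
      unfold cm
      group
    rwa [h5] at h4
  have hcf : ∀ m, nl (C.cf R m) ∈ C.Bo n R σ := fun m =>
    cut_mem R (cc C.xx m) fun p _ => hR.all (hcc m) p
  unfold Bs
  rw [Subgroup.closure_le]
  rintro _ ⟨e, rfl⟩
  have h4 := mul_mem (Lam_mem (C := C) (n := n) (R := R) (σ := σ) (some e))
    (inv_mem (hcf (n (some e))))
  have h5 : C.Lam n R σ (some e) * (nl (C.cf R (n (some e))))⁻¹ = C.gB e := by
    simp only [Lam]
    group
  rw [h5] at h4
  exact h4

end Cfg

end Pool.Agent.Work.MP_66343f_al
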