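import Pool.Agent.Work.MP_66343f_al.FP

/-!
# MP_66343f_al: nilpotent and virtually nilpotent groups
-/

set_option autoImplicit false

namespace Pool.Agent.Work.MP_66343f_al

open Function

/-- a central subgroup that is finitely generated as a normal subgroup is finitely generated -/
theorem fg_of_fng_central {G : Type} [Group G] (N : Subgroup G) (hN : N ≤ Subgroup.center G)
    (h : N.IsFinitelyNormallyGenerated) : N.FG := by
  obtain ⟨S, hS, hSN⟩ := h
  rw [Subgroup.fg_iff]
  refine ⟨S, ?_, hS⟩
  rw [← hSN]
  apply le_antisymm
  · exact Subgroup.closure_le_normalClosure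
  · have hSc : S ⊆ Subgroup.center G := by
      intro s hs
      exact hN (hSN ▸ Subgroup.subset_normalClosure hs)
    have hcl : Subgroup.closure S ≤ Subgroup.center G := by
      rw [Subgroup.closure_le]
      exact hSc
    have : (Subgroup.closure S).Normal := by
      refine ⟨?_⟩
      intro n hn g
      have h1 := Subgroup.mem_center_iff.mp (hcl hn) g
      rw [h1, mul_assoc, mul_inv_cancel, mul_one]
      exact hn
    exact Subgroup.normalClosure_le_normal Subgroup.subset_closure

theorem fp_comm' (E : Type) [Group E] (h : ∀ a b : E, a * b = b * a) [hfg : Group.FG E] :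
    Group.IsFinitelyPresented E := by
  letI : CommGroup E := { (inferInstance : Group E) with mul_comm := h }
  exact @fp_comm E _ hfg

theorem finite_comm (E : Type) [Group E] (h : ∀ a b : E, a * b = b * a) [hfg : Group.FG E]
    (ht : ∀ x : E, IsOfFinOrder x) : Finite E := by
  letI : CommGroup E := { (inferInstance : Group E) with mul_comm := h }
  exact @CommGroup.finite_of_fg_isMulTorsion E _ hfg ht

theorem center_comm {G : Type} [Group G] (a b : Subgroup.center G) : a * b = b * a :=
  Subtype.ext (Subgroup.mem_center_iff.mp b.2 a)

theorem fp_nilp_aux (G : Type) [Group G] [Group.IsNilpotent G] : Group.FG G →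
    Group.IsFinitelyPresented G := by
  apply Group.nilpotent_center_quotient_ind
    (P := fun G _ _ => Group.FG G → Group.IsFinitelyPresented G) G
  · intro G _ _ _
    have : Finite G := Finite.of_subsingleton
    infer_instance
  · intro G _ _ ih hG
    have h1 : Group.FG (G ⧸ Subgroup.center G) := inferInstance
    have h2 := ih h1
    have h3 := ker_fng (QuotientGroup.mk' (Subgroup.center G)) (QuotientGroup.mk'_surjective _)
    rw [QuotientGroup.ker_mk'] at h3
    have h4 := fg_of_fng_central _ le_rfl h3
    have h5 : Group.FG (Subgroup.center G) := (Group.fg_iff_subgroup_fg _).mpr h4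
    have h6 : Group.IsFinitelyPresented (Subgroup.center G) := fp_comm' _ center_comm
    exact fp_ext (Subgroup.center G)

theorem fp_nilp (G : Type) [Group G] [Group.IsNilpotent G] [hG : Group.FG G] :
    Group.IsFinitelyPresented G := fp_nilp_aux G hG

theorem center_fg (G : Type) [Group G] [Group.IsNilpotent G] [hG : Group.FG G] :
    (Subgroup.center G).FG := by
  have h1 : Group.IsFinitelyPresented (G ⧸ Subgroup.center G) := fp_nilp _
  have h3 := ker_fng (QuotientGroup.mk' (Subgroup.center G)) (QuotientGroup.mk'_surjective _)
  rw [QuotientGroup.ker_mk'] at h3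
  exact fg_of_fng_central _ le_rfl h3

/-- a finitely generated nilpotent group with finite centre is finite -/
theorem finite_of_center (G : Type) [Group G] [Group.IsNilpotent G] :
    Group.FG G → Finite (Subgroup.center G) → Finite G := by
  apply Group.nilpotent_center_quotient_ind
    (P := fun G _ _ => Group.FG G → Finite (Subgroup.center G) → Finite G) G
  · intro G _ _ _ _
    exact Finite.of_subsingleton
  · intro G _ _ ih hG hc
    have h1 : Group.FG (G ⧸ Subgroup.center G) := inferInstance
    have h2 := center_fg (G ⧸ Subgroup.center G)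
    have h3 : Group.FG (Subgroup.center (G ⧸ Subgroup.center G)) :=
      (Group.fg_iff_subgroup_fg _).mpr h2
    have h4 : Finite (Subgroup.center (G ⧸ Subgroup.center G)) := by
      apply finite_comm _ center_comm
      intro x
      obtain ⟨x, hx⟩ := x
      obtain ⟨y, rfl⟩ := QuotientGroup.mk'_surjective _ x
      set e := Nat.card (Subgroup.center G) with he
      have hepos : 0 < e := Nat.card_pos
      rw [isOfFinOrder_iff_pow_eq_one]
      refine ⟨e, hepos, Subtype.ext ?_⟩
      change (QuotientGroup.mk' (Subgroup.center G) y) ^ e = 1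
      rw [← map_pow, QuotientGroup.mk'_apply, QuotientGroup.eq_one_iff, Subgroup.mem_center_iff]
      intro g
      -- `c = g * y * g⁻¹ * y⁻¹` is central
      have hc1 : g * y * g⁻¹ * y⁻¹ ∈ Subgroup.center G := by
        rw [← QuotientGroup.eq_one_iff, ← QuotientGroup.mk'_apply]
        simp only [map_mul, map_inv]
        rw [Subgroup.mem_center_iff.mp hx (QuotientGroup.mk' (Subgroup.center G) g)]
        group
      have hc2 : (g * y * g⁻¹ * y⁻¹) ^ e = 1 := by
        have : (⟨_, hc1⟩ : Subgroup.center G) ^ e = 1 := pow_card_eq_one'
        exact congrArg Subtype.val this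
      have h5 : g * y * g⁻¹ = (g * y * g⁻¹ * y⁻¹) * y := by group
      have h6 : g * y ^ e * g⁻¹ = y ^ e := by
        rw [← conj_pow, h5]
        have hcomm : Commute (g * y * g⁻¹ * y⁻¹) y :=
          (Subgroup.mem_center_iff.mp hc1 y).symm
        rw [hcomm.mul_pow, hc2, one_mul]
      rw [mul_inv_eq_iff_eq_mul] at h6
      exact h6
    have h7 : Finite (G ⧸ Subgroup.center G) := ih h1 h4
    exact Finite.of_subgroup_quotient (Subgroup.center G)

end Pool.Agent.Work.MP_66343f_al
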