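import Pool.Agent.Work.MP_66343f_al.Cfg

/-!
# MP_66343f_al: the modified tuples generate `B`
-/

set_option autoImplicit false

namespace Pool.Agent.Work.MP_66343f_al

open SemidirectProduct Filter Function

/-- the commutator -/
def cm {G : Type} [Group G] (a b : G) : G := a * b * a⁻¹ * b⁻¹

theorem cm_mem {G : Type} [Group G] {V : Subgroup G} {a b : G} (ha : a ∈ V) (hb : b ∈ V) :
    cm a b ∈ V := mul_mem (mul_mem (mul_mem ha hb) (inv_mem ha)) (inv_mem hb)

namespace Cfg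

variable {H Γ D I J S : Type} [Group H] [Group Γ] [Group D] (C : Cfg H Γ D I J S)

/-- the element `x` -/
abbrev xx : D := C.x0 C.s0

/-- `j = y₀ y₁⁻¹` -/
def jj : FP D := yy C.xx 0 * (yy C.xx 1)⁻¹

/-- the group generated by `y₀, y₁, y₂` -/
def Yg : Subgroup (FP D) := Subgroup.closure (Set.range (yy C.xx))

/-- the group generated by the conjugates of `j` -/
def JJ : Subgroup (FP D) := Subgroup.closure {l | ∃ u ∈ C.Yg, l = u * C.jj * u⁻¹}

theorem yy_mem (b : Fin 3) : yy C.xx b ∈ C.Yg := Subgroup.subset_closure ⟨b, rfl⟩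

theorem jj_mem_Yg : C.jj ∈ C.Yg := mul_mem (C.yy_mem 0) (inv_mem (C.yy_mem 1))

theorem jj_mem_JJ : C.jj ∈ C.JJ :=
  Subgroup.subset_closure ⟨1, one_mem _, by simp⟩

theorem JJ_le_Yg : C.JJ ≤ C.Yg := by
  unfold JJ
  rw [Subgroup.closure_le]
  rintro _ ⟨u, hu, rfl⟩
  exact mul_mem (mul_mem hu C.jj_mem_Yg) (inv_mem hu)

theorem JJ_conj {u l : FP D} (hu : u ∈ C.Yg) (hl : l ∈ C.JJ) : u * l * u⁻¹ ∈ C.JJ := by
  have h1 : C.JJ ≤ C.JJ.comap (MulAut.conj u).toMonoidHom := by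
    conv_lhs => unfold JJ
    rw [Subgroup.closure_le]
    rintro _ ⟨v, hv, rfl⟩
    refine Subgroup.subset_closure ⟨u * v, mul_mem hu hv, ?_⟩
    simp [MulAut.conj_apply, mul_assoc]
  exact h1 hl

theorem JJ_conj' {u l : FP D} (hu : u ∈ C.Yg) (hl : l ∈ C.JJ) : u⁻¹ * l * u ∈ C.JJ := by
  have := C.JJ_conj (inv_mem hu) hl
  rwa [inv_inv] at this

theorem Yg_le_normalizer {V : Subgroup (FP D)}
    (h : ∀ b, ∀ l ∈ V, yy C.xx b * l * (yy C.xx b)⁻¹ ∈ V ∧ (yy C.xx b)⁻¹ * l * yy C.xx b ∈ V) :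
    C.Yg ≤ Subgroup.normalizer (V : Set (FP D)) := by
  unfold Yg
  rw [Subgroup.closure_le]
  rintro _ ⟨b, rfl⟩
  rw [SetLike.mem_coe, Subgroup.mem_normalizer_iff]
  intro l
  refine ⟨fun hl => (h b l hl).1, fun hl => ?_⟩
  have h1 := (h b _ hl).2
  have h2 : (yy C.xx b)⁻¹ * (yy C.xx b * l * (yy C.xx b)⁻¹) * yy C.xx b = l := by group
  rwa [h2] at h1

theorem JJ_le {V : Subgroup (FP D)} (h1 : C.jj ∈ V)
    (h2 : C.Yg ≤ Subgroup.normalizer (V : Set (FP D))) : C.JJ ≤ V := by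
  unfold JJ
  rw [Subgroup.closure_le]
  rintro _ ⟨u, hu, rfl⟩
  exact (Subgroup.mem_normalizer_iff.mp (h2 hu) _).1 h1

theorem pr_QQ_mem (n : ℕ) : pr (QQ C.xx n) ∈ C.Yg := by
  induction n with
  | zero =>
    simp only [QQ, pr_cons, pr_nil, mul_one]
    exact mul_mem (C.yy_mem 2) (C.yy_mem 1)
  | succ n ih =>
    simp only [QQ, pr_cons]
    exact mul_mem (C.yy_mem 0) (mul_mem (C.yy_mem 1) ih)

theorem cc_mem {V : Subgroup (FP D)}
    (h : ∀ u ∈ C.Yg, ∀ l ∈ C.JJ, cm (u * C.jj * u⁻¹) l ∈ V) (n : ℕ) : cc C.xx n ∈ V := by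
  have h1 := h (pr (QQ C.xx n)) (C.pr_QQ_mem n)
    ((pr (QQ C.xx n) * yy C.xx 2) * C.jj * (pr (QQ C.xx n) * yy C.xx 2)⁻¹)
    (Subgroup.subset_closure ⟨_, mul_mem (C.pr_QQ_mem n) (C.yy_mem 2), rfl⟩)
  have h2 : cc C.xx n = cm (pr (QQ C.xx n) * C.jj * (pr (QQ C.xx n))⁻¹)
      ((pr (QQ C.xx n) * yy C.xx 2) * C.jj * (pr (QQ C.xx n) * yy C.xx 2)⁻¹) := by
    rw [cc, pr_kk, cm, jj]
    group
  rw [h2]
  exact h1

theorem cc_mem_JJ (n : ℕ) : cc C.xx n ∈ C.JJ := by
  exact C.cc_mem (fun u hu l hl => cm_mem (C.JJ_conj hu C.jj_mem_JJ) hl) n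

end Cfg

section nl
variable {H Γ D : Type} [Group H] [Group Γ] [Group D]

/-- functions as elements of the ambient group -/
def nl : (Γ → FP D) →* Cfg.Am H Γ D := (MonoidHom.inr H (WW Γ (FP D))).comp inl

theorem nl_conj (a : Cfg.Am H Γ D) (f : Γ → FP D) :
    a * nl f * a⁻¹ = nl (fun p => a.2.left p * a.2.right.1 (f (a.2.right.2⁻¹ * p)) *
      (a.2.left p)⁻¹) := by
  refine Prod.ext ?_ ?_
  · change a.1 * 1 * a.1⁻¹ = 1
    simp
  · exact ww_conj a.2 f

theorem nl_snd (f : Γ → FP D) : (nl f : Cfg.Am H Γ D).2 = inl f := rfl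

open Classical in
/-- the elements `l` which are in `P` at the position `p` -/
noncomputable def II (P : Subgroup (Cfg.Am H Γ D)) (p : Γ) : Subgroup (FP D) :=
  P.comap (nl.comp (MonoidHom.mulSingle (fun _ : Γ => FP D) p))

open Classical in
theorem mem_II {P : Subgroup (Cfg.Am H Γ D)} {p : Γ} {l : FP D} :
    l ∈ II P p ↔ nl (Pi.mulSingle p l) ∈ P := Iff.rfl

/-- conjugation moves the position -/
theorem move {P : Subgroup (Cfg.Am H Γ D)} {a : Cfg.Am H Γ D} (ha : a ∈ P) {g p : Γ}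
    (hr : a.2.right = (1, g)) {l : FP D} (hl : l ∈ II P p) :
    a.2.left (g * p) * l * (a.2.left (g * p))⁻¹ ∈ II P (g * p) := by
  classical
  rw [mem_II] at hl ⊢
  have h1 := mul_mem (mul_mem ha hl) (inv_mem ha)
  rw [nl_conj, hr] at h1
  have h2 : (fun q => a.2.left q * (1 : MulAut (FP D)) ((Pi.mulSingle p l : Γ → FP D) (g⁻¹ * q)) *
      (a.2.left q)⁻¹) =
      Pi.mulSingle (g * p) (a.2.left (g * p) * l * (a.2.left (g * p))⁻¹) := by
    funext q
    by_cases h : q = g * p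
    · subst h
      rw [inv_mul_cancel_left, Pi.mulSingle_eq_same, Pi.mulSingle_eq_same, MulAut.one_apply]
    · rw [Pi.mulSingle_eq_of_ne h, Pi.mulSingle_eq_of_ne, map_one, mul_one, mul_inv_cancel]
      intro h'
      exact h (by rw [← h', mul_inv_cancel_left])
  rw [h2] at h1
  exact h1

theorem inv_left_one {a : Cfg.Am H Γ D} {g : Γ} (hr : a.2.right = (1, g)) (p : Γ) :
    (a⁻¹).2.left p = (a.2.left (g * p))⁻¹ := by
  change (a.2⁻¹).left p = _
  rw [ww_inv_left, hr]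
  simp

theorem inv_right_one {a : Cfg.Am H Γ D} {g : Γ} (hr : a.2.right = (1, g)) :
    (a⁻¹).2.right = (1, g⁻¹) := by
  change (a.2⁻¹).right = _
  rw [inv_right, hr]
  simp

open Classical in
/-- a function with a constant value on a finite set -/
theorem cut_mem {P : Subgroup (Cfg.Am H Γ D)} (R : Finset Γ) (c : FP D)
    (h : ∀ p ∈ R, c ∈ II P p) : nl (fun p => if p ∈ R then c else 1) ∈ P := by
  induction R using Finset.induction_on with
  | empty =>
    have : (fun p : Γ => if p ∈ (∅ : Finset Γ) then c else 1) = 1 := by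
      funext p
      simp
    rw [this, map_one]
    exact one_mem _
  | insert a s ha ih =>
    have h1 := h a (Finset.mem_insert_self a s)
    have h2 := ih fun p hp => h p (Finset.mem_insert_of_mem hp)
    rw [mem_II] at h1
    have h3 := mul_mem h1 h2
    rw [← map_mul] at h3
    have h4 : (fun p => if p ∈ insert a s then c else 1) =
        (Pi.mulSingle a c : Γ → FP D) * fun p => if p ∈ s then c else 1 := by
      funext p
      rw [Pi.mul_apply]
      by_cases hp : p = a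
      · subst hp
        rw [Pi.mulSingle_eq_same, if_neg ha, if_pos (Finset.mem_insert_self _ s), mul_one]
      · rw [Pi.mulSingle_eq_of_ne hp, one_mul]
        simp [hp]
    rw [h4]
    exact h3

end nl

namespace Cfg

variable {H Γ D I J S : Type} [Group H] [Group Γ] [Group D] (C : Cfg H Γ D I J S)

/-- `P` contains elements with the values `y b` at the position `1`, and translations -/
structure Rich (P : Subgroup (Am H Γ D)) : Prop where
  y : ∀ b, ∃ a ∈ P, a.2.right = 1 ∧ a.2.left 1 = yy C.xx b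
  tr : ∀ p : Γ, ∃ a ∈ P, a.2.right = (1, p) ∧ ∀ q, a.2.left q ∈ C.JJ

variable {C}

theorem Rich.normalizer {P : Subgroup (Am H Γ D)} (h : C.Rich P) :
    C.Yg ≤ Subgroup.normalizer (II P 1 : Set (FP D)) := by
  refine C.Yg_le_normalizer fun b l hl => ?_
  obtain ⟨a, ha, hr, hy⟩ := h.y b
  have hr' : a.2.right = (1, 1) := hr
  constructor
  · have h1 := move ha hr' hl
    rw [mul_one, hy] at h1
    exact h1
  · have h1 := move (inv_mem ha) (inv_right_one hr') hl
    rw [inv_left_one hr', inv_one, mul_one, mul_one, hy, inv_inv] at h1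
    exact h1

theorem Rich.all {P : Subgroup (Am H Γ D)} (h : C.Rich P) {l : FP D} (hl : l ∈ II P 1) (p : Γ) :
    l ∈ II P p := by
  obtain ⟨a, ha, hr, hJ⟩ := h.tr p
  have h1 := (Subgroup.mem_normalizer_iff''.mp (h.normalizer (C.JJ_le_Yg (hJ p))) l).1 hl
  have h2 := move ha hr h1
  rw [mul_one] at h2
  have h3 : a.2.left p * ((a.2.left p)⁻¹ * l * a.2.left p) * (a.2.left p)⁻¹ = l := by group
  rwa [h3] at h2

end Cfg

end Pool.Agent.Work.MP_66343f_al
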