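import Pool.Agent.Work.MP_66343f_al.Metab2

/-!
# MP_66343f_al: the free group, and the first main theorem
-/

set_option autoImplicit false

namespace Pool.Agent.Work.MP_66343f_al

open Function SemidirectProduct

/-- multiplication by two -/
def dbl : MulAut (Multiplicative ℚ) where
  toFun x := Multiplicative.ofAdd (2 * Multiplicative.toAdd x)
  invFun x := Multiplicative.ofAdd (Multiplicative.toAdd x / 2)
  left_inv := by
    intro x
    apply Multiplicative.toAdd.injective
    simp
  right_inv := by
    intro x
    apply Multiplicative.toAdd.injective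
    simp only [toAdd_ofAdd]
    ring
  map_mul' := by
    intro x y
    apply Multiplicative.toAdd.injective
    simp only [toAdd_ofAdd, toAdd_mul]
    ring

theorem dbl_pow (k : ℕ) (x : Multiplicative ℚ) :
    Multiplicative.toAdd ((dbl ^ k) x) = 2 ^ k * Multiplicative.toAdd x := by
  induction k with
  | zero => simp
  | succ k ih =>
    rw [pow_succ', MulAut.mul_apply]
    change 2 * Multiplicative.toAdd ((dbl ^ k) x) = _
    rw [ih]
    ring

/-- the affine group -/
abbrev Aff : Type :=
  Multiplicative ℚ ⋊[MonoidHom.id (MulAut (Multiplicative ℚ))] MulAut (Multiplicative ℚ)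

/-- the affine representation of the free group -/
noncomputable def f2 : FreeGroup (Fin 2) →* Aff :=
  FreeGroup.lift fun i => if i = 0 then inl (Multiplicative.ofAdd 1) else inr dbl

/-- the free group has the required data -/
noncomputable def datF2 : Dat (FreeGroup (Fin 2)) Aff (Multiplicative ℚ) where
  f := f2
  inc := inl
  hinc := inl_injective
  act := rightHom.comp f2
  hact h d := by
    rw [MonoidHom.comp_apply, rightHom_eq_right]
    refine SemidirectProduct.ext ?_ ?_
    · simp only [left_inl, mul_left, inv_left, mul_right, right_inl, mul_one, MonoidHom.id_apply,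
        map_inv, MulAut.apply_inv_self]
      rw [mul_comm (f2 h).left, mul_assoc, mul_inv_cancel, mul_one]
    · simp
  z := FreeGroup.of 1
  x := FreeGroup.of 0
  x0 := Multiplicative.ofAdd 1
  hx := by
    rw [f2, FreeGroup.lift_apply_of, if_pos rfl]
  hx0 := by
    intro h
    have := Multiplicative.ofAdd.injective (h.trans ofAdd_zero.symm)
    norm_num at this
  hcomm h := by
    have key : Commute ((rightHom.comp f2) h) ((rightHom.comp f2) (FreeGroup.of 1)) := by
      induction h using FreeGroup.induction_on with
      | C1 => rw [map_one]; exact Commute.one_left _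
      | of i =>
        by_cases hi : i = 0
        · subst hi
          have : (rightHom.comp f2) (FreeGroup.of 0) = 1 := by
            rw [MonoidHom.comp_apply, f2, FreeGroup.lift_apply_of, if_pos rfl, rightHom_inl]
          change Commute ((rightHom.comp f2) (FreeGroup.of 0)) _
          rw [this]
          exact Commute.one_left _
        · have : i = 1 := by omega
          subst this
          exact Commute.refl _
      | inv_of i hi => rw [map_inv]; exact hi.inv_left
      | mul a b ha hb => rw [map_mul]; exact ha.mul_left hb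
    exact key
  hfix k hk d hd := by
    have h1 : (rightHom.comp f2) (FreeGroup.of 1) = dbl := by
      rw [MonoidHom.comp_apply, f2, FreeGroup.lift_apply_of, if_neg (by decide), rightHom_inr]
    rw [h1] at hd
    have h2 := dbl_pow k d
    rw [hd] at h2
    apply Multiplicative.toAdd.injective
    rw [toAdd_one]
    have h3 : (2 : ℚ) ^ k ≠ 1 := by
      have : (1 : ℚ) < 2 ^ k := one_lt_pow₀ (by norm_num) (by omega)
      exact ne_of_gt this
    have h4 : ((2 : ℚ) ^ k - 1) * Multiplicative.toAdd d = 0 := by
      rw [sub_mul, one_mul, ← h2, sub_self]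
    rcases mul_eq_zero.mp h4 with h5 | h5
    · exact absurd (sub_eq_zero.mp h5) h3
    · exact h5

/-- the free group is at distance at most three from other free groups -/
theorem free_chain (r : ℕ) :
    ∃ (K B : Type) (_ : Group K) (_ : Group B), Preforms (FreeGroup (Fin 2)) K ∧ Preforms B K ∧
      Preforms B (FreeGroup (Fin (Nat.card (Option (Kx (Fin (r + 2)) Unit Unit))))) := by
  refine datF2.main (I := Fin (r + 2)) (fun i => if (i : ℕ) = 0 then FreeGroup.of 0
    else FreeGroup.of 1) ?_
  rw [eq_top_iff, ← FreeGroup.closure_range_of, Subgroup.closure_le]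
  rintro _ ⟨i, rfl⟩
  apply Subgroup.subset_closure
  by_cases hi : i = 0
  · subst hi
    exact ⟨⟨0, by omega⟩, by simp⟩
  · have : i = 1 := by omega
    subst this
    exact ⟨⟨1, by omega⟩, by simp⟩

theorem card_Kx (r : ℕ) : Nat.card (Option (Kx (Fin r) Unit Unit)) = r + 5 := by
  rw [Nat.card_eq_fintype_card, Fintype.card_option]
  simp only [Fintype.card_sum, Fintype.card_prod, Fintype.card_fin, Fintype.card_unit]

/-- the data give a path to the free groups -/
theorem Dat.component {G A D : Type} [Group G] [Group.FG G] [Group A] [CommGroup D]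
    (C : Dat G A D) :
    (∃ m ≥ 2, DistLE 3 G (FreeGroup (Fin m))) ∧ DistLE 6 G (FreeGroup (Fin 2)) := by
  obtain ⟨S, hS⟩ := Group.fg_def.mp ‹Group.FG G›
  obtain ⟨r, ⟨e⟩⟩ : ∃ r, Nonempty (S ≃ Fin r) := ⟨_, ⟨S.equivFin⟩⟩
  have hgen : Subgroup.closure (Set.range (fun i : Fin (r + 2) =>
      if h : (i : ℕ) < r then ((e.symm ⟨i, h⟩ : S) : G) else 1)) = ⊤ := by
    rw [eq_top_iff, ← hS, Subgroup.closure_le]
    intro s hs
    apply Subgroup.subset_closure
    refine ⟨⟨e ⟨s, hs⟩, by omega⟩, ?_⟩
    simp
  obtain ⟨K, B, hK, hB, h1, h2, h3⟩ := C.main (I := Fin (r + 2)) _ hgen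
  obtain ⟨K', B', hK', hB', h1', h2', h3'⟩ := free_chain r
  refine ⟨⟨_, ?_, .out h1 (.inc h2 (.out h3 (.iso 0 (MulEquiv.refl _))))⟩, ?_⟩
  · rw [card_Kx]
    omega
  exact .out h1 (.inc h2 (.out h3 (.inc h3' (.out h2' (.inc h1' (.iso 0 (MulEquiv.refl _)))))))

/-- **Main theorem, metabelian quotients** -/
theorem metab_component {G Q : Type} [Group G] [Group.FG G] [Group Q] (f : G →* Q)
    (hf : Surjective f) (hQ : derivedSeries Q 2 = ⊥) (hn : ¬ VNil Q) :
    (∃ m ≥ 2, DistLE 3 G (FreeGroup (Fin m))) ∧ DistLE 6 G (FreeGroup (Fin 2)) := by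
  obtain ⟨D, hD, ⟨C⟩⟩ := dat_of_metab f hf hQ hn
  exact C.component

end Pool.Agent.Work.MP_66343f_al
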