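import Pool.Agent.Work.MP_66343f_al.Red3
import Pool.Agent.Work.MP_66343f_al.Sep3

/-!
# MP_66343f_al: the main theorem for virtually solvable quotients
-/

set_option autoImplicit false

namespace Pool.Agent.Work.MP_66343f_al

open Function

theorem card_Ky (r : ℕ) (P : Type) [Finite P] [Nonempty P] :
    r + 5 ≤ Nat.card (Option (Ky (Fin r) P P)) := by
  have := Fintype.ofFinite P
  rw [Nat.card_eq_fintype_card, Fintype.card_option]
  simp only [Fintype.card_sum, Fintype.card_prod, Fintype.card_fin]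
  have : 0 < Fintype.card P := Fintype.card_pos
  omega

/-- the data give a path to the free groups -/
theorem Dat2.component {G A M : Type} [Group G] [Group.FG G] [Group A] [CommGroup M]
    (C : Dat2 G A M) :
    (∃ m ≥ 2, DistLE 3 G (FreeGroup (Fin m))) ∧ DistLE 4 G (FreeGroup (Fin 2)) := by
  obtain ⟨S, hS⟩ := Group.fg_def.mp ‹Group.FG G›
  obtain ⟨r, ⟨e⟩⟩ : ∃ r, Nonempty (S ≃ Fin r) := ⟨_, ⟨S.equivFin⟩⟩
  have hgen : Subgroup.closure (Set.range (fun i : Fin (r + 2) =>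
      if h : (i : ℕ) < r then ((e.symm ⟨i, h⟩ : S) : G) else 1)) = ⊤ := by
    rw [eq_top_iff, ← hS, Subgroup.closure_le]
    intro s hs
    apply Subgroup.subset_closure
    refine ⟨⟨e ⟨s, hs⟩, by omega⟩, ?_⟩
    simp
  obtain ⟨K, B, hK, hB, h1, h2, h3⟩ := C.main (I := Fin (r + 2)) _ hgen
  have := C.hNN
  have hfin : Finite (G ⧸ C.NN) := Subgroup.finite_quotient_of_finiteIndex
  have hm := card_Ky (r + 2) (G ⧸ C.NN)
  refine ⟨⟨_, ?_, .out h1 (.inc h2 (.out h3 (.iso 0 (MulEquiv.refl _))))⟩, ?_⟩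
  · omega
  exact .out h1 (.inc h2 (.out h3 (.inc (f2_preforms _ (by omega)) (.iso 0 (MulEquiv.refl _)))))

/-- **Main theorem, virtually solvable quotients** -/
theorem vsolv_component {G Q : Type} [Group G] [Group.FG G] [Group Q] (f : G →* Q)
    (hf : Surjective f) (S : Subgroup Q) (hS : S.FiniteIndex) (hs : Group.IsSolvable S)
    (hn : ¬ VNil Q) :
    (∃ m ≥ 2, DistLE 3 G (FreeGroup (Fin m))) ∧ DistLE 4 G (FreeGroup (Fin 2)) := by
  obtain ⟨A, M, hA, hM, ⟨C⟩⟩ := dat2_of_vsolv f hf S hS hs hn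
  exact C.component

end Pool.Agent.Work.MP_66343f_al
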