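import Pool.Agent.Work.MP_66343f_al.Dat

/-!
# MP_66343f_al: metabelian groups which are not virtually nilpotent
-/

set_option autoImplicit false

namespace Pool.Agent.Work.MP_66343f_al

open Function

/-- virtually nilpotent groups -/
def VNil (Q : Type) [Group Q] : Prop := ∃ P : Subgroup Q, P.FiniteIndex ∧ Group.IsNilpotent P

/-- Noetherian stabilisation -/
theorem stab {R V : Type} [CommRing R] [AddCommGroup V] [Module R V] [IsNoetherian R V] (τ : R) :
    ∃ K : ℕ, 1 ≤ K ∧ ∀ k ≥ 1, ∀ v : V,
      (τ ^ k - 1) • ((τ ^ K.factorial - 1) ^ K • v) = 0 → (τ ^ K.factorial - 1) ^ K • v = 0 := by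
  have dv : ∀ a b : ℕ, a ∣ b → τ ^ a - 1 ∣ τ ^ b - 1 := by
    rintro a _ ⟨c, rfl⟩
    rw [pow_mul]
    exact sub_one_dvd_pow_sub_one _ _
  have mono : ∀ n m : ℕ, n ≤ m →
      (τ ^ n.factorial - 1) ^ n ∣ (τ ^ m.factorial - 1) ^ m := by
    intro n m h
    exact (pow_dvd_pow_of_dvd (dv _ _ (Nat.factorial_dvd_factorial h)) n).trans
      (pow_dvd_pow _ h)
  let W : ℕ →o Submodule R V :=
    { toFun := fun n => Submodule.torsionBy R V ((τ ^ n.factorial - 1) ^ n)
      monotone' := by
        intro n m h v hv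
        rw [Submodule.mem_torsionBy_iff] at hv ⊢
        obtain ⟨c, hc⟩ := mono n m h
        rw [hc, mul_comm, mul_smul, hv, smul_zero] }
  obtain ⟨K0, hK0⟩ := monotone_stabilizes_iff_noetherian.mpr ‹IsNoetherian R V› W
  refine ⟨max K0 1, le_max_right _ _, ?_⟩
  intro k hk v hv
  have h1 : v ∈ W (max K0 1 + k) := by
    change v ∈ Submodule.torsionBy R V _
    rw [Submodule.mem_torsionBy_iff]
    have h2 : (τ ^ k - 1) * (τ ^ (max K0 1).factorial - 1) ^ (max K0 1) ∣
        (τ ^ (max K0 1 + k).factorial - 1) ^ (max K0 1 + k) := by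
      rw [pow_add, mul_comm (τ ^ k - 1)]
      have h3 : (max K0 1).factorial ∣ (max K0 1 + k).factorial :=
        Nat.factorial_dvd_factorial (by omega)
      have h4 : k ∣ (max K0 1 + k).factorial := Nat.dvd_factorial (by omega) (by omega)
      refine mul_dvd_mul (pow_dvd_pow_of_dvd (dv _ _ h3) _) ((dv k _ h4).trans ?_)
      exact dvd_pow_self _ (by omega)
    obtain ⟨c, hc⟩ := h2
    rw [hc, mul_comm, mul_smul, mul_smul, hv, smul_zero]
  rw [← hK0 _ (by omega), hK0 (max K0 1) (le_max_left _ _)] at h1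
  exact (Submodule.mem_torsionBy_iff _ _).mp h1

/-- an abelian normal subgroup `M` which is the commutator subgroup -/
structure AN (Q M : Type) [Group Q] [CommGroup M] where
  inc : M →* Q
  hinc : Injective inc
  act : Q →* MulAut M
  hact : ∀ q m, inc (act q m) = q * inc m * q⁻¹
  hrange : inc.range = commutator Q

namespace AN

variable {Q M : Type} [Group Q] [CommGroup M] (C : AN Q M)

theorem act_inc (m : M) : C.act (C.inc m) = 1 := by
  ext d
  apply C.hinc
  rw [C.hact, ← map_inv, ← map_mul, ← map_mul, MulAut.one_apply, mul_comm m, mul_assoc,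
    mul_inv_cancel, mul_one]

theorem mem_com (a b : Q) : ∃ m, C.inc m = a * b * a⁻¹ * b⁻¹ := by
  have h : a * b * a⁻¹ * b⁻¹ ∈ C.inc.range := by
    rw [C.hrange]
    exact Subgroup.commutator_mem_commutator (Subgroup.mem_top a) (Subgroup.mem_top b)
  exact h

theorem act_comm (a b : Q) : C.act a * C.act b = C.act b * C.act a := by
  obtain ⟨m, hm⟩ := C.mem_com a b
  have h := C.act_inc m
  rw [hm] at h
  simp only [map_mul, map_inv] at h
  rw [mul_inv_eq_one, mul_inv_eq_iff_eq_mul] at h
  exact h

/-- the action on the additive group -/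
noncomputable def rho : Q →* AddMonoid.End (Additive M) where
  toFun q := MonoidHom.toAdditive (C.act q).toMonoidHom
  map_one' := by
    rw [map_one]
    rfl
  map_mul' := by
    intro a b
    rw [map_mul]
    rfl

theorem rho_apply (q : Q) (v : Additive M) :
    C.rho q v = Additive.ofMul (C.act q (Additive.toMul v)) := rfl

/-- the action of the abelianization -/
noncomputable def rhoA : Abelianization Q →* AddMonoid.End (Additive M) :=
  QuotientGroup.lift (commutator Q) C.rho (by
    intro x hx
    rw [← C.hrange] at hx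
    obtain ⟨m, rfl⟩ := hx
    ext v
    rw [rho_apply, act_inc]
    rfl)

/-- the group ring acts -/
noncomputable def phi : MonoidAlgebra ℤ (Abelianization Q) →+* AddMonoid.End (Additive M) :=
  (MonoidAlgebra.lift ℤ (AddMonoid.End (Additive M)) (Abelianization Q) C.rhoA).toRingHom

/-- the module -/
@[reducible] noncomputable def mod :
    Module (MonoidAlgebra ℤ (Abelianization Q)) (Additive M) :=
  Module.compHom (Additive M) C.phi

/-- the class of an element in the group ring -/
noncomputable def tau : Q →* MonoidAlgebra ℤ (Abelianization Q) :=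
  (MonoidAlgebra.of ℤ (Abelianization Q)).comp Abelianization.of

theorem phi_tau (q : Q) (v : Additive M) :
    C.phi (tau q) v = Additive.ofMul (C.act q (Additive.toMul v)) := by
  have h : C.phi (tau q) = C.rho q := by
    change MonoidAlgebra.lift ℤ (AddMonoid.End (Additive M)) (Abelianization Q) C.rhoA
      (MonoidAlgebra.of ℤ (Abelianization Q) (Abelianization.of q)) = C.rho q
    rw [MonoidAlgebra.lift_of]
    rfl
  rw [h, rho_apply]

/-- the submodule as a subgroup of `Q` -/
def LL (N : @Submodule (MonoidAlgebra ℤ (Abelianization Q)) (Additive M) _ _ C.mod) :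
    Subgroup Q where
  carrier := {q | ∃ v ∈ N, C.inc (Additive.toMul v) = q}
  one_mem' := ⟨0, @Submodule.zero_mem _ _ _ _ C.mod N, by simp⟩
  mul_mem' := by
    rintro _ _ ⟨v, hv, rfl⟩ ⟨w, hw, rfl⟩
    exact ⟨v + w, @Submodule.add_mem _ _ _ _ C.mod N _ _ hv hw, by simp⟩
  inv_mem' := by
    letI := C.mod
    rintro _ ⟨v, hv, rfl⟩
    exact ⟨-v, N.neg_mem hv, by simp⟩

theorem mem_LL {N : @Submodule (MonoidAlgebra ℤ (Abelianization Q)) (Additive M) _ _ C.mod}
    {q : Q} : q ∈ C.LL N ↔ ∃ v ∈ N, C.inc (Additive.toMul v) = q := Iff.rfl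

theorem mem_LL_inc {N : @Submodule (MonoidAlgebra ℤ (Abelianization Q)) (Additive M) _ _ C.mod}
    {m : M} : C.inc m ∈ C.LL N ↔ Additive.ofMul m ∈ N := by
  rw [mem_LL]
  constructor
  · rintro ⟨v, hv, h⟩
    rw [← C.hinc h]
    exact hv
  · intro h
    exact ⟨_, h, rfl⟩

instance (N : @Submodule (MonoidAlgebra ℤ (Abelianization Q)) (Additive M) _ _ C.mod) :
    (C.LL N).Normal where
  conj_mem := by
    letI := C.mod
    rintro _ ⟨v, hv, rfl⟩ g
    refine ⟨tau g • v, N.smul_mem _ hv, ?_⟩
    change C.inc (Additive.toMul (C.phi (tau g) v)) = _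
    rw [phi_tau, toMul_ofMul, C.hact]

/-- finite generation of the commutator subgroup as a module -/
theorem noeth [Group.FG Q] :
    @IsNoetherian (MonoidAlgebra ℤ (Abelianization Q)) (Additive M) _ _ C.mod := by
  letI := C.mod
  have : Group.FG (Abelianization Q) :=
    Group.fg_of_surjective (f := Abelianization.of) (QuotientGroup.mk'_surjective _)
  have : Monoid.FG (Abelianization Q) := Group.fg_iff_monoid_fg.mp this
  have : IsNoetherianRing (MonoidAlgebra ℤ (Abelianization Q)) :=
    Algebra.FiniteType.isNoetherianRing ℤ _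
  obtain ⟨S, hS⟩ := (Group.fg_def.mp ‹Group.FG Q›)
  choose m hm using fun p : S × S => C.mem_com p.1 p.2
  set N : Submodule (MonoidAlgebra ℤ (Abelianization Q)) (Additive M) :=
    Submodule.span _ (Set.range fun p => Additive.ofMul (m p)) with hN
  have htop : N = ⊤ := by
    rw [Submodule.eq_top_iff']
    intro v
    have h1 : commutator Q ≤ C.LL N := by
      have h2 : ∀ x y : Q ⧸ C.LL N, x * y = y * x := by
        have h3 : IsMulCommutative (Subgroup.closure
            (QuotientGroup.mk' (C.LL N) '' (S : Set Q))) := by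
          apply Subgroup.isMulCommutative_closure
          rintro _ ⟨a, ha, rfl⟩ _ ⟨b, hb, rfl⟩
          rw [← mul_inv_eq_one, mul_inv_rev, ← map_inv, ← map_inv, ← map_mul, ← map_mul,
            ← map_mul, QuotientGroup.mk'_apply, QuotientGroup.eq_one_iff]
          have h4 := hm (⟨a, ha⟩, ⟨b, hb⟩)
          rw [← mul_assoc, ← h4, mem_LL_inc]
          exact Submodule.subset_span ⟨_, rfl⟩
        rw [← MonoidHom.map_closure, hS, ← MonoidHom.range_eq_map,
          MonoidHom.range_eq_top.mpr (QuotientGroup.mk'_surjective _)] at h3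
        intro x y
        have h5 := h3.is_comm.comm ⟨x, Subgroup.mem_top x⟩ ⟨y, Subgroup.mem_top y⟩
        exact congrArg Subtype.val h5
      rw [commutator_def, Subgroup.commutator_le]
      intro a _ b _
      rw [← QuotientGroup.eq_one_iff, commutatorElement_def]
      rw [QuotientGroup.mk_mul, QuotientGroup.mk_mul, QuotientGroup.mk_mul, QuotientGroup.mk_inv,
        QuotientGroup.mk_inv, h2 (a : Q ⧸ C.LL N)]
      group
    rw [← C.hrange] at h1
    have h2 := h1 ⟨Additive.toMul v, rfl⟩
    rwa [mem_LL_inc] at h2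
  have : Module.Finite (MonoidAlgebra ℤ (Abelianization Q)) (Additive M) := by
    refine ⟨?_⟩
    rw [← htop]
    exact Submodule.fg_span (Set.finite_range _)
  exact isNoetherian_of_isNoetherianRing_of_finite _ _

end AN

end Pool.Agent.Work.MP_66343f_al
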