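import Pool.Agent.Work.MP_66343f_al.Metab

/-!
# MP_66343f_al: metabelian groups which are not virtually nilpotent, the data
-/

set_option autoImplicit false

namespace Pool.Agent.Work.MP_66343f_al

open Function

namespace AN

variable {Q M : Type} [Group Q] [CommGroup M] (C : AN Q M)

/-- multiples of `c` as a subgroup -/
def D0 (c : MonoidAlgebra ℤ (Abelianization Q)) : Subgroup M where
  carrier := {m | ∃ v, C.phi c v = Additive.ofMul m}
  one_mem' := ⟨0, by simp⟩
  mul_mem' := by
    rintro m n ⟨v, hv⟩ ⟨w, hw⟩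
    exact ⟨v + w, by rw [map_add, hv, hw]; rfl⟩
  inv_mem' := by
    rintro m ⟨v, hv⟩
    exact ⟨-v, by rw [map_neg, hv]; rfl⟩

theorem mem_D0 {c : MonoidAlgebra ℤ (Abelianization Q)} {m : M} :
    m ∈ C.D0 c ↔ ∃ v, C.phi c v = Additive.ofMul m := Iff.rfl

theorem act_D0 {c : MonoidAlgebra ℤ (Abelianization Q)} (q : Q) {m : M} (h : m ∈ C.D0 c) :
    C.act q m ∈ C.D0 c := by
  obtain ⟨v, hv⟩ := h
  refine ⟨C.phi (tau q) v, ?_⟩
  have h1 : C.phi c (C.phi (tau q) v) = C.phi (tau q) (C.phi c v) := by
    have h2 : C.phi (c * tau q) v = C.phi (tau q * c) v := by rw [mul_comm]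
    rw [map_mul, map_mul] at h2
    exact h2
  rw [h1, hv, phi_tau, toMul_ofMul]

/-- the action on `D0` -/
def actD (c : MonoidAlgebra ℤ (Abelianization Q)) : Q →* MulAut (C.D0 c) where
  toFun q :=
    { toFun := fun d => ⟨C.act q d, C.act_D0 q d.2⟩
      invFun := fun d => ⟨C.act q⁻¹ d, C.act_D0 q⁻¹ d.2⟩
      left_inv := by
        intro d
        apply Subtype.ext
        simp
      right_inv := by
        intro d
        apply Subtype.ext
        simp
      map_mul' := by
        intro d d'
        apply Subtype.ext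
        simp }
  map_one' := by
    ext d
    simp
  map_mul' := by
    intro a b
    ext d
    simp

theorem actD_coe {c : MonoidAlgebra ℤ (Abelianization Q)} (q : Q) (d : C.D0 c) :
    (C.actD c q d : M) = C.act q d := rfl

/-- the data if some power of a translation does not act unipotently -/
theorem exists_dat {G : Type} [Group G] (f : G →* Q) (hf : Surjective f) (z : G) (K : ℕ)
    (hK : ∀ k ≥ 1, ∀ v, C.phi (tau (f z) ^ k - 1)
      (C.phi ((tau (f z) ^ K.factorial - 1) ^ K) v) = 0 →
      C.phi ((tau (f z) ^ K.factorial - 1) ^ K) v = 0)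
    (v : Additive M) (hv : C.phi ((tau (f z) ^ K.factorial - 1) ^ K) v ≠ 0) :
    ∃ (D : Type) (_ : CommGroup D), Nonempty (Dat G Q D) := by
  set c := (tau (f z) ^ K.factorial - 1) ^ K with hc
  obtain ⟨x, hx⟩ := hf (C.inc (Additive.toMul (C.phi c v)))
  refine ⟨C.D0 c, inferInstance, ⟨?_⟩⟩
  exact
    { f := f
      inc := C.inc.comp (C.D0 c).subtype
      hinc := C.hinc.comp Subtype.coe_injective
      act := (C.actD c).comp f
      hact := by
        intro h d
        rw [MonoidHom.comp_apply, MonoidHom.comp_apply, MonoidHom.comp_apply, Subgroup.subtype_apply,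
          Subgroup.subtype_apply, actD_coe, C.hact]
      z := z
      x := x
      x0 := ⟨Additive.toMul (C.phi c v), v, rfl⟩
      hx := by
        rw [hx]
        rfl
      hx0 := by
        intro h
        apply hv
        have h1 := congrArg Subtype.val h
        exact h1
      hcomm := by
        intro h
        ext d
        simp only [MulAut.mul_apply, MonoidHom.comp_apply, actD_coe]
        rw [← MulAut.mul_apply, ← MulAut.mul_apply, C.act_comm]
      hfix := by
        intro k hk d hd
        obtain ⟨d, w, hw⟩ := d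
        rw [← map_pow] at hd
        have h1 : C.act (f z ^ k) d = d := by
          have := congrArg Subtype.val hd
          rw [MonoidHom.comp_apply, actD_coe, map_pow] at this
          exact this
        have h2 := hK k hk w (by
          rw [hw, map_sub, map_one, ← map_pow]
          change C.phi (tau (f z ^ k)) (Additive.ofMul d) - Additive.ofMul d = 0
          rw [phi_tau, toMul_ofMul, h1]
          exact sub_self _)
        apply Subtype.ext
        rw [hw] at h2
        exact h2 }

/-- the elements which act trivially modulo the ideal -/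
noncomputable def PP (N : Ideal (MonoidAlgebra ℤ (Abelianization Q))) : Subgroup Q :=
  MonoidHom.ker ((Ideal.Quotient.mk N).toMonoidHom.comp tau)

theorem mem_PP {N : Ideal (MonoidAlgebra ℤ (Abelianization Q))} {q : Q} :
    q ∈ PP N ↔ tau q - 1 ∈ N := by
  rw [PP, MonoidHom.mem_ker, MonoidHom.comp_apply, ← Ideal.Quotient.eq, map_one]
  rfl

instance (N : Ideal (MonoidAlgebra ℤ (Abelianization Q))) : (PP N).Normal := by
  unfold PP
  infer_instance

theorem PP_finiteIndex (N : Ideal (MonoidAlgebra ℤ (Abelianization Q))) (S : Finset Q)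
    (hS : Subgroup.closure (S : Set Q) = ⊤) (e : ℕ) (he : 0 < e) (h : ∀ s ∈ S, s ^ e ∈ PP N) :
    (PP N).FiniteIndex := by
  have hc : ∀ x y : Q ⧸ PP N, x * y = y * x := by
    intro x y
    obtain ⟨a, rfl⟩ := QuotientGroup.mk'_surjective _ x
    obtain ⟨b, rfl⟩ := QuotientGroup.mk'_surjective _ y
    rw [← mul_inv_eq_one, mul_inv_rev, ← map_inv, ← map_inv, ← map_mul, ← map_mul,
      ← map_mul, QuotientGroup.mk'_apply, QuotientGroup.eq_one_iff, PP, MonoidHom.mem_ker,
      MonoidHom.comp_apply]
    have h1 : tau (a * b * (a⁻¹ * b⁻¹)) = 1 := by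
      have h2 : (Abelianization.of (a * b * (a⁻¹ * b⁻¹)) : Abelianization Q) = 1 := by
        rw [map_mul, map_mul, map_mul, map_inv, map_inv, ← mul_inv_rev,
          mul_comm (Abelianization.of b), mul_inv_cancel]
      rw [tau, MonoidHom.comp_apply, h2, map_one]
    rw [h1, map_one]
  letI : CommGroup (Q ⧸ PP N) := { (inferInstance : Group (Q ⧸ PP N)) with mul_comm := hc }
  have hfg : Group.FG Q := Group.fg_def.mpr ⟨S, hS⟩
  have hfg2 : Group.FG (Q ⧸ PP N) := Group.fg_of_surjective (QuotientGroup.mk'_surjective (PP N))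
  have htor : IsMulTorsion (Q ⧸ PP N) := by
    intro x
    rw [isOfFinOrder_iff_pow_eq_one]
    refine ⟨e, he, ?_⟩
    have h2 : (⊤ : Subgroup Q) ≤ (MonoidHom.ker (powMonoidHom e : (Q ⧸ PP N) →* _)).comap
        (QuotientGroup.mk' (PP N)) := by
      rw [← hS, Subgroup.closure_le]
      intro s hs
      change powMonoidHom e (QuotientGroup.mk' (PP N) s) = 1
      rw [powMonoidHom_apply, ← map_pow, QuotientGroup.mk'_apply, QuotientGroup.eq_one_iff]
      exact h s hs
    obtain ⟨a, rfl⟩ := QuotientGroup.mk'_surjective _ x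
    exact h2 (Subgroup.mem_top a)
  have := CommGroup.finite_of_fg_isMulTorsion (Q ⧸ PP N) htor
  exact Subgroup.finiteIndex_of_finite_quotient

theorem PP_nilpotent (N : Ideal (MonoidAlgebra ℤ (Abelianization Q))) (n : ℕ)
    (hn : ∀ c ∈ N ^ n, ∀ v, C.phi c v = 0) : Group.IsNilpotent (PP N) := by
  letI := C.mod
  rw [nilpotent_iff_finite_descending_central_series]
  refine ⟨n + 1, fun k => Nat.casesOn k ⊤ fun k => (C.LL (N ^ k • ⊤)).subgroupOf (PP N),
    ⟨rfl, ?_⟩, ?_⟩
  · intro x k hx g
    rcases k with _ | k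
    · change x * g * x⁻¹ * g⁻¹ ∈ (C.LL (N ^ 0 • ⊤)).subgroupOf (PP N)
      rw [Subgroup.mem_subgroupOf]
      obtain ⟨m, hm⟩ := C.mem_com x g
      have h1 : ((x * g * x⁻¹ * g⁻¹ : PP N) : Q) = C.inc m := by
        rw [hm]
        rfl
      rw [h1, mem_LL_inc, pow_zero, Ideal.one_eq_top, Submodule.top_smul]
      exact Submodule.mem_top
    · change x * g * x⁻¹ * g⁻¹ ∈ (C.LL (N ^ (k + 1) • ⊤)).subgroupOf (PP N)
      change x ∈ (C.LL (N ^ k • ⊤)).subgroupOf (PP N) at hx
      rw [Subgroup.mem_subgroupOf, mem_LL] at hx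
      rw [Subgroup.mem_subgroupOf]
      obtain ⟨v, hv, hvx⟩ := hx
      have h1 : ((x * g * x⁻¹ * g⁻¹ : PP N) : Q) =
          C.inc (Additive.toMul (-((tau (g : Q) - 1) • v))) := by
        rw [sub_smul, one_smul, neg_sub]
        change (x : Q) * g * (x : Q)⁻¹ * (g : Q)⁻¹ =
          C.inc (Additive.toMul (v - C.phi (tau (g : Q)) v))
        rw [phi_tau, toMul_sub, map_div, toMul_ofMul, C.hact, ← hvx, div_eq_mul_inv]
        group
      rw [h1, mem_LL_inc]
      apply Submodule.neg_mem
      rw [pow_succ', Submodule.mul_smul]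
      exact Submodule.smul_mem_smul (mem_PP.mp g.2) hv
  · change (C.LL (N ^ n • ⊤)).subgroupOf (PP N) = ⊥
    have h1 : (N ^ n • ⊤ : Submodule (MonoidAlgebra ℤ (Abelianization Q)) (Additive M)) = ⊥ := by
      rw [eq_bot_iff, Submodule.smul_le]
      intro c hc v _
      exact hn c hc v
    rw [eq_bot_iff]
    intro x hx
    rw [Subgroup.mem_subgroupOf, h1, mem_LL] at hx
    obtain ⟨v, hv, hx⟩ := hx
    rw [Submodule.mem_bot] at hv
    rw [Subgroup.mem_bot]
    apply Subtype.ext
    rw [← hx, hv]
    simp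

include C in
/-- **the dichotomy** -/
theorem dat_or_vnil {G : Type} [Group G] [Group.FG G] (f : G →* Q) (hf : Surjective f) :
    (∃ (D : Type) (_ : CommGroup D), Nonempty (Dat G Q D)) ∨ VNil Q := by
  classical
  letI := C.mod
  have hfg : Group.FG Q := Group.fg_of_surjective hf
  have hno := C.noeth
  obtain ⟨S, hS⟩ := Group.fg_def.mp ‹Group.FG Q›
  choose K hK1 hK using fun q : Q => stab (V := Additive M) (tau q)
  by_cases hcase : ∃ q ∈ S, ∃ v : Additive M,
      (tau q ^ (K q).factorial - 1) ^ (K q) • v ≠ 0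
  · left
    obtain ⟨q, _, v, hv⟩ := hcase
    obtain ⟨z, rfl⟩ := hf q
    exact C.exists_dat f hf z (K (f z)) (hK (f z)) v hv
  · right
    simp only [not_exists, not_and, not_not] at hcase
    set e : ℕ := ∏ q ∈ S, (K q).factorial with he
    set N : Ideal (MonoidAlgebra ℤ (Abelianization Q)) :=
      Ideal.span ((fun q => tau q ^ e - 1) '' (S : Set Q)) with hN
    have h1 : N ≤ (Module.annihilator (MonoidAlgebra ℤ (Abelianization Q))
        (Additive M)).radical := by
      rw [hN, Ideal.span_le]
      rintro _ ⟨q, hq, rfl⟩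
      refine ⟨K q, ?_⟩
      rw [Module.mem_annihilator]
      intro v
      obtain ⟨c, hc⟩ : (tau q ^ (K q).factorial - 1) ^ (K q) ∣ (tau q ^ e - 1) ^ (K q) := by
        apply pow_dvd_pow_of_dvd
        obtain ⟨b, hb⟩ := Finset.dvd_prod_of_mem (fun q => (K q).factorial) hq
        rw [he, hb, pow_mul]
        exact sub_one_dvd_pow_sub_one _ _
      change (tau q ^ e - 1) ^ (K q) • v = 0
      rw [hc, mul_comm, mul_smul, hcase q hq v, smul_zero]
    obtain ⟨n, hn⟩ := Ideal.exists_pow_le_of_le_radical_of_fg h1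
      (Submodule.fg_span (S.finite_toSet.image _))
    refine ⟨PP N, PP_finiteIndex N S hS e ?_ ?_, C.PP_nilpotent N n ?_⟩
    · exact Finset.prod_pos fun q _ => Nat.factorial_pos _
    · intro s hs
      rw [mem_PP, map_pow]
      exact Ideal.subset_span ⟨s, hs, rfl⟩
    · intro c hc v
      exact (Module.mem_annihilator.mp (hn hc)) v

end AN

/-- a metabelian quotient which is not virtually nilpotent gives the data -/
theorem dat_of_metab {G Q : Type} [Group G] [Group.FG G] [Group Q] (f : G →* Q)
    (hf : Surjective f) (hQ : derivedSeries Q 2 = ⊥) (hn : ¬ VNil Q) :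
    ∃ (D : Type) (_ : CommGroup D), Nonempty (Dat G Q D) := by
  have h1 : ∀ a b : commutator Q, a * b = b * a := by
    have h2 : ⁅commutator Q, commutator Q⁆ = ⊥ := hQ
    rw [Subgroup.commutator_eq_bot_iff_le_centralizer] at h2
    intro a b
    exact Subtype.ext ((h2 b.2) a a.2)
  letI : CommGroup (commutator Q) :=
    { (inferInstance : Group (commutator Q)) with mul_comm := h1 }
  let C : AN Q (commutator Q) :=
    { inc := (commutator Q).subtype
      hinc := Subtype.coe_injective
      act := MulAut.conjNormal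
      hact := fun q m => MulAut.conjNormal_apply q m
      hrange := Subgroup.range_subtype _ }
  exact (C.dat_or_vnil f hf).resolve_right hn

end Pool.Agent.Work.MP_66343f_al
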