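import Mathlib

/-!
# MP_66343f_al: twisted free subgroups of the free product of three copies of a group
-/

set_option autoImplicit false

namespace Pool.Agent.Work.MP_66343f_al

open Monoid.CoprodI

variable {D : Type} [Group D]

/-- the free product of three copies of `D` -/
abbrev FP (D : Type) [Group D] : Type := Monoid.CoprodI (fun _ : Fin 3 => D)

/-- syllables -/
abbrev Syl (D : Type) : Type := (_ : Fin 3) × D

/-- reduced lists of syllables -/
def Red (l : List (Syl D)) : Prop :=
  (∀ s ∈ l, s.2 ≠ 1) ∧ l.IsChain (fun a b => a.1 ≠ b.1)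

/-- the product of a list of syllables -/
def pr (l : List (Syl D)) : FP D := (l.map fun s => (of (i := s.1) s.2 : FP D)).prod

/-- the inverse list -/
def iv (l : List (Syl D)) : List (Syl D) := (l.map fun s => (⟨s.1, s.2⁻¹⟩ : Syl D)).reverse

theorem pr_append (a b : List (Syl D)) : pr (a ++ b) = pr a * pr b := by
  unfold pr
  rw [List.map_append, List.prod_append]

theorem pr_cons (s : Syl D) (a : List (Syl D)) : pr (s :: a) = of (i := s.1) s.2 * pr a := by
  unfold pr
  rw [List.map_cons, List.prod_cons]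

theorem pr_nil : pr ([] : List (Syl D)) = 1 := rfl

theorem pr_iv (l : List (Syl D)) : pr (iv l) = (pr l)⁻¹ := by
  induction l with
  | nil => simp [iv, pr]
  | cons s l ih =>
    have h1 : iv (s :: l) = iv l ++ [⟨s.1, s.2⁻¹⟩] := by simp [iv]
    rw [h1, pr_append, ih, pr_cons, pr_cons, pr_nil, mul_one, mul_inv_rev, map_inv]

theorem red_append {a b : List (Syl D)} (ha : Red a) (hb : Red b)
    (h : ∀ x ∈ a.getLast?, ∀ y ∈ b.head?, x.1 ≠ y.1) : Red (a ++ b) := by
  refine ⟨?_, ?_⟩
  · intro s hs
    rw [List.mem_append] at hs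
    exact hs.elim (ha.1 s) (hb.1 s)
  · rw [List.isChain_append]
    exact ⟨ha.2, hb.2, h⟩

theorem red_iv {l : List (Syl D)} (h : Red l) : Red (iv l) := by
  refine ⟨?_, ?_⟩
  · intro s hs
    unfold iv at hs
    rw [List.mem_reverse, List.mem_map] at hs
    obtain ⟨t, ht, rfl⟩ := hs
    exact inv_ne_one.mpr (h.1 t ht)
  · unfold iv
    rw [List.isChain_reverse, List.isChain_map]
    exact h.2.imp fun a b hab => fun h' => hab h'.symm

theorem exists_red (u : FP D) : ∃ l, Red l ∧ pr l = u := by
  classical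
  refine ⟨(Word.equiv u).toList, ⟨(Word.equiv u).ne_one, (Word.equiv u).chain_ne⟩, ?_⟩
  exact (Word.equiv (M := fun _ : Fin 3 => D)).symm_apply_apply u

theorem red_unique {l l' : List (Syl D)} (h : Red l) (h' : Red l') (he : pr l = pr l') :
    l = l' := by
  classical
  have h1 : (Word.equiv (M := fun _ : Fin 3 => D)).symm ⟨l, h.1, h.2⟩ =
    (Word.equiv (M := fun _ : Fin 3 => D)).symm ⟨l', h'.1, h'.2⟩ := he
  have h2 := (Word.equiv (M := fun _ : Fin 3 => D)).symm.injective h1
  exact congrArg Word.toList h2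

theorem red_cons_tail {s : Syl D} {l : List (Syl D)} (h : Red (s :: l)) : Red l :=
  ⟨fun t ht => h.1 t (List.mem_cons_of_mem _ ht), h.2.tail⟩

/-- cancellation: `Q⁻¹ w` where `Q` is no prefix of `w` starts in the factor of the last syllable
of `Q` -/
theorem cancel (Q : List (Syl D)) : ∀ (w : List (Syl D)) (τ : Syl D), Red Q → Red w →
    Q.getLast? = some τ →
    (∃ w', w = Q ++ w') ∨ ∃ b v, Red (⟨τ.1, b⟩ :: v) ∧ pr (⟨τ.1, b⟩ :: v) = (pr Q)⁻¹ * pr w := by
  induction Q with
  | nil => intro w τ _ _ h; simp at h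
  | cons σ Q ih =>
    intro w τ hQ hw hτ
    have hQ' := red_cons_tail hQ
    -- the inverse of a nonempty list followed by a compatible list
    have comp : ∀ (P v : List (Syl D)), Red P → Red v → P.getLast? = some τ →
        (∀ x ∈ P.head?, ∀ y ∈ v.head?, x.1 ≠ y.1) →
        ∃ b v', Red (⟨τ.1, b⟩ :: v') ∧ pr (⟨τ.1, b⟩ :: v') = (pr P)⁻¹ * pr v := by
      intro P v hP hv hPτ hPv
      have h1 : iv P ≠ [] := by
        intro h0
        have : P = [] := by simpa [iv] using h0
        rw [this] at hPτ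
        simp at hPτ
      have h2 : (iv P).head? = some ⟨τ.1, τ.2⁻¹⟩ := by
        simp [iv, List.head?_reverse, hPτ]
      obtain ⟨y, l', hl'⟩ := List.exists_cons_of_ne_nil h1
      have h3 : y = ⟨τ.1, τ.2⁻¹⟩ := by
        rw [hl'] at h2
        simpa using h2
      subst h3
      refine ⟨τ.2⁻¹, l' ++ v, ?_, ?_⟩
      · rw [← List.cons_append, ← hl']
        refine red_append (red_iv hP) hv ?_
        intro x hx y hy
        have h4 : (iv P).getLast? = (P.head?).map fun s => ⟨s.1, s.2⁻¹⟩ := by
          simp [iv, List.getLast?_reverse]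
        rw [h4, Option.mem_map] at hx
        obtain ⟨x', hx', rfl⟩ := hx
        exact hPv x' hx' y hy
      · rw [← List.cons_append, ← hl', pr_append, pr_iv]
    rcases w with _ | ⟨ρ, w⟩
    · right
      exact comp (σ :: Q) [] hQ hw hτ (by simp)
    · by_cases hi : σ.1 = ρ.1
      · have hw' := red_cons_tail hw
        obtain ⟨i, a⟩ := σ
        obtain ⟨i', a'⟩ := ρ
        obtain rfl : i = i' := hi
        by_cases ha : a = a'
        · subst ha
          rcases Q with _ | ⟨q, Q⟩
          · left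
            exact ⟨w, rfl⟩
          · have h1 := ih w τ hQ' hw' (by rw [← hτ, List.getLast?_cons_cons])
            rcases h1 with ⟨w', rfl⟩ | ⟨b, v, h2, h3⟩
            · left
              exact ⟨w', rfl⟩
            · right
              refine ⟨b, v, h2, ?_⟩
              rw [h3, pr_cons ⟨i, a⟩ (q :: Q), pr_cons ⟨i, a⟩ w]
              group
        · right
          have hm : a⁻¹ * a' ≠ 1 := by
            rw [Ne, inv_mul_eq_one]
            exact ha
          have hred : Red ((⟨i, a⁻¹ * a'⟩ : Syl D) :: w) := by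
            refine ⟨?_, ?_⟩
            · intro s hs
              rw [List.mem_cons] at hs
              rcases hs with rfl | hs
              · exact hm
              · exact hw'.1 s hs
            · have h4 := hw.2
              rw [List.isChain_cons] at h4 ⊢
              exact h4
          rcases Q with _ | ⟨q, Q⟩
          · have h5 : τ = ⟨i, a⟩ := by simpa using hτ.symm
            subst h5
            refine ⟨a⁻¹ * a', w, hred, ?_⟩
            rw [pr_cons, pr_cons, pr_cons, pr_nil]
            simp only [map_mul, map_inv, mul_one]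
            group
          · obtain ⟨b, v, h6, h7⟩ := comp (q :: Q) (⟨i, a⁻¹ * a'⟩ :: w) hQ' hred
              (by rw [← hτ, List.getLast?_cons_cons]) (by
                intro x hx y hy
                have hx' : x = q := by simpa using hx.symm
                have hy' : y = ⟨i, a⁻¹ * a'⟩ := by simpa using hy.symm
                subst hx' hy'
                have h8 := hQ.2
                rw [List.isChain_cons_cons] at h8
                exact h8.1.symm)
            refine ⟨b, v, h6, ?_⟩
            rw [h7, pr_cons ⟨i, a⟩ (q :: Q), pr_cons ⟨i, a'⟩ w, pr_cons ⟨i, a⁻¹ * a'⟩ w]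
            simp only [map_mul, map_inv]
            group
      · right
        exact comp (σ :: Q) (ρ :: w) hQ hw hτ (by
          intro x hx y hy
          have hx' : x = σ := by simpa using hx.symm
          have hy' : y = ρ := by simpa using hy.symm
          subst hx' hy'
          exact hi)

/-- conjugates `Q K Q⁻¹` -/
theorem conj_start {Q K : List (Syl D)} {s e : Fin 3} {a b c : D} (hQ : Red Q) (hK : Red K)
    (hQ1 : Q.getLast? = some ⟨1, a⟩) (hK1 : K.getLast? = some ⟨e, b⟩)
    (hK2 : K.head? = some ⟨s, c⟩) (hs : s ≠ 1) (he : e ≠ 1) {w : List (Syl D)} (hw : Red w)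
    (h : ¬ (Q.map Sigma.fst ++ [e]) <+: w.map Sigma.fst) :
    ∃ w', Red w' ∧ pr w' = pr Q * pr K * (pr Q)⁻¹ * pr w ∧
      (Q.map Sigma.fst ++ [s]) <+: w'.map Sigma.fst := by
  have fin : ∀ v : List (Syl D), Red v → pr v = (pr Q)⁻¹ * pr w →
      (∀ y ∈ v.head?, e ≠ y.1) → ∃ w', Red w' ∧ pr w' = pr Q * pr K * (pr Q)⁻¹ * pr w ∧
      (Q.map Sigma.fst ++ [s]) <+: w'.map Sigma.fst := by
    intro v hv hpv hev
    have h1 : Red (K ++ v) := by
      refine red_append hK hv ?_
      intro x hx y hy
      rw [hK1] at hx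
      have : x = ⟨e, b⟩ := by simpa using hx.symm
      subst this
      exact hev y hy
    obtain ⟨k, K', rfl⟩ : ∃ k K', K = k :: K' := by
      rcases K with _ | ⟨k, K'⟩
      · simp at hK1
      · exact ⟨k, K', rfl⟩
    have hk : k = ⟨s, c⟩ := by simpa using hK2
    subst hk
    refine ⟨Q ++ (⟨s, c⟩ :: K' ++ v), ?_, ?_, ?_⟩
    · refine red_append hQ h1 ?_
      intro x hx y hy
      rw [hQ1] at hx
      have h2 : x = ⟨1, a⟩ := by simpa using hx.symm
      have h3 : y = ⟨s, c⟩ := by simpa using hy.symm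
      subst h2 h3
      exact hs.symm
    · rw [pr_append, pr_append, hpv]
      group
    · refine ⟨(K' ++ v).map Sigma.fst, ?_⟩
      simp
  rcases cancel Q w ⟨1, a⟩ hQ hw hQ1 with ⟨w', rfl⟩ | ⟨b', v, h1, h2⟩
  · refine fin w' ?_ ?_ ?_
    · refine ⟨fun t ht => hw.1 t (List.mem_append_right _ ht), ?_⟩
      have := hw.2
      rw [List.isChain_append] at this
      exact this.2.1
    · rw [pr_append]
      group
    · intro y hy hey
      apply h
      obtain ⟨l, rfl⟩ : ∃ l, w' = y :: l := by
        rcases w' with _ | ⟨y', l⟩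
        · simp at hy
        · have : y' = y := by simpa using hy
          subst this
          exact ⟨l, rfl⟩
      refine ⟨l.map Sigma.fst, ?_⟩
      simp [hey]
  · refine fin _ h1 h2 ?_
    intro y hy
    have : y = ⟨1, b'⟩ := by simpa using hy.symm
    subst this
    exact he

/-! ### The action of the automorphisms -/

/-- the automorphism of the free product given by an automorphism of the factors -/
def autL : MulAut D →* MulAut (FP D) where
  toFun α :=
    { toFun := lift fun i => (of (i := i)).comp α.toMonoidHom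
      invFun := lift fun i => (of (i := i)).comp α.symm.toMonoidHom
      left_inv := by
        intro x
        have : (lift fun i => (of (M := fun _ : Fin 3 => D) (i := i)).comp α.symm.toMonoidHom).comp
            (lift fun i => (of (M := fun _ : Fin 3 => D) (i := i)).comp α.toMonoidHom) =
            MonoidHom.id _ := by
          ext i d
          simp
        exact DFunLike.congr_fun this x
      right_inv := by
        intro x
        have : (lift fun i => (of (M := fun _ : Fin 3 => D) (i := i)).comp α.toMonoidHom).comp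
            (lift fun i => (of (M := fun _ : Fin 3 => D) (i := i)).comp α.symm.toMonoidHom) =
            MonoidHom.id _ := by
          ext i d
          simp
        exact DFunLike.congr_fun this x
      map_mul' := fun x y => map_mul _ x y }
  map_one' := by
    ext x
    have : (lift fun i => (of (M := fun _ : Fin 3 => D) (i := i)).comp
        (1 : MulAut D).toMonoidHom) = MonoidHom.id _ := by
      ext i d
      simp
    exact DFunLike.congr_fun this x
  map_mul' := by
    intro α β
    ext x
    have : (lift fun i => (of (M := fun _ : Fin 3 => D) (i := i)).comp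
        (α * β : MulAut D).toMonoidHom) =
        (lift fun i => (of (M := fun _ : Fin 3 => D) (i := i)).comp α.toMonoidHom).comp
          (lift fun i => (of (M := fun _ : Fin 3 => D) (i := i)).comp β.toMonoidHom) := by
      ext i d
      simp
    exact DFunLike.congr_fun this x

theorem autL_of (α : MulAut D) (i : Fin 3) (d : D) :
    autL α (of (M := fun _ : Fin 3 => D) (i := i) d) = of (i := i) (α d) := by
  change (lift fun i => (of (M := fun _ : Fin 3 => D) (i := i)).comp α.toMonoidHom)
    (of (M := fun _ : Fin 3 => D) (i := i) d) = _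
  rw [lift_of]
  rfl

theorem autL_pr (α : MulAut D) (l : List (Syl D)) :
    autL α (pr l) = pr (l.map fun s => (⟨s.1, α s.2⟩ : Syl D)) := by
  induction l with
  | nil => simp [pr]
  | cons s l ih => rw [pr_cons, map_mul, ih, List.map_cons, pr_cons, autL_of]

theorem red_map (α : MulAut D) {l : List (Syl D)} (h : Red l) :
    Red (l.map fun s => (⟨s.1, α s.2⟩ : Syl D)) := by
  refine ⟨?_, ?_⟩
  · intro s hs
    rw [List.mem_map] at hs
    obtain ⟨t, ht, rfl⟩ := hs
    simpa using h.1 t ht
  · rw [List.isChain_map]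
    exact h.2

/-- the elements whose reduced word starts with syllables of the given indices -/
def St (D : Type) [Group D] (P : List (Fin 3)) : Set (FP D) :=
  {u | ∃ w, Red w ∧ pr w = u ∧ P <+: w.map Sigma.fst}

theorem autL_mem_St (α : MulAut D) {P : List (Fin 3)} {u : FP D} (h : u ∈ St D P) :
    autL α u ∈ St D P := by
  obtain ⟨w, h1, rfl, h2⟩ := h
  refine ⟨_, red_map α h1, (autL_pr α w).symm, ?_⟩
  rw [List.map_map]
  exact h2

theorem autL_mem_St_iff (α : MulAut D) {P : List (Fin 3)} {u : FP D} :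
    autL α u ∈ St D P ↔ u ∈ St D P := by
  refine ⟨fun h => ?_, autL_mem_St α⟩
  have h1 := autL_mem_St α⁻¹ h
  rwa [← MulAut.mul_apply, ← map_mul, inv_mul_cancel, map_one, MulAut.one_apply] at h1

/-! ### The elements -/

/-- the generators of the three factors given by `x` -/
def yy (x : D) (i : Fin 3) : FP D := of (M := fun _ : Fin 3 => D) (i := i) x

/-- the prefixes -/
def QQ (x : D) : ℕ → List (Syl D)
  | 0 => [⟨2, x⟩, ⟨1, x⟩]
  | n + 1 => ⟨0, x⟩ :: ⟨1, x⟩ :: QQ x n

/-- the commutator of `j` and its conjugate -/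
def kk (x : D) : List (Syl D) :=
  [⟨0, x⟩, ⟨1, x⁻¹⟩, ⟨2, x⟩, ⟨0, x⟩, ⟨1, x⁻¹⟩, ⟨2, x⁻¹⟩, ⟨1, x⟩, ⟨0, x⁻¹⟩, ⟨2, x⟩, ⟨1, x⟩,
    ⟨0, x⁻¹⟩, ⟨2, x⁻¹⟩]

theorem pr_kk (x : D) : pr (kk x) =
    (yy x 0 * (yy x 1)⁻¹) * (yy x 2 * (yy x 0 * (yy x 1)⁻¹) * (yy x 2)⁻¹) *
      (yy x 0 * (yy x 1)⁻¹)⁻¹ * (yy x 2 * (yy x 0 * (yy x 1)⁻¹) * (yy x 2)⁻¹)⁻¹ := by
  unfold kk yy
  simp only [pr_cons, pr_nil, map_inv]
  group

theorem red_kk {x : D} (hx : x ≠ 1) : Red (kk x) := by
  refine ⟨?_, ?_⟩
  · intro s hs
    simp only [kk, List.mem_cons, List.not_mem_nil, or_false] at hs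
    rcases hs with rfl | rfl | rfl | rfl | rfl | rfl | rfl | rfl | rfl | rfl | rfl | rfl <;>
      simp [hx]
  · simp [kk]

theorem QQ_head (x : D) (n : ℕ) : ∃ s l, QQ x n = s :: l ∧ s.1 ≠ 1 := by
  rcases n with _ | n
  · exact ⟨_, _, rfl, (by decide : (2 : Fin 3) ≠ 1)⟩
  · exact ⟨_, _, rfl, (by decide : (0 : Fin 3) ≠ 1)⟩

theorem red_QQ {x : D} (hx : x ≠ 1) (n : ℕ) : Red (QQ x n) := by
  induction n with
  | zero =>
    refine ⟨?_, by simp [QQ]⟩
    intro s hs
    simp only [QQ, List.mem_cons, List.not_mem_nil, or_false] at hs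
    rcases hs with rfl | rfl <;> exact hx
  | succ n ih =>
    refine ⟨?_, ?_⟩
    · intro s hs
      simp only [QQ, List.mem_cons] at hs
      rcases hs with rfl | rfl | hs
      · exact hx
      · exact hx
      · exact ih.1 s hs
    · obtain ⟨s, l, h1, h2⟩ := QQ_head x n
      have h3 := ih.2
      simp only [QQ]
      rw [List.isChain_cons_cons]
      refine ⟨(by decide : (0 : Fin 3) ≠ 1), ?_⟩
      rw [h1] at h3 ⊢
      rw [List.isChain_cons_cons]
      exact ⟨h2.symm, h3⟩

theorem QQ_last (x : D) (n : ℕ) : (QQ x n).getLast? = some ⟨1, x⟩ := by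
  induction n with
  | zero => rfl
  | succ n ih =>
    obtain ⟨s, l, h1, _⟩ := QQ_head x n
    simp only [QQ]
    rw [h1] at ih ⊢
    rw [List.getLast?_cons_cons, List.getLast?_cons_cons, ih]

/-- the index lists form a prefix code -/
theorem code (x : D) : ∀ (m n : ℕ) (s t : Fin 3) (v : List (Fin 3)),
    ((QQ x m).map Sigma.fst ++ [s]) <+: v → ((QQ x n).map Sigma.fst ++ [t]) <+: v →
    m = n ∧ s = t := by
  intro m
  induction m with
  | zero =>
    intro n s t v h1 h2
    rcases n with _ | n
    · simp only [QQ, List.map_cons, List.map_nil, List.cons_append, List.nil_append] at h1 h2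
      obtain ⟨v1, rfl⟩ := h1
      obtain ⟨v2, h3⟩ := h2
      simp only [List.cons_append, List.nil_append, List.cons.injEq, true_and] at h3
      exact ⟨rfl, h3.1.symm⟩
    · exfalso
      simp only [QQ, List.map_cons, List.map_nil, List.cons_append, List.nil_append] at h1 h2
      obtain ⟨v1, rfl⟩ := h1
      obtain ⟨v2, h3⟩ := h2
      simp only [List.cons_append, List.cons.injEq] at h3
      exact absurd h3.1 (by decide)
  | succ m ih =>
    intro n s t v h1 h2
    rcases n with _ | n
    · exfalso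
      simp only [QQ, List.map_cons, List.map_nil, List.cons_append, List.nil_append] at h1 h2
      obtain ⟨v1, rfl⟩ := h1
      obtain ⟨v2, h3⟩ := h2
      simp only [List.cons_append, List.cons.injEq] at h3
      exact absurd h3.1 (by decide)
    · simp only [QQ, List.map_cons, List.cons_append] at h1 h2
      obtain ⟨v1, rfl⟩ := h1
      obtain ⟨v2, h3⟩ := h2
      simp only [List.cons_append, List.cons.injEq, true_and] at h3
      obtain ⟨h4, h5⟩ := ih n s t _ ⟨v1, rfl⟩ ⟨v2, h3⟩
      exact ⟨by rw [h4], h5⟩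

/-- the elements `c n` -/
def cc (x : D) (n : ℕ) : FP D := pr (QQ x n) * pr (kk x) * (pr (QQ x n))⁻¹

theorem cc_ping {x : D} (hx : x ≠ 1) (n : ℕ) {u : FP D}
    (hu : u ∉ St D ((QQ x n).map Sigma.fst ++ [2])) :
    cc x n * u ∈ St D ((QQ x n).map Sigma.fst ++ [0]) := by
  obtain ⟨w, hw, rfl⟩ := exists_red u
  obtain ⟨w', h1, h2, h3⟩ := conj_start (s := 0) (e := 2) (red_QQ hx n) (red_kk hx)
    (QQ_last x n) (b := x⁻¹) (c := x) (by simp [kk]) (by simp [kk]) (by decide) (by decide) hw
    (fun h => hu ⟨w, hw, rfl, h⟩)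
  exact ⟨w', h1, by rw [h2, cc], h3⟩

theorem cc_pong {x : D} (hx : x ≠ 1) (n : ℕ) {u : FP D}
    (hu : u ∉ St D ((QQ x n).map Sigma.fst ++ [0])) :
    (cc x n)⁻¹ * u ∈ St D ((QQ x n).map Sigma.fst ++ [2]) := by
  obtain ⟨w, hw, rfl⟩ := exists_red u
  obtain ⟨w', h1, h2, h3⟩ := conj_start (s := 2) (e := 0) (red_QQ hx n) (red_iv (red_kk hx))
    (QQ_last x n) (b := x⁻¹) (c := x) (by simp [kk, iv]) (by simp [kk, iv]) (by decide)
    (by decide) hw (fun h => hu ⟨w, hw, rfl, h⟩)
  refine ⟨w', h1, ?_, h3⟩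
  rw [h2, cc, pr_iv]
  group

/-- twisted freeness -/
theorem twisted {x : D} (hx : x ≠ 1) {E : Type} [Nontrivial E] (n : E → ℕ)
    (hn : Function.Injective n) (α : E → MulAut D) :
    Function.Injective (FreeGroup.lift fun e : E =>
      ((MulAut.toPerm (FP D) (autL (α e))) * Equiv.mulLeft (cc x (n e)) : Equiv.Perm (FP D))) := by
  have hdis : ∀ (m m' : ℕ) (a b : Fin 3), (m ≠ m' ∨ a ≠ b) →
      Disjoint (St D ((QQ x m).map Sigma.fst ++ [a])) (St D ((QQ x m').map Sigma.fst ++ [b])) := by
    intro m m' a b h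
    rw [Set.disjoint_left]
    rintro u ⟨w, hw, hwu, h1⟩ ⟨w', hw', hwu', h2⟩
    obtain rfl := red_unique hw hw' (hwu.trans hwu'.symm)
    obtain ⟨h3, h4⟩ := code x m m' a b _ h1 h2
    exact h.elim (fun h => h h3) (fun h => h h4)
  refine FreeGroup.injective_lift_of_ping_pong (α := FP D) _
    (fun e => St D ((QQ x (n e)).map Sigma.fst ++ [0]))
    (fun e => St D ((QQ x (n e)).map Sigma.fst ++ [2])) ?_ ?_ ?_ ?_ ?_ ?_
  · intro e
    refine ⟨cc x (n e) * 1, cc_ping hx (n e) ?_⟩
    rintro ⟨w, hw, hw1, h2⟩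
    obtain rfl := red_unique hw (l' := []) ⟨by simp, by simp⟩ (hw1.trans pr_nil.symm)
    rw [List.map_nil, List.prefix_nil] at h2
    simp at h2
  · intro e e' h
    exact hdis _ _ _ _ (Or.inl fun h' => h (hn h'))
  · intro e e' h
    exact hdis _ _ _ _ (Or.inl fun h' => h (hn h'))
  · intro e e'
    exact hdis _ _ _ _ (Or.inr (by decide))
  · intro e
    rintro _ ⟨u, hu, rfl⟩
    exact autL_mem_St (α e) (cc_ping hx (n e) hu)
  · intro e
    rintro _ ⟨u, hu, rfl⟩
    have h1 : ((MulAut.toPerm (FP D) (autL (α e))) * Equiv.mulLeft (cc x (n e)) :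
        Equiv.Perm (FP D))⁻¹ u = (cc x (n e))⁻¹ * (autL (α e)⁻¹ u) := by
      rw [Equiv.Perm.inv_eq_iff_eq]
      change u = autL (α e) (cc x (n e) * ((cc x (n e))⁻¹ * (autL (α e)⁻¹ u)))
      rw [mul_inv_cancel_left, ← MulAut.mul_apply, ← map_mul, mul_inv_cancel, map_one,
        MulAut.one_apply]
    change ((MulAut.toPerm (FP D) (autL (α e))) * Equiv.mulLeft (cc x (n e)) :
        Equiv.Perm (FP D))⁻¹ u ∈ _
    rw [h1]
    refine cc_pong hx (n e) fun h => hu ?_
    exact (autL_mem_St_iff (α e)⁻¹).1 h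

end Pool.Agent.Work.MP_66343f_al
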