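import Pool.Agent.Work.MP_66343f_al.VN
import Pool.Agent.Work.MP_66343f_al.Dat5
import Pool.Agent.Work.MP_66343f_al.Main1

/-!
# MP_66343f_al: from just non virtually nilpotent groups to twisted data
-/

set_option autoImplicit false

namespace Pool.Agent.Work.MP_66343f_al

open Function

theorem chain_sSup {Q : Type} [Group Q] (c : Set (Subgroup Q)) (hne : c.Nonempty)
    (hc : IsChain (· ≤ ·) c) (hn : ∀ N ∈ c, N.Normal)
    (h : (sSup c).Normal → (sSup c).IsFinitelyNormallyGenerated) : sSup c ∈ c := by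
  have hnorm : (sSup c).Normal := by
    refine ⟨?_⟩
    intro n hn' g
    rw [Subgroup.mem_sSup_of_directedOn hne hc.directedOn] at hn' ⊢
    obtain ⟨s, hs, hns⟩ := hn'
    exact ⟨s, hs, (hn s hs).conj_mem n hns g⟩
  obtain ⟨T, hT, hTc⟩ := h hnorm
  have h1 : ∀ s ⊆ T, s.Finite → ∃ N ∈ c, s ⊆ (N : Set Q) := by
    intro s hs hsf
    induction s, hsf using Set.Finite.induction_on with
    | empty =>
      obtain ⟨N, hN⟩ := hne
      exact ⟨N, hN, Set.empty_subset _⟩
    | @insert a s _ _ ih =>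
      obtain ⟨N, hN, hsN⟩ := ih ((Set.subset_insert _ _).trans hs)
      have h2 : a ∈ sSup c := by
        rw [← hTc]
        exact Subgroup.subset_normalClosure (hs (Set.mem_insert _ _))
      rw [Subgroup.mem_sSup_of_directedOn hne hc.directedOn] at h2
      obtain ⟨M, hM, haM⟩ := h2
      rcases hc.total hN hM with h3 | h3
      · refine ⟨M, hM, ?_⟩
        rw [Set.insert_subset_iff]
        exact ⟨haM, hsN.trans h3⟩
      · refine ⟨N, hN, ?_⟩
        rw [Set.insert_subset_iff]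
        exact ⟨h3 haM, hsN⟩
  obtain ⟨N, hN, hTN⟩ := h1 T subset_rfl hT
  have := hn N hN
  have h2 : sSup c ≤ N := by
    rw [← hTc]
    exact Subgroup.normalClosure_le_normal hTN
  have h3 : sSup c = N := le_antisymm h2 (le_sSup hN)
  rw [h3]
  exact hN

/-- the maximal condition on normal subgroups -/
theorem exists_max {Q : Type} [Group Q] (F : Set (Subgroup Q)) (hF : F.Nonempty)
    (hn : ∀ N ∈ F, N.Normal)
    (h : ∀ N : Subgroup Q, N.Normal → N.IsFinitelyNormallyGenerated) :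
    ∃ m, Maximal (· ∈ F) m := by
  obtain ⟨x, hx⟩ := hF
  obtain ⟨m, _, hm⟩ := zorn_le_nonempty₀ F (fun c hcF hc y hy =>
    ⟨sSup c, hcF (chain_sSup c ⟨y, hy⟩ hc (fun N hN => hn N (hcF hN)) (h _)),
      fun z hz => le_sSup hz⟩) x hx
  exact ⟨m, hm⟩

theorem normal_of_comm {W : Type} [Group W] (h : ∀ a b : W, a * b = b * a) (N : Subgroup W) :
    N.Normal :=
  ⟨fun n hn g => by rw [h g n, mul_assoc, mul_inv_cancel, mul_one]; exact hn⟩

theorem fng_comm {W : Type} [Group W] [Group.FG W] (h : ∀ a b : W, a * b = b * a)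
    (N : Subgroup W) : N.IsFinitelyNormallyGenerated := by
  have := normal_of_comm h N
  have h1 : Group.IsFinitelyPresented (W ⧸ N) := by
    apply fp_comm'
    intro a b
    obtain ⟨a, rfl⟩ := QuotientGroup.mk'_surjective N a
    obtain ⟨b, rfl⟩ := QuotientGroup.mk'_surjective N b
    rw [← map_mul, ← map_mul, h]
  have h3 := ker_fng (QuotientGroup.mk' N) (QuotientGroup.mk'_surjective _)
  rwa [QuotientGroup.ker_mk'] at h3

theorem fg_comm {W : Type} [Group W] [Group.FG W] (h : ∀ a b : W, a * b = b * a)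
    (N : Subgroup W) : N.FG :=
  fg_of_fng_central N (fun x _ => Subgroup.mem_center_iff.mpr fun g => h g x) (fng_comm h N)

/-- a uniform exponent for the isolator of a subgroup -/
theorem exp_iso {W : Type} [Group W] [Group.FG W] (h : ∀ a b : W, a * b = b * a)
    (Δ : Subgroup W) : ∃ e ≥ 1, ∀ w : W, ∀ k ≥ 1, w ^ k ∈ Δ → w ^ e ∈ Δ := by
  have hmp : ∀ (a b : W) (n : ℕ), (a * b) ^ n = a ^ n * b ^ n := fun a b n =>
    (show Commute a b from h a b).mul_pow n
  set T : Subgroup W :=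
    { carrier := {w | ∃ k ≥ 1, w ^ k ∈ Δ}
      one_mem' := ⟨1, le_rfl, by simp⟩
      mul_mem' := by
        rintro a b ⟨k, hk, ha⟩ ⟨l, hl, hb⟩
        refine ⟨k * l, Nat.mul_pos hk hl, ?_⟩
        rw [hmp]
        apply mul_mem
        · rw [pow_mul]
          exact pow_mem ha _
        · rw [mul_comm, pow_mul]
          exact pow_mem hb _
      inv_mem' := by
        rintro a ⟨k, hk, ha⟩
        exact ⟨k, hk, by rw [inv_pow]; exact inv_mem ha⟩ } with hT
  obtain ⟨S, hS⟩ := fg_comm h T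
  have hST : ∀ s ∈ S, ∃ k ≥ 1, s ^ k ∈ Δ := by
    intro s hs
    have : s ∈ T := by
      rw [← hS]
      exact Subgroup.subset_closure hs
    exact this
  choose! k hk1 hk using hST
  set E : ℕ := ∏ s ∈ S, k s with hE
  have hE1 : 1 ≤ E := Nat.succ_le_of_lt (Finset.prod_pos fun s hs => hk1 s hs)
  have key : ∀ w ∈ Subgroup.closure (S : Set W), w ^ E ∈ Δ := by
    intro w hw
    induction hw using Subgroup.closure_induction with
    | mem s hs =>
      obtain ⟨c, hc⟩ := Finset.dvd_prod_of_mem k hs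
      rw [hE, hc, pow_mul]
      exact pow_mem (hk s hs) _
    | one => rw [one_pow]; exact one_mem _
    | mul a b _ _ ha hb => rw [hmp]; exact mul_mem ha hb
    | inv a _ ha => rw [inv_pow]; exact inv_mem ha
  refine ⟨E, hE1, ?_⟩
  intro w l hl hw
  apply key
  rw [hS]
  exact ⟨l, hl, hw⟩

theorem finite_of_exp {W : Type} [Group W] [Group.FG W] (h : ∀ a b : W, a * b = b * a)
    (e : ℕ) (he : 1 ≤ e) (hw : ∀ w : W, w ^ e = 1) : Finite W :=
  finite_comm W h fun w => isOfFinOrder_iff_pow_eq_one.mpr ⟨e, he, hw w⟩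

theorem finIdx_comap {A B : Type} [Group A] [Group B] (f : A →* B) (hf : Surjective f)
    (P : Subgroup B) [hP : P.FiniteIndex] : (P.comap f).FiniteIndex := by
  refine ⟨?_⟩
  rw [Subgroup.index_comap_of_surjective _ hf]
  exact hP.index_ne_zero

section JN

variable {Q : Type} [Group Q] [Group.FG Q]

theorem JNVN.fng (hQ : JNVN Q) (N : Subgroup Q) (hN : N.Normal) :
    N.IsFinitelyNormallyGenerated := by
  by_cases h : N = ⊥
  · rw [h]
    exact Subgroup.IsFinitelyNormallyGenerated.bot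
  · exact fng_of_vnil N (hQ.quo N h)

/-- an abelian normal subgroup with maximal centraliser -/
theorem JNVN.exists_A (hQ : JNVN Q) (A0 : Subgroup Q) (hA0 : A0.Normal) (h1 : A0 ≠ ⊥)
    (hab : ∀ a ∈ A0, ∀ b ∈ A0, a * b = b * a) :
    ∃ A : Subgroup Q, A.Normal ∧ A ≠ ⊥ ∧ (∀ a ∈ A, ∀ b ∈ A, a * b = b * a) ∧
      ∀ B : Subgroup Q, B.Normal → B ≠ ⊥ → B ≤ A →
        Subgroup.centralizer (B : Set Q) ≤ Subgroup.centralizer (A : Set Q) := by
  set F : Set (Subgroup Q) := {C | ∃ A : Subgroup Q, A.Normal ∧ A ≠ ⊥ ∧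
    (∀ a ∈ A, ∀ b ∈ A, a * b = b * a) ∧ C = Subgroup.centralizer (A : Set Q)} with hF
  obtain ⟨m, ⟨A, hA, hA1, hA2, rfl⟩, hmax⟩ := exists_max F ⟨_, A0, hA0, h1, hab, rfl⟩
    (by rintro _ ⟨A, hA, _, _, rfl⟩; infer_instance) hQ.fng
  refine ⟨A, hA, hA1, hA2, ?_⟩
  intro B hB hB1 hBA
  refine hmax ⟨B, hB, hB1, fun a ha b hb => hA2 a (hBA ha) b (hBA hb), rfl⟩ ?_
  exact Subgroup.centralizer_le hBA

/-- the quotient by the centraliser is infinite -/
theorem JNVN.infinite (hQ : JNVN Q) (A : Subgroup Q) (hA : A.Normal) (h1 : A ≠ ⊥) :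
    ¬ (Subgroup.centralizer (A : Set Q)).FiniteIndex := by
  intro hfi
  obtain ⟨P, hP, hn⟩ := hQ.quo A h1
  have hPf : (P.comap (QuotientGroup.mk' A)).FiniteIndex :=
    finIdx_comap _ (QuotientGroup.mk'_surjective A) P
  apply hQ.not
  refine ⟨P.comap (QuotientGroup.mk' A) ⊓ Subgroup.centralizer (A : Set Q), inferInstance, ?_⟩
  let g : ↥(P.comap (QuotientGroup.mk' A) ⊓ Subgroup.centralizer (A : Set Q)) →* P :=
    { toFun := fun x => ⟨QuotientGroup.mk' A x, x.2.1⟩
      map_one' := by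
        apply Subtype.ext
        simp
      map_mul' := by
        intro x y
        apply Subtype.ext
        simp }
  refine Subgroup.isNilpotent_of_ker_le_center g ?_
  intro x hx
  rw [MonoidHom.mem_ker] at hx
  have h2 : QuotientGroup.mk' A x = 1 := congrArg Subtype.val hx
  rw [QuotientGroup.mk'_apply, QuotientGroup.eq_one_iff] at h2
  rw [Subgroup.mem_center_iff]
  intro y
  apply Subtype.ext
  exact (Subgroup.mem_centralizer_iff.mp y.2.2 x h2).symm

end JN

end Pool.Agent.Work.MP_66343f_al
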