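import Pool.Agent.Work.MP_66343f_al.Red

/-!
# MP_66343f_al: the twisted data of a group with many commuting automorphisms
-/

set_option autoImplicit false

namespace Pool.Agent.Work.MP_66343f_al

open Function

/-- an abelian normal subgroup with maximal centraliser, and an abelian group of automorphisms -/
structure AD (Q M Z : Type) [Group Q] [CommGroup M] [Group Z] where
  inc : M →* Q
  hinc : Injective inc
  ρ : Q →* MulAut M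
  hρ : ∀ q m, inc (ρ q m) = q * inc m * q⁻¹
  j : Z →* MulAut M
  hj : Injective j
  hcomm : ∀ a b : Z, a * b = b * a
  hn : ∀ (q : Q) (ζ : Z), ∃ ζ', j ζ' = ρ q * j ζ * (ρ q)⁻¹
  NQ : Subgroup Q
  hNQ : NQ.FiniteIndex
  hNZ : ∀ q ∈ NQ, ∀ ζ, ρ q * j ζ = j ζ * ρ q
  hr : ∀ ζ, ∃ q, ρ q = j ζ
  hM : ∃ m : M, m ≠ 1
  hmax : ∀ B : Subgroup M, (∀ q, ∀ b ∈ B, ρ q b ∈ B) → B ≠ ⊥ → ∀ q, (∀ b ∈ B, ρ q b = b) → ρ q = 1

namespace AD

variable {Q M Z : Type} [Group Q] [CommGroup M] [Group Z] (C : AD Q M Z)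

include C in
theorem mp (a b : Z) (n : ℕ) : (a * b) ^ n = a ^ n * b ^ n :=
  (show Commute a b from C.hcomm a b).mul_pow n

/-- the elements fixing `d` -/
def St (d : M) : Subgroup Z where
  carrier := {ζ | C.j ζ d = d}
  one_mem' := by
    change C.j 1 d = d
    rw [map_one, MulAut.one_apply]
  mul_mem' := by
    intro a b ha hb
    change C.j (a * b) d = d
    rw [map_mul, MulAut.mul_apply]
    rw [show C.j b d = d from hb]
    exact ha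
  inv_mem' := by
    intro a ha
    change C.j a⁻¹ d = d
    rw [map_inv]
    have h1 : C.j a d = d := ha
    have h2 := congrArg (fun e => (C.j a)⁻¹ e) h1
    simp only [MulAut.inv_apply_self] at h2
    exact h2.symm

theorem mem_St {d : M} {ζ : Z} : ζ ∈ C.St d ↔ C.j ζ d = d := Iff.rfl

include C in
/-- the powers -/
def Ga (e : ℕ) : Subgroup Z where
  carrier := {γ | ∃ ζ, ζ ^ e = γ}
  one_mem' := ⟨1, one_pow e⟩
  mul_mem' := by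
    rintro _ _ ⟨a, rfl⟩ ⟨b, rfl⟩
    exact ⟨a * b, C.mp a b e⟩
  inv_mem' := by
    rintro _ ⟨a, rfl⟩
    exact ⟨a⁻¹, inv_pow a e⟩

theorem mem_Ga {e : ℕ} {γ : Z} : γ ∈ C.Ga e ↔ ∃ ζ, ζ ^ e = γ := Iff.rfl

/-- conjugation preserves the powers -/
theorem conj_Ga {e : ℕ} {γ : Z} (hγ : γ ∈ C.Ga e) (q : Q) :
    ∃ γ' ∈ C.Ga e, C.j γ' = C.ρ q * C.j γ * (C.ρ q)⁻¹ := by
  obtain ⟨ζ, rfl⟩ := hγ
  obtain ⟨ζ', hζ'⟩ := C.hn q ζ
  refine ⟨ζ' ^ e, ⟨ζ', rfl⟩, ?_⟩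
  rw [map_pow, hζ', map_pow, conj_pow]

theorem exists_Δ [Group.FG Z] : ∃ (Δ : Subgroup Z) (x0 : M), x0 ≠ 1 ∧ Δ ≤ C.St x0 ∧
    ∀ ζ, ζ ∉ Δ → ∀ d, Δ ≤ C.St d → ζ ∈ C.St d → d = 1 := by
  set F : Set (Subgroup Z) := {Δ | ∃ d ≠ 1, Δ ≤ C.St d} with hF
  obtain ⟨x, hx⟩ := C.hM
  obtain ⟨Δ, ⟨x0, hx0, hΔ⟩, hmax⟩ := exists_max F ⟨⊥, x, hx, bot_le⟩
    (fun N _ => normal_of_comm C.hcomm N) (fun N _ => fng_comm C.hcomm N)
  refine ⟨Δ, x0, hx0, hΔ, ?_⟩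
  intro ζ hζ d hd hζd
  by_contra hd1
  have h1 : C.St d ∈ F := ⟨d, hd1, le_rfl⟩
  exact hζ (hmax h1 hd hζd)

/-- the exponent -/
theorem exists_e [Group.FG Z] (Δ : Subgroup Z) : ∃ e ≥ 1,
    (∀ ζ ∈ C.Ga e, ζ ∉ Δ → ∀ k ≥ 1, ζ ^ k ∉ Δ) ∧
    (∀ ζ ∈ C.Ga e, ∀ k ≥ 1, ζ ^ k = 1 → ζ = 1) := by
  obtain ⟨e1, he1, h1⟩ := exp_iso C.hcomm Δ
  obtain ⟨e2, he2, h2⟩ := exp_iso C.hcomm (⊥ : Subgroup Z)
  refine ⟨e1 * e2, Nat.mul_pos he1 he2, ?_, ?_⟩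
  · rintro _ ⟨γ, rfl⟩ hγ k hk hk'
    apply hγ
    rw [pow_mul]
    apply pow_mem
    refine h1 γ (e1 * e2 * k) (Nat.mul_pos (Nat.mul_pos he1 he2) hk) ?_
    rw [pow_mul]
    exact hk'
  · rintro _ ⟨γ, rfl⟩ k hk hk'
    have h3 := h2 γ (e1 * e2 * k) (Nat.mul_pos (Nat.mul_pos he1 he2) hk) (by
      rw [pow_mul, hk']
      exact one_mem _)
    rw [Subgroup.mem_bot] at h3
    rw [mul_comm, pow_mul, h3, one_pow]

/-- the powers are not contained in `Δ` -/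
theorem exists_z [Group.FG Z] [Infinite Z] (Δ : Subgroup Z) (x0 : M) (hx0 : x0 ≠ 1)
    (hΔ : Δ ≤ C.St x0) (e : ℕ) (he : 1 ≤ e) : ∃ γ ∈ C.Ga e, γ ∉ Δ := by
  by_contra hcon
  push Not at hcon
  -- a nontrivial power
  obtain ⟨γ, hγ, hγ1⟩ : ∃ γ ∈ C.Ga e, γ ≠ 1 := by
    by_contra h
    push Not at h
    have : Finite Z := finite_of_exp C.hcomm e he fun w => h _ ⟨w, rfl⟩
    exact not_finite Z
  set B : Subgroup M :=
    { carrier := {b | ∀ γ ∈ C.Ga e, C.j γ b = b}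
      one_mem' := fun γ _ => map_one _
      mul_mem' := by
        intro a b ha hb γ hγ
        rw [map_mul, ha γ hγ, hb γ hγ]
      inv_mem' := by
        intro a ha γ hγ
        rw [map_inv, ha γ hγ] } with hB
  have hmemB : ∀ b, b ∈ B ↔ ∀ γ ∈ C.Ga e, C.j γ b = b := fun b => Iff.rfl
  obtain ⟨q, hq⟩ := C.hr γ
  have h1 : C.ρ q = 1 := by
    refine C.hmax B ?_ ?_ q ?_
    · intro q b hb
      rw [hmemB] at hb ⊢
      intro γ hγ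
      obtain ⟨γ', hγ', h⟩ := C.conj_Ga hγ q⁻¹
      have h2 : C.j γ * C.ρ q = C.ρ q * C.j γ' := by
        rw [h, map_inv]
        group
      have h3 := congrArg (fun (f : MulAut M) => f b) h2
      simp only [MulAut.mul_apply] at h3
      rw [h3, hb γ' hγ']
    · intro h
      apply hx0
      have : x0 ∈ B := fun γ hγ => hΔ (hcon γ hγ)
      rw [h] at this
      exact this
    · intro b hb
      rw [hq]
      exact hb γ hγ
  apply hγ1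
  apply C.hj
  rw [← hq, h1, map_one]

include C in
/-- the twisted data -/
theorem exists_dat2 [Group.FG Z] [Infinite Z] {G : Type} [Group G] (f : G →* Q)
    (hf : Surjective f) : Nonempty (Dat2 G Q M) := by
  obtain ⟨Δ, x0, hx0, hΔ, hfix⟩ := C.exists_Δ
  obtain ⟨e, he, h1, h2⟩ := C.exists_e Δ
  obtain ⟨γ, hγ, hγΔ⟩ := C.exists_z Δ x0 hx0 hΔ e he
  obtain ⟨q, hq⟩ := C.hr γ
  obtain ⟨z, hz⟩ := hf q
  obtain ⟨x, hx⟩ := hf (C.inc x0)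
  have := C.hNQ
  have hΔj : ∀ ζ, C.j ζ ∈ Δ.map C.j ↔ ζ ∈ Δ := fun ζ => by
    rw [Subgroup.mem_map_iff_mem C.hj]
  refine ⟨{
    f := f
    inc := C.inc
    hinc := C.hinc
    act := C.ρ.comp f
    hact := fun h d => C.hρ (f h) d
    Z := C.j.range
    hZ := by
      rintro _ ⟨a, rfl⟩ _ ⟨b, rfl⟩
      rw [← map_mul, C.hcomm, map_mul]
    hZn := by
      rintro h _ ⟨ζ, rfl⟩
      exact C.hn (f h) ζ
    NN := C.NQ.comap f
    hNN := finIdx_comap f hf C.NQ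
    hNZ := by
      rintro h hh _ ⟨ζ, rfl⟩
      exact C.hNZ (f h) hh ζ
    z := z
    x := x
    x0 := x0
    hx := hx
    hx0 := hx0
    Δ := Δ.map C.j
    hΔZ := by
      rintro _ ⟨ζ, _, rfl⟩
      exact ⟨ζ, rfl⟩
    hxΔ := by
      rintro _ ⟨ζ, hζ, rfl⟩
      exact hΔ hζ
    hfix := by
      rintro _ ⟨ζ, rfl⟩ hζ d hd hζd
      rw [hΔj] at hζ
      refine hfix ζ hζ d ?_ hζd
      intro δ hδ
      exact hd _ ⟨δ, hδ, rfl⟩
    Γ := (C.Ga e).map C.j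
    hΓZ := by
      rintro _ ⟨ζ, _, rfl⟩
      exact ⟨ζ, rfl⟩
    hzΓ := by
      rw [MonoidHom.comp_apply, hz, hq]
      exact ⟨γ, hγ, rfl⟩
    hΓn := by
      rintro h _ ⟨ζ, hζ, rfl⟩
      obtain ⟨ζ', hζ', h3⟩ := C.conj_Ga hζ (f h)
      exact ⟨ζ', hζ', h3⟩
    hΓi := by
      rintro _ ⟨ζ, hζ, rfl⟩ hζΔ k hk
      rw [hΔj] at hζΔ
      rw [← map_pow, hΔj]
      exact h1 ζ hζ hζΔ k hk
    hΓt := by
      rintro _ ⟨ζ, hζ, rfl⟩ k hk hζk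
      rw [← map_pow, ← map_one C.j] at hζk
      rw [h2 ζ hζ k hk (C.hj hζk), map_one]
    hzΔ := by
      rw [MonoidHom.comp_apply, hz, hq, hΔj]
      exact hγΔ }⟩

end AD

end Pool.Agent.Work.MP_66343f_al
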