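import Pool.Agent.Work.MP_66343f_al.Red2

/-!
# MP_66343f_al: virtually solvable quotients
-/

set_option autoImplicit false

namespace Pool.Agent.Work.MP_66343f_al

open Function

/-- the conjugation data of an abelian normal subgroup -/
theorem JNVN.exists_AD {Q : Type} [Group Q] [Group.FG Q] (hQ : JNVN Q) (A0 : Subgroup Q)
    (hA0 : A0.Normal) (h1 : A0 ≠ ⊥) (hab : ∀ a ∈ A0, ∀ b ∈ A0, a * b = b * a) :
    ∃ (M Z : Type) (_ : CommGroup M) (_ : Group Z), Nonempty (AD Q M Z) ∧ Group.FG Z ∧
      Infinite Z := by
  obtain ⟨A, hA, hA1, hA2, hmax⟩ := hQ.exists_A A0 hA0 h1 hab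
  have hinf := hQ.infinite A hA hA1
  let hcg : CommGroup A :=
    { (inferInstance : Group A) with
      mul_comm := fun a b => Subtype.ext (hA2 a a.2 b b.2) }
  let ρ : Q →* MulAut A := MulAut.conjNormal
  have hρ : ∀ (q : Q) (m : A), A.subtype (ρ q m) = q * A.subtype m * q⁻¹ :=
    fun q m => MulAut.conjNormal_apply q m
  -- the kernel
  have hker : ∀ q : Q, ρ q = 1 ↔ q ∈ Subgroup.centralizer (A : Set Q) := by
    intro q
    rw [Subgroup.mem_centralizer_iff]
    constructor
    · intro h a ha
      have h2 := hρ q ⟨a, ha⟩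
      rw [h, MulAut.one_apply] at h2
      change a = q * a * q⁻¹ at h2
      rw [eq_mul_inv_iff_mul_eq] at h2
      exact h2
    · intro h
      ext a
      have h2 := hρ q a
      rw [MulAut.one_apply]
      change ((ρ q a : A) : Q) = a
      rw [show ((ρ q a : A) : Q) = q * a * q⁻¹ from h2, ← h a a.2, mul_inv_cancel_right]
  let R : Subgroup (MulAut A) := ρ.range
  have hRinf : Infinite R := by
    by_contra hfin
    rw [not_infinite_iff_finite] at hfin
    have h2 : ρ.ker.FiniteIndex := Subgroup.finiteIndex_ker ρ
    apply hinf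
    have h3 : ρ.ker = Subgroup.centralizer (A : Set Q) := by
      ext q
      rw [MonoidHom.mem_ker, hker]
    rwa [h3] at h2
  have hRfg : Group.FG R := inferInstanceAs (Group.FG ρ.range)
  have hRv : VNil R := by
    refine vnil_surj (QuotientGroup.lift A ρ.rangeRestrict ?_) ?_ (hQ.quo A hA1)
    · intro a ha
      apply Subtype.ext
      change ρ a = 1
      rw [hker, Subgroup.mem_centralizer_iff]
      intro b hb
      exact hA2 b hb a ha
    · rintro ⟨_, q, rfl⟩
      exact ⟨QuotientGroup.mk q, rfl⟩
  obtain ⟨P, hPn, hPf, hPnil⟩ := hRv.normal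
  have hPfg : Group.FG P := inferInstance
  have hPinf : Infinite P := by
    by_contra hfin
    rw [not_infinite_iff_finite] at hfin
    have : Finite R := (Subgroup.finite_iff_finite_and_finiteIndex P).mpr ⟨hfin, hPf⟩
    exact not_finite R
  have hZfg : Group.FG (Subgroup.center P) := (Group.fg_iff_subgroup_fg _).mpr (center_fg P)
  have hZinf : Infinite (Subgroup.center P) := by
    by_contra hfin
    rw [not_infinite_iff_finite] at hfin
    have : Finite P := finite_of_center P hPfg hfin
    exact not_finite P
  have hZn : ((Subgroup.center P).map P.subtype).Normal :=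
    ConjAct.normal_of_characteristic_of_normal
  let j : Subgroup.center P →* MulAut A :=
    R.subtype.comp (P.subtype.comp (Subgroup.center P).subtype)
  have hj : Injective j := by
    intro a b hab
    apply Subtype.ext
    apply Subtype.ext
    apply Subtype.ext
    exact hab
  refine ⟨A, Subgroup.center P, hcg, inferInstance, ⟨?_⟩, hZfg, hZinf⟩
  exact
    { inc := A.subtype
      hinc := Subtype.coe_injective
      ρ := ρ
      hρ := hρ
      j := j
      hj := hj
      hcomm := center_comm
      hn := by
        intro q ζ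
        have h2 : (ζ : P).1 ∈ (Subgroup.center P).map P.subtype := ⟨ζ, ζ.2, rfl⟩
        have h3 := hZn.conj_mem _ h2 (ρ.rangeRestrict q)
        obtain ⟨ζ', hζ', h4⟩ := h3
        refine ⟨⟨ζ', hζ'⟩, ?_⟩
        exact congrArg Subtype.val h4
      NQ := P.comap ρ.rangeRestrict
      hNQ := finIdx_comap _ ρ.rangeRestrict_surjective P
      hNZ := by
        intro q hq ζ
        have h2 := Subgroup.mem_center_iff.mp ζ.2 ⟨_, hq⟩
        exact congrArg (fun x : P => ((x : R) : MulAut A)) h2
      hr := by
        intro ζ
        obtain ⟨q, hq⟩ := ((ζ : P) : R).2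
        exact ⟨q, hq⟩
      hM := by
        by_contra h
        push Not at h
        apply hA1
        rw [eq_bot_iff]
        intro a ha
        exact congrArg Subtype.val (h ⟨a, ha⟩)
      hmax := by
        intro B hB hB1 q hq
        rw [hker]
        have hBn : (B.map A.subtype).Normal := by
          refine ⟨?_⟩
          rintro _ ⟨b, hb, rfl⟩ g
          exact ⟨ρ g b, hB g b hb, hρ g b⟩
        refine hmax (B.map A.subtype) hBn ?_ ?_ ?_
        · intro h
          apply hB1
          rwa [Subgroup.map_eq_bot_iff_of_injective _ Subtype.coe_injective] at h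
        · rintro _ ⟨b, _, rfl⟩
          exact b.2
        · rw [Subgroup.mem_centralizer_iff]
          rintro _ ⟨b, hb, rfl⟩
          have h2 := hρ q b
          rw [hq b hb, eq_mul_inv_iff_mul_eq] at h2
          exact h2 }

/-- a virtually solvable just non virtually nilpotent group has a nontrivial abelian normal
subgroup -/
theorem JNVN.exists_abelian {Q : Type} [Group Q] (hQ : JNVN Q) (S : Subgroup Q)
    (hS : S.FiniteIndex) (hs : Group.IsSolvable S) :
    ∃ A0 : Subgroup Q, A0.Normal ∧ A0 ≠ ⊥ ∧ (∀ a ∈ A0, ∀ b ∈ A0, a * b = b * a) := by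
  set N := S.normalCore with hN
  have h1 : N ≤ S := S.normalCore_le
  have h2 : Group.IsSolvable N :=
    Group.isSolvable_of_isSolvable_injective (f := Subgroup.inclusion h1)
      (Subgroup.inclusion_injective h1)
  have hNne : N ≠ ⊥ := by
    intro h
    apply hQ.not
    have h3 : N.FiniteIndex := inferInstance
    rw [h] at h3
    have : Finite Q := by
      have h4 := h3.index_ne_zero
      rw [Subgroup.index_bot] at h4
      exact Nat.finite_of_card_ne_zero h4
    exact vnil_finite Q
  obtain ⟨n, hn⟩ := h2.solvable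
  have key : ∀ n, derivedSeries N n = ⊥ →
      ∃ m, derivedSeries N m ≠ ⊥ ∧ derivedSeries N (m + 1) = ⊥ := by
    intro n
    induction n with
    | zero =>
      intro h
      exfalso
      apply hNne
      rw [derivedSeries_zero] at h
      rw [eq_bot_iff]
      intro x hx
      have : (⟨x, hx⟩ : N) ∈ (⊤ : Subgroup N) := Subgroup.mem_top _
      rw [h] at this
      exact congrArg Subtype.val this
    | succ n ih =>
      intro h
      by_cases h' : derivedSeries N n = ⊥
      · exact ih h'
      · exact ⟨n, h', h⟩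
  obtain ⟨m, hm1, hm2⟩ := key n hn
  refine ⟨(derivedSeries N m).map N.subtype, ConjAct.normal_of_characteristic_of_normal, ?_, ?_⟩
  · intro h
    apply hm1
    rwa [Subgroup.map_eq_bot_iff_of_injective _ Subtype.coe_injective] at h
  · rintro _ ⟨a, ha, rfl⟩ _ ⟨b, hb, rfl⟩
    have h3 : ⁅derivedSeries N m, derivedSeries N m⁆ = ⊥ := hm2
    rw [Subgroup.commutator_eq_bot_iff_le_centralizer] at h3
    have h4 := (Subgroup.mem_centralizer_iff.mp (h3 hb)) a ha
    exact congrArg Subtype.val h4

/-- virtually solvable quotients which are not virtually nilpotent give the twisted data -/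
theorem dat2_of_vsolv {G Q : Type} [Group G] [Group.FG G] [Group Q] (f : G →* Q)
    (hf : Surjective f) (S : Subgroup Q) (hS : S.FiniteIndex) (hs : Group.IsSolvable S)
    (hn : ¬ VNil Q) :
    ∃ (A M : Type) (_ : Group A) (_ : CommGroup M), Nonempty (Dat2 G A M) := by
  have hQfg : Group.FG Q := Group.fg_of_surjective hf
  obtain ⟨N, hN, hJ⟩ := exists_jnvn hn
  have hg : Surjective ((QuotientGroup.mk' N).comp f) :=
    (QuotientGroup.mk'_surjective N).comp hf
  have hfi : (S.map (QuotientGroup.mk' N)).FiniteIndex :=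
    finIdx_map _ (QuotientGroup.mk'_surjective N) S
  have hsol : Group.IsSolvable (S.map (QuotientGroup.mk' N)) :=
    Group.isSolvable_of_surjective ((QuotientGroup.mk' N).subgroupMap_surjective S)
  obtain ⟨A0, hA0, hA1, hA2⟩ := hJ.exists_abelian _ hfi hsol
  obtain ⟨M, Z, hM, hZ, ⟨C⟩, hZf, hZi⟩ := hJ.exists_AD A0 hA0 hA1 hA2
  exact ⟨Q ⧸ N, M, inferInstance, hM, C.exists_dat2 ((QuotientGroup.mk' N).comp f) hg⟩

end Pool.Agent.Work.MP_66343f_al
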