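import Pool.Agent.Work.MP_66343f_al.SW

/-!
# MP_66343f_al: configurations with sites
-/

set_option autoImplicit false

namespace Pool.Agent.Work.MP_66343f_al

open SemidirectProduct Filter Function

/-! ## Balls and visited positions -/

section ball
variable {ι G X : Type} [Group G]

theorem mul_mem_ball {s : ι → G} {m n : ℕ} {a b : G} (ha : a ∈ Ball s m) (hb : b ∈ Ball s n) :
    a * b ∈ Ball s (m + n) := by
  obtain ⟨v, hv, rfl⟩ := ha
  obtain ⟨w, hw, rfl⟩ := hb
  exact ⟨v ++ w, by rw [List.length_append]; omega, ev_append s v w⟩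

theorem inv_mem_ball {s : ι → G} {m : ℕ} {a : G} (ha : a ∈ Ball s m) : a⁻¹ ∈ Ball s m := by
  obtain ⟨v, hv, rfl⟩ := ha
  exact ⟨FreeGroup.invRev v, by rwa [FreeGroup.invRev_length], ev_inv s v⟩

theorem ball_mono {s : ι → G} {m n : ℕ} (h : m ≤ n) {a : G} (ha : a ∈ Ball s m) : a ∈ Ball s n := by
  obtain ⟨v, hv, rfl⟩ := ha
  exact ⟨v, hv.trans h, rfl⟩

theorem ball_finite [Finite ι] (s : ι → G) (m : ℕ) : (Ball s m).Finite := by
  refine ((finite_words (ι := ι) m).image (ev s)).subset ?_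
  rintro _ ⟨w, hw, rfl⟩
  exact ⟨w, hw, rfl⟩

/-- all positions visited by the word have the property `P` -/
def Vis (P : X → Prop) (χ : ι → Equiv.Perm X) : List (ι × Bool) → X → Prop
  | [], _ => True
  | (e, true) :: w, q => P q ∧ P ((χ e)⁻¹ q) ∧ Vis P χ w ((χ e)⁻¹ q)
  | (e, false) :: w, q => P q ∧ P (χ e q) ∧ Vis P χ w (χ e q)

theorem vis_of {P : X → Prop} {χ : ι → Equiv.Perm X} {q : X} {ρ : ℕ}
    (hP : ∀ u ∈ Ball χ ρ, P (u q)) (w : List (ι × Bool)) :
    ∀ (m : ℕ) (u : Equiv.Perm X), u ∈ Ball χ m → m + w.length ≤ ρ → Vis P χ w (u q) := by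
  induction w with
  | nil => intro m b _ _; trivial
  | cons a w ih =>
    intro m u hu hm
    obtain ⟨e, c⟩ := a
    rw [List.length_cons] at hm
    obtain ⟨v, hv, rfl⟩ := hu
    have h0 : P (ev χ v q) := hP _ ⟨v, by omega, rfl⟩
    rcases c with _ | _
    · have h1 : χ e * ev χ v ∈ Ball χ (m + 1) :=
        ⟨(e, true) :: v, by simpa using hv, by simp [ev]⟩
      exact ⟨h0, hP _ (ball_mono (by omega) h1), ih (m + 1) _ h1 (by omega)⟩
    · have h1 : (χ e)⁻¹ * ev χ v ∈ Ball χ (m + 1) :=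
        ⟨(e, false) :: v, by simpa using hv, by simp [ev]⟩
      exact ⟨h0, hP _ (ball_mono (by omega) h1), ih (m + 1) _ h1 (by omega)⟩

theorem vis_of' {P : X → Prop} {χ : ι → Equiv.Perm X} {q : X} {ρ : ℕ}
    (hP : ∀ u ∈ Ball χ ρ, P (u q)) {w : List (ι × Bool)} (hw : w.length ≤ ρ) : Vis P χ w q :=
  vis_of hP w 0 1 (one_mem_ball _ _) (by omega)

end ball

/-- the letters -/
abbrev Ky (I J S : Type) : Type := I ⊕ J ⊕ (S × Fin 3)

open Classical in
/-- A group `H` with generators `g i` (automorphisms of the fibre and permutations of the sites),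
`t j` (translations of the sites) and `x s` (supported at the site `o s`). -/
structure SCfg (H X D I J S : Type) [Group H] [Group D] where
  Φ : H →* WX X D
  g : I → H
  t : J → H
  x : S → H
  α : I → MulAut D
  π : I → Equiv.Perm X
  τ : J → Equiv.Perm X
  o : S → X
  x0 : S → D
  orb : X → S
  hg : ∀ i, Φ (g i) = inr (α i, π i)
  ht : ∀ j, Φ (t j) = inr (1, τ j)
  hx : ∀ s, Φ (x s) = inl (Pi.mulSingle (o s) (x0 s))
  hgen : Subgroup.closure (Set.range (Sum.elim g (Sum.elim t x))) = ⊤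
  horb : ∀ p, ∃ v : FreeGroup J, FreeGroup.lift τ v (o (orb p)) = p
  horb' : ∀ j p, orb (τ j p) = orb p
  hx0 : ∀ p, x0 (orb p) ≠ 1
  hsep : ∀ F : Finset X, ∃ v : FreeGroup J, ∀ p ∈ F, FreeGroup.lift τ v p ∉ F
  hne : Nonempty X

namespace SCfg

variable {H X D I J S T : Type} [Group H] [Group D] [Group T] (C : SCfg H X D I J S)

/-- the automorphism of a letter -/
def aa : Ky I J S → MulAut D
  | .inl i => C.α i
  | _ => 1

/-- the permutation of a letter -/
def ch : Ky I J S → Equiv.Perm X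
  | .inl i => C.π i
  | .inr (.inl j) => C.τ j
  | _ => 1

open Classical in
/-- the letters with the copy `b` of `x s` at the site `pos b s` -/
noncomputable def pl (aT : MulAut D →* MulAut T) (io : Fin 3 → D →* T) (pos : Fin 3 → S → X) :
    Ky I J S → WX X T
  | .inl i => inr (aT (C.α i), C.π i)
  | .inr (.inl j) => inr (1, C.τ j)
  | .inr (.inr (s, b)) => inl (Pi.mulSingle (pos b s) (io b (C.x0 s)))

theorem pl_right (aT : MulAut D →* MulAut T) (io : Fin 3 → D →* T) (pos : Fin 3 → S → X)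
    (e : Ky I J S) : (C.pl aT io pos e).right = (aT (C.aa e), C.ch e) := by
  rcases e with i | j | ⟨s, b⟩
  · simp [pl, aa, ch]
  · simp [pl, aa, ch]
  · simp [pl, aa, ch]
    rfl

theorem lift_pl_right (aT : MulAut D →* MulAut T) (io : Fin 3 → D →* T) (pos : Fin 3 → S → X)
    (w : FreeGroup (Ky I J S)) : (FreeGroup.lift (C.pl aT io pos) w).right =
      (aT (FreeGroup.lift C.aa w), FreeGroup.lift C.ch w) := by
  have : rightHom.comp (FreeGroup.lift (C.pl aT io pos)) =
      (aT.comp (FreeGroup.lift C.aa)).prod (FreeGroup.lift C.ch) := by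
    ext e : 1
    simp only [MonoidHom.comp_apply, FreeGroup.lift_apply_of, MonoidHom.prod_apply,
      rightHom_eq_right, pl_right]
  exact DFunLike.congr_fun this w

/-- the other copies are not visited -/
def Oth (pos : Fin 3 → S → X) (b : Fin 3) (p : X) : Prop := ∀ c s, c ≠ b → p ≠ pos c s

theorem pl_left {aT : MulAut D →* MulAut T} {io : Fin 3 → D →* T} {pos : Fin 3 → S → X}
    {b : Fin 3} {q : X} (h : Oth pos b q) (e : Ky I J S) :
    (C.pl aT io pos e).left q =
      io b ((C.pl (MonoidHom.id _) (fun _ => MonoidHom.id D) pos e).left q) := by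
  classical
  rcases e with i | j | ⟨s, c⟩
  · simp [pl]
  · simp [pl]
  · simp only [pl, left_inl]
    by_cases hq : q = pos c s
    · have hc : c = b := by
        by_contra hc
        exact h c s hc hq
      subst hc hq
      rw [Pi.mulSingle_eq_same, Pi.mulSingle_eq_same]
      rfl
    · rw [Pi.mulSingle_eq_of_ne hq, Pi.mulSingle_eq_of_ne hq, map_one]

theorem loc {aT : MulAut D →* MulAut T} {io : Fin 3 → D →* T} {pos : Fin 3 → S → X}
    (hio : ∀ a b d, aT a (io b d) = io b (a d)) (b : Fin 3) (w : List (Ky I J S × Bool)) :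
    ∀ q, Vis (Oth pos b) C.ch w q → (ev (C.pl aT io pos) w).left q =
      io b ((ev (C.pl (MonoidHom.id _) (fun _ => MonoidHom.id D) pos) w).left q) := by
  induction w with
  | nil => intro q _; simp [ev]
  | cons a w ih =>
    intro q hq
    obtain ⟨e, c⟩ := a
    rcases c with _ | _
    · obtain ⟨_, h2, h3⟩ := hq
      have e1 : ∀ (T' : Type) [Group T'] (m : Ky I J S → WX X T'),
          ev m ((e, false) :: w) = (m e)⁻¹ * ev m w := by
        intro T' _ m
        simp [ev]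
      rw [e1, e1, wx_mul_left, wx_mul_left, wx_inv_left, wx_inv_left, inv_right, inv_right,
        pl_right, pl_right, C.pl_left h2]
      simp only [Prod.inv_mk, inv_inv]
      rw [ih _ h3]
      simp only [MonoidHom.id_apply, ← map_inv, hio, map_mul]
    · obtain ⟨h1, _, h3⟩ := hq
      have e1 : ∀ (T' : Type) [Group T'] (m : Ky I J S → WX X T'),
          ev m ((e, true) :: w) = m e * ev m w := by
        intro T' _ m
        simp [ev]
      rw [e1, e1, wx_mul_left, wx_mul_left, pl_right, pl_right, C.pl_left h1, ih _ h3, hio,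
        map_mul]
      rfl

theorem Psi_one {aT : MulAut D →* MulAut T} {io : Fin 3 → D →* T} {pos : Fin 3 → S → X}
    (hio : ∀ a b d, aT a (io b d) = io b (a d)) {w : FreeGroup (Ky I J S)}
    {L : List (Ky I J S × Bool)} (hL : FreeGroup.mk L = w)
    (hv : ∀ q, ∃ b, Vis (Oth pos b) C.ch L q)
    (h1 : FreeGroup.lift (C.pl (MonoidHom.id _) (fun _ => MonoidHom.id D) pos) w = 1) :
    FreeGroup.lift (C.pl aT io pos) w = 1 := by
  refine SemidirectProduct.ext ?_ ?_
  · funext q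
    obtain ⟨b, hb⟩ := hv q
    have h2 := C.loc hio b L q hb
    rw [ev_eq_lift, ev_eq_lift, hL, h1, one_left, Pi.one_apply, map_one] at h2
    exact h2
  · have h2 := C.lift_pl_right (MonoidHom.id _) (fun _ => MonoidHom.id D) pos w
    rw [h1] at h2
    rw [C.lift_pl_right]
    have h3 : FreeGroup.lift C.aa w = 1 := (congrArg Prod.fst h2).symm
    have h4 : FreeGroup.lift C.ch w = 1 := (congrArg Prod.snd h2).symm
    rw [h3, h4, map_one]
    rfl

/-- the copies are far apart -/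
def FarB (pos : Fin 3 → S → X) (ρ : ℕ) : Prop :=
  ∀ c c' s s', c ≠ c' → ∀ u ∈ Ball C.ch ρ, u (pos c s) ≠ pos c' s'

theorem vis_of_far {pos : Fin 3 → S → X} {ρ : ℕ} (h : C.FarB pos (2 * ρ))
    {w : List (Ky I J S × Bool)} (hw : w.length ≤ ρ) (q : X) : ∃ b, Vis (Oth pos b) C.ch w q := by
  by_cases h1 : ∃ u ∈ Ball C.ch ρ, ∃ c s, u q = pos c s
  · obtain ⟨u, hu, c, s, hc⟩ := h1
    refine ⟨c, vis_of' (fun u' hu' c' s' hne h2 => ?_) hw⟩
    refine h c c' s s' hne.symm (u' * u⁻¹) ?_ ?_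
    · rw [two_mul]
      exact mul_mem_ball hu' (inv_mem_ball hu)
    · rw [← hc, Equiv.Perm.mul_apply, pinv, h2]
  · refine ⟨0, vis_of' (fun u' hu' c' s' _ h2 => h1 ⟨u', hu', c', s', h2⟩) hw⟩

theorem exists_far [Finite I] [Finite J] [Finite S] (ρ : ℕ) :
    ∃ v : Fin 3 → FreeGroup J, C.FarB (fun c s => FreeGroup.lift C.τ (v c) (C.o s)) ρ := by
  classical
  have hf := ball_finite C.ch ρ
  have hF1 : (Set.image2 (fun (u : Equiv.Perm X) (s : S) => u (C.o s)) (Ball C.ch ρ)
      Set.univ).Finite := hf.image2 _ Set.finite_univ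
  obtain ⟨v1, hv1⟩ := C.hsep hF1.toFinset
  have hF2 : (Set.image2 (fun (u : Equiv.Perm X) (s : S) => u (FreeGroup.lift C.τ v1 (C.o s)))
      (Ball C.ch ρ) Set.univ).Finite := hf.image2 _ Set.finite_univ
  obtain ⟨v2, hv2⟩ := C.hsep (hF1.toFinset ∪ hF2.toFinset)
  have m1 : ∀ u ∈ Ball C.ch ρ, ∀ s, u (C.o s) ∈ hF1.toFinset := fun u hu s =>
    hF1.mem_toFinset.mpr ⟨u, hu, s, Set.mem_univ _, rfl⟩
  have m2 : ∀ u ∈ Ball C.ch ρ, ∀ s, u (FreeGroup.lift C.τ v1 (C.o s)) ∈ hF2.toFinset :=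
    fun u hu s => hF2.mem_toFinset.mpr ⟨u, hu, s, Set.mem_univ _, rfl⟩
  have k0 : ∀ s, C.o s ∈ hF1.toFinset := fun s => m1 1 (one_mem_ball _ _) s
  have k1 : ∀ u ∈ Ball C.ch ρ, ∀ s s', u (C.o s) ≠ FreeGroup.lift C.τ v1 (C.o s') := by
    intro u hu s s' h
    exact hv1 _ (k0 s') (h ▸ m1 u hu s)
  have k2 : ∀ u ∈ Ball C.ch ρ, ∀ s s', u (C.o s) ≠ FreeGroup.lift C.τ v2 (C.o s') := by
    intro u hu s s' h
    exact hv2 _ (Finset.mem_union_left _ (k0 s')) (Finset.mem_union_left _ (h ▸ m1 u hu s))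
  have k3 : ∀ u ∈ Ball C.ch ρ, ∀ s s',
      u (FreeGroup.lift C.τ v1 (C.o s)) ≠ FreeGroup.lift C.τ v2 (C.o s') := by
    intro u hu s s' h
    exact hv2 _ (Finset.mem_union_left _ (k0 s')) (Finset.mem_union_right _ (h ▸ m2 u hu s))
  have sym : ∀ (a b : X) (u : Equiv.Perm X), u a = b → u⁻¹ b = a := by
    intro a b u h
    rw [← h, pinv]
  refine ⟨![1, v1, v2], ?_⟩
  intro c c' s s' hc u hu
  have hu' := inv_mem_ball hu
  have e0 : ∀ s, FreeGroup.lift C.τ (![1, v1, v2] 0) (C.o s) = C.o s := by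
    intro s
    change FreeGroup.lift C.τ 1 (C.o s) = C.o s
    rw [map_one]
    rfl
  fin_cases c <;> fin_cases c'
  · exact absurd rfl hc
  · intro h
    change u (FreeGroup.lift C.τ (![1, v1, v2] 0) (C.o s)) = FreeGroup.lift C.τ v1 (C.o s') at h
    rw [e0] at h
    exact k1 u hu _ _ h
  · intro h
    change u (FreeGroup.lift C.τ (![1, v1, v2] 0) (C.o s)) = FreeGroup.lift C.τ v2 (C.o s') at h
    rw [e0] at h
    exact k2 u hu _ _ h
  · intro h
    change u (FreeGroup.lift C.τ v1 (C.o s)) = FreeGroup.lift C.τ (![1, v1, v2] 0) (C.o s') at h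
    rw [e0] at h
    exact k1 _ hu' _ _ (sym _ _ _ h)
  · exact absurd rfl hc
  · intro h
    exact k3 u hu _ _ h
  · intro h
    change u (FreeGroup.lift C.τ v2 (C.o s)) = FreeGroup.lift C.τ (![1, v1, v2] 0) (C.o s') at h
    rw [e0] at h
    exact k2 _ hu' _ _ (sym _ _ _ h)
  · intro h
    exact k3 _ hu' _ _ (sym _ _ _ h)
  · exact absurd rfl hc

end SCfg

end Pool.Agent.Work.MP_66343f_al
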