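import Pool.Agent.Work.MP_66343f_al.SCfg

/-!
# MP_66343f_al: the group `B` approximates the same limit as `H` (sites)
-/

set_option autoImplicit false

namespace Pool.Agent.Work.MP_66343f_al

open SemidirectProduct Filter Function

/-- tuples in a subgroup -/
theorem exists_sub' {A κ : Type} [Group A] {B : Subgroup A} {m : κ → A}
    (h : Subgroup.closure (Set.range m) = B) : ∃ s : κ → B,
      Subgroup.closure (Set.range s) = ⊤ ∧ ∀ w, (FreeGroup.lift s w : A) = FreeGroup.lift m w := by
  have hm : ∀ e, m e ∈ B := fun e => h ▸ Subgroup.subset_closure ⟨e, rfl⟩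
  have h1 : ∀ w, (FreeGroup.lift (fun e => (⟨m e, hm e⟩ : B)) w : A) = FreeGroup.lift m w := by
    intro w
    have : B.subtype.comp (FreeGroup.lift (fun e => (⟨m e, hm e⟩ : B))) = FreeGroup.lift m := by
      ext e
      simp
    exact DFunLike.congr_fun this w
  refine ⟨fun e => ⟨m e, hm e⟩, ?_, h1⟩
  rw [← FreeGroup.lift_surjective_iff_closure_range_eq_top]
  rintro ⟨b, hb⟩
  rw [← h, ← FreeGroup.range_lift_eq_closure] at hb
  obtain ⟨w, hw⟩ := hb
  exact ⟨w, Subtype.ext ((h1 w).trans hw)⟩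

namespace SCfg

variable {H X D I J S : Type} [Group H] [Group D] (C : SCfg H X D I J S)

/-- the ambient group of `B` -/
abbrev Am (H X D : Type) [Group H] [Group D] : Type := H × WX X (FP D)

open Classical in
/-- the generators of `B` -/
noncomputable def gB : Ky I J S → Am H X D
  | .inl i => (C.g i, inr (autL (C.α i), C.π i))
  | .inr (.inl j) => (C.t j, inr (1, C.τ j))
  | .inr (.inr (s, b)) => (C.x s, inl (Pi.mulSingle (C.o s) (yy (C.x0 s) b)))

/-- the group `B` -/
noncomputable def Bs : Subgroup (Am H X D) := Subgroup.closure (Set.range C.gB)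

theorem gB_mem (e : Ky I J S) : C.gB e ∈ C.Bs := Subgroup.subset_closure ⟨e, rfl⟩

/-- the translations of `H` -/
def tw (v : FreeGroup J) : H := FreeGroup.lift C.t v

/-- the translations of `B` -/
noncomputable def twB (v : FreeGroup J) : Am H X D :=
  FreeGroup.lift (fun j => C.gB (.inr (.inl j))) v

/-- the generating tuples of `H`: the copy `b` is moved by `v b` -/
def mH (v : Fin 3 → FreeGroup J) : Ky I J S → H
  | .inl i => C.g i
  | .inr (.inl j) => C.t j
  | .inr (.inr (s, b)) => C.tw (v b) * C.x s * (C.tw (v b))⁻¹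

/-- the generating tuples of `B` -/
noncomputable def mB (v : Fin 3 → FreeGroup J) : Ky I J S → Am H X D
  | .inl i => C.gB (.inl i)
  | .inr (.inl j) => C.gB (.inr (.inl j))
  | .inr (.inr (s, b)) => C.twB (v b) * C.gB (.inr (.inr (s, b))) * (C.twB (v b))⁻¹

theorem Φ_tw (v : FreeGroup J) : C.Φ (C.tw v) = inr (1, FreeGroup.lift C.τ v) := by
  have : C.Φ.comp (FreeGroup.lift C.t) =
      ((inr : _ →* WX X D).comp (MonoidHom.inr (MulAut D) (Equiv.Perm X))).comp
        (FreeGroup.lift C.τ) := by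
    ext j : 1
    simp [C.ht]
  exact DFunLike.congr_fun this v

theorem twB_eq (v : FreeGroup J) :
    C.twB v = (C.tw v, inr (1, FreeGroup.lift C.τ v)) := by
  have : FreeGroup.lift (fun j => C.gB (.inr (.inl j))) =
      (FreeGroup.lift C.t).prod (((inr : _ →* WX X (FP D)).comp
        (MonoidHom.inr (MulAut (FP D)) (Equiv.Perm X))).comp (FreeGroup.lift C.τ)) := by
    ext j : 1
    simp [gB]
  exact DFunLike.congr_fun this v

open Classical in
theorem inr_conj_single' {T : Type} [Group T] (σ : Equiv.Perm X) (p : X) (d : T) :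
    (inr (1, σ) : WX X T) * inl (Pi.mulSingle p d) * (inr (1, σ))⁻¹ =
      inl (Pi.mulSingle (σ p) d) := by
  rw [← map_inv, ← inl_aut, sx_single]
  simp

theorem Φ_mH (v : Fin 3 → FreeGroup J) (w : FreeGroup (Ky I J S)) :
    C.Φ (FreeGroup.lift (C.mH v) w) =
      FreeGroup.lift (C.pl (MonoidHom.id _) (fun _ => MonoidHom.id D)
        (fun b s => FreeGroup.lift C.τ (v b) (C.o s))) w := by
  classical
  have : C.Φ.comp (FreeGroup.lift (C.mH v)) =
      FreeGroup.lift (C.pl (MonoidHom.id _) (fun _ => MonoidHom.id D)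
        (fun b s => FreeGroup.lift C.τ (v b) (C.o s))) := by
    ext e : 1
    rcases e with i | j | ⟨s, b⟩
    · rw [MonoidHom.comp_apply, FreeGroup.lift_apply_of, FreeGroup.lift_apply_of]
      exact C.hg i
    · rw [MonoidHom.comp_apply, FreeGroup.lift_apply_of, FreeGroup.lift_apply_of]
      exact C.ht j
    · rw [MonoidHom.comp_apply, FreeGroup.lift_apply_of, FreeGroup.lift_apply_of, mH, map_mul,
        map_mul, map_inv, C.hx, Φ_tw, inr_conj_single']
      rfl
  exact DFunLike.congr_fun this w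

theorem lift_mB (v : Fin 3 → FreeGroup J) (w : FreeGroup (Ky I J S)) :
    FreeGroup.lift (C.mB v) w = (FreeGroup.lift (C.mH v) w,
      FreeGroup.lift (C.pl autL (fun b => Monoid.CoprodI.of (M := fun _ : Fin 3 => D) (i := b))
        (fun b s => FreeGroup.lift C.τ (v b) (C.o s))) w) := by
  classical
  have : FreeGroup.lift (C.mB v) = (FreeGroup.lift (C.mH v)).prod
      (FreeGroup.lift (C.pl autL (fun b => Monoid.CoprodI.of (M := fun _ : Fin 3 => D) (i := b))
        (fun b s => FreeGroup.lift C.τ (v b) (C.o s)))) := by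
    ext e : 1
    rcases e with i | j | ⟨s, b⟩
    · rw [FreeGroup.lift_apply_of, MonoidHom.prod_apply, FreeGroup.lift_apply_of,
        FreeGroup.lift_apply_of]
      rfl
    · rw [FreeGroup.lift_apply_of, MonoidHom.prod_apply, FreeGroup.lift_apply_of,
        FreeGroup.lift_apply_of]
      rfl
    · rw [FreeGroup.lift_apply_of, MonoidHom.prod_apply, FreeGroup.lift_apply_of,
        FreeGroup.lift_apply_of, mB, mH, twB_eq, gB]
      refine Prod.ext rfl ?_
      exact inr_conj_single' _ _ _
  exact DFunLike.congr_fun this w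

theorem closure_mH (v : Fin 3 → FreeGroup J) : Subgroup.closure (Set.range (C.mH v)) = ⊤ := by
  rw [eq_top_iff, ← C.hgen, Subgroup.closure_le]
  have ht : ∀ j, C.t j ∈ Subgroup.closure (Set.range (C.mH v)) := fun j =>
    Subgroup.subset_closure ⟨.inr (.inl j), rfl⟩
  have htw : ∀ u, C.tw u ∈ Subgroup.closure (Set.range (C.mH v)) := by
    intro u
    have h1 : (FreeGroup.lift C.t).range ≤ Subgroup.closure (Set.range (C.mH v)) := by
      rw [FreeGroup.range_lift_eq_closure, Subgroup.closure_le]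
      rintro _ ⟨j, rfl⟩
      exact ht j
    exact h1 ⟨u, rfl⟩
  rintro _ ⟨e, rfl⟩
  rcases e with i | j | s
  · exact Subgroup.subset_closure ⟨.inl i, rfl⟩
  · exact ht j
  · have h1 : C.mH v (.inr (.inr (s, 0))) ∈ Subgroup.closure (Set.range (C.mH v)) :=
      Subgroup.subset_closure ⟨_, rfl⟩
    have h2 := mul_mem (mul_mem (inv_mem (htw (v 0))) h1) (htw (v 0))
    have h3 : (C.tw (v 0))⁻¹ * C.mH v (.inr (.inr (s, 0))) * C.tw (v 0) = C.x s := by
      rw [mH]
      group
    rw [h3] at h2
    exact h2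

theorem closure_mB (v : Fin 3 → FreeGroup J) :
    Subgroup.closure (Set.range (C.mB v)) = C.Bs := by
  have tmem : ∀ P : Subgroup (Am H X D), (∀ j, C.gB (.inr (.inl j)) ∈ P) → ∀ u, C.twB u ∈ P := by
    intro P hP u
    have h1 : (FreeGroup.lift (fun j => C.gB (.inr (.inl j)))).range ≤ P := by
      rw [FreeGroup.range_lift_eq_closure, Subgroup.closure_le]
      rintro _ ⟨j, rfl⟩
      exact hP j
    exact h1 ⟨u, rfl⟩
  apply le_antisymm
  · rw [Subgroup.closure_le]
    have h0 : ∀ e, C.gB e ∈ C.Bs := fun e => Subgroup.subset_closure ⟨e, rfl⟩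
    rintro _ ⟨e, rfl⟩
    rcases e with i | j | ⟨s, b⟩
    · exact h0 (.inl i)
    · exact h0 (.inr (.inl j))
    · exact mul_mem (mul_mem (tmem _ (fun j => h0 _) _) (h0 _)) (inv_mem (tmem _ (fun j => h0 _) _))
  · unfold Bs
    rw [Subgroup.closure_le]
    have h0 : ∀ e, C.mB v e ∈ Subgroup.closure (Set.range (C.mB v)) := fun e =>
      Subgroup.subset_closure ⟨e, rfl⟩
    have htw := tmem _ (fun j => h0 (.inr (.inl j)))
    rintro _ ⟨e, rfl⟩
    rcases e with i | j | ⟨s, b⟩
    · exact h0 (.inl i)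
    · exact h0 (.inr (.inl j))
    · have h2 := mul_mem (mul_mem (inv_mem (htw (v b))) (h0 (.inr (.inr (s, b))))) (htw (v b))
      have h3 : (C.twB (v b))⁻¹ * C.mB v (.inr (.inr (s, b))) * C.twB (v b) =
          C.gB (.inr (.inr (s, b))) := by
        rw [mB]
        group
      rw [h3] at h2
      exact h2

/-- `H` and `B` approximate the same group. -/
theorem exists_K [Finite I] [Finite J] [Finite S] : ∃ (K : Type) (_ : Group K) (k : Ky I J S → K),
    Subgroup.closure (Set.range k) = ⊤ ∧ Apx H k ∧ Apx C.Bs k := by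
  classical
  choose v hv using fun ρ : ℕ => C.exists_far (2 * ρ)
  set U : Ultrafilter ℕ := hyperfilter ℕ with hU
  have hUle : (U : Filter ℕ) ≤ atTop := Nat.hyperfilter_le_atTop
  refine ⟨Lim U (fun ρ => C.mH (v ρ)), inferInstance, lg U (fun ρ => C.mH (v ρ)),
    closure_lg _ _, apx_lim U _ (fun ρ => C.closure_mH (v ρ)), ?_⟩
  intro W
  have h1 := eventually_agree U (fun ρ => C.mH (v ρ)) W
  have h2 : ∀ᶠ ρ in (U : Filter ℕ), ∀ w ∈ W, FreeGroup.lift (C.mH (v ρ)) w = 1 →
      FreeGroup.lift (C.mB (v ρ)) w = 1 := by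
    rw [Filter.eventually_all_finset]
    intro w _
    filter_upwards [hUle (eventually_ge_atTop w.toWord.length)] with ρ hρ
    intro h3
    rw [C.lift_mB, h3, C.Psi_one (autL_of) (FreeGroup.mk_toWord (x := w))
      (fun q => C.vis_of_far (hv ρ) hρ q) (by rw [← C.Φ_mH, h3, map_one])]
    rfl
  obtain ⟨ρ, hρ1, hρ2⟩ := (h1.and h2).exists
  obtain ⟨s, hs, hsw⟩ := exists_sub' (C.closure_mB (v ρ))
  refine ⟨s, hs, ?_⟩
  intro w hw
  rw [← hρ1 w hw]
  constructor
  · intro h3
    have h4 := hsw w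
    rw [h3, C.lift_mB] at h4
    exact (congrArg Prod.fst h4).symm
  · intro h3
    apply Subtype.ext
    rw [hsw, hρ2 w hw h3]
    rfl

end SCfg

end Pool.Agent.Work.MP_66343f_al
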