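import Pool.Agent.Work.MP_66343f_al.SGen

/-!
# MP_66343f_al: the modified tuples generate `B` (sites)
-/

set_option autoImplicit false

namespace Pool.Agent.Work.MP_66343f_al

open SemidirectProduct Filter Function

theorem kom_map {G G' : Type} [Group G] [Group G'] (φ : G →* G') (a b : G) :
    φ (kom a b) = kom (φ a) (φ b) := by
  simp only [kom, map_mul, map_inv]

namespace SCfg

variable {H X D I J S : Type} [Group H] [Group D] (C : SCfg H X D I J S)

/-- the function with the values `cc (x0 (orb p)) n` on `R` -/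
noncomputable def cf (R : Finset X) (n : ℕ) : X → FP D := cut R fun p => cc (C.x0 (C.orb p)) n

theorem cf_mem (R : Finset X) (n : ℕ) (p : X) : C.cf R n p ∈ Jx (C.x0 (C.orb p)) := by
  by_cases h : p ∈ R
  · rw [cf, cut_of_mem h]
    exact cc_mem_Jx n
  · rw [cf, cut_of_notMem h]
    exact one_mem _

open Classical in
/-- the function with the values `j` at the moved base sites -/
noncomputable def jf (σ : Equiv.Perm X) : X → FP D :=
  fun p => if σ (C.o (C.orb p)) = p then jx (C.x0 (C.orb p)) else 1

/-- the modified tuple -/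
noncomputable def Lam (n : Option (Ky I J S) → ℕ) (R : Finset X) (v : FreeGroup J) :
    Option (Ky I J S) → Am H X D
  | some e => C.gB e * nlx (C.cf R (n (some e)))
  | none => nlx (C.cf R (n none)) * nlx (C.jf (FreeGroup.lift C.τ v))

theorem twB_mem (v : FreeGroup J) : C.twB v ∈ C.Bs := by
  have h1 : (FreeGroup.lift (fun j => C.gB (.inr (.inl j)))).range ≤ C.Bs := by
    rw [FreeGroup.range_lift_eq_closure, Subgroup.closure_le]
    rintro _ ⟨j, rfl⟩
    exact C.gB_mem _
  exact h1 ⟨v, rfl⟩

theorem rich_Bs : C.Rich C.Bs where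
  y p b := by
    classical
    refine ⟨C.gB (.inr (.inr (C.orb p, b))), C.gB_mem _, ?_, ?_⟩
    · simp [gB]
    · simp [gB]
  tr v := by
    refine ⟨C.twB v, C.twB_mem v, ?_, ?_⟩
    · rw [twB_eq]
      simp
    · intro q
      rw [twB_eq]
      simp only [left_inr, Pi.one_apply]
      exact one_mem _

theorem jx_mem_IX_Bs (p : X) : jx (C.x0 (C.orb p)) ∈ IX C.Bs (C.o (C.orb p)) := by
  classical
  rw [mem_IX]
  set s := C.orb p
  have h1 := mul_mem (C.gB_mem (.inr (.inr (s, 0)))) (inv_mem (C.gB_mem (.inr (.inr (s, 1)))))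
  have h2 : C.gB (.inr (.inr (s, 0))) * (C.gB (.inr (.inr (s, 1))))⁻¹ =
      nlx (Pi.mulSingle (C.o s) (jx (C.x0 s))) := by
    refine Prod.ext ?_ ?_
    · change C.x s * (C.x s)⁻¹ = 1
      simp
    · change (inl (Pi.mulSingle (C.o s) (yy (C.x0 s) 0)) : WX X (FP D)) *
        (inl (Pi.mulSingle (C.o s) (yy (C.x0 s) 1)))⁻¹ = inl (Pi.mulSingle (C.o s) (jx (C.x0 s)))
      rw [← map_inv, ← map_mul, ← Pi.mulSingle_inv, ← Pi.mulSingle_mul]
      rfl
  rw [← h2]
  exact h1

theorem jf_mem [Finite S] {P : Subgroup (Am H X D)}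
    (h : ∀ p, jx (C.x0 (C.orb p)) ∈ IX P p) (σ : Equiv.Perm X) : nlx (C.jf σ) ∈ P := by
  classical
  have hfin : {p : X | σ (C.o (C.orb p)) = p}.Finite :=
    (Set.finite_range fun s => σ (C.o s)).subset fun p hp => ⟨C.orb p, hp⟩
  have h1 : C.jf σ = cut hfin.toFinset fun p => jx (C.x0 (C.orb p)) := by
    funext p
    by_cases hp : σ (C.o (C.orb p)) = p
    · rw [cut_of_mem (hfin.mem_toFinset.mpr hp), jf, if_pos hp]
    · rw [cut_of_notMem (fun h' => hp (hfin.mem_toFinset.mp h')), jf, if_neg hp]
  rw [h1]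
  exact cutx_mem _ _ fun p _ => h p

theorem Lam_mem_Bs [Finite S] (n : Option (Ky I J S) → ℕ) (R : Finset X) (v : FreeGroup J)
    (e : Option (Ky I J S)) : C.Lam n R v e ∈ C.Bs := by
  classical
  have hJ : ∀ p, Jx (C.x0 (C.orb p)) ≤ IX C.Bs (C.o (C.orb p)) := fun p =>
    Jx_le (C.jx_mem_IX_Bs p) (C.rich_Bs.normalizer p)
  have hcf : ∀ m, nlx (C.cf R m) ∈ C.Bs := by
    intro m
    exact cutx_mem R _ fun p _ => C.rich_Bs.all p (hJ p (cc_mem_Jx m))
  rcases e with _ | e
  · exact mul_mem (hcf _) (C.jf_mem (fun p => C.rich_Bs.all p (C.jx_mem_IX_Bs p)) _)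
  · exact mul_mem (C.gB_mem e) (hcf _)

/-- the subgroup generated by the modified tuple -/
noncomputable def Bo (n : Option (Ky I J S) → ℕ) (R : Finset X) (v : FreeGroup J) :
    Subgroup (Am H X D) :=
  Subgroup.closure (Set.range (C.Lam n R v))

variable {C} {n : Option (Ky I J S) → ℕ} {R : Finset X} {v : FreeGroup J}

theorem Lam_mem (e : Option (Ky I J S)) : C.Lam n R v e ∈ C.Bo n R v :=
  Subgroup.subset_closure ⟨e, rfl⟩

theorem rich_Bo (h1 : ∀ s, C.o s ∉ R) : C.Rich (C.Bo n R v) where
  y p b := by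
    classical
    refine ⟨C.Lam n R v (some (.inr (.inr (C.orb p, b)))), Lam_mem _, ?_, ?_⟩
    · simp [Lam, gB, nlx]
    · simp only [Lam, gB, Prod.snd_mul, nlx_snd]
      rw [wx_mul_left]
      simp [cf, cut, h1]
  tr u := by
    classical
    set T0 : Subgroup (Am H X D) :=
      { carrier := {a | a.2.right.1 = 1 ∧ (∀ p, C.orb (a.2.right.2 p) = C.orb p) ∧
          ∀ q, a.2.left q ∈ Jx (C.x0 (C.orb q))}
        mul_mem' := by
          rintro a b ⟨ha1, ha2, ha3⟩ ⟨hb1, hb2, hb3⟩
          refine ⟨?_, fun p => ?_, fun q => ?_⟩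
          · simp [ha1, hb1]
          · change C.orb (a.2.right.2 (b.2.right.2 p)) = _
            rw [ha2, hb2]
          · rw [Prod.snd_mul, wx_mul_left, ha1]
            refine mul_mem (ha3 _) ?_
            have h5 := hb3 (a.2.right.2⁻¹ q)
            rw [← ha2, pinv'] at h5
            exact h5
        one_mem' := by
          refine ⟨by simp, fun p => rfl, fun q => ?_⟩
          simp
        inv_mem' := by
          rintro a ⟨ha1, ha2, ha3⟩
          refine ⟨by simp [ha1], fun p => ?_, fun q => ?_⟩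
          · change C.orb (a.2.right.2⁻¹ p) = _
            rw [← ha2, pinv']
          · rw [Prod.snd_inv, wx_inv_left, ha1]
            simp only [inv_one, MulAut.one_apply]
            have h5 := ha3 (a.2.right.2 q)
            rw [ha2] at h5
            exact inv_mem h5 } with hT0
    have hgen : ∀ j, C.Lam n R v (some (.inr (.inl j))) ∈ T0 := by
      intro j
      refine ⟨by simp [Lam, gB, nlx], fun p => ?_, fun q => ?_⟩
      · have : (C.Lam n R v (some (.inr (.inl j)))).2.right.2 = C.τ j := by
          simp [Lam, gB, nlx]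
        rw [this]
        exact C.horb' j p
      · simp only [Lam, gB, Prod.snd_mul, nlx_snd]
        rw [wx_mul_left]
        simp only [left_inr, Pi.one_apply, one_mul, right_inr, left_inl, MulAut.one_apply]
        have h5 := C.cf_mem R (n (some (.inr (.inl j)))) ((C.τ j)⁻¹ q)
        rw [← C.horb' j, pinv'] at h5
        exact h5
    set W := FreeGroup.lift (fun j => C.Lam n R v (some (.inr (.inl j)))) with hW
    have hWT : W.range ≤ T0 := by
      rw [hW, FreeGroup.range_lift_eq_closure, Subgroup.closure_le]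
      rintro _ ⟨j, rfl⟩
      exact hgen j
    have hWB : W.range ≤ C.Bo n R v := by
      rw [hW, FreeGroup.range_lift_eq_closure, Subgroup.closure_le]
      rintro _ ⟨j, rfl⟩
      exact Lam_mem _
    have hWr : ∀ u, (W u).2.right.2 = FreeGroup.lift C.τ u := by
      intro u
      have : ((MonoidHom.snd (MulAut (FP D)) (Equiv.Perm X)).comp
          ((rightHom : WX X (FP D) →* _).comp ((MonoidHom.snd H _).comp W))) =
          FreeGroup.lift C.τ := by
        ext j : 1
        simp [hW, Lam, gB, nlx]
      exact DFunLike.congr_fun this u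
    have h2 := hWT ⟨u, rfl⟩
    exact ⟨W u, hWB ⟨u, rfl⟩, Prod.ext h2.1 (hWr u), h2.2.2⟩

theorem jf_at (σ : Equiv.Perm X) (hσ : ∀ p, C.orb (σ p) = C.orb p) (p : X) :
    C.jf σ (σ (C.o (C.orb p))) = jx (C.x0 (C.orb p)) := by
  unfold jf
  rw [hσ, C.orb_o, if_pos rfl]

/-- The modified tuple generates `B`. -/
theorem Bo_eq [Finite S] (h1 : ∀ s, C.o s ∉ R) (h2 : ∀ s, FreeGroup.lift C.τ v (C.o s) ∉ R)
    (h3 : ∀ p ∈ R, FreeGroup.lift C.τ v p ∉ R) : C.Bo n R v = C.Bs := by
  classical
  have hR := rich_Bo (C := C) (n := n) (v := v) h1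
  apply le_antisymm
  · unfold Bo
    rw [Subgroup.closure_le]
    rintro _ ⟨e, rfl⟩
    exact C.Lam_mem_Bs n R v e
  set σ := FreeGroup.lift C.τ v with hσ
  have hσo : ∀ p, C.orb (σ p) = C.orb p := C.orb_lift v
  have hcc : ∀ p0 m, cc (C.x0 (C.orb p0)) m ∈ IX (C.Bo n R v) (C.o (C.orb p0)) := by
    intro p0 m
    set s := C.orb p0 with hs
    have hos : C.orb (C.o s) = s := C.orb_o p0
    -- the values at `o s` of functions supported in `R ∪ {o s}`
    set V : Subgroup (FP D) :=
      { carrier := {l | ∃ f : X → FP D, nlx f ∈ C.Bo n R v ∧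
          (∀ p, f p ≠ 1 → p ∈ R ∨ p = C.o s) ∧ f (C.o s) = l}
        mul_mem' := by
          rintro _ _ ⟨f, hf, hf1, rfl⟩ ⟨f', hf', hf1', rfl⟩
          refine ⟨f * f', by rw [map_mul]; exact mul_mem hf hf', fun p hp => ?_, rfl⟩
          by_cases h : f p = 1
          · refine hf1' p fun h' => hp ?_
            rw [Pi.mul_apply, h, h', mul_one]
          · exact hf1 p h
        one_mem' := ⟨1, by rw [map_one]; exact one_mem _, fun p hp => absurd rfl hp, rfl⟩
        inv_mem' := by
          rintro _ ⟨f, hf, hf1, rfl⟩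
          refine ⟨f⁻¹, by rw [map_inv]; exact inv_mem hf, fun p hp => hf1 p fun h => hp ?_, rfl⟩
          rw [Pi.inv_apply, h, inv_one] } with hV
    have hVn : Yx (C.x0 s) ≤ Subgroup.normalizer (V : Set (FP D)) := by
      refine Yx_le_normalizer fun b l hl => ?_
      obtain ⟨a, ha, hr, hy⟩ := hR.y p0 b
      rw [← hs] at hy
      obtain ⟨f, hf, hf1, rfl⟩ := hl
      constructor
      · refine ⟨fun p => a.2.left p * f p * (a.2.left p)⁻¹, ?_, ?_, ?_⟩
        · have h4 := mul_mem (mul_mem ha hf) (inv_mem ha)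
          rw [nlx_conj, hr] at h4
          simpa using h4
        · intro p hp
          refine hf1 p fun h => hp ?_
          beta_reduce
          rw [h]
          group
        · change a.2.left (C.o s) * f (C.o s) * (a.2.left (C.o s))⁻¹ = _
          rw [hy]
      · refine ⟨fun p => (a.2.left p)⁻¹ * f p * a.2.left p, ?_, ?_, ?_⟩
        · have h4 := mul_mem (mul_mem (inv_mem ha) hf) (inv_mem (inv_mem ha))
          rw [nlx_conj, invx_right (show a.2.right = (1, 1) from hr)] at h4
          have h5 : ∀ p, (a⁻¹).2.left p = (a.2.left p)⁻¹ := by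
            intro p
            rw [invx_left (show a.2.right = (1, 1) from hr), Equiv.Perm.one_apply]
          simp only [h5, MulAut.one_apply, inv_one, Equiv.Perm.one_apply, inv_inv] at h4
          exact h4
        · intro p hp
          refine hf1 p fun h => hp ?_
          beta_reduce
          rw [h]
          group
        · change (a.2.left (C.o s))⁻¹ * f (C.o s) * a.2.left (C.o s) = _
          rw [hy]
    have hVj : jx (C.x0 s) ∈ V := by
      have h4 := mul_mem (Lam_mem (C := C) (n := n) (R := R) (v := v) (some (.inr (.inr (s, 0)))))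
        (inv_mem (Lam_mem (C := C) (n := n) (R := R) (v := v) (some (.inr (.inr (s, 1))))))
      refine ⟨Pi.mulSingle (C.o s) (yy (C.x0 s) 0) * C.cf R (n (some (.inr (.inr (s, 0))))) *
        (Pi.mulSingle (C.o s) (yy (C.x0 s) 1) * C.cf R (n (some (.inr (.inr (s, 1))))))⁻¹,
        ?_, ?_, ?_⟩
      · have h5 : C.Lam n R v (some (.inr (.inr (s, 0)))) *
            (C.Lam n R v (some (.inr (.inr (s, 1)))))⁻¹ =
            nlx (Pi.mulSingle (C.o s) (yy (C.x0 s) 0) * C.cf R (n (some (.inr (.inr (s, 0))))) *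
        (Pi.mulSingle (C.o s) (yy (C.x0 s) 1) * C.cf R (n (some (.inr (.inr (s, 1))))))⁻¹) := by
          refine Prod.ext ?_ ?_
          · change C.x s * 1 * (C.x s * 1)⁻¹ = 1
            simp
          · change (inl (Pi.mulSingle (C.o s) (yy (C.x0 s) 0)) : WX X (FP D)) *
              inl (C.cf R (n (some (.inr (.inr (s, 0)))))) *
              (inl (Pi.mulSingle (C.o s) (yy (C.x0 s) 1)) *
                inl (C.cf R (n (some (.inr (.inr (s, 1)))))))⁻¹ = inl _
            rw [← map_mul, ← map_mul, ← map_inv, ← map_mul]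
        rw [← h5]
        exact h4
      · intro p hp
        by_contra h
        rw [not_or] at h
        apply hp
        simp [cf, cut, h.1, Pi.mulSingle_eq_of_ne h.2]
      · simp [cf, cut, h1, jx]
    have hJV : Jx (C.x0 s) ≤ V := Jx_le hVj hVn
    -- commutators at the position `σ (o s)`
    have hcom : ∀ l ∈ Jx (C.x0 s), kom (jx (C.x0 s)) l ∈ IX (C.Bo n R v) (C.o s) := by
      intro l hl
      obtain ⟨a, ha, hr, haJ⟩ := hR.tr v
      rw [← hσ] at hr
      have haY : a.2.left (σ (C.o s)) ∈ Yx (C.x0 s) := by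
        have := Jx_le_Yx _ (haJ (σ (C.o s)))
        rwa [hσo, hos] at this
      obtain ⟨f, hf, hf1, hf2⟩ := hJV (Jx_conj' haY hl)
      have h4 := mul_mem (mul_mem ha hf) (inv_mem ha)
      rw [nlx_conj, hr] at h4
      have h5 := kom_mem (Lam_mem (C := C) (n := n) (R := R) (v := v) none) h4
      have h6 : kom (C.Lam n R v none) (nlx (fun p => a.2.left p *
          ((1 : MulAut (FP D)), σ).1 (f (((1 : MulAut (FP D)), σ).2⁻¹ p)) * (a.2.left p)⁻¹)) =
          nlx (Pi.mulSingle (σ (C.o s)) (kom (jx (C.x0 s)) l)) := by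
        rw [Lam, ← map_mul, ← kom_map]
        congr 1
        funext p
        simp only [kom, Pi.mul_apply, Pi.inv_apply, MulAut.one_apply]
        by_cases hp : p = σ (C.o s)
        · subst hp
          have h8 : C.jf σ (σ (C.o s)) = jx (C.x0 s) := jf_at σ hσo p0
          rw [Pi.mulSingle_eq_same, pinv, hf2, ← hσ, h8, cf, cut_of_notMem (h2 s)]
          group
        · rw [Pi.mulSingle_eq_of_ne hp, ← hσ]
          by_cases hpR : p ∈ R
          · have h7 : f (σ⁻¹ p) = 1 := by
              by_contra h8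
              rcases hf1 _ h8 with h9 | h9
              · exact h3 _ h9 (by rwa [pinv'])
              · exact hp (by rw [← h9, pinv'])
            rw [h7]
            group
          · rw [cf, cut_of_notMem hpR]
            by_cases hpj : σ (C.o (C.orb p)) = p
            · have h7 : f (σ⁻¹ p) = 1 := by
                by_contra h8
                rcases hf1 _ h8 with h9 | h9
                · rw [← hpj, pinv] at h9
                  exact h1 _ h9
                · exact hp (by rw [← h9, pinv'])
              rw [h7]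
              group
            · have h7 : C.jf σ p = 1 := by
                unfold jf
                rw [if_neg hpj]
              rw [h7]
              group
      rw [h6] at h5
      have h7 : kom (jx (C.x0 s)) l ∈ IX (C.Bo n R v) (σ (C.o s)) := mem_IX.mpr h5
      have h8 := movex (inv_mem ha) (invx_right hr) h7
      rw [pinv, invx_left hr, inv_inv] at h8
      have h9 := hR.normalizer p0
      rw [← hs] at h9
      exact (Subgroup.mem_normalizer_iff''.mp (h9 haY) _).2 h8
    refine cc_mem' (fun u hu l hl => ?_) m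
    have h9 := hR.normalizer p0
    rw [← hs] at h9
    have h4 := (Subgroup.mem_normalizer_iff.mp (h9 hu) _).1
      (hcom _ (Jx_conj' hu hl))
    have h5 : u * kom (jx (C.x0 s)) (u⁻¹ * l * u) * u⁻¹ = kom (u * jx (C.x0 s) * u⁻¹) l := by
      unfold kom
      group
    rwa [h5] at h4
  have hcf : ∀ m, nlx (C.cf R m) ∈ C.Bo n R v := fun m =>
    cutx_mem R _ fun p _ => hR.all p (hcc p m)
  unfold Bs
  rw [Subgroup.closure_le]
  rintro _ ⟨e, rfl⟩
  have h4 := mul_mem (Lam_mem (C := C) (n := n) (R := R) (v := v) (some e))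
    (inv_mem (hcf (n (some e))))
  have h5 : C.Lam n R v (some e) * (nlx (C.cf R (n (some e))))⁻¹ = C.gB e := by
    simp only [Lam]
    group
  rw [h5] at h4
  exact h4

end SCfg

end Pool.Agent.Work.MP_66343f_al
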