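import Pool.Agent.Work.MP_66343f_al.SCfg2

/-!
# MP_66343f_al: subgroups of the free product and rich subgroups (sites)
-/

set_option autoImplicit false

namespace Pool.Agent.Work.MP_66343f_al

open SemidirectProduct Filter Function

/-- the commutator -/
def kom {G : Type} [Group G] (a b : G) : G := a * b * a⁻¹ * b⁻¹

theorem kom_mem {G : Type} [Group G] {V : Subgroup G} {a b : G} (ha : a ∈ V) (hb : b ∈ V) :
    kom a b ∈ V := mul_mem (mul_mem (mul_mem ha hb) (inv_mem ha)) (inv_mem hb)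

section fp
variable {D : Type} [Group D] (x : D)

/-- `j = y₀ y₁⁻¹` -/
def jx : FP D := yy x 0 * (yy x 1)⁻¹

/-- the group generated by `y₀, y₁, y₂` -/
def Yx : Subgroup (FP D) := Subgroup.closure (Set.range (yy x))

/-- the group generated by the conjugates of `j` -/
def Jx : Subgroup (FP D) := Subgroup.closure {l | ∃ u ∈ Yx x, l = u * jx x * u⁻¹}

theorem yy_mem' (b : Fin 3) : yy x b ∈ Yx x := Subgroup.subset_closure ⟨b, rfl⟩

theorem jx_mem_Yx : jx x ∈ Yx x := mul_mem (yy_mem' x 0) (inv_mem (yy_mem' x 1))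

theorem jx_mem_Jx : jx x ∈ Jx x :=
  Subgroup.subset_closure ⟨1, one_mem _, by simp⟩

theorem Jx_le_Yx : Jx x ≤ Yx x := by
  unfold Jx
  rw [Subgroup.closure_le]
  rintro _ ⟨u, hu, rfl⟩
  exact mul_mem (mul_mem hu (jx_mem_Yx x)) (inv_mem hu)

variable {x}

theorem Jx_conj {u l : FP D} (hu : u ∈ Yx x) (hl : l ∈ Jx x) : u * l * u⁻¹ ∈ Jx x := by
  have h1 : Jx x ≤ (Jx x).comap (MulAut.conj u).toMonoidHom := by
    conv_lhs => unfold Jx
    rw [Subgroup.closure_le]
    rintro _ ⟨v, hv, rfl⟩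
    refine Subgroup.subset_closure ⟨u * v, mul_mem hu hv, ?_⟩
    simp [MulAut.conj_apply, mul_assoc]
  exact h1 hl

theorem Jx_conj' {u l : FP D} (hu : u ∈ Yx x) (hl : l ∈ Jx x) : u⁻¹ * l * u ∈ Jx x := by
  have := Jx_conj (inv_mem hu) hl
  rwa [inv_inv] at this

theorem Yx_le_normalizer {V : Subgroup (FP D)}
    (h : ∀ b, ∀ l ∈ V, yy x b * l * (yy x b)⁻¹ ∈ V ∧ (yy x b)⁻¹ * l * yy x b ∈ V) :
    Yx x ≤ Subgroup.normalizer (V : Set (FP D)) := by
  unfold Yx
  rw [Subgroup.closure_le]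
  rintro _ ⟨b, rfl⟩
  rw [SetLike.mem_coe, Subgroup.mem_normalizer_iff]
  intro l
  refine ⟨fun hl => (h b l hl).1, fun hl => ?_⟩
  have h1 := (h b _ hl).2
  have h2 : (yy x b)⁻¹ * (yy x b * l * (yy x b)⁻¹) * yy x b = l := by group
  rwa [h2] at h1

theorem Jx_le {V : Subgroup (FP D)} (h1 : jx x ∈ V)
    (h2 : Yx x ≤ Subgroup.normalizer (V : Set (FP D))) : Jx x ≤ V := by
  unfold Jx
  rw [Subgroup.closure_le]
  rintro _ ⟨u, hu, rfl⟩
  exact (Subgroup.mem_normalizer_iff.mp (h2 hu) _).1 h1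

theorem pr_QQ_mem' (n : ℕ) : pr (QQ x n) ∈ Yx x := by
  induction n with
  | zero =>
    simp only [QQ, pr_cons, pr_nil, mul_one]
    exact mul_mem (yy_mem' x 2) (yy_mem' x 1)
  | succ n ih =>
    simp only [QQ, pr_cons]
    exact mul_mem (yy_mem' x 0) (mul_mem (yy_mem' x 1) ih)

theorem cc_mem' {V : Subgroup (FP D)}
    (h : ∀ u ∈ Yx x, ∀ l ∈ Jx x, kom (u * jx x * u⁻¹) l ∈ V) (n : ℕ) : cc x n ∈ V := by
  have h1 := h (pr (QQ x n)) (pr_QQ_mem' n)
    ((pr (QQ x n) * yy x 2) * jx x * (pr (QQ x n) * yy x 2)⁻¹)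
    (Subgroup.subset_closure ⟨_, mul_mem (pr_QQ_mem' n) (yy_mem' x 2), rfl⟩)
  have h2 : cc x n = kom (pr (QQ x n) * jx x * (pr (QQ x n))⁻¹)
      ((pr (QQ x n) * yy x 2) * jx x * (pr (QQ x n) * yy x 2)⁻¹) := by
    rw [cc, pr_kk, kom, jx]
    group
  rw [h2]
  exact h1

theorem cc_mem_Jx (n : ℕ) : cc x n ∈ Jx x :=
  cc_mem' (fun _ hu _ hl => kom_mem (Jx_conj hu (jx_mem_Jx x)) hl) n

end fp

section nlx
variable {H X D : Type} [Group H] [Group D]

/-- functions as elements of the ambient group -/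
def nlx : (X → FP D) →* SCfg.Am H X D := (MonoidHom.inr H (WX X (FP D))).comp inl

theorem nlx_conj (a : SCfg.Am H X D) (f : X → FP D) :
    a * nlx f * a⁻¹ = nlx (fun p => a.2.left p * a.2.right.1 (f (a.2.right.2⁻¹ p)) *
      (a.2.left p)⁻¹) := by
  refine Prod.ext ?_ ?_
  · change a.1 * 1 * a.1⁻¹ = 1
    simp
  · exact wx_conj a.2 f

theorem nlx_snd (f : X → FP D) : (nlx f : SCfg.Am H X D).2 = inl f := rfl

open Classical in
/-- the elements `l` which are in `P` at the position `p` -/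
noncomputable def IX (P : Subgroup (SCfg.Am H X D)) (p : X) : Subgroup (FP D) :=
  P.comap (nlx.comp (MonoidHom.mulSingle (fun _ : X => FP D) p))

open Classical in
theorem mem_IX {P : Subgroup (SCfg.Am H X D)} {p : X} {l : FP D} :
    l ∈ IX P p ↔ nlx (Pi.mulSingle p l) ∈ P := Iff.rfl

/-- conjugation moves the position -/
theorem movex {P : Subgroup (SCfg.Am H X D)} {a : SCfg.Am H X D} (ha : a ∈ P)
    {σ : Equiv.Perm X} {p : X} (hr : a.2.right = (1, σ)) {l : FP D} (hl : l ∈ IX P p) :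
    a.2.left (σ p) * l * (a.2.left (σ p))⁻¹ ∈ IX P (σ p) := by
  classical
  rw [mem_IX] at hl ⊢
  have h1 := mul_mem (mul_mem ha hl) (inv_mem ha)
  rw [nlx_conj, hr] at h1
  have h2 : (fun q => a.2.left q * (1 : MulAut (FP D)) ((Pi.mulSingle p l : X → FP D) (σ⁻¹ q)) *
      (a.2.left q)⁻¹) =
      Pi.mulSingle (σ p) (a.2.left (σ p) * l * (a.2.left (σ p))⁻¹) := by
    funext q
    by_cases h : q = σ p
    · subst h
      rw [pinv, Pi.mulSingle_eq_same, Pi.mulSingle_eq_same, MulAut.one_apply]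
    · rw [Pi.mulSingle_eq_of_ne h, Pi.mulSingle_eq_of_ne, map_one, mul_one, mul_inv_cancel]
      intro h'
      exact h (by rw [← h', pinv'])
  rw [h2] at h1
  exact h1

theorem invx_left {a : SCfg.Am H X D} {σ : Equiv.Perm X} (hr : a.2.right = (1, σ)) (p : X) :
    (a⁻¹).2.left p = (a.2.left (σ p))⁻¹ := by
  change (a.2⁻¹).left p = _
  rw [wx_inv_left, hr]
  simp

theorem invx_right {a : SCfg.Am H X D} {σ : Equiv.Perm X} (hr : a.2.right = (1, σ)) :
    (a⁻¹).2.right = (1, σ⁻¹) := by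
  change (a.2⁻¹).right = _
  rw [inv_right, hr]
  simp

open Classical in
/-- a function on a finite set -/
noncomputable def cut (R : Finset X) (c : X → FP D) : X → FP D := fun p => if p ∈ R then c p else 1

theorem cut_of_mem {R : Finset X} {c : X → FP D} {p : X} (h : p ∈ R) : cut R c p = c p := by
  simp [cut, h]

theorem cut_of_notMem {R : Finset X} {c : X → FP D} {p : X} (h : p ∉ R) : cut R c p = 1 := by
  simp [cut, h]

theorem cutx_mem {P : Subgroup (SCfg.Am H X D)} (R : Finset X) (c : X → FP D)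
    (h : ∀ p ∈ R, c p ∈ IX P p) : nlx (cut R c) ∈ P := by
  classical
  induction R using Finset.induction_on with
  | empty =>
    have : cut (∅ : Finset X) c = 1 := by
      funext p
      simp [cut]
    rw [this, map_one]
    exact one_mem _
  | insert a s ha ih =>
    have h1 := h a (Finset.mem_insert_self a s)
    have h2 := ih fun p hp => h p (Finset.mem_insert_of_mem hp)
    rw [mem_IX] at h1
    have h3 := mul_mem h1 h2
    rw [← map_mul] at h3
    have h4 : cut (insert a s) c = (Pi.mulSingle a (c a) : X → FP D) * cut s c := by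
      funext p
      rw [Pi.mul_apply]
      by_cases hp : p = a
      · subst hp
        rw [Pi.mulSingle_eq_same, cut_of_notMem ha, cut_of_mem (Finset.mem_insert_self _ s),
          mul_one]
      · rw [Pi.mulSingle_eq_of_ne hp, one_mul]
        simp [cut, hp]
    rw [h4]
    exact h3

end nlx

namespace SCfg

variable {H X D I J S : Type} [Group H] [Group D] (C : SCfg H X D I J S)

/-- `P` contains elements with the values `y b` at the base sites, and translations -/
structure Rich (P : Subgroup (Am H X D)) : Prop where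
  y : ∀ p b, ∃ a ∈ P, a.2.right = 1 ∧ a.2.left (C.o (C.orb p)) = yy (C.x0 (C.orb p)) b
  tr : ∀ v : FreeGroup J, ∃ a ∈ P, a.2.right = (1, FreeGroup.lift C.τ v) ∧
    ∀ q, a.2.left q ∈ Jx (C.x0 (C.orb q))

theorem orb_lift (v : FreeGroup J) (p : X) : C.orb (FreeGroup.lift C.τ v p) = C.orb p := by
  induction v using FreeGroup.induction_on generalizing p with
  | C1 => simp
  | of j =>
    change C.orb (FreeGroup.lift C.τ (FreeGroup.of j) p) = C.orb p
    rw [FreeGroup.lift_apply_of]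
    exact C.horb' j p
  | inv_of j _ =>
    change C.orb (FreeGroup.lift C.τ (FreeGroup.of j)⁻¹ p) = C.orb p
    rw [map_inv, FreeGroup.lift_apply_of, ← C.horb' j, pinv']
  | mul a b ha hb =>
    rw [map_mul, Equiv.Perm.mul_apply, ha, hb]

theorem orb_o (p : X) : C.orb (C.o (C.orb p)) = C.orb p := by
  obtain ⟨v, hv⟩ := C.horb p
  rw [← C.orb_lift v, hv]

variable {C}

theorem Rich.normalizer {P : Subgroup (Am H X D)} (h : C.Rich P) (p : X) :
    Yx (C.x0 (C.orb p)) ≤ Subgroup.normalizer (IX P (C.o (C.orb p)) : Set (FP D)) := by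
  refine Yx_le_normalizer fun b l hl => ?_
  obtain ⟨a, ha, hr, hy⟩ := h.y p b
  have hr' : a.2.right = (1, 1) := hr
  constructor
  · have h1 := movex ha hr' hl
    rw [Equiv.Perm.one_apply, hy] at h1
    exact h1
  · have h1 := movex (inv_mem ha) (invx_right hr') hl
    rw [invx_left hr', inv_one, Equiv.Perm.one_apply, Equiv.Perm.one_apply, hy, inv_inv] at h1
    exact h1

theorem Rich.all {P : Subgroup (Am H X D)} (h : C.Rich P) (p : X) {l : FP D}
    (hl : l ∈ IX P (C.o (C.orb p))) : l ∈ IX P p := by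
  obtain ⟨v, hv⟩ := C.horb p
  obtain ⟨a, ha, hr, hJ⟩ := h.tr v
  have h1 := (Subgroup.mem_normalizer_iff''.mp (h.normalizer p (Jx_le_Yx _ (hJ p))) l).1 hl
  have h2 := movex ha hr h1
  rw [hv] at h2
  have h3 : a.2.left p * ((a.2.left p)⁻¹ * l * a.2.left p) * (a.2.left p)⁻¹ = l := by group
  rwa [h3] at h2

end SCfg

end Pool.Agent.Work.MP_66343f_al
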