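import Pool.Agent.Work.MP_66343f_al.SFree

/-!
# MP_66343f_al: the modified tuples have no short relations (sites)
-/

set_option autoImplicit false

namespace Pool.Agent.Work.MP_66343f_al

open SemidirectProduct Filter Function

/-- the index lists -/
def pat : ℕ → List (Fin 3)
  | 0 => [2, 1]
  | n + 1 => 0 :: 1 :: pat n

section pp
variable {D : Type} [Group D]

theorem QQ_fst (x : D) (n : ℕ) : (QQ x n).map Sigma.fst = pat n := by
  induction n with
  | zero => rfl
  | succ n ih =>
    simp only [QQ, List.map_cons, ih, pat]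

theorem ping {x : D} (hx : x ≠ 1) (n : ℕ) {u : FP D} (hu : u ∉ St D (pat n ++ [2])) :
    cc x n * u ∈ St D (pat n ++ [0]) := by
  rw [← QQ_fst x] at hu ⊢
  exact cc_ping hx n hu

theorem pong {x : D} (hx : x ≠ 1) (n : ℕ) {u : FP D} (hu : u ∉ St D (pat n ++ [0])) :
    (cc x n)⁻¹ * u ∈ St D (pat n ++ [2]) := by
  rw [← QQ_fst x] at hu ⊢
  exact cc_pong hx n hu

theorem pat_dis {m m' : ℕ} {a b : Fin 3} {u : FP D} (h : u ∈ St D (pat m ++ [a]))
    (h' : u ∈ St D (pat m' ++ [b])) : m = m' ∧ a = b := by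
  obtain ⟨w, hw, hwu, h1⟩ := h
  obtain ⟨w', hw', hwu', h2⟩ := h'
  obtain rfl := red_unique hw hw' (hwu.trans hwu'.symm)
  rw [← QQ_fst (1 : D)] at h1 h2
  exact code (1 : D) m m' a b _ h1 h2

theorem one_notMem_St (m : ℕ) (a : Fin 3) : (1 : FP D) ∉ St D (pat m ++ [a]) := by
  rintro ⟨w, hw, hw1, h2⟩
  obtain rfl := red_unique hw (l' := []) ⟨by simp, by simp⟩ (hw1.trans pr_nil.symm)
  rw [List.map_nil, List.prefix_nil] at h2
  simp at h2

end pp

namespace SCfg

variable {H X D I J S : Type} [Group H] [Group D] (C : SCfg H X D I J S)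

/-- the automorphism of a letter -/
def aao : Option (Ky I J S) → MulAut D
  | some e => C.aa e
  | none => 1

/-- the permutation of a letter -/
def cho : Option (Ky I J S) → Equiv.Perm X
  | some e => C.ch e
  | none => 1

theorem gB_right (e : Ky I J S) : (C.gB e).2.right = (autL (C.aa e), C.ch e) := by
  rcases e with i | j | ⟨s, b⟩
  · simp [gB, aa, ch]
  · simp [gB, aa, ch]
  · simp [gB, aa, ch]
    rfl

theorem Lam_right (n : Option (Ky I J S) → ℕ) (R : Finset X) (v : FreeGroup J)
    (e : Option (Ky I J S)) : (C.Lam n R v e).2.right = (autL (C.aao e), C.cho e) := by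
  rcases e with _ | e
  · simp [Lam, nlx, aao, cho]
    rfl
  · simp only [Lam, Prod.snd_mul, mul_right, gB_right, nlx_snd, right_inl, mul_one]
    rfl

variable {C} {n : Option (Ky I J S) → ℕ} {R : Finset X} {v : FreeGroup J}

theorem AA_Lam (h1 : ∀ s, C.o s ∉ R) (h2 : ∀ s, FreeGroup.lift C.τ v (C.o s) ∉ R)
    (e : Option (Ky I J S)) {q : X} (hq : q ∈ R) (hq' : (C.cho e)⁻¹ q ∈ R) (l : FP D) :
    AA (C.Lam n R v e).2 q l =
      autL (C.aao e) (cc (C.x0 (C.orb ((C.cho e)⁻¹ q))) (n e) * l) := by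
  classical
  unfold AA
  rw [Lam_right, map_mul]
  congr 1
  rcases e with _ | e
  · simp only [Lam, Prod.snd_mul, nlx_snd]
    have h3 : C.jf (FreeGroup.lift C.τ v) q = 1 := by
      unfold jf
      rw [if_neg]
      intro h
      exact h2 _ (h ▸ hq)
    rw [wx_mul_left, left_inl, left_inl, right_inl]
    simp only [Prod.fst_one, Prod.snd_one, inv_one, Equiv.Perm.one_apply, MulAut.one_apply]
    rw [h3, mul_one, cf, cut_of_mem hq]
    simp [aao, cho]
  · simp only [Lam, Prod.snd_mul, nlx_snd]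
    have h3 : (C.gB e).2.left q = 1 := by
      rcases e with i | j | ⟨s, b⟩
      · simp [gB]
      · simp [gB]
      · simp only [gB, left_inl]
        apply Pi.mulSingle_eq_of_ne
        intro h
        exact h1 s (h ▸ hq)
    rw [wx_mul_left, h3, one_mul, gB_right, left_inl]
    change autL (C.aa e) (C.cf R (n (some e)) ((C.ch e)⁻¹ q)) = _
    rw [cf, cut_of_mem (show (C.ch e)⁻¹ q ∈ R from hq')]
    rfl

theorem AA_Lam_inv (h1 : ∀ s, C.o s ∉ R) (h2 : ∀ s, FreeGroup.lift C.τ v (C.o s) ∉ R)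
    (e : Option (Ky I J S)) {q : X} (hq : q ∈ R) (hq' : C.cho e q ∈ R) (l : FP D) :
    AA (C.Lam n R v e).2⁻¹ q l =
      (cc (C.x0 (C.orb q)) (n e))⁻¹ * (autL (C.aao e)⁻¹ l) := by
  have h3 := AA_inv (C.Lam n R v e).2 q l
  have h4 : (C.Lam n R v e).2.right.2 = C.cho e := by rw [Lam_right]
  rw [h4, AA_Lam h1 h2 e hq' (by rwa [pinv]), pinv] at h3
  rw [← h3, ← MulAut.mul_apply, ← map_mul, inv_mul_cancel, map_one, MulAut.one_apply,
    inv_mul_cancel_left, h3]

theorem trace (h1 : ∀ s, C.o s ∉ R) (h2 : ∀ s, FreeGroup.lift C.τ v (C.o s) ∉ R)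
    (hn : Injective n) (w : List (Option (Ky I J S) × Bool)) : FreeGroup.IsReduced w →
    ∀ q, Vis (fun p => p ∈ R) C.cho w q → ∀ e b, (e, b) ∈ w.head? →
      AA (ev (fun e => (C.Lam n R v e).2) w) q 1 ∈ St D (pat (n e) ++ [if b then 0 else 2]) := by
  induction w with
  | nil => intro _ q _ e b h; simp at h
  | cons a w ih =>
    intro hred q hq e b hab
    obtain rfl : a = (e, b) := by simpa using hab
    have hred' : FreeGroup.IsReduced w := by
      unfold FreeGroup.IsReduced at hred ⊢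
      exact hred.tail
    -- the value of the rest
    have key : ∀ q', Vis (fun p => p ∈ R) C.cho w q' →
        AA (ev (fun e => (C.Lam n R v e).2) w) q' 1 ∉ St D (pat (n e) ++ [if b then 2 else 0]) := by
      intro q' hq'
      rcases w with _ | ⟨⟨e', b'⟩, w'⟩
      · have : AA (ev (fun e => (C.Lam n R v e).2) []) q' (1 : FP D) = 1 := by
          simp [ev, AA_one]
        rw [this]
        exact one_notMem_St _ _
      · intro h3
        have h4 := ih hred' q' hq' e' b' (by simp)
        obtain ⟨h5, h6⟩ := pat_dis h4 h3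
        have h7 : e = e' := (hn h5).symm
        have h8 : b = b' := by
          unfold FreeGroup.IsReduced at hred
          rw [List.isChain_cons_cons] at hred
          exact hred.1 h7
        subst h8
        rcases b with _ | _
        · exact absurd h6 (by decide)
        · exact absurd h6 (by decide)
    rcases b with _ | _
    · obtain ⟨k1, k2, k3⟩ := hq
      have e1 : ev (fun e => (C.Lam n R v e).2) ((e, false) :: w) =
          ((C.Lam n R v e).2)⁻¹ * ev (fun e => (C.Lam n R v e).2) w := by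
        simp [ev]
      have e2 : ((C.Lam n R v e).2)⁻¹.right.2⁻¹ = C.cho e := by
        rw [inv_right, Lam_right]
        simp
      rw [e1, AA_mul, e2, AA_Lam_inv h1 h2 e k1 k2]
      refine pong (C.hx0 _) _ fun h => ?_
      exact key _ k3 ((autL_mem_St_iff (C.aao e)⁻¹).1 h)
    · obtain ⟨k1, k2, k3⟩ := hq
      have e1 : ev (fun e => (C.Lam n R v e).2) ((e, true) :: w) =
          (C.Lam n R v e).2 * ev (fun e => (C.Lam n R v e).2) w := by
        simp [ev]
      have e2 : (C.Lam n R v e).2.right.2⁻¹ = (C.cho e)⁻¹ := by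
        rw [Lam_right]
      rw [e1, AA_mul, e2, AA_Lam h1 h2 e k1 k2]
      exact autL_mem_St _ (ping (C.hx0 _) _ (key _ k3))

variable (C)

theorem apx_free [Finite I] [Finite J] [Finite S] :
    Apx C.Bs (FreeGroup.of : Option (Ky I J S) → FreeGroup (Option (Ky I J S))) := by
  classical
  intro W
  -- the length
  obtain ⟨ρ, hρ⟩ : ∃ ρ : ℕ, ∀ w ∈ W, w.toWord.length ≤ ρ :=
    ⟨W.sup fun w => w.toWord.length, fun w hw => Finset.le_sup (f := fun w => w.toWord.length) hw⟩
  obtain ⟨N, ⟨eN⟩⟩ := Finite.exists_equiv_fin (Option (Ky I J S))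
  set n : Option (Ky I J S) → ℕ := fun e => (eN e : ℕ) with hn
  have hninj : Function.Injective n := fun a b h => eN.injective (Fin.ext h)
  -- the region
  have hXinf : ∀ F : Finset X, ∃ p, p ∉ F := by
    intro F
    obtain ⟨p⟩ := C.hne
    obtain ⟨u, hu⟩ := C.hsep (insert p F)
    exact ⟨_, fun h => hu p (Finset.mem_insert_self p F) (Finset.mem_insert_of_mem h)⟩
  have hBf := ball_finite C.cho ρ
  have hBo : (Set.image2 (fun (u : Equiv.Perm X) (s : S) => u⁻¹ (C.o s)) (Ball C.cho ρ)
      Set.univ).Finite := hBf.image2 _ Set.finite_univ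
  obtain ⟨q, hq⟩ := hXinf hBo.toFinset
  have hRf : ((fun u : Equiv.Perm X => u q) '' Ball C.cho ρ).Finite := hBf.image _
  set R : Finset X := hRf.toFinset with hR
  have hRm : ∀ u ∈ Ball C.cho ρ, u q ∈ R := fun u hu => hRf.mem_toFinset.mpr ⟨u, hu, rfl⟩
  have h1 : ∀ s, C.o s ∉ R := by
    intro s h
    obtain ⟨u, hu, hus⟩ := hRf.mem_toFinset.mp h
    apply hq
    refine hBo.mem_toFinset.mpr ⟨u, hu, s, Set.mem_univ _, ?_⟩
    change u⁻¹ (C.o s) = q
    rw [← hus, pinv]
  have hof : (Set.range C.o).Finite := Set.finite_range _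
  obtain ⟨v, hv⟩ := C.hsep (R ∪ hof.toFinset)
  have h2 : ∀ s, FreeGroup.lift C.τ v (C.o s) ∉ R := by
    intro s h
    exact hv (C.o s) (Finset.mem_union_right _ (hof.mem_toFinset.mpr ⟨s, rfl⟩))
      (Finset.mem_union_left _ h)
  have h3 : ∀ p ∈ R, FreeGroup.lift C.τ v p ∉ R := by
    intro p hp h
    exact hv p (Finset.mem_union_left _ hp) (Finset.mem_union_left _ h)
  obtain ⟨s, hs, hsw⟩ := exists_sub' (Bo_eq (C := C) (n := n) h1 h2 h3)
  refine ⟨s, hs, ?_⟩
  intro w hw
  have hid : FreeGroup.lift (FreeGroup.of : Option (Ky I J S) → _) w = w := by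
    rw [FreeGroup.lift_of_eq_id]
    rfl
  rw [hid]
  constructor
  · intro h
    by_contra hne
    have h4 : FreeGroup.lift (C.Lam n R v) w = 1 := by
      rw [← hsw w, h]
      rfl
    have h5 : FreeGroup.lift (fun e => (C.Lam n R v e).2) w = 1 := by
      have : (MonoidHom.snd H (WX X (FP D))).comp (FreeGroup.lift (C.Lam n R v)) =
          FreeGroup.lift (fun e => (C.Lam n R v e).2) := by
        ext e : 1
        simp
      rw [← this, MonoidHom.comp_apply, h4, map_one]
    have h6 : ev (fun e => (C.Lam n R v e).2) w.toWord = 1 := by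
      rw [ev_eq_lift, FreeGroup.mk_toWord, h5]
    have h7 : Vis (fun p => p ∈ R) C.cho w.toWord q := vis_of' hRm (hρ w hw)
    obtain ⟨⟨e, b⟩, L, hL⟩ : ∃ a L, w.toWord = a :: L := by
      rcases hl : w.toWord with _ | ⟨a, L⟩
      · exact absurd (FreeGroup.toWord_eq_nil_iff.mp hl) hne
      · exact ⟨a, L, rfl⟩
    have h8 := trace h1 h2 hninj w.toWord FreeGroup.isReduced_toWord q h7 e b (by rw [hL]; simp)
    rw [h6, AA_one] at h8
    exact one_notMem_St _ _ h8
  · intro h
    rw [h, map_one]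

include C in
/-- **Theorem T** (sites): `H` lies at distance at most three from a free group. -/
theorem main [Finite I] [Finite J] [Finite S] :
    ∃ (K B : Type) (_ : Group K) (_ : Group B) (k : Ky I J S → K),
      Subgroup.closure (Set.range k) = ⊤ ∧ Apx H k ∧ Preforms B K ∧
      Preforms B (FreeGroup (Fin (Nat.card (Option (Ky I J S))))) := by
  obtain ⟨K, hK, k, hk, h1, h2⟩ := C.exists_K
  refine ⟨K, C.Bs, hK, inferInstance, k, hk, h1, h2.preforms hk, ?_⟩
  have e : Option (Ky I J S) ≃ Fin (Nat.card (Option (Ky I J S))) := Finite.equivFin _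
  have h3 : Apx C.Bs (fun i => (FreeGroup.of (e i) : FreeGroup _)) := by
    intro W
    obtain ⟨s, hs, hw⟩ := C.apx_free W
    refine ⟨s, hs, fun w hwW => (hw w hwW).trans ?_⟩
    have h1 : FreeGroup.lift (fun i => (FreeGroup.of (e i) : FreeGroup _)) =
        ((FreeGroup.freeGroupCongr e).toMonoidHom : FreeGroup _ →* FreeGroup _).comp
          (FreeGroup.lift FreeGroup.of) := by
      ext i
      simp
    rw [h1, MonoidHom.comp_apply]
    exact ((FreeGroup.freeGroupCongr e).map_eq_one_iff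
      (x := FreeGroup.lift FreeGroup.of w)).symm
  refine h3.preforms ?_
  rw [show (fun i => FreeGroup.of (e i)) = FreeGroup.of ∘ e from rfl, Set.range_comp,
    e.surjective.range_eq, Set.image_univ]
  exact FreeGroup.closure_range_of _

end SCfg

end Pool.Agent.Work.MP_66343f_al
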