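import Pool.Agent.Work.MP_66343f_al.Basic
import Pool.Agent.Work.MP_66343f_al.PingPong

/-!
# MP_66343f_al: permutational wreath-like products with sites
-/

set_option autoImplicit false

namespace Pool.Agent.Work.MP_66343f_al

open SemidirectProduct

section defs
variable (X T : Type) [Group T]

/-- the action of `MulAut T × Perm X` on the functions `X → T` -/
def sx : MulAut T × Equiv.Perm X →* MulAut (X → T) where
  toFun a :=
    { toFun := fun f p => a.1 (f (a.2⁻¹ p))
      invFun := fun f p => a.1⁻¹ (f (a.2 p))
      left_inv := by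
        intro f
        funext p
        simp
      right_inv := by
        intro f
        funext p
        simp
      map_mul' := by
        intro f f'
        funext p
        simp }
  map_one' := by
    ext f p
    simp
  map_mul' := by
    intro a b
    ext f p
    simp

/-- the wreath-like product -/
abbrev WX : Type := (X → T) ⋊[sx X T] (MulAut T × Equiv.Perm X)

end defs

variable {X T : Type} [Group T]

theorem pinv (π : Equiv.Perm X) (p : X) : π⁻¹ (π p) = p := π.symm_apply_apply p

theorem pinv' (π : Equiv.Perm X) (p : X) : π (π⁻¹ p) = p := π.apply_symm_apply p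

theorem sx_apply (a : MulAut T × Equiv.Perm X) (f : X → T) (p : X) :
    sx X T a f p = a.1 (f (a.2⁻¹ p)) := rfl

open Classical in
theorem sx_single (a : MulAut T × Equiv.Perm X) (p : X) (l : T) :
    sx X T a (Pi.mulSingle p l) = Pi.mulSingle (a.2 p) (a.1 l) := by
  funext q
  rw [sx_apply]
  by_cases h : q = a.2 p
  · subst h
    rw [Pi.mulSingle_eq_same, pinv, Pi.mulSingle_eq_same]
  · rw [Pi.mulSingle_eq_of_ne h, Pi.mulSingle_eq_of_ne, map_one]
    intro h'
    exact h (by rw [← h', pinv'])

theorem wx_mul_left (a b : WX X T) (p : X) :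
    (a * b).left p = a.left p * a.right.1 (b.left (a.right.2⁻¹ p)) := by
  rw [mul_left]
  rfl

theorem wx_inv_left (a : WX X T) (p : X) :
    (a⁻¹).left p = a.right.1⁻¹ (a.left (a.right.2 p))⁻¹ := by
  rw [inv_left, sx_apply]
  simp

theorem wx_conj (a : WX X T) (f : X → T) :
    a * inl f * a⁻¹ = inl (fun p => a.left p * a.right.1 (f (a.right.2⁻¹ p)) * (a.left p)⁻¹) := by
  ext p
  · rw [left_inl, wx_mul_left, wx_mul_left, wx_inv_left, left_inl]
    simp
  · simp
  · simp

/-- the local map of an element: the map of the fibre over `a.right.2⁻¹ q` to the fibre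
over `q` -/
def AA (a : WX X T) (q : X) (l : T) : T := a.left q * a.right.1 l

theorem AA_one (q : X) (l : T) : AA (1 : WX X T) q l = l := by
  simp [AA]

theorem AA_mul (a b : WX X T) (q : X) (l : T) :
    AA (a * b) q l = AA a q (AA b (a.right.2⁻¹ q) l) := by
  unfold AA
  rw [wx_mul_left, mul_right, Prod.fst_mul, MulAut.mul_apply, map_mul, mul_assoc]

theorem AA_inv (a : WX X T) (q : X) (l : T) : AA a (a.right.2 q) (AA a⁻¹ q l) = l := by
  have h := AA_mul a a⁻¹ (a.right.2 q) l
  rw [mul_inv_cancel, AA_one, pinv] at h
  exact h.symm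

end Pool.Agent.Work.MP_66343f_al
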