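import Pool.Agent.Work.MP_66343f_al.Tstar

/-!
# MP_66343f_al: large actions, trajectories
-/

set_option autoImplicit false

namespace Pool.Agent.Work.MP_66343f_al

open Function

theorem sinv {X : Type} (π : Equiv.Perm X) (x : X) : π⁻¹ (π x) = x := π.symm_apply_apply x

theorem sinv' {X : Type} (π : Equiv.Perm X) (x : X) : π (π⁻¹ x) = x := π.apply_symm_apply x

section sep

variable {G X J : Type} [Group G]

/-- the orbit of `p` under the pointwise stabiliser of `T` -/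
def orbS (ρ : G →* Equiv.Perm X) (T : Set X) (p : X) : Set X :=
  {q | ∃ g : G, (∀ y ∈ T, ρ g y = y) ∧ ρ g p = q}

/-- `𝓘` is a proper ideal of subsets of `X` which contains the points and is invariant under `G`,
and for every finite set `T` the set of the points whose orbit under the pointwise stabiliser of
`T` is in `𝓘` is in `𝓘`. -/
structure LargeAction (ρ : G →* Equiv.Perm X) (𝓘 : Set (Set X)) : Prop where
  sub : ∀ S S' : Set X, S ⊆ S' → S' ∈ 𝓘 → S ∈ 𝓘
  uni : ∀ S S' : Set X, S ∈ 𝓘 → S' ∈ 𝓘 → S ∪ S' ∈ 𝓘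
  sing : ∀ x : X, {x} ∈ 𝓘
  proper : Set.univ ∉ 𝓘
  inv : ∀ (g : G) (S : Set X), S ∈ 𝓘 → ρ g '' S ∈ 𝓘
  clo : ∀ T : Set X, T.Finite → {p | orbS ρ T p ∈ 𝓘} ∈ 𝓘

variable {ρ : G →* Equiv.Perm X} {𝓘 : Set (Set X)}

/-- the closure -/
def Zc (ρ : G →* Equiv.Perm X) (𝓘 : Set (Set X)) (T : Set X) : Set X := {p | orbS ρ T p ∈ 𝓘}

theorem LargeAction.empty (h : LargeAction ρ 𝓘) : ∅ ∈ 𝓘 :=
  h.sub _ _ (Set.empty_subset _) (h.clo ∅ Set.finite_empty)

theorem Zc_image (h : LargeAction ρ 𝓘) (g : G) (T : Set X) {p : X} (hp : p ∈ Zc ρ 𝓘 T) :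
    ρ g p ∈ Zc ρ 𝓘 (ρ g '' T) := by
  refine h.sub _ _ ?_ (h.inv g _ hp)
  rintro _ ⟨k, hk, rfl⟩
  refine ⟨ρ (g⁻¹ * k * g) p, ⟨g⁻¹ * k * g, ?_, rfl⟩, ?_⟩
  · intro y hy
    simp only [map_mul, map_inv, Equiv.Perm.mul_apply]
    rw [hk _ ⟨y, hy, rfl⟩, sinv]
  · simp only [map_mul, map_inv, Equiv.Perm.mul_apply, sinv']

theorem Zc_image' (h : LargeAction ρ 𝓘) (g : G) (T : Set X) {p : X}
    (hp : ρ g p ∈ Zc ρ 𝓘 (ρ g '' T)) : p ∈ Zc ρ 𝓘 T := by
  have h1 := Zc_image h g⁻¹ _ hp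
  rw [map_inv, sinv, ← Set.image_comp] at h1
  have h2 : (⇑(ρ g)⁻¹ ∘ ⇑(ρ g)) '' T = T := by
    have : (⇑(ρ g)⁻¹ ∘ ⇑(ρ g)) = id := by
      funext x
      exact sinv _ x
    rw [this, Set.image_id]
  rwa [h2] at h1

/-- the orbits of the stabilisers are large -/
theorem sep_inf (T B : Set X) (p : X) (h : LargeAction ρ 𝓘) (hp : p ∉ Zc ρ 𝓘 T) (hB : B ∈ 𝓘) :
    ∃ g : G, (∀ y ∈ T, ρ g y = y) ∧ ρ g p ∉ B := by
  by_contra hcon
  push Not at hcon
  apply hp
  refine h.sub _ _ ?_ hB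
  rintro _ ⟨k, hk, rfl⟩
  exact hcon k hk

/-- the union of the closures of the subsets of a finite set -/
def Zu (ρ : G →* Equiv.Perm X) (𝓘 : Set (Set X)) (V : Set X) : Set X :=
  {x | ∃ Y, Y ⊆ V ∧ x ∈ Zc ρ 𝓘 Y}

theorem Zu_mem (h : LargeAction ρ 𝓘) {V : Set X} (hV : V.Finite) : Zu ρ 𝓘 V ∈ 𝓘 := by
  have key : ∀ 𝒴 : Set (Set X), 𝒴.Finite → (∀ Y ∈ 𝒴, Y.Finite) →
      {x | ∃ Y ∈ 𝒴, x ∈ Zc ρ 𝓘 Y} ∈ 𝓘 := by
    intro 𝒴 h𝒴
    induction 𝒴, h𝒴 using Set.Finite.induction_on with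
    | empty =>
      intro _
      have : {x | ∃ Y ∈ (∅ : Set (Set X)), x ∈ Zc ρ 𝓘 Y} = ∅ := by
        ext x
        simp
      rw [this]
      exact h.empty
    | @insert Y 𝒴 _ _ ih =>
      intro hf
      have h1 := ih fun Y' hY' => hf Y' (Set.mem_insert_of_mem _ hY')
      have h2 := h.clo Y (hf Y (Set.mem_insert _ _))
      refine h.sub _ _ ?_ (h.uni _ _ h2 h1)
      rintro x ⟨Y', hY', hx⟩
      rcases hY' with rfl | hY'
      · exact Or.inl hx
      · exact Or.inr ⟨Y', hY', hx⟩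
  refine h.sub _ _ ?_ (key {Y | Y ⊆ V} hV.finite_subsets fun Y hY => hV.subset hY)
  rintro x ⟨Y, hY, hx⟩
  exact ⟨Y, hY, hx⟩

/-- the value of a letter -/
def lt (u : J → G) (l : J × Bool) : G := cond l.2 (u l.1) (u l.1)⁻¹

theorem lt_true (u : J → G) (j : J) : lt u (j, true) = u j := rfl
theorem lt_false (u : J → G) (j : J) : lt u (j, false) = (u j)⁻¹ := rfl

/-- the value of a mixed word -/
def mv (u : J → G) : List (G × (J × Bool)) → G
  | [] => 1
  | a :: W => a.1 * lt u a.2 * mv u W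

/-- no backtracking -/
def NB : List (G × (J × Bool)) → Prop
  | [] => True
  | a :: W => (∀ b ∈ W.head?, a.2.1 = b.2.1 → a.2.2 = b.2.2) ∧ NB W

/-- the elements move the points as prescribed -/
def Cpt (ρ : G →* Equiv.Perm X) (u : J → G) (E : Set (J × X × X)) : Prop :=
  ∀ j a b, (j, a, b) ∈ E → ρ (u j) a = b

/-- the points with an edge with the letter `l` -/
def SL (E : Set (J × X × X)) (l : J × Bool) : Set X :=
  {q | cond l.2 (∃ b, (l.1, q, b) ∈ E) (∃ a, (l.1, a, q) ∈ E)}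

theorem mem_SL_true {E : Set (J × X × X)} {j : J} {q : X} :
    q ∈ SL E (j, true) ↔ ∃ b, (j, q, b) ∈ E := Iff.rfl

theorem mem_SL_false {E : Set (J × X × X)} {j : J} {q : X} :
    q ∈ SL E (j, false) ↔ ∃ a, (j, a, q) ∈ E := Iff.rfl

/-- the points of the edges -/
def Pt (E : Set (J × X × X)) : Set X := {x | ∃ e ∈ E, x = e.2.1 ∨ x = e.2.2}

theorem Pt_finite {E : Set (J × X × X)} (hE : E.Finite) : (Pt E).Finite := by
  refine ((hE.image fun e => e.2.1).union (hE.image fun e => e.2.2)).subset ?_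
  rintro x ⟨e, he, rfl | rfl⟩
  · exact Or.inl ⟨e, he, rfl⟩
  · exact Or.inr ⟨e, he, rfl⟩

theorem SL_subset (E : Set (J × X × X)) (l : J × Bool) : SL E l ⊆ Pt E := by
  obtain ⟨j, ε⟩ := l
  rcases ε with _ | _
  · rintro q ⟨a, ha⟩
    exact ⟨_, ha, Or.inr rfl⟩
  · rintro q ⟨b, hb⟩
    exact ⟨_, hb, Or.inl rfl⟩

/-- one step of the trajectory -/
theorem step (h : LargeAction ρ 𝓘) (E : Set (J × X × X)) (hE : E.Finite) (u : J → G)
    (hu : Cpt ρ u E) (q : X) (l : J × Bool) (hq : q ∉ Zc ρ 𝓘 (SL E l)) (c : G) (F : Set X)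
    (hF : F ∈ 𝓘) :
    ∃ (E' : Set (J × X × X)) (u' : J → G) (q' : X), E ⊆ E' ∧ E'.Finite ∧ Cpt ρ u' E' ∧
      (∀ u'' : J → G, Cpt ρ u'' E' → ρ (c * lt u'' l) q = q') ∧ q' ∉ F ∧
      ∀ l' : J × Bool, (l'.1 = l.1 → l'.2 = l.2) → q' ∉ Zc ρ 𝓘 (SL E' l') := by
  classical
  obtain ⟨j, ε⟩ := l
  set B : Set X := F ∪ Zu ρ 𝓘 (insert q (Pt E)) with hB
  have hBf : B ∈ 𝓘 := h.uni _ _ hF (Zu_mem h ((Pt_finite hE).insert q))
  have hB' : (ρ c⁻¹) '' B ∈ 𝓘 := h.inv _ _ hBf
  rcases ε with _ | _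
  · -- the letter is an inverse
    set Y : Set X := SL E (j, true) with hY
    have hYS : SL E (j, false) = ρ (u j) '' Y := by
      ext b
      rw [mem_SL_false]
      constructor
      · rintro ⟨a, ha⟩
        exact ⟨a, ⟨b, ha⟩, hu _ _ _ ha⟩
      · rintro ⟨a, ⟨b', hb'⟩, rfl⟩
        rw [hu _ _ _ hb']
        exact ⟨a, hb'⟩
    have hp : (ρ (u j))⁻¹ q ∉ Zc ρ 𝓘 Y := by
      intro h1
      apply hq
      have h2 := Zc_image h (u j) _ h1
      rwa [sinv', ← hYS] at h2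
    obtain ⟨g, hg, hgp⟩ := sep_inf Y _ _ h hp hB'
    set a0 : X := ρ g ((ρ (u j))⁻¹ q) with ha0
    have hca0B : ρ c a0 ∉ B := fun h => hgp ⟨_, h, by rw [map_inv, sinv]⟩
    refine ⟨insert (j, a0, q) E, Function.update u j (u j * g⁻¹), ρ c a0, Set.subset_insert _ _,
      hE.insert _, ?_, ?_, ?_, ?_⟩
    · intro j' a b hab
      rcases hab with hab | hab
      · simp only [Prod.mk.injEq] at hab
        obtain ⟨rfl, rfl, rfl⟩ := hab
        rw [Function.update_self, ha0]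
        simp only [map_mul, map_inv, Equiv.Perm.mul_apply, sinv, sinv']
      · by_cases hj : j' = j
        · subst hj
          rw [Function.update_self, map_mul, Equiv.Perm.mul_apply, map_inv]
          have h1 : ρ g a = a := hg a ⟨b, hab⟩
          have h2 : (ρ g)⁻¹ a = a := by
            rw [Equiv.Perm.inv_eq_iff_eq, h1]
          rw [h2]
          exact hu _ _ _ hab
        · rw [Function.update_of_ne hj]
          exact hu _ _ _ hab
    · intro u'' hu''
      have h1 := hu'' j a0 q (Or.inl rfl)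
      rw [lt_false, map_mul, Equiv.Perm.mul_apply, map_inv]
      congr 1
      rw [Equiv.Perm.inv_eq_iff_eq, h1]
    · intro h1
      exact hca0B (Or.inl h1)
    · rintro ⟨j', ε'⟩ hl' hmem
      refine hca0B (Or.inr ⟨_, ?_, hmem⟩)
      rcases ε' with _ | _
      · rintro b ⟨a, hb⟩
        rcases hb with hb | hb
        · simp only [Prod.mk.injEq] at hb
          exact Or.inl hb.2.2
        · exact Or.inr ⟨_, hb, Or.inr rfl⟩
      · rintro a ⟨b, hb⟩
        rcases hb with hb | hb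
        · simp only [Prod.mk.injEq] at hb
          exact absurd (hl' hb.1) (by simp)
        · exact Or.inr ⟨_, hb, Or.inl rfl⟩
  · -- the letter is positive
    set Y : Set X := SL E (j, false) with hY
    have hYS : Y = ρ (u j) '' SL E (j, true) := by
      ext b
      rw [hY, mem_SL_false]
      constructor
      · rintro ⟨a, ha⟩
        exact ⟨a, ⟨b, ha⟩, hu _ _ _ ha⟩
      · rintro ⟨a, ⟨b', hb'⟩, rfl⟩
        rw [hu _ _ _ hb']
        exact ⟨a, hb'⟩
    have hp : ρ (u j) q ∉ Zc ρ 𝓘 Y := by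
      intro h1
      rw [hYS] at h1
      exact hq (Zc_image' h (u j) _ h1)
    obtain ⟨g, hg, hgp⟩ := sep_inf Y _ _ h hp hB'
    set b0 : X := ρ g (ρ (u j) q) with hb0
    have hcb0B : ρ c b0 ∉ B := fun h => hgp ⟨_, h, by rw [map_inv, sinv]⟩
    refine ⟨insert (j, q, b0) E, Function.update u j (g * u j), ρ c b0, Set.subset_insert _ _,
      hE.insert _, ?_, ?_, ?_, ?_⟩
    · intro j' a b hab
      rcases hab with hab | hab
      · simp only [Prod.mk.injEq] at hab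
        obtain ⟨rfl, rfl, rfl⟩ := hab
        rw [Function.update_self, map_mul, Equiv.Perm.mul_apply]
      · by_cases hj : j' = j
        · subst hj
          rw [Function.update_self, map_mul, Equiv.Perm.mul_apply, hu _ _ _ hab]
          exact hg b ⟨a, hab⟩
        · rw [Function.update_of_ne hj]
          exact hu _ _ _ hab
    · intro u'' hu''
      have h1 := hu'' j q b0 (Or.inl rfl)
      rw [lt_true, map_mul, Equiv.Perm.mul_apply, h1]
    · intro h1
      exact hcb0B (Or.inl h1)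
    · rintro ⟨j', ε'⟩ hl' hmem
      refine hcb0B (Or.inr ⟨_, ?_, hmem⟩)
      rcases ε' with _ | _
      · rintro b ⟨a, hb⟩
        rcases hb with hb | hb
        · simp only [Prod.mk.injEq] at hb
          exact absurd (hl' hb.1) (by simp)
        · exact Or.inr ⟨_, hb, Or.inr rfl⟩
      · rintro a ⟨b, hb⟩
        rcases hb with hb | hb
        · simp only [Prod.mk.injEq] at hb
          exact Or.inl hb.2.1
        · exact Or.inr ⟨_, hb, Or.inl rfl⟩

/-- the trajectory of a point under a mixed word without backtracking -/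
theorem traj (h : LargeAction ρ 𝓘) (E : Set (J × X × X)) (hE : E.Finite) (u : J → G)
    (hu : Cpt ρ u E) (p : X) (hp : p ∉ Zu ρ 𝓘 (Pt E)) (W : List (G × (J × Bool))) :
    NB W → ∀ F ∈ 𝓘,
    ∃ (E' : Set (J × X × X)) (u' : J → G) (q' : X), E ⊆ E' ∧ E'.Finite ∧ Cpt ρ u' E' ∧
      (∀ u'' : J → G, Cpt ρ u'' E' → ρ (mv u'' W) p = q') ∧ (W ≠ [] → q' ∉ F) ∧
      ∀ l' : J × Bool, (∀ b ∈ W.head?, l'.1 = b.2.1 → l'.2 = b.2.2) →
        q' ∉ Zc ρ 𝓘 (SL E' l') := by
  induction W with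
  | nil =>
    intro _ F _
    refine ⟨E, u, p, subset_rfl, hE, hu, ?_, fun h => absurd rfl h,
      fun l' _ hmem => hp ⟨_, SL_subset E l', hmem⟩⟩
    intro u'' _
    simp [mv]
  | cons a W ih =>
    obtain ⟨c, l⟩ := a
    rintro ⟨hn, hW⟩ F hF
    obtain ⟨E1, u1, q1, h1, h2, h3, h4, _, h6⟩ := ih hW ∅ h.empty
    obtain ⟨E2, u2, q2, k1, k2, k3, k4, k5, k6⟩ := step h E1 h2 u1 h3 q1 l (h6 l hn) c F hF
    refine ⟨E2, u2, q2, h1.trans k1, k2, k3, ?_, fun _ => k5, ?_⟩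
    · intro u'' hu''
      rw [mv, map_mul, Equiv.Perm.mul_apply, h4 u'' (fun j a b hab => hu'' j a b (k1 hab))]
      exact k4 u'' hu''
    · intro l' hl'
      exact k6 l' (hl' (c, l) rfl)

/-- finitely many nonempty mixed words without backtracking are simultaneously nontrivial -/
theorem exists_u (h : LargeAction ρ 𝓘) (Ws : List (List (G × (J × Bool))))
    (hW : ∀ W ∈ Ws, NB W ∧ W ≠ []) : ∃ u : J → G, ∀ W ∈ Ws, mv u W ≠ 1 := by
  have key : ∃ (E : Set (J × X × X)) (u : J → G), E.Finite ∧ Cpt ρ u E ∧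
      ∀ u', Cpt ρ u' E → ∀ W ∈ Ws, mv u' W ≠ 1 := by
    induction Ws with
    | nil =>
      exact ⟨∅, fun _ => 1, Set.finite_empty, fun _ _ _ h => absurd h (Set.notMem_empty _),
        fun _ _ W hW => absurd hW List.not_mem_nil⟩
    | cons W Ws ih =>
      obtain ⟨E, u, hE, hu, hall⟩ := ih fun W hW' => hW W (List.mem_cons_of_mem _ hW')
      obtain ⟨p, hp⟩ : ∃ p, p ∉ Zu ρ 𝓘 (Pt E) := by
        by_contra hcon
        push Not at hcon
        exact h.proper (h.sub _ _ (fun p _ => hcon p) (Zu_mem h (Pt_finite hE)))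
      obtain ⟨E', u', q', h1, h2, h3, h4, h5, _⟩ := traj h E hE u hu _ hp W
        (hW W List.mem_cons_self).1 {p} (h.sing p)
      refine ⟨E', u', h2, h3, ?_⟩
      intro u'' hu'' V hV
      rcases List.mem_cons.mp hV with rfl | hV
      · intro h6
        have h7 := h4 u'' hu''
        rw [h6, map_one, Equiv.Perm.one_apply] at h7
        exact h5 (hW _ List.mem_cons_self).2 h7.symm
      · exact hall u'' (fun j a b hab => hu'' j a b (h1 hab)) V hV
  obtain ⟨E, u, _, hu, hall⟩ := key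
  exact ⟨u, hall u hu⟩

/-- Abert's condition: the pointwise stabiliser of a finite set fixes no further point -/
def Separates (ρ : G →* Equiv.Perm X) : Prop :=
  ∀ (Y : Finset X) (p : X), p ∉ Y → ∃ g : G, (∀ y ∈ Y, ρ g y = y) ∧ ρ g p ≠ p

theorem Separates.large [hX : Nonempty X] (h : Separates ρ) : LargeAction ρ {S | S.Finite} := by
  classical
  have key : ∀ T : Set X, T.Finite → {p | (orbS ρ T p).Finite} ⊆ T := by
    intro T hT p hp
    by_contra hpT
    have hO : ((orbS ρ T p) \ {p}).Finite := hp.subset Set.sdiff_subset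
    obtain ⟨g, hg, hgp⟩ := h (hT.toFinset ∪ hO.toFinset) p (by
      rw [Finset.mem_union, Set.Finite.mem_toFinset, Set.Finite.mem_toFinset]
      rintro (h1 | h1)
      · exact hpT h1
      · exact h1.2 rfl)
    have hgT : ∀ y ∈ T, ρ g y = y := fun y hy =>
      hg y (Finset.mem_union_left _ ((Set.Finite.mem_toFinset _).mpr hy))
    have h2 := hg _ (Finset.mem_union_right _ ((Set.Finite.mem_toFinset _).mpr
      (⟨⟨g, hgT, rfl⟩, hgp⟩ : ρ g p ∈ (orbS ρ T p) \ {p})))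
    exact hgp ((ρ g).injective h2)
  refine ⟨fun S S' hS hS' => hS'.subset hS, fun S S' hS hS' => hS.union hS',
    fun x => Set.finite_singleton x, ?_, fun g S hS => hS.image _,
    fun T hT => hT.subset (key T hT)⟩
  intro huniv
  obtain ⟨p⟩ := hX
  have h1 : p ∈ (∅ : Set X) := key ∅ Set.finite_empty
    ((show (Set.univ : Set X).Finite from huniv).subset (Set.subset_univ _))
  exact h1

end sep

end Pool.Agent.Work.MP_66343f_al
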