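import Pool.Agent.Work.MP_66343f_al.Sep

/-!
# MP_66343f_al: groups separating a set, the normal form
-/

set_option autoImplicit false

namespace Pool.Agent.Work.MP_66343f_al

open Function

section nf

variable {G I Z : Type} [Group G]

/-- the generating tuple -/
def TT (s : I → G) (zf : I → Z) (A : ℕ) (u : Option Z → G) : I ⊕ Option Z → G
  | .inl i => u none ^ A * u (some (zf i)) * s i * u (some (zf i)) * u none ^ A
  | .inr j => u j

theorem TT_closure (s : I → G) (hs : Subgroup.closure (Set.range s) = ⊤) (zf : I → Z) (A : ℕ)
    (u : Option Z → G) : Subgroup.closure (Set.range (TT s zf A u)) = ⊤ := by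
  rw [eq_top_iff, ← hs, Subgroup.closure_le]
  rintro _ ⟨i, rfl⟩
  have h1 : TT s zf A u (.inl i) ∈ Subgroup.closure (Set.range (TT s zf A u)) :=
    Subgroup.subset_closure ⟨_, rfl⟩
  have h2 : ∀ j, u j ∈ Subgroup.closure (Set.range (TT s zf A u)) := fun j =>
    Subgroup.subset_closure ⟨.inr j, rfl⟩
  have h3 : s i = (u (some (zf i)))⁻¹ * (u none ^ A)⁻¹ * TT s zf A u (.inl i) *
      (u none ^ A)⁻¹ * (u (some (zf i)))⁻¹ := by
    rw [TT]
    group
  rw [h3]
  exact mul_mem (mul_mem (mul_mem (mul_mem (inv_mem (h2 _)) (inv_mem (pow_mem (h2 _) _))) h1)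
    (inv_mem (pow_mem (h2 _) _))) (inv_mem (h2 _))

/-- the power of the first letter -/
def xr (G : Type) [Group G] {Z : Type} (ε : Bool) (m : ℕ) : List (G × (Option Z × Bool)) :=
  List.replicate m (1, (none, ε))

theorem mv_xr (u : Option Z → G) (ε : Bool) (m : ℕ) (W : List (G × (Option Z × Bool))) :
    mv u (xr G ε m ++ W) = lt u (none, ε) ^ m * mv u W := by
  induction m with
  | zero => simp [xr]
  | succ m ih =>
    have : xr G ε (m + 1) ++ W = (1, (none, ε)) :: (xr G ε m ++ W) := by
      rw [xr, List.replicate_succ]
      rfl
    rw [this, mv, ih, pow_succ']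
    simp only [one_mul, mul_assoc]

theorem NB_xr (ε : Bool) (m : ℕ) (W : List (G × (Option Z × Bool))) (hW : NB W)
    (hh : ∀ a ∈ W.head?, a.2.1 ≠ none) : NB (xr G ε m ++ W) := by
  induction m with
  | zero => simpa [xr] using hW
  | succ m ih =>
    have : xr G ε (m + 1) ++ W = (1, (none, ε)) :: (xr G ε m ++ W) := by
      rw [xr, List.replicate_succ]
      rfl
    rw [this]
    refine ⟨?_, ih⟩
    intro b hb h1
    rcases m with _ | m
    · simp only [xr, List.replicate_zero, List.nil_append] at hb
      exact absurd h1.symm (hh b hb)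
    · rw [xr, List.replicate_succ, List.cons_append, List.head?_cons, Option.mem_some_iff] at hb
      rw [← hb]

/-- the integral power of the first letter -/
def xz (G : Type) [Group G] {Z : Type} (n : ℤ) : List (G × (Option Z × Bool)) :=
  xr G (decide (0 < n)) n.natAbs

theorem mv_xz (u : Option Z → G) (n : ℤ) (W : List (G × (Option Z × Bool))) :
    mv u (xz G n ++ W) = u none ^ n * mv u W := by
  rw [xz, mv_xr]
  congr 1
  rcases lt_trichotomy n 0 with h | h | h
  · rw [decide_eq_false (by omega), lt_false]
    obtain ⟨m, rfl⟩ : ∃ m : ℕ, n = -m := ⟨n.natAbs, by omega⟩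
    rw [Int.natAbs_neg, Int.natAbs_natCast, zpow_neg, zpow_natCast, inv_pow]
  · subst h
    simp
  · rw [decide_eq_true h, lt_true]
    obtain ⟨m, rfl⟩ : ∃ m : ℕ, n = m := ⟨n.natAbs, by omega⟩
    rw [Int.natAbs_natCast, zpow_natCast]

theorem NB_xz (n : ℤ) (W : List (G × (Option Z × Bool))) (hW : NB W)
    (hh : ∀ a ∈ W.head?, a.2.1 ≠ none) : NB (xz G n ++ W) := NB_xr _ _ W hW hh

theorem head_xz {n : ℤ} (hn : n ≠ 0) (W : List (G × (Option Z × Bool))) {b : G × (Option Z × Bool)}
    (hb : b ∈ (xz G n ++ W).head?) : b.2.1 = none := by
  obtain ⟨m, hm⟩ : ∃ m, n.natAbs = m + 1 := ⟨n.natAbs - 1, by omega⟩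
  rw [xz, hm, xr, List.replicate_succ, List.cons_append, List.head?_cons, Option.mem_some_iff] at hb
  rw [← hb]

theorem xz_zero (W : List (G × (Option Z × Bool))) : xz G 0 ++ W = W := by
  simp [xz, xr]

/-- the base exponents -/
def bs (A : ℕ) : Option Bool → ℤ
  | none => 0
  | some true => A
  | some false => -A

/-- the condition on the normal form -/
def Cnd (zf : I → Z) (L : List ((I ⊕ Option Z) × Bool)) (b : Option Bool) (n : ℤ)
    (W : List (G × (Option Z × Bool))) : Prop :=
  (0 < n → ∃ L', L = (Sum.inr none, true) :: L') ∧
  (n < 0 → ∃ L', L = (Sum.inr none, false) :: L') ∧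
  (n = 0 → b = none → (L = [] ∧ W = []) ∨ ∃ z ε L' c W', L = (Sum.inr (some z), ε) :: L' ∧
    W = (c, (some z, ε)) :: W') ∧
  (n = 0 → ∀ ε, b = some ε → ∃ i L' c W', L = (Sum.inl i, ε) :: L' ∧
    W = (c, (some (zf i), ε)) :: W')

theorem ev_cons (t : I ⊕ Option Z → G) (l : (I ⊕ Option Z) × Bool)
    (L : List ((I ⊕ Option Z) × Bool)) : ev t (l :: L) = cond l.2 (t l.1) (t l.1)⁻¹ * ev t L := by
  simp [ev]

theorem nf (s : I → G) (zf : I → Z) (hzf : Injective zf) (A : ℕ)
    (L : List ((I ⊕ Option Z) × Bool)) : FreeGroup.IsReduced L → L.length < A →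
    ∃ (b : Option Bool) (n : ℤ) (W : List (G × (Option Z × Bool))),
      (∀ u : Option Z → G, ev (TT s zf A u) L = u none ^ (bs A b + n) * mv u W) ∧ NB W ∧
      (∀ a ∈ W.head?, a.2.1 ≠ none) ∧ |n| ≤ L.length ∧ Cnd zf L b n W := by
  induction L with
  | nil =>
    intro _ _
    refine ⟨none, 0, [], ?_, trivial, ?_, by simp, ?_, ?_, ?_, ?_⟩
    · intro u
      simp [ev, bs, mv]
    · intro a ha
      simp at ha
    · intro h; omega
    · intro h; omega
    · intro _ _; exact Or.inl ⟨rfl, rfl⟩
    · intro _ ε h; simp at h
  | cons l L ih =>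
    intro hred hlen
    rw [List.length_cons] at hlen
    have hredL : FreeGroup.IsReduced L := List.IsChain.tail hred
    have hadj : ∀ l' L', L = l' :: L' → l.1 = l'.1 → l.2 = l'.2 := by
      rintro l' L' rfl h
      exact (List.isChain_cons_cons.mp hred).1 h
    obtain ⟨b, n, W, h1, h2, h3, h4, c1, c2, c3, c4⟩ := ih hredL (by omega)
    rw [abs_le] at h4
    obtain ⟨e, ε⟩ := l
    rcases e with i | j
    · -- the letters with constants
      rcases ε with _ | _
      · set e : ℤ := bs A b + n - A with he
        refine ⟨some false, 0, (1, (some (zf i), false)) :: ((s i)⁻¹, (some (zf i), false)) ::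
          (xz G e ++ W), ?_, ⟨?_, ?_, NB_xz e W h2 h3⟩, ?_, ?_, ?_, ?_, ?_, ?_⟩
        · intro u
          rw [ev_cons, h1 u]
          simp only [cond_false, TT, mv, mv_xz, lt_false, bs, he, add_zero, zpow_neg, zpow_natCast,
            mul_inv_rev, one_mul, zpow_sub, zpow_add]
          group
        · intro b' hb' _
          rw [List.head?_cons, Option.mem_some_iff] at hb'
          rw [← hb']
        · intro b' hb' h5
          by_cases he0 : e = 0
          · rw [he0, xz_zero] at hb'
            have hb1 : b = some true ∧ n = 0 := by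
              rcases b with _ | (_ | _)
              · simp only [bs] at he; exfalso; omega
              · simp only [bs] at he; exfalso; omega
              · simp only [bs] at he; exact ⟨rfl, by omega⟩
            obtain ⟨i', L', c, W', h6, h7⟩ := c4 hb1.2 true hb1.1
            rw [h7, List.head?_cons, Option.mem_some_iff] at hb'
            rw [← hb'] at h5 ⊢
            simp only [Option.some.injEq] at h5
            have h8 := hadj _ _ h6
            simp only [Sum.inl.injEq] at h8
            exact h8 (hzf h5)
          · have := head_xz he0 W hb'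
            rw [this] at h5
            simp at h5
        · intro a ha
          rw [List.head?_cons, Option.mem_some_iff] at ha
          rw [← ha]
          simp
        · simp; omega
        · intro h; omega
        · intro h; omega
        · intro _ h; simp at h
        · intro _ ε' h
          simp only [Option.some.injEq] at h
          subst h
          exact ⟨i, L, _, _, rfl, rfl⟩
      · set e : ℤ := A + (bs A b + n) with he
        refine ⟨some true, 0, (1, (some (zf i), true)) :: (s i, (some (zf i), true)) ::
          (xz G e ++ W), ?_, ⟨?_, ?_, NB_xz e W h2 h3⟩, ?_, ?_, ?_, ?_, ?_, ?_⟩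
        · intro u
          rw [ev_cons, h1 u]
          simp only [cond_true, TT, mv, mv_xz, lt_true, bs, he, add_zero, zpow_natCast,
            one_mul, zpow_add]
          group
        · intro b' hb' _
          rw [List.head?_cons, Option.mem_some_iff] at hb'
          rw [← hb']
        · intro b' hb' h5
          by_cases he0 : e = 0
          · rw [he0, xz_zero] at hb'
            have hb1 : b = some false ∧ n = 0 := by
              rcases b with _ | (_ | _)
              · simp only [bs] at he; exfalso; omega
              · simp only [bs] at he; exact ⟨rfl, by omega⟩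
              · simp only [bs] at he; exfalso; omega
            obtain ⟨i', L', c, W', h6, h7⟩ := c4 hb1.2 false hb1.1
            rw [h7, List.head?_cons, Option.mem_some_iff] at hb'
            rw [← hb'] at h5 ⊢
            simp only [Option.some.injEq] at h5
            have h8 := hadj _ _ h6
            simp only [Sum.inl.injEq] at h8
            exact h8 (hzf h5)
          · have := head_xz he0 W hb'
            rw [this] at h5
            simp at h5
        · intro a ha
          rw [List.head?_cons, Option.mem_some_iff] at ha
          rw [← ha]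
          simp
        · simp; omega
        · intro h; omega
        · intro h; omega
        · intro _ h; simp at h
        · intro _ ε' h
          simp only [Option.some.injEq] at h
          subst h
          exact ⟨i, L, _, _, rfl, rfl⟩
    · rcases j with _ | z
      · -- the letter `x`
        rcases ε with _ | _
        · refine ⟨b, n - 1, W, ?_, h2, h3, ?_, ?_, ?_, ?_, ?_⟩
          · intro u
            rw [ev_cons, h1 u]
            simp only [cond_false, TT]
            rw [← add_sub_assoc, zpow_sub_one, ← mul_assoc]
            congr 1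
            exact ((Commute.refl (u none)).inv_left.zpow_right _).eq
          · rw [abs_le, List.length_cons]
            push_cast
            omega
          · intro h
            obtain ⟨L', hL'⟩ := c1 (by omega)
            have := hadj _ _ hL' rfl
            simp at this
          · intro _; exact ⟨L, rfl⟩
          · intro h _
            obtain ⟨L', hL'⟩ := c1 (by omega)
            have := hadj _ _ hL' rfl
            simp at this
          · intro h _ _
            obtain ⟨L', hL'⟩ := c1 (by omega)
            have := hadj _ _ hL' rfl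
            simp at this
        · refine ⟨b, n + 1, W, ?_, h2, h3, ?_, ?_, ?_, ?_, ?_⟩
          · intro u
            rw [ev_cons, h1 u]
            simp only [cond_true, TT]
            rw [← add_assoc, zpow_add_one, ← mul_assoc]
            congr 1
            exact ((Commute.refl (u none)).zpow_right _).eq
          · rw [abs_le, List.length_cons]
            push_cast
            omega
          · intro _; exact ⟨L, rfl⟩
          · intro h
            obtain ⟨L', hL'⟩ := c2 (by omega)
            have := hadj _ _ hL' rfl
            simp at this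
          · intro h _
            obtain ⟨L', hL'⟩ := c2 (by omega)
            have := hadj _ _ hL' rfl
            simp at this
          · intro h _ _
            obtain ⟨L', hL'⟩ := c2 (by omega)
            have := hadj _ _ hL' rfl
            simp at this
      · -- the other letters
        set e : ℤ := bs A b + n with he
        refine ⟨none, 0, (1, (some z, ε)) :: (xz G e ++ W), ?_, ⟨?_, NB_xz e W h2 h3⟩, ?_, ?_,
          ?_, ?_, ?_, ?_⟩
        · intro u
          rw [ev_cons, h1 u, mv, mv_xz]
          simp only [bs, TT, add_zero, zpow_zero, one_mul]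
          rfl
        · intro b' hb' h5
          by_cases he0 : e = 0
          · rw [he0, xz_zero] at hb'
            have hb1 : b = none ∧ n = 0 := by
              rcases b with _ | (_ | _)
              · simp only [bs] at he; exact ⟨rfl, by omega⟩
              · simp only [bs] at he; exfalso; omega
              · simp only [bs] at he; exfalso; omega
            rcases c3 hb1.2 hb1.1 with ⟨_, hW⟩ | ⟨z', ε', L', c, W', h6, h7⟩
            · rw [hW] at hb'
              simp at hb'
            · rw [h7, List.head?_cons, Option.mem_some_iff] at hb'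
              rw [← hb'] at h5 ⊢
              simp only at h5 ⊢
              refine hadj _ _ h6 ?_
              simp only [Sum.inr.injEq]
              exact h5
          · have := head_xz he0 W hb'
            rw [this] at h5
            simp at h5
        · intro a ha
          rw [List.head?_cons, Option.mem_some_iff] at ha
          rw [← ha]
          simp
        · simp; omega
        · intro h; omega
        · intro h; omega
        · intro _ _
          exact Or.inr ⟨z, ε, L, _, _, rfl, rfl⟩
        · intro _ ε' h; simp at h

/-- the value of a nonempty reduced word is the value of a nonempty mixed word -/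
theorem nf' (s : I → G) (zf : I → Z) (hzf : Injective zf) (A : ℕ)
    (L : List ((I ⊕ Option Z) × Bool)) (hL : FreeGroup.IsReduced L) (hA : L.length < A)
    (hne : L ≠ []) : ∃ W : List (G × (Option Z × Bool)), NB W ∧ W ≠ [] ∧
      ∀ u : Option Z → G, ev (TT s zf A u) L = mv u W := by
  obtain ⟨b, n, W, h1, h2, h3, h4, c1, c2, c3, c4⟩ := nf s zf hzf A L hL hA
  refine ⟨xz G (bs A b + n) ++ W, NB_xz _ _ h2 h3, ?_, fun u => by rw [h1 u, mv_xz]⟩
  by_cases he : bs A b + n = 0
  · rw [he, xz_zero]
    rw [abs_le] at h4
    have hb1 : b = none ∧ n = 0 := by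
      rcases b with _ | (_ | _)
      · simp only [bs] at he; exact ⟨rfl, by omega⟩
      · simp only [bs] at he; exfalso; omega
      · simp only [bs] at he; exfalso; omega
    rcases c3 hb1.2 hb1.1 with ⟨h5, _⟩ | ⟨z', ε', L', c, W', _, h7⟩
    · exact absurd h5 hne
    · rw [h7]
      simp
  · intro h
    have h5 : xz (Z := Z) G (bs A b + n) = [] := (List.append_eq_nil_iff.mp h).1
    obtain ⟨m, hm⟩ : ∃ m, (bs A b + n).natAbs = m + 1 := ⟨(bs A b + n).natAbs - 1, by omega⟩
    rw [xz, hm, xr, List.replicate_succ] at h5
    simp at h5

/-- **infinite girth** -/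
theorem sep_apx {X : Type} {ρ : G →* Equiv.Perm X} {𝓘 : Set (Set X)} (h : LargeAction ρ 𝓘)
    (s : I → G)
    (hs : Subgroup.closure (Set.range s) = ⊤) (zf : I → Z) (hzf : Injective zf) :
    Apx G (FreeGroup.of : I ⊕ Option Z → FreeGroup (I ⊕ Option Z)) := by
  classical
  intro Ws
  obtain ⟨A, hA⟩ : ∃ A : ℕ, ∀ w ∈ Ws, w.toWord.length < A := by
    refine ⟨Ws.sup (fun w => w.toWord.length) + 1, fun w hw => ?_⟩
    have := Finset.le_sup (f := fun w : FreeGroup (I ⊕ Option Z) => w.toWord.length) hw
    omega
  have h1 : ∀ w ∈ Ws.filter (· ≠ 1), ∃ W : List (G × (Option Z × Bool)), NB W ∧ W ≠ [] ∧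
      ∀ u : Option Z → G, ev (TT s zf A u) w.toWord = mv u W := by
    intro w hw
    obtain ⟨hw1, hw2⟩ := Finset.mem_filter.mp hw
    exact nf' s zf hzf A _ FreeGroup.isReduced_toWord (hA w hw1)
      (fun h => hw2 (FreeGroup.toWord_eq_nil_iff.mp h))
  choose! f hf1 hf2 hf3 using h1
  obtain ⟨u, hu⟩ := exists_u (J := Option Z) h (((Ws.filter (· ≠ 1)).toList).map f) (by
    intro W hW
    obtain ⟨w, hw, rfl⟩ := List.mem_map.mp hW
    rw [Finset.mem_toList] at hw
    exact ⟨hf1 w hw, hf2 w hw⟩)
  refine ⟨TT s zf A u, TT_closure s hs zf A u, ?_⟩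
  intro w hw
  have hid : FreeGroup.lift (FreeGroup.of : I ⊕ Option Z → _) w = w := by
    rw [FreeGroup.lift_of_eq_id]
    rfl
  rw [hid]
  constructor
  · intro h2
    by_contra hne
    have hw' : w ∈ Ws.filter (· ≠ 1) := Finset.mem_filter.mpr ⟨hw, hne⟩
    apply hu (f w) (List.mem_map.mpr ⟨w, Finset.mem_toList.mpr hw', rfl⟩)
    rw [← hf3 w hw', ev_eq_lift, FreeGroup.mk_toWord, h2]
  · intro h2
    rw [h2, map_one]

end nf

end Pool.Agent.Work.MP_66343f_al
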