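import Pool.Agent.Work.MP_66343f_al.STstar

/-!
# MP_66343f_al: configurations with transport by all letters
-/

set_option autoImplicit false

namespace Pool.Agent.Work.MP_66343f_al

open SemidirectProduct Filter Function

/-- the letters -/
abbrev Kt (I : Type) : Type := I ⊕ Fin 3

open Classical in
/-- A group `H` with generators `g i` (automorphisms of the fibre and permutations of the sites) and
`x` (supported at the site `o`). -/
structure TCfg (H X D I : Type) [Group H] [Group D] where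
  Φ : H →* WX X D
  g : I → H
  x : H
  α : I → MulAut D
  π : I → Equiv.Perm X
  o : X
  x0 : D
  hg : ∀ i, Φ (g i) = inr (α i, π i)
  hx : Φ x = inl (Pi.mulSingle o x0)
  hgen : Subgroup.closure (Set.range (Sum.elim g fun _ : Unit => x)) = ⊤
  htr : ∀ p, ∃ v : FreeGroup I, FreeGroup.lift π v o = p
  hx0 : x0 ≠ 1
  hinf : Infinite X

namespace TCfg

variable {H X D I T : Type} [Group H] [Group D] [Group T] (C : TCfg H X D I)

/-- the automorphism of a letter -/
def aa : Kt I → MulAut D
  | .inl i => C.α i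
  | _ => 1

/-- the permutation of a letter -/
def ch : Kt I → Equiv.Perm X
  | .inl i => C.π i
  | _ => 1

open Classical in
/-- the letters with the copy `b` of `x` at the site `pos b` -/
noncomputable def pl (aT : MulAut D →* MulAut T) (io : Fin 3 → D →* T) (pos : Fin 3 → X)
    (val : Fin 3 → D) : Kt I → WX X T
  | .inl i => inr (aT (C.α i), C.π i)
  | .inr b => inl (Pi.mulSingle (pos b) (io b (val b)))

theorem pl_right (aT : MulAut D →* MulAut T) (io : Fin 3 → D →* T) (pos : Fin 3 → X)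
    (val : Fin 3 → D) (e : Kt I) : (C.pl aT io pos val e).right = (aT (C.aa e), C.ch e) := by
  rcases e with i | b
  · simp [pl, aa, ch]
  · simp [pl, aa, ch]
    rfl

theorem lift_pl_right (aT : MulAut D →* MulAut T) (io : Fin 3 → D →* T) (pos : Fin 3 → X)
    (val : Fin 3 → D) (w : FreeGroup (Kt I)) : (FreeGroup.lift (C.pl aT io pos val) w).right =
      (aT (FreeGroup.lift C.aa w), FreeGroup.lift C.ch w) := by
  have : rightHom.comp (FreeGroup.lift (C.pl aT io pos val)) =
      (aT.comp (FreeGroup.lift C.aa)).prod (FreeGroup.lift C.ch) := by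
    ext e : 1
    simp only [MonoidHom.comp_apply, FreeGroup.lift_apply_of, MonoidHom.prod_apply,
      rightHom_eq_right, pl_right]
  exact DFunLike.congr_fun this w

/-- the other copies are not visited -/
def Oth (pos : Fin 3 → X) (b : Fin 3) (p : X) : Prop := ∀ c, c ≠ b → p ≠ pos c

theorem pl_left {aT : MulAut D →* MulAut T} {io : Fin 3 → D →* T} {pos : Fin 3 → X}
    {val : Fin 3 → D} {b : Fin 3} {q : X} (h : Oth pos b q) (e : Kt I) :
    (C.pl aT io pos val e).left q =
      io b ((C.pl (MonoidHom.id _) (fun _ => MonoidHom.id D) pos val e).left q) := by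
  classical
  rcases e with i | c
  · simp [pl]
  · simp only [pl, left_inl]
    by_cases hq : q = pos c
    · have hc : c = b := by
        by_contra hc
        exact h c hc hq
      subst hc hq
      rw [Pi.mulSingle_eq_same, Pi.mulSingle_eq_same]
      rfl
    · rw [Pi.mulSingle_eq_of_ne hq, Pi.mulSingle_eq_of_ne hq, map_one]

theorem loc {aT : MulAut D →* MulAut T} {io : Fin 3 → D →* T} {pos : Fin 3 → X}
    {val : Fin 3 → D}
    (hio : ∀ a b d, aT a (io b d) = io b (a d)) (b : Fin 3) (w : List (Kt I × Bool)) :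
    ∀ q, Vis (Oth pos b) C.ch w q → (ev (C.pl aT io pos val) w).left q =
      io b ((ev (C.pl (MonoidHom.id _) (fun _ => MonoidHom.id D) pos val) w).left q) := by
  induction w with
  | nil => intro q _; simp [ev]
  | cons a w ih =>
    intro q hq
    obtain ⟨e, c⟩ := a
    rcases c with _ | _
    · obtain ⟨_, h2, h3⟩ := hq
      have e1 : ∀ (T' : Type) [Group T'] (m : Kt I → WX X T'),
          ev m ((e, false) :: w) = (m e)⁻¹ * ev m w := by
        intro T' _ m
        simp [ev]
      rw [e1, e1, wx_mul_left, wx_mul_left, wx_inv_left, wx_inv_left, inv_right, inv_right,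
        pl_right, pl_right, C.pl_left h2]
      simp only [Prod.inv_mk, inv_inv]
      rw [ih _ h3]
      simp only [MonoidHom.id_apply, ← map_inv, hio, map_mul]
    · obtain ⟨h1, _, h3⟩ := hq
      have e1 : ∀ (T' : Type) [Group T'] (m : Kt I → WX X T'),
          ev m ((e, true) :: w) = m e * ev m w := by
        intro T' _ m
        simp [ev]
      rw [e1, e1, wx_mul_left, wx_mul_left, pl_right, pl_right, C.pl_left h1, ih _ h3, hio,
        map_mul]
      rfl

theorem Psi_one {aT : MulAut D →* MulAut T} {io : Fin 3 → D →* T} {pos : Fin 3 → X}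
    {val : Fin 3 → D}
    (hio : ∀ a b d, aT a (io b d) = io b (a d)) {w : FreeGroup (Kt I)}
    {L : List (Kt I × Bool)} (hL : FreeGroup.mk L = w)
    (hv : ∀ q, ∃ b, Vis (Oth pos b) C.ch L q)
    (h1 : FreeGroup.lift (C.pl (MonoidHom.id _) (fun _ => MonoidHom.id D) pos val) w = 1) :
    FreeGroup.lift (C.pl aT io pos val) w = 1 := by
  refine SemidirectProduct.ext ?_ ?_
  · funext q
    obtain ⟨b, hb⟩ := hv q
    have h2 := C.loc (val := val) hio b L q hb
    rw [ev_eq_lift, ev_eq_lift, hL, h1, one_left, Pi.one_apply, map_one] at h2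
    exact h2
  · have h2 := C.lift_pl_right (MonoidHom.id _) (fun _ => MonoidHom.id D) pos val w
    rw [h1] at h2
    rw [C.lift_pl_right]
    have h3 : FreeGroup.lift C.aa w = 1 := (congrArg Prod.fst h2).symm
    have h4 : FreeGroup.lift C.ch w = 1 := (congrArg Prod.snd h2).symm
    rw [h3, h4, map_one]
    rfl

/-- the copies are far apart -/
def FarB (pos : Fin 3 → X) (ρ : ℕ) : Prop :=
  ∀ c c', c ≠ c' → ∀ u ∈ Ball C.ch ρ, u (pos c) ≠ pos c'

theorem vis_of_far {pos : Fin 3 → X} {ρ : ℕ} (h : C.FarB pos (2 * ρ))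
    {w : List (Kt I × Bool)} (hw : w.length ≤ ρ) (q : X) : ∃ b, Vis (Oth pos b) C.ch w q := by
  by_cases h1 : ∃ u ∈ Ball C.ch ρ, ∃ c, u q = pos c
  · obtain ⟨u, hu, c, hc⟩ := h1
    refine ⟨c, vis_of' (fun u' hu' c' hne h2 => ?_) hw⟩
    refine h c c' hne.symm (u' * u⁻¹) ?_ ?_
    · rw [two_mul]
      exact mul_mem_ball hu' (inv_mem_ball hu)
    · rw [← hc, Equiv.Perm.mul_apply, pinv, h2]
  · refine ⟨0, vis_of' (fun u' hu' c' _ h2 => h1 ⟨u', hu', c', h2⟩) hw⟩

/-- the positions of the copies -/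
def ps (v : Fin 3 → FreeGroup I) (b : Fin 3) : X := FreeGroup.lift C.π (v b) C.o

/-- the values of the copies -/
def vl (v : Fin 3 → FreeGroup I) (b : Fin 3) : D := FreeGroup.lift C.α (v b) C.x0

theorem exists_far [Finite I] (ρ : ℕ) :
    ∃ v : Fin 3 → FreeGroup I, C.FarB (C.ps v) ρ := by
  classical
  have := C.hinf
  have hf := ball_finite C.ch ρ
  have hF1 : ((fun u : Equiv.Perm X => u C.o) '' Ball C.ch ρ).Finite := hf.image _
  obtain ⟨p1, hp1⟩ := hF1.exists_notMem
  obtain ⟨v1, rfl⟩ := C.htr p1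
  have hF2 : ((fun u : Equiv.Perm X => u (FreeGroup.lift C.π v1 C.o)) '' Ball C.ch ρ).Finite :=
    hf.image _
  obtain ⟨p2, hp2⟩ := (hF1.union hF2).exists_notMem
  obtain ⟨v2, rfl⟩ := C.htr p2
  have k1 : ∀ u ∈ Ball C.ch ρ, u C.o ≠ FreeGroup.lift C.π v1 C.o := fun u hu h =>
    hp1 ⟨u, hu, h⟩
  have k2 : ∀ u ∈ Ball C.ch ρ, u C.o ≠ FreeGroup.lift C.π v2 C.o := fun u hu h =>
    hp2 (Or.inl ⟨u, hu, h⟩)
  have k3 : ∀ u ∈ Ball C.ch ρ, u (FreeGroup.lift C.π v1 C.o) ≠ FreeGroup.lift C.π v2 C.o :=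
    fun u hu h => hp2 (Or.inr ⟨u, hu, h⟩)
  have sym : ∀ (a b : X) (u : Equiv.Perm X), u a = b → u⁻¹ b = a := by
    intro a b u h
    rw [← h, pinv]
  refine ⟨![1, v1, v2], ?_⟩
  intro c c' hc u hu
  have hu' := inv_mem_ball hu
  have e0 : C.ps ![1, v1, v2] 0 = C.o := by
    change FreeGroup.lift C.π 1 C.o = C.o
    rw [map_one]
    rfl
  fin_cases c <;> fin_cases c'
  · exact absurd rfl hc
  · intro h
    change u (C.ps ![1, v1, v2] 0) = FreeGroup.lift C.π v1 C.o at h
    rw [e0] at h
    exact k1 u hu h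
  · intro h
    change u (C.ps ![1, v1, v2] 0) = FreeGroup.lift C.π v2 C.o at h
    rw [e0] at h
    exact k2 u hu h
  · intro h
    change u (FreeGroup.lift C.π v1 C.o) = C.ps ![1, v1, v2] 0 at h
    rw [e0] at h
    exact k1 _ hu' (sym _ _ _ h)
  · exact absurd rfl hc
  · intro h
    exact k3 u hu h
  · intro h
    change u (FreeGroup.lift C.π v2 C.o) = C.ps ![1, v1, v2] 0 at h
    rw [e0] at h
    exact k2 _ hu' (sym _ _ _ h)
  · intro h
    exact k3 _ hu' (sym _ _ _ h)
  · exact absurd rfl hc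

/-- the ambient group of `B` -/
abbrev Am (H X D : Type) [Group H] [Group D] : Type := SCfg.Am H X D

open Classical in
/-- the generators of `B` -/
noncomputable def gB : Kt I → Am H X D
  | .inl i => (C.g i, inr (autL (C.α i), C.π i))
  | .inr b => (C.x, inl (Pi.mulSingle C.o (yy C.x0 b)))

/-- the group `B` -/
noncomputable def Bs : Subgroup (Am H X D) := Subgroup.closure (Set.range C.gB)

theorem gB_mem (e : Kt I) : C.gB e ∈ C.Bs := Subgroup.subset_closure ⟨e, rfl⟩

/-- the elements of `H` without the letter `x` -/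
def tw (v : FreeGroup I) : H := FreeGroup.lift C.g v

/-- the elements of `B` without the letters `x` -/
noncomputable def twB (v : FreeGroup I) : Am H X D :=
  FreeGroup.lift (fun i => C.gB (.inl i)) v

/-- the generating tuples of `H`: the copy `b` is moved by `v b` -/
def mH (v : Fin 3 → FreeGroup I) : Kt I → H
  | .inl i => C.g i
  | .inr b => C.tw (v b) * C.x * (C.tw (v b))⁻¹

/-- the generating tuples of `B` -/
noncomputable def mB (v : Fin 3 → FreeGroup I) : Kt I → Am H X D
  | .inl i => C.gB (.inl i)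
  | .inr b => C.twB (v b) * C.gB (.inr b) * (C.twB (v b))⁻¹

theorem Φ_tw (v : FreeGroup I) :
    C.Φ (C.tw v) = inr (FreeGroup.lift C.α v, FreeGroup.lift C.π v) := by
  have : C.Φ.comp (FreeGroup.lift C.g) =
      (inr : _ →* WX X D).comp ((FreeGroup.lift C.α).prod (FreeGroup.lift C.π)) := by
    ext i : 1
    simp [C.hg]
  exact DFunLike.congr_fun this v

theorem twB_eq (v : FreeGroup I) :
    C.twB v = (C.tw v, inr (autL (FreeGroup.lift C.α v), FreeGroup.lift C.π v)) := by
  have : FreeGroup.lift (fun i => C.gB (.inl i)) =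
      (FreeGroup.lift C.g).prod ((inr : _ →* WX X (FP D)).comp
        ((autL.comp (FreeGroup.lift C.α)).prod (FreeGroup.lift C.π))) := by
    ext i : 1
    simp [gB]
  exact DFunLike.congr_fun this v

open Classical in
theorem inr_conj_single {T : Type} [Group T] (a : MulAut T × Equiv.Perm X) (p : X) (d : T) :
    (inr a : WX X T) * inl (Pi.mulSingle p d) * (inr a)⁻¹ =
      inl (Pi.mulSingle (a.2 p) (a.1 d)) := by
  rw [← map_inv, ← inl_aut, sx_single]

theorem Φ_mH (v : Fin 3 → FreeGroup I) (w : FreeGroup (Kt I)) :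
    C.Φ (FreeGroup.lift (C.mH v) w) =
      FreeGroup.lift (C.pl (MonoidHom.id _) (fun _ => MonoidHom.id D) (C.ps v) (C.vl v)) w := by
  classical
  have : C.Φ.comp (FreeGroup.lift (C.mH v)) =
      FreeGroup.lift (C.pl (MonoidHom.id _) (fun _ => MonoidHom.id D) (C.ps v) (C.vl v)) := by
    ext e : 1
    rcases e with i | b
    · rw [MonoidHom.comp_apply, FreeGroup.lift_apply_of, FreeGroup.lift_apply_of]
      exact C.hg i
    · rw [MonoidHom.comp_apply, FreeGroup.lift_apply_of, FreeGroup.lift_apply_of, mH, map_mul,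
        map_mul, map_inv, C.hx, Φ_tw, inr_conj_single]
      rfl
  exact DFunLike.congr_fun this w

theorem lift_mB (v : Fin 3 → FreeGroup I) (w : FreeGroup (Kt I)) :
    FreeGroup.lift (C.mB v) w = (FreeGroup.lift (C.mH v) w,
      FreeGroup.lift (C.pl autL (fun b => Monoid.CoprodI.of (M := fun _ : Fin 3 => D) (i := b))
        (C.ps v) (C.vl v)) w) := by
  classical
  have : FreeGroup.lift (C.mB v) = (FreeGroup.lift (C.mH v)).prod
      (FreeGroup.lift (C.pl autL (fun b => Monoid.CoprodI.of (M := fun _ : Fin 3 => D) (i := b))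
        (C.ps v) (C.vl v))) := by
    ext e : 1
    rcases e with i | b
    · rw [FreeGroup.lift_apply_of, MonoidHom.prod_apply, FreeGroup.lift_apply_of,
        FreeGroup.lift_apply_of]
      rfl
    · rw [FreeGroup.lift_apply_of, MonoidHom.prod_apply, FreeGroup.lift_apply_of,
        FreeGroup.lift_apply_of, mB, mH, twB_eq, gB]
      refine Prod.ext rfl ?_
      change (inr (autL (FreeGroup.lift C.α (v b)), FreeGroup.lift C.π (v b)) : WX X (FP D)) *
        inl (Pi.mulSingle C.o (yy C.x0 b)) * (inr _)⁻¹ = _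
      rw [inr_conj_single]
      simp only [yy, autL_of]
      rfl
  exact DFunLike.congr_fun this w

theorem closure_mH (v : Fin 3 → FreeGroup I) : Subgroup.closure (Set.range (C.mH v)) = ⊤ := by
  rw [eq_top_iff, ← C.hgen, Subgroup.closure_le]
  have ht : ∀ i, C.g i ∈ Subgroup.closure (Set.range (C.mH v)) := fun i =>
    Subgroup.subset_closure ⟨.inl i, rfl⟩
  have htw : ∀ u, C.tw u ∈ Subgroup.closure (Set.range (C.mH v)) := by
    intro u
    have h1 : (FreeGroup.lift C.g).range ≤ Subgroup.closure (Set.range (C.mH v)) := by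
      rw [FreeGroup.range_lift_eq_closure, Subgroup.closure_le]
      rintro _ ⟨j, rfl⟩
      exact ht j
    exact h1 ⟨u, rfl⟩
  rintro _ ⟨e, rfl⟩
  rcases e with i | _
  · exact ht i
  · have h1 : C.mH v (.inr 0) ∈ Subgroup.closure (Set.range (C.mH v)) :=
      Subgroup.subset_closure ⟨_, rfl⟩
    have h2 := mul_mem (mul_mem (inv_mem (htw (v 0))) h1) (htw (v 0))
    have h3 : (C.tw (v 0))⁻¹ * C.mH v (.inr 0) * C.tw (v 0) = C.x := by
      rw [mH]
      group
    rw [h3] at h2
    exact h2

theorem tmem {P : Subgroup (Am H X D)} (hP : ∀ i, C.gB (.inl i) ∈ P) (u : FreeGroup I) :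
    C.twB u ∈ P := by
  have h1 : (FreeGroup.lift (fun i => C.gB (.inl i))).range ≤ P := by
    rw [FreeGroup.range_lift_eq_closure, Subgroup.closure_le]
    rintro _ ⟨j, rfl⟩
    exact hP j
  exact h1 ⟨u, rfl⟩

theorem closure_mB (v : Fin 3 → FreeGroup I) :
    Subgroup.closure (Set.range (C.mB v)) = C.Bs := by
  apply le_antisymm
  · rw [Subgroup.closure_le]
    have h0 : ∀ e, C.gB e ∈ C.Bs := fun e => Subgroup.subset_closure ⟨e, rfl⟩
    rintro _ ⟨e, rfl⟩
    rcases e with i | b
    · exact h0 (.inl i)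
    · exact mul_mem (mul_mem (C.tmem (fun j => h0 _) _) (h0 _))
        (inv_mem (C.tmem (fun j => h0 _) _))
  · unfold Bs
    rw [Subgroup.closure_le]
    have h0 : ∀ e, C.mB v e ∈ Subgroup.closure (Set.range (C.mB v)) := fun e =>
      Subgroup.subset_closure ⟨e, rfl⟩
    have htw := C.tmem (fun i => h0 (.inl i))
    rintro _ ⟨e, rfl⟩
    rcases e with i | b
    · exact h0 (.inl i)
    · have h2 := mul_mem (mul_mem (inv_mem (htw (v b))) (h0 (.inr b))) (htw (v b))
      have h3 : (C.twB (v b))⁻¹ * C.mB v (.inr b) * C.twB (v b) = C.gB (.inr b) := by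
        rw [mB]
        group
      rw [h3] at h2
      exact h2

/-- `H` and `B` approximate the same group. -/
theorem exists_K [Finite I] : ∃ (K : Type) (_ : Group K) (k : Kt I → K),
    Subgroup.closure (Set.range k) = ⊤ ∧ Apx H k ∧ Apx C.Bs k := by
  classical
  choose v hv using fun ρ : ℕ => C.exists_far (2 * ρ)
  set U : Ultrafilter ℕ := hyperfilter ℕ with hU
  have hUle : (U : Filter ℕ) ≤ atTop := Nat.hyperfilter_le_atTop
  refine ⟨Lim U (fun ρ => C.mH (v ρ)), inferInstance, lg U (fun ρ => C.mH (v ρ)),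
    closure_lg _ _, apx_lim U _ (fun ρ => C.closure_mH (v ρ)), ?_⟩
  intro W
  have h1 := eventually_agree U (fun ρ => C.mH (v ρ)) W
  have h2 : ∀ᶠ ρ in (U : Filter ℕ), ∀ w ∈ W, FreeGroup.lift (C.mH (v ρ)) w = 1 →
      FreeGroup.lift (C.mB (v ρ)) w = 1 := by
    rw [Filter.eventually_all_finset]
    intro w _
    filter_upwards [hUle (eventually_ge_atTop w.toWord.length)] with ρ hρ
    intro h3
    rw [C.lift_mB, h3, C.Psi_one (autL_of) (FreeGroup.mk_toWord (x := w))
      (fun q => C.vis_of_far (hv ρ) hρ q) (by rw [← C.Φ_mH, h3, map_one])]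
    rfl
  obtain ⟨ρ, hρ1, hρ2⟩ := (h1.and h2).exists
  obtain ⟨s, hs, hsw⟩ := exists_sub' (C.closure_mB (v ρ))
  refine ⟨s, hs, ?_⟩
  intro w hw
  rw [← hρ1 w hw]
  constructor
  · intro h3
    have h4 := hsw w
    rw [h3, C.lift_mB] at h4
    exact (congrArg Prod.fst h4).symm
  · intro h3
    apply Subtype.ext
    rw [hsw, hρ2 w hw h3]
    rfl

end TCfg

end Pool.Agent.Work.MP_66343f_al
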