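import Pool.Agent.Work.MP_66343f_al.Basic

/-!
# MP_66343f_al: transport along a tree
-/

set_option autoImplicit false

namespace Pool.Agent.Work.MP_66343f_al

open Function

theorem exists_bt {X I A : Type} [Group A] (π : I → Equiv.Perm X) (α : I → A) (o : X)
    (htr : ∀ p, ∃ v : FreeGroup I, FreeGroup.lift π v o = p) :
    ∃ bt : X → A, bt o = 1 ∧ ∀ S : X → Prop, S o →
      (∀ i p, S p → bt (π i p) = α i * bt p → S (π i p)) →
      (∀ i p, S p → bt ((π i)⁻¹ p) = (α i)⁻¹ * bt p → S ((π i)⁻¹ p)) → ∀ p, S p := by
  classical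
  have hex : ∀ p, ∃ n : ℕ, ∃ L : List (I × Bool), L.length = n ∧ ev π L o = p := by
    intro p
    obtain ⟨v, hv⟩ := htr p
    refine ⟨_, v.toWord, rfl, ?_⟩
    rw [ev_eq_lift, FreeGroup.mk_toWord, hv]
  set d : X → ℕ := fun p => Nat.find (hex p) with hd
  have hpar : ∀ p, p ≠ o → ∃ (l : I × Bool) (p' : X), d p' < d p ∧
      p = cond l.2 (π l.1) (π l.1)⁻¹ p' := by
    intro p hp
    obtain ⟨L, hL, hLp⟩ := Nat.find_spec (hex p)
    rcases L with _ | ⟨l, L⟩
    · exfalso
      apply hp
      rw [← hLp]
      rfl
    · refine ⟨l, ev π L o, ?_, ?_⟩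
      · have h1 : d (ev π L o) ≤ L.length := Nat.find_min' _ ⟨L, rfl, rfl⟩
        have h2 : d p = L.length + 1 := by
          rw [hd]
          simp only
          rw [← hL, List.length_cons]
        omega
      · rw [← hLp]
        simp [ev]
  choose l par hlt heq using hpar
  set F : (p : X) → ((p' : X) → d p' < d p → A) → A := fun p rec =>
    if h : p = o then 1 else
      cond (l p h).2 (α (l p h).1) (α (l p h).1)⁻¹ * rec (par p h) (hlt p h) with hF
  set bt : X → A := (measure d).wf.fix F with hbt
  have hfix : ∀ p, bt p = if h : p = o then 1 else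
      cond (l p h).2 (α (l p h).1) (α (l p h).1)⁻¹ * bt (par p h) := by
    intro p
    rw [hbt, WellFounded.fix_eq]
  refine ⟨bt, ?_, ?_⟩
  · rw [hfix, dif_pos rfl]
  · intro S h0 h1 h2
    have key : ∀ n p, d p = n → S p := by
      intro n
      induction n using Nat.strong_induction_on with
      | _ n ih =>
        intro p hp
        by_cases hpo : p = o
        · rw [hpo]
          exact h0
        · have h3 := ih _ (hp ▸ hlt p hpo) (par p hpo) rfl
          have h4 := hfix p
          rw [dif_neg hpo] at h4
          have h5 := heq p hpo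
          rcases hb : (l p hpo).2 with _ | _
          · rw [hb, cond_false] at h4 h5
            have := h2 (l p hpo).1 (par p hpo) h3 (by rw [← h5]; exact h4)
            rwa [← h5] at this
          · rw [hb, cond_true] at h4 h5
            have := h1 (l p hpo).1 (par p hpo) h3 (by rw [← h5]; exact h4)
            rwa [← h5] at this
    exact fun p => key _ p rfl

end Pool.Agent.Work.MP_66343f_al
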