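import Pool.Agent.Work.MP_66343f_al.TCfg
import Pool.Agent.Work.MP_66343f_al.Tree

/-!
# MP_66343f_al: the modified tuples generate `B` (transport by all letters)
-/

set_option autoImplicit false

namespace Pool.Agent.Work.MP_66343f_al

open SemidirectProduct Filter Function

section gen
variable {H X D : Type} [Group H] [Group D]

/-- conjugation moves the position -/
theorem movet {P : Subgroup (SCfg.Am H X D)} {a : SCfg.Am H X D} (ha : a ∈ P)
    {A : MulAut (FP D)} {σ : Equiv.Perm X} {p : X} (hr : a.2.right = (A, σ)) {l : FP D}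
    (hl : l ∈ IX P p) :
    a.2.left (σ p) * A l * (a.2.left (σ p))⁻¹ ∈ IX P (σ p) := by
  classical
  rw [mem_IX] at hl ⊢
  have h1 := mul_mem (mul_mem ha hl) (inv_mem ha)
  rw [nlx_conj, hr] at h1
  have h2 : (fun q => a.2.left q * A ((Pi.mulSingle p l : X → FP D) (σ⁻¹ q)) *
      (a.2.left q)⁻¹) =
      Pi.mulSingle (σ p) (a.2.left (σ p) * A l * (a.2.left (σ p))⁻¹) := by
    funext q
    by_cases h : q = σ p
    · subst h
      rw [pinv, Pi.mulSingle_eq_same, Pi.mulSingle_eq_same]
    · rw [Pi.mulSingle_eq_of_ne h, Pi.mulSingle_eq_of_ne, map_one, mul_one, mul_inv_cancel]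
      intro h'
      exact h (by rw [← h', pinv'])
  rw [h2] at h1
  exact h1

theorem invt_left {a : SCfg.Am H X D} {A : MulAut (FP D)} {σ : Equiv.Perm X}
    (hr : a.2.right = (A, σ)) (p : X) :
    (a⁻¹).2.left p = A⁻¹ (a.2.left (σ p))⁻¹ := by
  change (a.2⁻¹).left p = _
  rw [wx_inv_left, hr]

theorem invt_right {a : SCfg.Am H X D} {A : MulAut (FP D)} {σ : Equiv.Perm X}
    (hr : a.2.right = (A, σ)) : (a⁻¹).2.right = (A⁻¹, σ⁻¹) := by
  change (a.2⁻¹).right = _
  rw [inv_right, hr]
  simp

end gen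

/-- automorphisms and the elements -/
theorem autL_yy {D : Type} [Group D] (β : MulAut D) (x : D) (b : Fin 3) :
    autL β (yy x b) = yy (β x) b := autL_of β b x

theorem autL_jx {D : Type} [Group D] (β : MulAut D) (x : D) : autL β (jx x) = jx (β x) := by
  rw [jx, map_mul, map_inv, autL_yy, autL_yy, jx]

theorem autL_QQ {D : Type} [Group D] (β : MulAut D) (x : D) (n : ℕ) :
    autL β (pr (QQ x n)) = pr (QQ (β x) n) := by
  induction n with
  | zero =>
    simp only [QQ, pr_cons, pr_nil, mul_one, map_mul, autL_of]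
  | succ n ih =>
    simp only [QQ, pr_cons, map_mul, autL_of, ih]

theorem autL_cc {D : Type} [Group D] (β : MulAut D) (x : D) (n : ℕ) :
    autL β (cc x n) = cc (β x) n := by
  rw [cc, cc, map_mul, map_mul, map_inv, autL_QQ, pr_kk, pr_kk]
  simp only [map_mul, map_inv, autL_yy]

namespace TCfg

variable {H X D I : Type} [Group H] [Group D] (C : TCfg H X D I)

/-- The data of the transport: a tree. -/
structure Tr where
  bt : X → MulAut D
  bto : bt C.o = 1
  ind : ∀ S : X → Prop, S C.o → (∀ i p, S p → bt (C.π i p) = C.α i * bt p → S (C.π i p)) →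
      (∀ i p, S p → bt ((C.π i)⁻¹ p) = (C.α i)⁻¹ * bt p → S ((C.π i)⁻¹ p)) → ∀ p, S p

theorem exists_tr : Nonempty C.Tr := by
  obtain ⟨bt, h1, h2⟩ := exists_bt C.π C.α C.o C.htr
  exact ⟨⟨bt, h1, h2⟩⟩

variable {C} (E : C.Tr)

/-- the value at a site -/
def Tr.xx (p : X) : D := E.bt p C.x0

theorem Tr.hxx (p : X) : E.xx p ≠ 1 := by
  intro h
  exact C.hx0 ((MulEquiv.map_eq_one_iff _).mp h)

/-- transport -/
theorem Tr.trans {P : Subgroup (Am H X D)}
    (hn : Jx C.x0 ≤ Subgroup.normalizer (IX P C.o : Set (FP D))) (a : I → Am H X D)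
    (ha : ∀ i, a i ∈ P) (hr : ∀ i, (a i).2.right = (autL (C.α i), C.π i))
    (hl : ∀ i p, ∃ j ∈ Jx C.x0, (a i).2.left (C.π i p) = autL (C.α i * E.bt p) j) :
    ∀ p, ∀ l ∈ IX P C.o, autL (E.bt p) l ∈ IX P p := by
  refine E.ind _ ?_ ?_ ?_
  · intro l hl
    rw [E.bto, map_one]
    exact hl
  · intro i p hp hb l hl'
    obtain ⟨j, hj, hj'⟩ := hl i p
    have h1 := hp _ ((Subgroup.mem_normalizer_iff''.mp (hn hj) l).1 hl')
    have h2 := movet (ha i) (hr i) h1
    rw [hj'] at h2
    have h3 : autL (C.α i * E.bt p) j * autL (C.α i) (autL (E.bt p) (j⁻¹ * l * j)) *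
        (autL (C.α i * E.bt p) j)⁻¹ = autL (E.bt (C.π i p)) l := by
      rw [hb, ← MulAut.mul_apply, ← map_mul, ← map_inv, ← map_mul, ← map_mul]
      congr 1
      group
    rwa [h3] at h2
  · intro i p hp hb l hl'
    obtain ⟨j, hj, hj'⟩ := hl i ((C.π i)⁻¹ p)
    rw [pinv'] at hj'
    have h1 := hp _ ((Subgroup.mem_normalizer_iff.mp (hn hj) l).1 hl')
    have h2 := movet (inv_mem (ha i)) (invt_right (hr i)) h1
    rw [invt_left (hr i), pinv', hj'] at h2
    have h3 : (autL (C.α i))⁻¹ (autL (C.α i * E.bt ((C.π i)⁻¹ p)) j)⁻¹ *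
        (autL (C.α i))⁻¹ (autL (E.bt p) (j * l * j⁻¹)) *
        ((autL (C.α i))⁻¹ (autL (C.α i * E.bt ((C.π i)⁻¹ p)) j)⁻¹)⁻¹ =
        autL (E.bt ((C.π i)⁻¹ p)) l := by
      have e1 : C.α i * E.bt ((C.π i)⁻¹ p) = E.bt p := by
        rw [hb, mul_inv_cancel_left]
      rw [e1, hb, ← map_inv autL, ← map_inv, ← MulAut.mul_apply, ← MulAut.mul_apply,
        ← map_mul autL, ← map_inv, ← map_mul, ← map_mul]
      congr 1
      group
    rwa [h3] at h2

/-- the function with the values `cc (xx p) n` on `R` -/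
noncomputable def Tr.cf (R : Finset X) (n : ℕ) : X → FP D := cut R fun p => cc (E.xx p) n

theorem Tr.cf_eq (R : Finset X) (n : ℕ) (p : X) :
    ∃ j ∈ Jx C.x0, E.cf R n p = autL (E.bt p) j := by
  by_cases h : p ∈ R
  · exact ⟨cc C.x0 n, cc_mem_Jx n, by rw [Tr.cf, cut_of_mem h, autL_cc]; rfl⟩
  · exact ⟨1, one_mem _, by rw [Tr.cf, cut_of_notMem h, map_one]⟩

open Classical in
/-- the function with the value `j` at the moved base site -/
noncomputable def jf (C : TCfg H X D I) (v : FreeGroup I) : X → FP D :=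
  Pi.mulSingle (FreeGroup.lift C.π v C.o) (autL (FreeGroup.lift C.α v) (jx C.x0))

/-- the modified tuple -/
noncomputable def Lam (n : Option (Kt I) → ℕ) (R : Finset X) (v : FreeGroup I) :
    Option (Kt I) → Am H X D
  | some e => C.gB e * nlx (E.cf R (n (some e)))
  | none => nlx (E.cf R (n none)) * nlx (C.jf v)

theorem twB_mem (v : FreeGroup I) : C.twB v ∈ C.Bs := C.tmem (fun i => C.gB_mem _) v

/-- `P` contains elements with the values `y b` at the base site -/
def Ric (C : TCfg H X D I) (P : Subgroup (Am H X D)) : Prop :=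
  ∀ b, ∃ a ∈ P, a.2.right = 1 ∧ a.2.left C.o = yy C.x0 b

theorem Ric.normalizer {P : Subgroup (Am H X D)} (h : C.Ric P) :
    Yx C.x0 ≤ Subgroup.normalizer (IX P C.o : Set (FP D)) := by
  refine Yx_le_normalizer fun b l hl => ?_
  obtain ⟨a, ha, hr, hy⟩ := h b
  have hr' : a.2.right = (1, 1) := hr
  constructor
  · have h1 := movex ha hr' hl
    rw [Equiv.Perm.one_apply, hy] at h1
    exact h1
  · have h1 := movex (inv_mem ha) (invx_right hr') hl
    rw [invx_left hr', inv_one, Equiv.Perm.one_apply, Equiv.Perm.one_apply, hy, inv_inv] at h1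
    exact h1

theorem ric_Bs : C.Ric C.Bs := by
  classical
  intro b
  refine ⟨C.gB (.inr b), C.gB_mem _, ?_, ?_⟩
  · simp [gB]
  · simp [gB]

theorem jx_mem_IX_Bs : jx C.x0 ∈ IX C.Bs C.o := by
  classical
  rw [mem_IX]
  have h1 := mul_mem (C.gB_mem (.inr 0)) (inv_mem (C.gB_mem (.inr 1)))
  have h2 : C.gB (.inr 0) * (C.gB (.inr 1))⁻¹ = nlx (Pi.mulSingle C.o (jx C.x0)) := by
    refine Prod.ext ?_ ?_
    · change C.x * (C.x)⁻¹ = 1
      simp
    · change (inl (Pi.mulSingle C.o (yy C.x0 0)) : WX X (FP D)) *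
        (inl (Pi.mulSingle C.o (yy C.x0 1)))⁻¹ = inl (Pi.mulSingle C.o (jx C.x0))
      rw [← map_inv, ← map_mul, ← Pi.mulSingle_inv, ← Pi.mulSingle_mul]
      rfl
  rw [← h2]
  exact h1

theorem Jx_le_IX_Bs : Jx C.x0 ≤ IX C.Bs C.o := Jx_le jx_mem_IX_Bs ric_Bs.normalizer

theorem gB_inl_left (i : I) (p : X) : (C.gB (.inl i)).2.left p = 1 := by
  simp [gB]

theorem gB_inl_right (i : I) : (C.gB (.inl i)).2.right = (autL (C.α i), C.π i) := by
  simp [gB]

theorem trans_Bs (p : X) {l : FP D} (hl : l ∈ IX C.Bs C.o) : autL (E.bt p) l ∈ IX C.Bs p :=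
  E.trans ((Jx_le_Yx _).trans ric_Bs.normalizer) (fun i => C.gB (.inl i)) (fun i => C.gB_mem _)
    (fun i => gB_inl_right i)
    (fun i p => ⟨1, one_mem _, by rw [gB_inl_left, map_one]⟩) p l hl

theorem jf_mem (v : FreeGroup I) : nlx (C.jf v) ∈ C.Bs := by
  classical
  have h1 : jx C.x0 ∈ IX C.Bs C.o := jx_mem_IX_Bs
  have hr : (C.twB v).2.right = (autL (FreeGroup.lift C.α v), FreeGroup.lift C.π v) := by
    rw [twB_eq]
    simp
  have h2 := movet (twB_mem v) hr h1
  have h3 : (C.twB v).2.left (FreeGroup.lift C.π v C.o) = 1 := by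
    rw [twB_eq]
    simp
  rw [h3, one_mul, inv_one, mul_one, mem_IX] at h2
  exact h2

theorem Lam_mem_Bs (n : Option (Kt I) → ℕ) (R : Finset X) (v : FreeGroup I)
    (e : Option (Kt I)) : Lam E n R v e ∈ C.Bs := by
  have hcf : ∀ m, nlx (E.cf R m) ∈ C.Bs := by
    intro m
    refine cutx_mem R _ fun p _ => ?_
    have h1 := trans_Bs E p (Jx_le_IX_Bs (cc_mem_Jx (x := C.x0) m))
    rw [autL_cc] at h1
    exact h1
  rcases e with _ | e
  · exact mul_mem (hcf _) (jf_mem v)
  · exact mul_mem (C.gB_mem e) (hcf _)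

/-- the subgroup generated by the modified tuple -/
noncomputable def Bo (n : Option (Kt I) → ℕ) (R : Finset X) (v : FreeGroup I) :
    Subgroup (Am H X D) :=
  Subgroup.closure (Set.range (Lam E n R v))

variable {E} {n : Option (Kt I) → ℕ} {R : Finset X} {v : FreeGroup I}

theorem Lam_mem (e : Option (Kt I)) : Lam E n R v e ∈ Bo E n R v :=
  Subgroup.subset_closure ⟨e, rfl⟩

theorem ric_Bo (h1 : C.o ∉ R) : C.Ric (Bo E n R v) := by
  classical
  intro b
  refine ⟨Lam E n R v (some (.inr b)), Lam_mem _, ?_, ?_⟩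
  · simp [Lam, gB, nlx]
  · simp only [Lam, gB, Prod.snd_mul, nlx_snd]
    rw [wx_mul_left]
    simp [Tr.cf, cut, h1]

theorem Lam_inl_right (i : I) :
    (Lam E n R v (some (.inl i))).2.right = (autL (C.α i), C.π i) := by
  simp [Lam, gB, nlx]

theorem Lam_inl_left (i : I) (p : X) :
    (Lam E n R v (some (.inl i))).2.left (C.π i p) =
      autL (C.α i) (E.cf R (n (some (.inl i))) p) := by
  simp only [Lam, Prod.snd_mul, nlx_snd]
  rw [wx_mul_left, gB_inl_left, gB_inl_right, one_mul, left_inl, pinv]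

/-- the lift of `v` -/
noncomputable def Wv (E : C.Tr) (n : Option (Kt I) → ℕ) (R : Finset X) (v u : FreeGroup I) :
    Am H X D :=
  FreeGroup.lift (fun i => Lam E n R v (some (.inl i))) u

theorem Wv_mem (u : FreeGroup I) : Wv E n R v u ∈ Bo E n R v := by
  have h1 : (FreeGroup.lift (fun i => Lam E n R v (some (.inl i)))).range ≤ Bo E n R v := by
    rw [FreeGroup.range_lift_eq_closure, Subgroup.closure_le]
    rintro _ ⟨j, rfl⟩
    exact Lam_mem _
  exact h1 ⟨u, rfl⟩

theorem Wv_right (u : FreeGroup I) :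
    (Wv E n R v u).2.right = (autL (FreeGroup.lift C.α u), FreeGroup.lift C.π u) := by
  have : ((rightHom : WX X (FP D) →* _).comp ((MonoidHom.snd H _).comp
      (FreeGroup.lift (fun i => Lam E n R v (some (.inl i)))))) =
      (autL.comp (FreeGroup.lift C.α)).prod (FreeGroup.lift C.π) := by
    ext i : 1
    simp only [MonoidHom.comp_apply, FreeGroup.lift_apply_of, MonoidHom.coe_snd,
      rightHom_eq_right, Lam_inl_right, MonoidHom.prod_apply]
  exact DFunLike.congr_fun this u

/-- The modified tuple generates `B`. -/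
theorem Bo_eq (h1 : C.o ∉ R) (h2 : FreeGroup.lift C.π v C.o ∉ R)
    (h3 : ∀ p ∈ R, FreeGroup.lift C.π v p ∉ R)
    (h4 : (Wv E n R v v).2.left (FreeGroup.lift C.π v C.o) = 1) : Bo E n R v = C.Bs := by
  classical
  have hR := ric_Bo (E := E) (n := n) (v := v) h1
  apply le_antisymm
  · unfold Bo
    rw [Subgroup.closure_le]
    rintro _ ⟨e, rfl⟩
    exact Lam_mem_Bs E n R v e
  set σ := FreeGroup.lift C.π v with hσ
  set β := FreeGroup.lift C.α v with hβ
  have hcc : ∀ m, cc C.x0 m ∈ IX (Bo E n R v) C.o := by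
    intro m
    -- the values at `o` of functions supported in `R ∪ {o}`
    set V : Subgroup (FP D) :=
      { carrier := {l | ∃ f : X → FP D, nlx f ∈ Bo E n R v ∧
          (∀ p, f p ≠ 1 → p ∈ R ∨ p = C.o) ∧ f C.o = l}
        mul_mem' := by
          rintro _ _ ⟨f, hf, hf1, rfl⟩ ⟨f', hf', hf1', rfl⟩
          refine ⟨f * f', by rw [map_mul]; exact mul_mem hf hf', fun p hp => ?_, rfl⟩
          by_cases h : f p = 1
          · refine hf1' p fun h' => hp ?_
            rw [Pi.mul_apply, h, h', mul_one]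
          · exact hf1 p h
        one_mem' := ⟨1, by rw [map_one]; exact one_mem _, fun p hp => absurd rfl hp, rfl⟩
        inv_mem' := by
          rintro _ ⟨f, hf, hf1, rfl⟩
          refine ⟨f⁻¹, by rw [map_inv]; exact inv_mem hf, fun p hp => hf1 p fun h => hp ?_, rfl⟩
          rw [Pi.inv_apply, h, inv_one] } with hV
    have hVn : Yx C.x0 ≤ Subgroup.normalizer (V : Set (FP D)) := by
      refine Yx_le_normalizer fun b l hl => ?_
      obtain ⟨a, ha, hr, hy⟩ := hR b
      obtain ⟨f, hf, hf1, rfl⟩ := hl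
      constructor
      · refine ⟨fun p => a.2.left p * f p * (a.2.left p)⁻¹, ?_, ?_, ?_⟩
        · have h4 := mul_mem (mul_mem ha hf) (inv_mem ha)
          rw [nlx_conj, hr] at h4
          simpa using h4
        · intro p hp
          refine hf1 p fun h => hp ?_
          beta_reduce
          rw [h]
          group
        · change a.2.left C.o * f C.o * (a.2.left C.o)⁻¹ = _
          rw [hy]
      · refine ⟨fun p => (a.2.left p)⁻¹ * f p * a.2.left p, ?_, ?_, ?_⟩
        · have h4 := mul_mem (mul_mem (inv_mem ha) hf) (inv_mem (inv_mem ha))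
          rw [nlx_conj, invx_right (show a.2.right = (1, 1) from hr)] at h4
          have h5 : ∀ p, (a⁻¹).2.left p = (a.2.left p)⁻¹ := by
            intro p
            rw [invx_left (show a.2.right = (1, 1) from hr), Equiv.Perm.one_apply]
          simp only [h5, MulAut.one_apply, inv_one, Equiv.Perm.one_apply, inv_inv] at h4
          exact h4
        · intro p hp
          refine hf1 p fun h => hp ?_
          beta_reduce
          rw [h]
          group
        · change (a.2.left C.o)⁻¹ * f C.o * a.2.left C.o = _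
          rw [hy]
    have hVj : jx C.x0 ∈ V := by
      have h4 := mul_mem (Lam_mem (E := E) (n := n) (R := R) (v := v) (some (.inr 0)))
        (inv_mem (Lam_mem (E := E) (n := n) (R := R) (v := v) (some (.inr 1))))
      refine ⟨Pi.mulSingle C.o (yy C.x0 0) * E.cf R (n (some (.inr 0))) *
        (Pi.mulSingle C.o (yy C.x0 1) * E.cf R (n (some (.inr 1))))⁻¹, ?_, ?_, ?_⟩
      · have h5 : Lam E n R v (some (.inr 0)) * (Lam E n R v (some (.inr 1)))⁻¹ =
            nlx (Pi.mulSingle C.o (yy C.x0 0) * E.cf R (n (some (.inr 0))) *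
        (Pi.mulSingle C.o (yy C.x0 1) * E.cf R (n (some (.inr 1))))⁻¹) := by
          refine Prod.ext ?_ ?_
          · change C.x * 1 * (C.x * 1)⁻¹ = 1
            simp
          · change (inl (Pi.mulSingle C.o (yy C.x0 0)) : WX X (FP D)) *
              inl (E.cf R (n (some (.inr 0)))) *
              (inl (Pi.mulSingle C.o (yy C.x0 1)) *
                inl (E.cf R (n (some (.inr 1)))))⁻¹ = inl _
            rw [← map_mul, ← map_mul, ← map_inv, ← map_mul]
        rw [← h5]
        exact h4
      · intro p hp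
        by_contra h
        rw [not_or] at h
        apply hp
        simp [Tr.cf, cut, h.1, Pi.mulSingle_eq_of_ne h.2]
      · simp [Tr.cf, cut, h1, jx]
    have hJV : Jx C.x0 ≤ V := Jx_le hVj hVn
    -- commutators at the position `σ o`
    have hcom : ∀ l ∈ Jx C.x0, kom (jx C.x0) l ∈ IX (Bo E n R v) C.o := by
      intro l hl
      have ha : Wv E n R v v ∈ Bo E n R v := Wv_mem v
      have hr : (Wv E n R v v).2.right = (autL β, σ) := Wv_right v
      obtain ⟨f, hf, hf1, hf2⟩ := hJV hl
      have h5 := mul_mem (mul_mem ha hf) (inv_mem ha)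
      rw [nlx_conj, hr] at h5
      have h6 := kom_mem (Lam_mem (E := E) (n := n) (R := R) (v := v) none) h5
      have h7 : kom (Lam E n R v none) (nlx (fun p => (Wv E n R v v).2.left p *
          (autL β, σ).1 (f ((autL β, σ).2⁻¹ p)) * ((Wv E n R v v).2.left p)⁻¹)) =
          nlx (Pi.mulSingle (σ C.o) (autL β (kom (jx C.x0) l))) := by
        rw [Lam, ← map_mul, ← kom_map]
        congr 1
        funext p
        simp only [kom, Pi.mul_apply, Pi.inv_apply]
        by_cases hp : p = σ C.o
        · subst hp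
          have h8 : C.jf v (σ C.o) = autL β (jx C.x0) := by
            unfold jf
            rw [Pi.mulSingle_eq_same]
          rw [Pi.mulSingle_eq_same, pinv, hf2, h8, h4, Tr.cf, cut_of_notMem h2]
          simp only [one_mul, inv_one, mul_one, map_mul, map_inv]
        · rw [Pi.mulSingle_eq_of_ne hp]
          have h8 : C.jf v p = 1 := by
            unfold jf
            rw [Pi.mulSingle_eq_of_ne hp]
          rw [h8]
          by_cases hpR : p ∈ R
          · have h7 : f (σ⁻¹ p) = 1 := by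
              by_contra h8
              rcases hf1 _ h8 with h9 | h9
              · exact h3 _ h9 (by rwa [pinv'])
              · exact hp (by rw [← h9, pinv'])
            rw [h7, map_one]
            group
          · rw [Tr.cf, cut_of_notMem hpR]
            group
      rw [h7] at h6
      have h8 : autL β (kom (jx C.x0) l) ∈ IX (Bo E n R v) (σ C.o) := mem_IX.mpr h6
      have h9 := movet (inv_mem ha) (invt_right hr) h8
      rw [invt_left hr, pinv', h4, inv_one, map_one, one_mul, inv_one, mul_one, pinv,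
        MulAut.inv_apply_self] at h9
      exact h9
    refine cc_mem' (fun u hu l hl => ?_) m
    have h5 := (Subgroup.mem_normalizer_iff.mp (hR.normalizer hu) _).1
      (hcom _ (Jx_conj' hu hl))
    have h6 : u * kom (jx C.x0) (u⁻¹ * l * u) * u⁻¹ = kom (u * jx C.x0 * u⁻¹) l := by
      unfold kom
      group
    rwa [h6] at h5
  have htr : ∀ p, ∀ l ∈ IX (Bo E n R v) C.o, autL (E.bt p) l ∈ IX (Bo E n R v) p := by
    refine E.trans ((Jx_le_Yx _).trans hR.normalizer)
      (fun i => Lam E n R v (some (.inl i))) (fun i => Lam_mem _) (fun i => Lam_inl_right i) ?_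
    intro i p
    obtain ⟨j, hj, hj'⟩ := E.cf_eq R (n (some (.inl i))) p
    refine ⟨j, hj, ?_⟩
    rw [Lam_inl_left, hj', ← MulAut.mul_apply, ← map_mul]
  have hcf : ∀ m, nlx (E.cf R m) ∈ Bo E n R v := by
    intro m
    refine cutx_mem R _ fun p _ => ?_
    have h5 := htr p _ (hcc m)
    rw [autL_cc] at h5
    exact h5
  unfold Bs
  rw [Subgroup.closure_le]
  rintro _ ⟨e, rfl⟩
  have h5 := mul_mem (Lam_mem (E := E) (n := n) (R := R) (v := v) (some e))
    (inv_mem (hcf (n (some e))))
  have h6 : Lam E n R v (some e) * (nlx (E.cf R (n (some e))))⁻¹ = C.gB e := by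
    simp only [Lam]
    group
  rw [h6] at h5
  exact h5

/-- the path of `v` avoids the region -/
def Avo (C : TCfg H X D I) (R : Finset X) : List (I × Bool) → Prop
  | [] => C.o ∉ R
  | a :: L => ev C.π (a :: L) C.o ∉ R ∧ Avo C R L

theorem Avo.head {L : List (I × Bool)} (h : C.Avo R L) : ev C.π L C.o ∉ R := by
  rcases L with _ | ⟨a, L⟩
  · exact h
  · exact h.1

theorem Wv_left {L : List (I × Bool)} (h : C.Avo R L) :
    (ev (fun i => Lam E n R v (some (.inl i))) L).2.left (ev C.π L C.o) = 1 := by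
  induction L with
  | nil => simp [ev]
  | cons a L ih =>
    obtain ⟨i, ε⟩ := a
    have h5 := ih h.2
    have h6 := h.2.head
    have h7 := h.1
    rcases ε with _ | _
    · have e1 : ev (fun i => Lam E n R v (some (.inl i))) ((i, false) :: L) =
          (Lam E n R v (some (.inl i)))⁻¹ * ev (fun i => Lam E n R v (some (.inl i))) L := by
        simp [ev]
      have e2 : ev C.π ((i, false) :: L) = (C.π i)⁻¹ * ev C.π L := by
        simp [ev]
      rw [e2, Equiv.Perm.mul_apply] at h7
      have h8 := Lam_inl_left (E := E) (n := n) (R := R) (v := v) i ((C.π i)⁻¹ (ev C.π L C.o))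
      rw [pinv', Tr.cf, cut_of_notMem h7, map_one] at h8
      rw [e1, e2, Prod.snd_mul, wx_mul_left, Equiv.Perm.mul_apply, invt_left (Lam_inl_right i),
        pinv', h8, invt_right (Lam_inl_right i), inv_one, map_one, one_mul]
      simp only [inv_inv]
      rw [pinv', h5, map_one]
    · have e1 : ev (fun i => Lam E n R v (some (.inl i))) ((i, true) :: L) =
          Lam E n R v (some (.inl i)) * ev (fun i => Lam E n R v (some (.inl i))) L := by
        simp [ev]
      have e2 : ev C.π ((i, true) :: L) = C.π i * ev C.π L := by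
        simp [ev]
      rw [e1, e2, Prod.snd_mul, wx_mul_left, Equiv.Perm.mul_apply, Lam_inl_left, Lam_inl_right,
        Tr.cf, cut_of_notMem h6, map_one, one_mul]
      simp only
      rw [pinv, h5, map_one]

end TCfg

end Pool.Agent.Work.MP_66343f_al
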