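import Pool.Agent.Work.MP_66343f_al.GT
import Pool.Agent.Work.MP_66343f_al.Metab

/-!
# MP_66343f_al: just non virtually nilpotent quotients
-/

set_option autoImplicit false

namespace Pool.Agent.Work.MP_66343f_al

open Function

theorem finIdx_map {A B : Type} [Group A] [Group B] (f : A →* B) (hf : Surjective f)
    (P : Subgroup A) [hP : P.FiniteIndex] : (P.map f).FiniteIndex := by
  refine ⟨?_⟩
  intro h0
  have h1 := Subgroup.index_map_dvd (H := P) hf
  rw [h0, zero_dvd_iff] at h1
  exact hP.index_ne_zero h1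

theorem vnil_surj {A B : Type} [Group A] [Group B] (f : A →* B) (hf : Surjective f)
    (h : VNil A) : VNil B := by
  obtain ⟨P, hP, hn⟩ := h
  refine ⟨P.map f, finIdx_map f hf P, ?_⟩
  exact Group.nilpotent_of_surjective (f.subgroupMap P) (f.subgroupMap_surjective P)

theorem vnil_finite (A : Type) [Group A] [Finite A] : VNil A := by
  refine ⟨⊥, ⟨?_⟩, inferInstance⟩
  rw [Subgroup.index_bot]
  exact Nat.card_pos.ne'

/-- a normal nilpotent subgroup of finite index -/
theorem VNil.normal {A : Type} [Group A] (h : VNil A) :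
    ∃ P : Subgroup A, P.Normal ∧ P.FiniteIndex ∧ Group.IsNilpotent P := by
  obtain ⟨P, hP, hn⟩ := h
  refine ⟨P.normalCore, inferInstance, inferInstance, ?_⟩
  have h1 : P.normalCore ≤ P := P.normalCore_le
  have h2 : Group.IsNilpotent (P.normalCore.subgroupOf P) := inferInstance
  exact Group.nilpotent_of_surjective (Subgroup.subgroupOfEquivOfLe h1).toMonoidHom
    (Subgroup.subgroupOfEquivOfLe h1).surjective

theorem fp_vnil (A : Type) [Group A] [Group.FG A] (h : VNil A) :
    Group.IsFinitelyPresented A := by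
  obtain ⟨P, hP, hf, hn⟩ := h.normal
  have h1 : Group.IsFinitelyPresented P := fp_nilp P
  have h2 : Finite (A ⧸ P) := Subgroup.finite_quotient_of_finiteIndex
  exact fp_ext P

/-- just non virtually nilpotent -/
structure JNVN (Q : Type) [Group Q] : Prop where
  not : ¬ VNil Q
  quo : ∀ (N : Subgroup Q) [N.Normal], N ≠ ⊥ → VNil (Q ⧸ N)

/-- every normal subgroup whose quotient is virtually nilpotent is finitely normally generated -/
theorem fng_of_vnil {Q : Type} [Group Q] [Group.FG Q] (N : Subgroup Q) [N.Normal]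
    (h : VNil (Q ⧸ N)) : N.IsFinitelyNormallyGenerated := by
  have h1 : Group.IsFinitelyPresented (Q ⧸ N) := fp_vnil _ h
  have h3 := ker_fng (QuotientGroup.mk' N) (QuotientGroup.mk'_surjective _)
  rwa [QuotientGroup.ker_mk'] at h3

/-- quotients -/
theorem exists_jnvn {Q : Type} [Group Q] [Group.FG Q] (h : ¬ VNil Q) :
    ∃ (N : Subgroup Q) (_ : N.Normal), JNVN (Q ⧸ N) := by
  set F : Set (Subgroup Q) := {N | ∃ _ : N.Normal, ¬ VNil (Q ⧸ N)} with hF
  have hz : ∃ m, Maximal (· ∈ F) m := by
    apply zorn_le₀
    intro c hcF hc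
    by_cases hne : c.Nonempty
    · refine ⟨sSup c, ?_, fun s hs => le_sSup hs⟩
      have hnorm : (sSup c).Normal := by
        refine ⟨?_⟩
        intro n hn g
        rw [Subgroup.mem_sSup_of_directedOn hne hc.directedOn] at hn ⊢
        obtain ⟨s, hs, hns⟩ := hn
        exact ⟨s, hs, (hcF hs).1.conj_mem n hns g⟩
      refine ⟨hnorm, ?_⟩
      intro hv
      obtain ⟨T, hT, hTc⟩ := fng_of_vnil _ hv
      have h1 : ∀ s ⊆ T, s.Finite → ∃ N ∈ c, s ⊆ (N : Set Q) := by
        intro s hs hsf
        induction s, hsf using Set.Finite.induction_on with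
        | empty =>
          obtain ⟨N, hN⟩ := hne
          exact ⟨N, hN, Set.empty_subset _⟩
        | @insert a s _ _ ih =>
          obtain ⟨N, hN, hsN⟩ := ih ((Set.subset_insert _ _).trans hs)
          have h2 : a ∈ sSup c := by
            rw [← hTc]
            exact Subgroup.subset_normalClosure (hs (Set.mem_insert _ _))
          rw [Subgroup.mem_sSup_of_directedOn hne hc.directedOn] at h2
          obtain ⟨M, hM, haM⟩ := h2
          rcases hc.total hN hM with h3 | h3
          · refine ⟨M, hM, ?_⟩
            rw [Set.insert_subset_iff]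
            exact ⟨haM, hsN.trans h3⟩
          · refine ⟨N, hN, ?_⟩
            rw [Set.insert_subset_iff]
            exact ⟨h3 haM, hsN⟩
      obtain ⟨N, hN, hTN⟩ := h1 T subset_rfl hT
      obtain ⟨hNn, hNv⟩ := hcF hN
      have h2 : sSup c ≤ N := by
        rw [← hTc]
        exact Subgroup.normalClosure_le_normal hTN
      have h3 : sSup c = N := le_antisymm h2 (le_sSup hN)
      apply hNv
      exact vnil_surj (QuotientGroup.map (sSup c) N (MonoidHom.id Q) (by
          rw [Subgroup.comap_id]; exact h2))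
        (QuotientGroup.map_surjective_of_surjective _ _ _
          (QuotientGroup.mk_surjective.comp surjective_id) _) hv
    · rw [Set.not_nonempty_iff_eq_empty] at hne
      refine ⟨⊥, ⟨inferInstance, ?_⟩, by simp [hne]⟩
      intro hv
      apply h
      exact vnil_surj (QuotientGroup.quotientBot).toMonoidHom
        (QuotientGroup.quotientBot).surjective hv
  obtain ⟨N, ⟨hN, hNv⟩, hmax⟩ := hz
  refine ⟨N, hN, hNv, ?_⟩
  intro K hK hK1
  by_contra hv
  apply hK1
  have h1 : N ≤ K.comap (QuotientGroup.mk' N) := by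
    intro x hx
    rw [Subgroup.mem_comap, QuotientGroup.mk'_apply, (QuotientGroup.eq_one_iff x).mpr hx]
    exact one_mem _
  have h2 : K.comap (QuotientGroup.mk' N) ∈ F := by
    refine ⟨inferInstance, ?_⟩
    intro hv'
    apply hv
    have hle : K.comap (QuotientGroup.mk' N) ≤ K.comap (QuotientGroup.mk' N) := le_rfl
    exact vnil_surj (QuotientGroup.map (K.comap (QuotientGroup.mk' N)) K (QuotientGroup.mk' N) hle)
      (QuotientGroup.map_surjective_of_surjective _ _ _ (QuotientGroup.mk_surjective.comp
        (QuotientGroup.mk'_surjective N)) _) hv'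
  have h3 := hmax h2 h1
  rw [eq_bot_iff]
  intro x hx
  obtain ⟨y, rfl⟩ := QuotientGroup.mk'_surjective N x
  rw [Subgroup.mem_bot, QuotientGroup.mk'_apply, QuotientGroup.eq_one_iff]
  exact h3 hx

end Pool.Agent.Work.MP_66343f_al
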