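import Pool.Agent.Work.MP_66343f_al.Basic
import Pool.Agent.Work.MP_66343f_al.PingPong

/-!
# MP_66343f_al: wreath-like semidirect products
-/

set_option autoImplicit false

namespace Pool.Agent.Work.MP_66343f_al

open SemidirectProduct

section defs
variable (Γ T : Type) [Group Γ] [Group T]

/-- the action of `MulAut T × Γ` on the functions `Γ → T` -/
def sa : MulAut T × Γ →* MulAut (Γ → T) where
  toFun a :=
    { toFun := fun f p => a.1 (f (a.2⁻¹ * p))
      invFun := fun f p => a.1⁻¹ (f (a.2 * p))
      left_inv := by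
        intro f
        funext p
        simp
      right_inv := by
        intro f
        funext p
        simp
      map_mul' := by
        intro f f'
        funext p
        simp }
  map_one' := by
    ext f p
    simp
  map_mul' := by
    intro a b
    ext f p
    simp [mul_assoc]

/-- the wreath-like product -/
abbrev WW : Type := (Γ → T) ⋊[sa Γ T] (MulAut T × Γ)

end defs

variable {Γ T : Type} [Group Γ] [Group T]

theorem sa_apply (a : MulAut T × Γ) (f : Γ → T) (p : Γ) : sa Γ T a f p = a.1 (f (a.2⁻¹ * p)) := rfl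

open Classical in
theorem sa_single (a : MulAut T × Γ) (p : Γ) (l : T) :
    sa Γ T a (Pi.mulSingle p l) = Pi.mulSingle (a.2 * p) (a.1 l) := by
  funext q
  rw [sa_apply]
  by_cases h : q = a.2 * p
  · subst h
    rw [Pi.mulSingle_eq_same, inv_mul_cancel_left, Pi.mulSingle_eq_same]
  · rw [Pi.mulSingle_eq_of_ne h, Pi.mulSingle_eq_of_ne, map_one]
    intro h'
    exact h (by rw [← h', mul_inv_cancel_left])

theorem ww_mul_left (a b : WW Γ T) (p : Γ) :
    (a * b).left p = a.left p * a.right.1 (b.left (a.right.2⁻¹ * p)) := by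
  rw [mul_left]
  rfl

theorem ww_inv_left (a : WW Γ T) (p : Γ) :
    (a⁻¹).left p = a.right.1⁻¹ (a.left (a.right.2 * p))⁻¹ := by
  rw [inv_left, sa_apply]
  simp

theorem ww_conj (a : WW Γ T) (f : Γ → T) :
    a * inl f * a⁻¹ = inl (fun p => a.left p * a.right.1 (f (a.right.2⁻¹ * p)) * (a.left p)⁻¹) := by
  ext p
  · rw [left_inl, ww_mul_left, ww_mul_left, ww_inv_left, left_inl]
    simp
  · simp
  · simp

theorem inl_pow_ext {f f' : Γ → T} (h : ∀ p, f p = f' p) : (inl f : WW Γ T) = inl f' := by
  rw [show f = f' from funext h]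

end Pool.Agent.Work.MP_66343f_al
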